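import Mathlib

/-!
# Spaces whose functionally bounded sequences have convergent subsequences
-/

set_option autoImplicit false

open Filter Topology

namespace Pool.Agent.R821.BS

universe u

variable {X : Type u} [TopologicalSpace X]

/-- the sequence `s` is functionally bounded -/
def FB (s : ℕ → X) : Prop := ∀ h : X → ℝ, Continuous h → ∃ C : ℝ, ∀ n, |h (s n)| ≤ C

/-- the sequence `s` has a convergent subsequence -/
def HasConv (s : ℕ → X) : Prop := ∃ φ : ℕ → ℕ, StrictMono φ ∧ ∃ l, Tendsto (s ∘ φ) atTop (𝓝 l)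

variable (X) in
/-- every functionally bounded sequence has a convergent subsequence -/
def BB : Prop := ∀ s : ℕ → X, FB s → HasConv s

theorem FB.comp {s : ℕ → X} (h : FB s) (φ : ℕ → ℕ) : FB (s ∘ φ) := fun f hf => by
  obtain ⟨C, hC⟩ := h f hf
  exact ⟨C, fun n => hC _⟩

/-- either some value of `n` occurs infinitely often or there is a strictly increasing subsequence -/
theorem const_or_strictMono (n : ℕ → ℕ) :
    (∃ m, ∃ φ : ℕ → ℕ, StrictMono φ ∧ ∀ i, n (φ i) = m) ∨
      ∃ φ : ℕ → ℕ, StrictMono φ ∧ StrictMono (n ∘ φ) := by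
  by_cases h : ∃ m, ∃ᶠ j in atTop, n j = m
  · obtain ⟨m, hm⟩ := h
    obtain ⟨φ, hφ, hφ2⟩ := extraction_of_frequently_atTop hm
    exact Or.inl ⟨m, φ, hφ, hφ2⟩
  · right
    push Not at h
    refine strictMono_subseq_of_tendsto_atTop ?_
    rw [← Nat.cofinite_eq_atTop, Filter.tendsto_def]
    intro S hS
    have h1 : Sᶜ.Finite := hS
    have h2 : ∀ᶠ j in atTop, ∀ m ∈ h1.toFinset, n j ≠ m :=
      (Filter.eventually_all_finset _).2 fun m _ => h m
    rw [Nat.cofinite_eq_atTop]
    filter_upwards [h2] with j hj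
    by_contra hcon
    exact hj (n j) (h1.mem_toFinset.2 hcon) rfl

/-- If `s` has no convergent subsequence in the sequential space `X`, then the sets `{s n : n ∈ J}` are
closed. -/
theorem closed_image [SequentialSpace X] [T2Space X] {s : ℕ → X} (hs : ¬ HasConv s) (J : Set ℕ) :
    IsClosed (s '' J) := by
  refine IsSeqClosed.isClosed ?_
  intro t y ht hty
  choose n hnJ hn using ht
  rcases const_or_strictMono n with ⟨m, φ, hφ, hm⟩ | ⟨φ, hφ, hφ2⟩
  · have h1 : ∀ i, t (φ i) = s m := fun i => by rw [← hn, hm]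
    have h2 : Tendsto (fun i => t (φ i)) atTop (𝓝 y) := hty.comp hφ.tendsto_atTop
    have h3 : y = s m := by
      refine tendsto_nhds_unique h2 ?_
      exact tendsto_const_nhds.congr fun i => (h1 i).symm
    rw [h3, ← hm 0]
    exact ⟨_, hnJ _, rfl⟩
  · exfalso
    refine hs ⟨n ∘ φ, hφ2, y, ?_⟩
    have h2 : Tendsto (fun i => t (φ i)) atTop (𝓝 y) := hty.comp hφ.tendsto_atTop
    exact h2.congr fun i => (hn _).symm

/-- A sequential space in which the sets `{s n : n ∈ J}` can be extended to locally finite open sets: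
the key step. -/
theorem exists_conv_near [T35Space X] [SequentialSpace X] {s : ℕ → X} (hs : FB s) (V : ℕ → Set X)
    (hV : ∀ n, IsOpen (V n)) (hsV : ∀ n, s n ∈ V n) :
    ∃ n : ℕ → ℕ, StrictMono n ∧ ∃ y : ℕ → X, (∀ j, y j ∈ closure (V (n j))) ∧
      ∃ z, Tendsto y atTop (𝓝 z) := by
  by_contra hcon
  push Not at hcon
  -- the sets `closure (V n)` form a closure preserving family
  have hcl : ∀ J : Set ℕ, IsClosed (⋃ n ∈ J, closure (V n)) := by
    intro J
    refine IsSeqClosed.isClosed ?_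
    intro t y ht hty
    have h1 : ∀ j, ∃ n ∈ J, t j ∈ closure (V n) := fun j => by simpa using ht j
    choose n hnJ hn using h1
    rcases const_or_strictMono n with ⟨m, φ, hφ, hm⟩ | ⟨φ, hφ, hφ2⟩
    · have h2 : Tendsto (fun i => t (φ i)) atTop (𝓝 y) := hty.comp hφ.tendsto_atTop
      have h3 : y ∈ closure (V m) := by
        refine isClosed_closure.mem_of_tendsto h2 (Eventually.of_forall fun i => ?_)
        rw [← hm i]
        exact hn _
      simp only [Set.mem_iUnion]
      exact ⟨m, hm 0 ▸ hnJ _, h3⟩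
    · exact absurd (hty.comp hφ.tendsto_atTop) (hcon (n ∘ φ) hφ2 (fun i => t (φ i)) (fun i => hn _) y)
  -- they are point finite
  have hpf : ∀ z, {n | z ∈ closure (V n)}.Finite := by
    intro z
    by_contra hinf
    obtain ⟨φ, hφ, hφ2⟩ := extraction_of_frequently_atTop
      (Nat.frequently_atTop_iff_infinite.2 hinf)
    exact hcon φ hφ (fun _ => z) hφ2 z tendsto_const_nhds
  -- hence the sets `V n` are locally finite
  have hlf : LocallyFinite V := by
    intro z
    refine ⟨(⋃ n ∈ {n | z ∉ closure (V n)}, closure (V n))ᶜ, ?_, ?_⟩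
    · refine (hcl _).isOpen_compl.mem_nhds ?_
      simp
    · refine (hpf z).subset ?_
      rintro n ⟨w, hw1, hw2⟩
      by_contra hn
      refine hw2 ?_
      simp only [Set.mem_iUnion]
      exact ⟨n, hn, subset_closure hw1⟩
  -- an unbounded function
  have hψ : ∀ n : ℕ, ∃ ψ : X → unitInterval, Continuous ψ ∧ ψ (s n) = 0 ∧ Set.EqOn ψ 1 (V n)ᶜ := fun n =>
    CompletelyRegularSpace.completely_regular (s n) _ (hV n).isClosed_compl (fun h => h (hsV n))
  choose ψ hψc hψ0 hψ1 using hψ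
  have hsupp : ∀ n : ℕ, Function.support (fun x => (n : ℝ) * (1 - (ψ n x : ℝ))) ⊆ V n := by
    intro n x hx
    by_contra hxV
    refine hx ?_
    have h1 : ψ n x = 1 := hψ1 n hxV
    change (n : ℝ) * (1 - (ψ n x : ℝ)) = 0
    rw [h1]
    simp
  have hcont : Continuous fun x => ∑ᶠ n : ℕ, (n : ℝ) * (1 - (ψ n x : ℝ)) := by
    refine continuous_finsum (fun n => ?_) (hlf.subset hsupp)
    have := hψc n
    fun_prop
  obtain ⟨C, hC⟩ := hs _ hcont
  obtain ⟨n, hn⟩ := exists_nat_gt C
  have h1 : (n : ℝ) ≤ ∑ᶠ m : ℕ, (m : ℝ) * (1 - (ψ m (s n) : ℝ)) := by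
    have hfin : (Function.support fun m : ℕ => (m : ℝ) * (1 - (ψ m (s n) : ℝ))).Finite := by
      refine (hpf (s n)).subset fun m hm => ?_
      exact subset_closure (hsupp m hm)
    have h2 := single_le_finsum (f := fun m : ℕ => (m : ℝ) * (1 - (ψ m (s n) : ℝ))) n hfin
      (fun m => mul_nonneg (Nat.cast_nonneg _) (sub_nonneg.2 (ψ m (s n)).2.2))
    simpa [hψ0] using h2
  have h2 := hC n
  have h3 := le_abs_self (∑ᶠ m : ℕ, (m : ℝ) * (1 - (ψ m (s n) : ℝ)))
  linarith

/-- A `k`-space with a regular `G_δ`-diagonal is sequential. -/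
theorem sequential_of_k [T2Space X] [RegularSpace X]
    (hk : ∀ F : Set X, (∀ K, IsCompact K → IsClosed (F ∩ K)) → IsClosed F)
    (U : ℕ → Set (X × X)) (hU : ∀ m, IsOpen (U m)) (hΔ : ∀ m x, (x, x) ∈ U m)
    (hΔ' : ∀ x y, (∀ m, (x, y) ∈ closure (U m)) → x = y) : SequentialSpace X := by
  refine ⟨fun F hF => hk F fun K hK => ?_⟩
  refine isClosed_of_closure_subset fun z hz => ?_
  have hzK : z ∈ K := (closure_minimal Set.inter_subset_right hK.isClosed) hz
  refine ⟨?_, hzK⟩
  -- shrinking neighbourhoods of `z`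
  have hstep : ∀ (m : ℕ) (O : Set X), O ∈ 𝓝 z → ∃ O' : Set X, O' ∈ 𝓝 z ∧ IsClosed O' ∧ O' ⊆ O ∧
      ∀ y ∈ O', (z, y) ∈ U m := by
    intro m O hO
    have h1 : {y | (z, y) ∈ U m} ∈ 𝓝 z := by
      have h2 : Continuous fun y : X => (z, y) := by fun_prop
      exact h2.continuousAt.preimage_mem_nhds ((hU m).mem_nhds (hΔ m z))
    obtain ⟨O', hO', hO'c, hO'O⟩ := exists_mem_nhds_isClosed_subset (Filter.inter_mem hO h1)
    exact ⟨O', hO', hO'c, fun y hy => (hO'O hy).1, fun y hy => (hO'O hy).2⟩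
  choose! N hN1 hN2 hN3 hN4 using hstep
  let O : ℕ → Set X := fun m => Nat.rec (N 0 Set.univ) (fun m O => N (m + 1) O) m
  have hO : ∀ m, O m ∈ 𝓝 z := by
    intro m
    induction m with
    | zero => exact hN1 0 _ Filter.univ_mem
    | succ m ih => exact hN1 (m + 1) _ ih
  have hOc : ∀ m, IsClosed (O m) := by
    intro m
    cases m with
    | zero => exact hN2 0 _ Filter.univ_mem
    | succ m => exact hN2 (m + 1) _ (hO m)
  have hOU : ∀ m, ∀ y ∈ O m, (z, y) ∈ U m := by
    intro m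
    cases m with
    | zero => exact hN4 0 _ Filter.univ_mem
    | succ m => exact hN4 (m + 1) _ (hO m)
  have hOanti : ∀ m m', m ≤ m' → O m' ⊆ O m := by
    intro m m' h
    induction h with
    | refl => exact Set.Subset.refl _
    | step _ ih => exact (hN3 _ _ (hO _)).trans ih
  have hy : ∀ m, ∃ y, y ∈ O m ∧ y ∈ F ∩ K := fun m =>
    mem_closure_iff_nhds.1 hz _ (hO m)
  choose y hyO hyF using hy
  have hlim : Tendsto y atTop (𝓝 z) := by
    refine hK.tendsto_nhds_of_unique_mapClusterPt (Eventually.of_forall fun m => (hyF m).2) ?_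
    intro y' _ hy'
    refine (hΔ' z y' fun m => subset_closure (hOU m y' ?_)).symm
    have h1 := mapClusterPt_atTop_iff_forall_mem_closure.1 hy' m
    refine (closure_minimal ?_ (hOc m)) h1
    rintro _ ⟨i, hi, rfl⟩
    exact hOanti m i hi (hyO i)
  exact hF (fun m => (hyF m).1) hlim

/-- In a sequential Tychonoff space with a regular `G_δ`-diagonal, every functionally bounded sequence
has a convergent subsequence. -/
theorem bb_of_sequential [T35Space X] [SequentialSpace X] (U : ℕ → Set (X × X))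
    (hU : ∀ m, IsOpen (U m)) (hΔ : ∀ m x, (x, x) ∈ U m)
    (hΔ' : ∀ x y, (∀ m, (x, y) ∈ closure (U m)) → x = y) : BB X := by
  intro s hs
  by_contra hcon
  -- small neighbourhoods of the points `s n`
  have hV : ∀ n : ℕ, ∃ V : Set X, IsOpen V ∧ s n ∈ V ∧ ∀ m ≤ n, V ×ˢ V ⊆ U m := by
    intro n
    have h1 : (⋂ m ∈ Finset.range (n + 1), U m) ∈ 𝓝 (s n, s n) :=
      (Filter.biInter_finset_mem _).2 fun m _ => (hU m).mem_nhds (hΔ m _)
    obtain ⟨V1, hV1, V2, hV2, h2⟩ := mem_nhds_prod_iff.1 h1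
    refine ⟨interior (V1 ∩ V2), isOpen_interior, mem_interior_iff_mem_nhds.2 (inter_mem hV1 hV2), ?_⟩
    rintro m hm ⟨x, y⟩ ⟨hx, hy⟩
    have h3 := h2 ⟨(interior_subset hx).1, (interior_subset hy).2⟩
    exact Set.mem_iInter₂.1 h3 m (Finset.mem_range.2 (by omega))
  choose V hVo hsV hVU using hV
  obtain ⟨n, hn, y, hy, z, hz⟩ := exists_conv_near hs V hVo hsV
  -- a neighbourhood of `z`
  obtain ⟨N, hN⟩ : ∃ N : ℕ, ∀ k ≥ N, s k ≠ z := by
    by_contra h
    push Not at h
    have h1 : ∃ᶠ k in atTop, s k = z := by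
      rw [frequently_atTop]
      intro a
      obtain ⟨b, hb, hb2⟩ := h a
      exact ⟨b, hb, hb2⟩
    obtain ⟨φ, hφ, hφ2⟩ := extraction_of_frequently_atTop h1
    refine hcon ⟨φ, hφ, z, ?_⟩
    exact tendsto_const_nhds.congr fun k => (hφ2 k).symm
  have hF : IsClosed (s '' Set.Ici N) := closed_image hcon _
  have hzF : z ∉ s '' Set.Ici N := by
    rintro ⟨k, hk, hk2⟩
    exact hN k hk hk2
  obtain ⟨O, hO, hOc, hOF⟩ := exists_mem_nhds_isClosed_subset (hF.isOpen_compl.mem_nhds hzF)
  -- the second application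
  obtain ⟨i, hi, y', hy', z', hz'⟩ := exists_conv_near (hs.comp fun j => n (j + N))
    (fun j => V (n (j + N)) \ O) (fun j => (hVo _).sdiff hOc) (fun j => ⟨hsV _, fun h =>
      hOF h ⟨n (j + N), (le_trans (Nat.le_add_left N j) (hn.id_le (j + N)) : N ≤ n (j + N)), rfl⟩⟩)
  have hz'O : z' ∉ interior O := by
    intro h
    have h1 : ∀ᶠ j in atTop, y' j ∈ interior O := hz' (isOpen_interior.mem_nhds h)
    obtain ⟨j, hj⟩ := h1.exists
    have h2 := mem_closure_iff.1 (hy' j) _ isOpen_interior hj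
    obtain ⟨w, hw1, hw2⟩ := h2
    exact hw2.2 (interior_subset hw1)
  refine hz'O ?_
  have hzz : z = z' := by
    refine hΔ' z z' fun m => ?_
    have h1 : Tendsto (fun j => (y (i j + N), y' j)) atTop (𝓝 (z, z')) := by
      refine Tendsto.prodMk_nhds ?_ hz'
      exact hz.comp (tendsto_add_atTop_nat N |>.comp hi.tendsto_atTop)
    refine isClosed_closure.mem_of_tendsto h1 ?_
    filter_upwards [eventually_ge_atTop m] with j hj
    have h2 : (y (i j + N), y' j) ∈ closure (V (n (i j + N)) ×ˢ V (n (i j + N))) := by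
      rw [closure_prod_eq]
      exact ⟨hy _, closure_mono Set.sdiff_subset (hy' j)⟩
    refine closure_mono (hVU _ m ?_) h2
    have h3 := hi.id_le j
    have h4 := hn.id_le (i j + N)
    simp only [id] at h3 h4
    omega
  rw [← hzz]
  exact mem_interior_iff_mem_nhds.2 hO

/-- In a normal sequential Hausdorff space, every functionally bounded sequence has a convergent
subsequence. -/
theorem bb_of_normal [NormalSpace X] [T2Space X] [SequentialSpace X] : BB X := by
  intro s hs
  by_contra hcon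
  -- every point occurs finitely often
  have hfin : ∀ x, {n | s n = x}.Finite := by
    intro x
    by_contra hinf
    obtain ⟨φ, hφ, hφ2⟩ := extraction_of_frequently_atTop
      (Nat.frequently_atTop_iff_infinite.2 hinf)
    exact hcon ⟨φ, hφ, x, tendsto_const_nhds.congr fun k => (hφ2 k).symm⟩
  have hcl : IsClosed (Set.range s) := by
    rw [← Set.image_univ]
    exact closed_image hcon _
  have hdisc : DiscreteTopology (Set.range s) := by
    rw [discreteTopology_iff_isOpen_singleton]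
    rintro ⟨x, hx⟩
    rw [← isClosed_compl_iff]
    have h1 : (({⟨x, hx⟩} : Set (Set.range s))ᶜ) = Subtype.val ⁻¹' (s '' {n | s n ≠ x}) := by
      ext ⟨y, m, rfl⟩
      constructor
      · exact fun h => ⟨m, fun h2 => h (Subtype.ext h2), rfl⟩
      · rintro ⟨k, hk, hk2⟩ h
        exact hk (hk2.trans (congrArg Subtype.val h))
    rw [h1]
    exact (closed_image hcon _).preimage continuous_subtype_val
  -- the function
  let f : C(Set.range s, ℝ) := ⟨fun x => ((Classical.choose x.2 : ℕ) : ℝ), continuous_of_discreteTopology⟩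
  obtain ⟨g, hg⟩ := ContinuousMap.exists_restrict_eq hcl f
  obtain ⟨C, hC⟩ := hs g g.continuous
  obtain ⟨N, hN⟩ := exists_nat_gt C
  have h1 : Set.range s ⊆ s '' Set.Iio N := by
    rintro _ ⟨n, rfl⟩
    have h2 : g (s n) = f ⟨s n, n, rfl⟩ := by
      rw [← hg]
      rfl
    have h3 : ((Classical.choose (⟨n, rfl⟩ : ∃ m, s m = s n) : ℕ) : ℝ) = g (s n) := h2.symm
    refine ⟨Classical.choose (⟨n, rfl⟩ : ∃ m, s m = s n), ?_,
      Classical.choose_spec (⟨n, rfl⟩ : ∃ m, s m = s n)⟩
    have h4 := hC n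
    rw [← h3, abs_of_nonneg (Nat.cast_nonneg _)] at h4
    have h5 : ((Classical.choose (⟨n, rfl⟩ : ∃ m, s m = s n) : ℕ) : ℝ) < N := lt_of_le_of_lt h4 hN
    exact_mod_cast h5
  have h2 : (Set.range s).Finite := ((Set.finite_Iio N).image s).subset h1
  have h3 : (Set.univ : Set ℕ).Finite := by
    have h4 : (Set.univ : Set ℕ) ⊆ ⋃ x ∈ Set.range s, {n | s n = x} := by
      intro n _
      simp only [Set.mem_iUnion]
      exact ⟨s n, ⟨n, rfl⟩, rfl⟩
    exact (h2.biUnion fun x _ => hfin x).subset h4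
  exact Set.infinite_univ h3

/-- a closed continuous image of a normal space is normal -/
theorem normal_of_closed_map {M Y : Type*} [TopologicalSpace M] [TopologicalSpace Y] [NormalSpace M]
    {f : M → Y} (hf : Continuous f) (hc : IsClosedMap f) (hs : Function.Surjective f) :
    NormalSpace Y := by
  refine ⟨fun C D hC hD hCD => ?_⟩
  obtain ⟨O1, O2, hO1, hO2, h1, h2, h3⟩ := normal_separation (hC.preimage hf) (hD.preimage hf)
    (hCD.preimage f)
  refine ⟨(f '' O1ᶜ)ᶜ, (f '' O2ᶜ)ᶜ, (hc _ hO1.isClosed_compl).isOpen_compl,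
    (hc _ hO2.isClosed_compl).isOpen_compl, ?_, ?_, ?_⟩
  · rintro y hy ⟨x, hx, rfl⟩
    exact hx (h1 hy)
  · rintro y hy ⟨x, hx, rfl⟩
    exact hx (h2 hy)
  · rw [Set.disjoint_left]
    intro y hy1 hy2
    obtain ⟨x, rfl⟩ := hs y
    have hx1 : x ∈ O1 := by
      by_contra h
      exact hy1 ⟨x, h, rfl⟩
    have hx2 : x ∈ O2 := by
      by_contra h
      exact hy2 ⟨x, h, rfl⟩
    exact Set.disjoint_left.1 h3 hx1 hx2

end Pool.Agent.R821.BS
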