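import Mathlib

/-!
# The free topological group of a Tychonoff space is Hausdorff

The topology of the free topological group `F(X)` is defined as the finest group topology on the free
group making the canonical map continuous.
-/

set_option autoImplicit false

open Filter Topology Pointwise UpperHalfPlane MatrixGroups

namespace Pool.Agent.R821.FG

/-! ### A path of free generators in `SL(2, ℝ)` -/

/-- the matrices `L(t) U(8) L(-t)` -/
noncomputable def u (t : ℝ) : SL(2, ℝ) :=
  ⟨!![1 - 8 * t, 8; -8 * t ^ 2, 1 + 8 * t], by rw [Matrix.det_fin_two]; simp; ring⟩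

theorem u_continuous : Continuous u := by
  refine Continuous.subtype_mk ?_ _
  refine continuous_matrix fun i j => ?_
  fin_cases i <;> fin_cases j <;> simp <;> fun_prop

/-- a coordinate in which `u t` is the translation by `8` -/
noncomputable def cc (t : ℝ) (z : ℍ) : ℂ := z / (1 - t * z)

theorem den_ne (t : ℝ) (z : ℍ) : (1 - t * z : ℂ) ≠ 0 := by
  intro h
  have h1 := congrArg Complex.im h
  have h2 := congrArg Complex.re h
  simp at h1 h2
  rcases h1 with h1 | h1
  · rw [h1] at h2
    simp at h2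
  · exact z.im_pos.ne' h1

theorem cc_u (t : ℝ) (z : ℍ) : cc t (u t • z) = cc t z + 8 := by
  have h1 := den_ne t z
  have h2 : ((u t • z : ℍ) : ℂ) = ((1 - 8 * t) * z + 8) / (-8 * t ^ 2 * z + (1 + 8 * t)) := by
    rw [coe_specialLinearGroup_apply]
    simp [u]
  have h3 : (-8 * t ^ 2 * z + (1 + 8 * t) : ℂ) ≠ 0 := by
    intro h
    have h4 := congrArg Complex.im h
    have h5 := congrArg Complex.re h
    simp [← Complex.ofReal_pow] at h4 h5
    rcases h4 with h4 | h4
    · rw [h4] at h5
      simp at h5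
    · exact z.im_pos.ne' h4
  unfold cc
  rw [h2]
  have h6 : (1 - t * (((1 - 8 * t) * z + 8) / (-8 * t ^ 2 * z + (1 + 8 * t))) : ℂ) =
      (1 - t * z) / (-8 * t ^ 2 * z + (1 + 8 * t)) := by
    rw [eq_div_iff h3, sub_mul, mul_assoc (t : ℂ) _ _, div_mul_cancel₀ _ h3]
    ring
  rw [h6, div_div_div_cancel_right₀ h3, div_add' _ _ _ h1]
  congr 1
  ring

theorem cc_ne (t : ℝ) (z : ℍ) : cc t z ≠ 0 := by
  unfold cc
  exact div_ne_zero z.ne_zero (den_ne t z)

theorem cc_inv (t : ℝ) (z : ℍ) : (cc t z)⁻¹ = (z : ℂ)⁻¹ - t := by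
  unfold cc
  rw [inv_div, sub_div, mul_div_assoc, div_self z.ne_zero, mul_one, one_div]

theorem disj_aux {s t : ℝ} (hst : 1 ≤ |s - t|) (z : ℍ) (hs : 4 ≤ |(cc s z).re|)
    (ht : 4 ≤ |(cc t z).re|) : False := by
  have h1 : ‖(cc s z)⁻¹‖ ≤ 1 / 4 := by
    rw [norm_inv, one_div]
    exact inv_anti₀ (by norm_num) (hs.trans (Complex.abs_re_le_norm _))
  have h2 : ‖(cc t z)⁻¹‖ ≤ 1 / 4 := by
    rw [norm_inv, one_div]
    exact inv_anti₀ (by norm_num) (ht.trans (Complex.abs_re_le_norm _))
  have h3 : (((s - t : ℝ)) : ℂ) = (cc t z)⁻¹ - (cc s z)⁻¹ := by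
    rw [cc_inv, cc_inv]
    push_cast
    ring
  have h4 : ‖(((s - t : ℝ)) : ℂ)‖ ≤ 1 / 4 + 1 / 4 := by
    rw [h3]
    exact (norm_sub_le _ _).trans (add_le_add h2 h1)
  rw [Complex.norm_real, Real.norm_eq_abs] at h4
  linarith

theorem exists_point (t : ℝ) : ∃ z : ℍ, 4 ≤ (cc t z).re := by
  have h0 : (0 : ℝ) < ((t + 4 / 17) ^ 2 + (1 / 17) ^ 2) := by positivity
  let w : ℂ := (t + 4 / 17 : ℝ) - (1 / 17 : ℝ) * Complex.I
  have hw : w ≠ 0 := by
    intro h
    have := congrArg Complex.im h
    simp [w] at this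
  have hw2 : 0 < (w⁻¹).im := by
    rw [Complex.inv_im]
    refine div_pos ?_ (Complex.normSq_pos.2 hw)
    simp [w]
  refine ⟨⟨w⁻¹, hw2⟩, ?_⟩
  have h1 : (cc t ⟨w⁻¹, hw2⟩)⁻¹ = (4 + Complex.I)⁻¹ := by
    rw [cc_inv]
    change (w⁻¹)⁻¹ - (t : ℂ) = _
    rw [inv_inv]
    have h2 : (4 + Complex.I : ℂ) ≠ 0 := by
      intro h
      have := congrArg Complex.im h
      simp at this
    refine eq_inv_of_mul_eq_one_left ?_
    apply Complex.ext
    · simp [w]
      norm_num
    · simp [w]
      norm_num
  rw [inv_inj] at h1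
  rw [h1]
  simp

/-- the elements `u n`, `n ∈ ℤ`, are free generators of a free group -/
theorem free_u : Function.Injective (FreeGroup.lift fun n : ℤ => u n) := by
  refine FreeGroup.injective_lift_of_ping_pong (fun n : ℤ => u n)
    (fun n : ℤ => {z : ℍ | 4 ≤ (cc n z).re}) (fun n : ℤ => {z : ℍ | (cc n z).re < -4}) ?_ ?_ ?_ ?_ ?_ ?_
  · intro n
    exact exists_point n
  · intro m n hmn
    rw [Function.onFun, Set.disjoint_left]
    intro z h1 h2
    refine disj_aux (s := m) (t := n) ?_ z ?_ ?_
    · rw [← Int.cast_sub, ← Int.cast_abs]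
      exact_mod_cast Int.one_le_abs (sub_ne_zero.2 hmn)
    · exact le_trans h1 (le_abs_self _)
    · exact le_trans h2 (le_abs_self _)
  · intro m n hmn
    rw [Function.onFun, Set.disjoint_left]
    intro z h1 h2
    refine disj_aux (s := m) (t := n) ?_ z ?_ ?_
    · rw [← Int.cast_sub, ← Int.cast_abs]
      exact_mod_cast Int.one_le_abs (sub_ne_zero.2 hmn)
    · have : (cc m z).re < -4 := h1
      exact le_trans (by linarith) (neg_le_abs _)
    · have : (cc n z).re < -4 := h2
      exact le_trans (by linarith) (neg_le_abs _)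
  · intro m n
    rw [Set.disjoint_left]
    intro z h1 h2
    have h1' : 4 ≤ (cc m z).re := h1
    have h2' : (cc n z).re < -4 := h2
    rcases eq_or_ne m n with rfl | hmn
    · linarith
    · refine disj_aux (s := m) (t := n) ?_ z (le_trans h1' (le_abs_self _))
        (le_trans (by linarith) (neg_le_abs _))
      rw [← Int.cast_sub, ← Int.cast_abs]
      exact_mod_cast Int.one_le_abs (sub_ne_zero.2 hmn)
  · intro n
    rintro _ ⟨z, hz, rfl⟩
    have hz' : -4 ≤ (cc n z).re := by
      by_contra h
      exact hz (not_le.1 h)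
    change 4 ≤ (cc n (u n • z)).re
    rw [cc_u]
    simp
    linarith
  · intro n
    rintro _ ⟨z, hz, rfl⟩
    have hz' : (cc n z).re < 4 := by
      by_contra h
      exact hz (not_lt.1 h)
    change (cc n ((u n)⁻¹ • z)).re < -4
    have h1 := cc_u n ((u n)⁻¹ • z)
    rw [smul_inv_smul] at h1
    rw [h1] at hz'
    simp at hz'
    linarith

/-! ### The topology -/

section

variable (X : Type*) [TopologicalSpace X]

/-- the topology of the free topological group on `X` -/
@[reducible] noncomputable def topF : TopologicalSpace (FreeGroup X) :=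
  (sInf {t : GroupTopology (FreeGroup X) |
    @Continuous X (FreeGroup X) _ t.toTopologicalSpace FreeGroup.of}).toTopologicalSpace

theorem topF_discrete {Y : Type*} [TopologicalSpace Y] [DiscreteTopology Y] : topF Y = ⊥ := by
  refine le_bot_iff.1 ?_
  have h1 : @Continuous Y (FreeGroup Y) _ (⊥ : GroupTopology (FreeGroup Y)).toTopologicalSpace
      FreeGroup.of := by
    let _ := (⊥ : GroupTopology (FreeGroup Y)).toTopologicalSpace
    exact continuous_of_discreteTopology
  have h2 := (GroupTopology.toTopologicalSpace_le).2 (sInf_le (a := (⊥ : GroupTopology (FreeGroup Y)))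
    (s := {t : GroupTopology (FreeGroup Y) |
      @Continuous Y (FreeGroup Y) _ t.toTopologicalSpace FreeGroup.of}) h1)
  rw [GroupTopology.toTopologicalSpace_bot] at h2
  exact h2

attribute [local instance] topF

instance topF_group : IsTopologicalGroup (FreeGroup X) :=
  (sInf {t : GroupTopology (FreeGroup X) |
    @Continuous X (FreeGroup X) _ t.toTopologicalSpace FreeGroup.of}).toIsTopologicalGroup

theorem continuous_of : Continuous (FreeGroup.of : X → FreeGroup X) := by
  rw [topF, GroupTopology.toTopologicalSpace_sInf]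
  rw [continuous_sInf_rng]
  rintro _ ⟨t, ht, rfl⟩
  exact ht

variable {X}

theorem lift_continuous {G : Type*} [Group G] [TopologicalSpace G] [IsTopologicalGroup G] {f : X → G}
    (hf : Continuous f) : Continuous (FreeGroup.lift f) := by
  let t : GroupTopology (FreeGroup X) :=
    { toTopologicalSpace := TopologicalSpace.induced (FreeGroup.lift f) inferInstance
      toIsTopologicalGroup := topologicalGroup_induced (FreeGroup.lift f) }
  have ht : @Continuous X (FreeGroup X) _ t.toTopologicalSpace FreeGroup.of := by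
    rw [continuous_induced_rng]
    convert hf using 1
    funext x
    simp
  have h1 : topF X ≤ t.toTopologicalSpace :=
    (GroupTopology.toTopologicalSpace_le).2 (sInf_le (a := t) ht)
  exact continuous_le_dom h1 continuous_induced_dom

theorem exists_real_fun [T35Space X] (S : Finset X) (e : X → ℝ) :
    ∃ φ : X → ℝ, Continuous φ ∧ ∀ x ∈ S, φ x = e x := by
  classical
  have h1 : ∀ x : X, ∃ ψ : X → unitInterval, Continuous ψ ∧ ψ x = 0 ∧
      Set.EqOn ψ 1 ((S.erase x : Finset X) : Set X) := by
    intro x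
    refine CompletelyRegularSpace.completely_regular x _ (Finset.finite_toSet _).isClosed ?_
    simp
  choose ψ hψc hψ0 hψ1 using h1
  refine ⟨fun y => ∑ x ∈ S, e x * (1 - (ψ x y : ℝ)), ?_, ?_⟩
  · refine continuous_finsetSum _ fun x _ => ?_
    have := hψc x
    fun_prop
  · intro y hy
    change ∑ x ∈ S, e x * (1 - (ψ x y : ℝ)) = e y
    rw [Finset.sum_eq_single y]
    · rw [hψ0]
      simp
    · intro x _ hxy
      have h2 : ψ x y = 1 := hψ1 x (by simp [hy, hxy.symm])
      rw [h2]
      simp
    · exact fun h => absurd hy h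

theorem exists_lift_ne_one [T35Space X] {g : FreeGroup X} (hg : g ≠ 1) :
    ∃ f : X → SL(2, ℝ), Continuous f ∧ FreeGroup.lift f g ≠ 1 := by
  classical
  set S : Finset X := (g.toWord.map Prod.fst).toFinset with hS
  obtain ⟨e, he⟩ : ∃ e : S → ℤ, Function.Injective e := by
    obtain ⟨e, he⟩ := exists_injective_nat S
    exact ⟨fun s => (e s : ℤ), fun a b h => he (Int.ofNat_inj.1 h)⟩
  obtain ⟨φ, hφ, hφe⟩ := exists_real_fun S (fun x => if h : x ∈ S then (e ⟨x, h⟩ : ℝ) else 0)
  have hφe' : ∀ s : S, φ s = e s := by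
    intro s
    rw [hφe s s.2, dif_pos s.2]
  -- `g` comes from the free group on `S`
  obtain ⟨g', hg'⟩ : ∃ g' : FreeGroup S, FreeGroup.map (Subtype.val : S → X) g' = g := by
    have hmem : ∀ l ∈ g.toWord, l.1 ∈ S := by
      intro l hl
      rw [hS, List.mem_toFinset]
      exact List.mem_map_of_mem hl
    refine ⟨FreeGroup.mk (g.toWord.attach.map fun l => (⟨l.1.1, hmem l.1 l.2⟩, l.1.2)), ?_⟩
    rw [FreeGroup.map.mk, List.map_map]
    conv_rhs => rw [← FreeGroup.mk_toWord (x := g)]
    congr 1
    change List.map (fun l : {l // l ∈ g.toWord} => (l.1.1, l.1.2)) g.toWord.attach = g.toWord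
    exact List.attach_map_subtype_val _
  refine ⟨fun x => u (φ x), u_continuous.comp hφ, ?_⟩
  have h1 : FreeGroup.lift (fun x => u (φ x)) g =
      FreeGroup.lift (fun n : ℤ => u n) (FreeGroup.map e g') := by
    rw [← hg', FreeGroup.map_eq_lift, FreeGroup.map_eq_lift]
    rw [← MonoidHom.comp_apply, ← MonoidHom.comp_apply]
    congr 1
    ext1 s
    simp [hφe']
  rw [h1]
  intro h2
  rw [← map_one (FreeGroup.lift fun n : ℤ => u n)] at h2
  have h3 := free_u h2
  have h4 : g' = 1 := by
    have h5 : Function.Injective (FreeGroup.map e) := FreeGroup.map_injective he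
    refine h5 ?_
    rw [h3, map_one]
  rw [h4, map_one] at hg'
  exact hg hg'.symm

instance topF_t2 [T35Space X] : T2Space (FreeGroup X) := by
  refine IsTopologicalGroup.t2Space_of_one_sep fun g hg => ?_
  obtain ⟨f, hf, hfg⟩ := exists_lift_ne_one hg
  have h1 : Continuous (FreeGroup.lift f) := lift_continuous hf
  refine ⟨(FreeGroup.lift f) ⁻¹' {FreeGroup.lift f g}ᶜ, ?_, fun h => h rfl⟩
  refine h1.continuousAt.preimage_mem_nhds ?_
  rw [map_one]
  exact (isClosed_singleton.isOpen_compl).mem_nhds (by simpa using hfg.symm)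

end

end Pool.Agent.R821.FG
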