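import Mathlib
import Pool.Agent.R821.BddSeq
import Pool.Agent.R821.FreeT2

/-!
# Convergent sequences in the free abelian topological group
-/

set_option autoImplicit false
set_option linter.unusedSectionVars false

open Filter Topology

namespace Pool.Agent.R821.FA

open Pool.Agent.R821.BS

universe u

section

variable (X : Type u) [TopologicalSpace X]

/-- The topology of the free abelian topological group `A(X)` in the sense of Markov on the free abelian
group `X →₀ ℤ` with the basis `X`: the finest group topology for which the canonical map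
`x ↦ single x 1` is continuous. -/
@[reducible] noncomputable def topA : TopologicalSpace (X →₀ ℤ) :=
  (sInf {t : AddGroupTopology (X →₀ ℤ) |
    @Continuous X (X →₀ ℤ) _ t.toTopologicalSpace fun x => Finsupp.single x 1}).toTopologicalSpace

attribute [local instance] topA

instance topA_group : IsTopologicalAddGroup (X →₀ ℤ) :=
  (sInf {t : AddGroupTopology (X →₀ ℤ) |
    @Continuous X (X →₀ ℤ) _ t.toTopologicalSpace fun x =>
      Finsupp.single x 1}).toIsTopologicalAddGroup

theorem continuous_single : Continuous (fun x : X => (Finsupp.single x 1 : X →₀ ℤ)) := by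
  rw [topA, AddGroupTopology.toTopologicalSpace_sInf]
  rw [continuous_sInf_rng]
  rintro _ ⟨t, ht, rfl⟩
  exact ht

variable {X}

/-- the homomorphism extending a map -/
noncomputable def liftA {G : Type*} [AddCommGroup G] (f : X → G) : (X →₀ ℤ) →+ G :=
  Finsupp.liftAddHom fun x => (zmultiplesHom G) (f x)

theorem liftA_single {G : Type*} [AddCommGroup G] (f : X → G) (x : X) (n : ℤ) :
    liftA f (Finsupp.single x n) = n • f x := by
  simp [liftA]

theorem liftA_apply {G : Type*} [AddCommGroup G] (f : X → G) (g : X →₀ ℤ) :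
    liftA f g = ∑ x ∈ g.support, g x • f x := by
  simp [liftA, Finsupp.liftAddHom_apply, Finsupp.sum]

theorem liftA_continuous {G : Type*} [AddCommGroup G] [TopologicalSpace G] [IsTopologicalAddGroup G]
    {f : X → G} (hf : Continuous f) : Continuous (liftA f) := by
  let t : AddGroupTopology (X →₀ ℤ) :=
    { toTopologicalSpace := TopologicalSpace.induced (liftA f) inferInstance
      toIsTopologicalAddGroup := topologicalAddGroup_induced (liftA f) }
  have ht : @Continuous X (X →₀ ℤ) _ t.toTopologicalSpace fun x => Finsupp.single x 1 := by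
    rw [continuous_induced_rng]
    convert hf using 1
    funext x
    simp [liftA_single]
  have h1 : topA X ≤ t.toTopologicalSpace :=
    (AddGroupTopology.toTopologicalSpace_le).2 (sInf_le (a := t) ht)
  exact continuous_le_dom h1 continuous_induced_dom

instance topA_t2 [T35Space X] : T2Space (X →₀ ℤ) := by
  refine IsTopologicalAddGroup.t2Space_of_zero_sep fun g hg => ?_
  obtain ⟨x, hx⟩ := Finsupp.support_nonempty_iff.2 hg
  classical
  obtain ⟨f, hf, hf2⟩ := FG.exists_real_fun g.support (fun y => if y = x then (1 : ℝ) else 0)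
  have h1 : liftA f g = g x := by
    rw [liftA_apply, Finset.sum_eq_single x]
    · rw [hf2 x hx]
      simp
    · intro y hy hyx
      rw [hf2 y hy, if_neg hyx, smul_zero]
    · exact fun h => absurd hx h
  have h2 : (g x : ℝ) ≠ 0 := by exact_mod_cast Finsupp.mem_support_iff.1 hx
  refine ⟨(liftA f) ⁻¹' {liftA f g}ᶜ, ?_, fun h => h rfl⟩
  refine (liftA_continuous hf).continuousAt.preimage_mem_nhds ?_
  rw [map_zero, h1]
  exact (isClosed_singleton.isOpen_compl).mem_nhds (by simpa using h2.symm)

theorem exists_coeffs (a : ℕ → ℕ → ℝ) (b : ℕ → ℝ) (hb : ∀ j, b j ≠ 0) :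
    ∃ c : ℕ → ℝ, ∀ j, c j * b j + ∑ i ∈ Finset.range j, c i * a i j = j := by
  let F : (j : ℕ) → ((i : ℕ) → i < j → ℝ) → ℝ := fun j IH =>
    ((j : ℝ) - ∑ i ∈ (Finset.range j).attach, IH i.1 (Finset.mem_range.1 i.2) * a i.1 j) / b j
  refine ⟨WellFounded.fix Nat.lt_wfRel.wf F, fun j => ?_⟩
  have h1 : WellFounded.fix Nat.lt_wfRel.wf F j = F j fun i _ => WellFounded.fix Nat.lt_wfRel.wf F i :=
    WellFounded.fix_eq _ _ _
  rw [h1]
  change ((j : ℝ) - ∑ i ∈ (Finset.range j).attach, WellFounded.fix Nat.lt_wfRel.wf F i.1 * a i.1 j) /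
    b j * b j + _ = _
  rw [div_mul_cancel₀ _ (hb j), Finset.sum_attach (Finset.range j)
    fun i => WellFounded.fix Nat.lt_wfRel.wf F i * a i j]
  ring

/-- The letters of a convergent sequence form a functionally bounded set. -/
theorem letters_bounded [T35Space X] {g : ℕ → X →₀ ℤ} {g0 : X →₀ ℤ} (hg : Tendsto g atTop (𝓝 g0))
    {h : X → ℝ} (hh : Continuous h) : ∃ C : ℝ, ∀ k, ∀ x ∈ (g k).support, |h x| ≤ C := by
  classical
  by_contra hcon
  push Not at hcon
  choose K P hP hPC using hcon
  let B : ℕ → ℝ := fun k => ∑ x ∈ (g k).support, |h x|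
  have hB : ∀ k, ∀ x ∈ (g k).support, |h x| ≤ B k := fun k x hx =>
    Finset.single_le_sum (f := fun x => |h x|) (fun _ _ => abs_nonneg _) hx
  let M : ℕ → ℝ := fun j => Nat.rec 0 (fun _ M => B (K (M + 2))) j
  have hM0 : M 0 = 0 := rfl
  have hMs : ∀ j, M (j + 1) = B (K (M j + 2)) := fun j => rfl
  let k : ℕ → ℕ := fun j => K (M j + 2)
  let x : ℕ → X := fun j => P (M j + 2)
  have hx : ∀ j, x j ∈ (g (k j)).support := fun j => hP _
  have hx1 : ∀ j, M j + 2 < |h (x j)| := fun j => hPC _
  have hkM : ∀ j, ∀ y ∈ (g (k j)).support, |h y| ≤ M (j + 1) := fun j y hy => hB _ y hy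
  have hMstep : ∀ j, M j + 2 < M (j + 1) := fun j => (hx1 j).trans_le (hkM j _ (hx j))
  have hMmono : StrictMono M := strictMono_nat_of_lt_succ fun j => by linarith [hMstep j]
  have hMge : ∀ j : ℕ, 2 * (j : ℝ) ≤ M j := by
    intro j
    induction j with
    | zero => simp [hM0]
    | succ j ih =>
      push_cast
      linarith [hMstep j]
  -- bump functions
  have hψ : ∀ j : ℕ, ∃ ψ : X → unitInterval, Continuous ψ ∧ ψ (x j) = 0 ∧
      Set.EqOn ψ 1 ({y | 1 ≤ |(|h y| - |h (x j)|)|} ∪ ((g (k j)).support.erase (x j) : Finset X)) := by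
    intro j
    refine CompletelyRegularSpace.completely_regular (x j) _ ?_ ?_
    · refine IsClosed.union ?_ (Finset.finite_toSet _).isClosed
      exact isClosed_le continuous_const (by fun_prop)
    · rintro (h1 | h1)
      · simp only [Set.mem_ofPred_eq, sub_self, abs_zero] at h1
        linarith
      · simp at h1
  choose ψ hψc hψ0 hψ1 using hψ
  let φ : ℕ → X → ℝ := fun j y => 1 - (ψ j y : ℝ)
  have hφc : ∀ j, Continuous (φ j) := fun j => by
    have := hψc j
    fun_prop
  have hφx : ∀ j, φ j (x j) = 1 := fun j => by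
    change 1 - (ψ j (x j) : ℝ) = 1
    rw [hψ0]
    simp
  have hφ0 : ∀ j y, (1 ≤ |(|h y| - |h (x j)|)| ∨ (y ∈ (g (k j)).support ∧ y ≠ x j)) → φ j y = 0 := by
    intro j y hy
    have h1 : ψ j y = 1 := by
      refine hψ1 j ?_
      rcases hy with hy | hy
      · exact Or.inl hy
      · right
        simp [hy.1, hy.2]
    change 1 - (ψ j y : ℝ) = 0
    rw [h1]
    simp
  have hlf : LocallyFinite fun j => Function.support (φ j) := by
    intro z
    refine ⟨{y | |(|h y| - |h z|)| < 1}, ?_, ?_⟩
    · refine (isOpen_lt (by fun_prop) continuous_const).mem_nhds ?_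
      simp
    · obtain ⟨N, hN⟩ := exists_nat_gt |h z|
      refine (Set.finite_Iio N).subset ?_
      rintro j ⟨y, hy1, hy2⟩
      by_contra hjN
      have hjN' : N ≤ j := not_lt.1 hjN
      have h1 : |(|h y| - |h (x j)|)| < 1 := by
        by_contra h2
        exact hy1 (hφ0 j y (Or.inl (not_lt.1 h2)))
      have h2 : |(|h y| - |h z|)| < 1 := hy2
      have h3 := hx1 j
      have h4 := hMge j
      have h5 : (N : ℝ) ≤ j := by exact_mod_cast hjN'
      rw [abs_lt] at h1 h2
      have h6 : (0 : ℝ) ≤ N := Nat.cast_nonneg _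
      linarith
  -- the coefficients
  let a : ℕ → ℕ → ℝ := fun i j => liftA (φ i) (g (k j))
  have ha : ∀ j, liftA (φ j) (g (k j)) = g (k j) (x j) := by
    intro j
    rw [liftA_apply, Finset.sum_eq_single (x j)]
    · rw [hφx]
      simp
    · intro y hy hyx
      rw [hφ0 j y (Or.inr ⟨hy, hyx⟩), smul_zero]
    · exact fun h => absurd (hx j) h
  obtain ⟨c, hc⟩ := exists_coeffs a (fun j => g (k j) (x j)) (fun j => by
    exact_mod_cast Finsupp.mem_support_iff.1 (hx j))
  let f : X → ℝ := fun y => ∑ᶠ i, c i * φ i y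
  have hf : Continuous f := by
    refine continuous_finsum (fun i => continuous_const.mul (hφc i)) (hlf.subset fun i => ?_)
    intro y hy h1
    refine hy ?_
    change c i * φ i y = 0
    rw [h1, mul_zero]
  have hfv : ∀ j, liftA f (g (k j)) = j := by
    intro j
    have h1 : ∀ y ∈ (g (k j)).support, f y = ∑ i ∈ Finset.range (j + 1), c i * φ i y := by
      intro y hy
      refine finsum_eq_sum_of_support_subset _ ?_
      intro i hi
      simp only [Finset.coe_range, Set.mem_Iio]
      by_contra hij
      have hij' : j + 1 ≤ i := not_lt.1 hij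
      refine hi ?_
      change c i * φ i y = 0
      rw [hφ0 i y (Or.inl ?_), mul_zero]
      have h2 := hkM j y hy
      have h3 := hMmono.monotone hij'
      have h4 := hx1 i
      rw [abs_sub_comm]
      exact le_trans (by linarith) (le_abs_self _)
    rw [liftA_apply, Finset.sum_congr rfl fun y hy => by rw [h1 y hy]]
    have h2 : ∑ y ∈ (g (k j)).support, (g (k j)) y • ∑ i ∈ Finset.range (j + 1), c i * φ i y =
        ∑ i ∈ Finset.range (j + 1), c i * a i j := by
      simp only [Finset.smul_sum]
      rw [Finset.sum_comm]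
      refine Finset.sum_congr rfl fun i _ => ?_
      change _ = c i * liftA (φ i) (g (k j))
      rw [liftA_apply, Finset.mul_sum]
      refine Finset.sum_congr rfl fun y _ => ?_
      simp only [zsmul_eq_mul]
      ring
    rw [h2, Finset.sum_range_succ]
    have h3 := hc j
    change _ + c j * liftA (φ j) (g (k j)) = _
    rw [ha j]
    linarith
  -- the contradiction
  have h1 : Tendsto (fun m => liftA f (g m)) atTop (𝓝 (liftA f g0)) :=
    ((liftA_continuous hf).tendsto g0).comp hg
  obtain ⟨C, hC⟩ := (Metric.isBounded_range_of_tendsto _ h1).exists_norm_le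
  obtain ⟨j, hj⟩ := exists_nat_gt C
  have h2 := hC _ ⟨k j, rfl⟩
  simp only [hfv, Real.norm_eq_abs, Nat.abs_cast] at h2
  linarith

end

end Pool.Agent.R821.FA
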