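import Mathlib
import Pool.Agent.R821.FreeAb

/-!
# Structure of convergent sequences in `A_n(X)`
-/

set_option autoImplicit false
set_option linter.unusedSectionVars false

open Filter Topology

namespace Pool.Agent.R821.FA

open Pool.Agent.R821.BS

universe u

/-- the length of an element of the free abelian group -/
def len {X : Type u} (g : X →₀ ℤ) : ℕ := ∑ x ∈ g.support, (g x).natAbs

section

variable {X : Type u}

theorem exists_letters (x0 : X) (n : ℕ) : ∀ g : X →₀ ℤ, len g ≤ n →
    ∃ (x : Fin n → X) (ε : Fin n → SignType), (∀ i, x i ∈ g.support ∨ x i = x0) ∧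
      g = ∑ i, (ε i : ℤ) • Finsupp.single (x i) 1 := by
  classical
  induction n with
  | zero =>
    intro g hg
    have h1 : g = 0 := by
      by_contra h
      obtain ⟨x, hx⟩ := Finsupp.support_nonempty_iff.2 h
      have h2 : (g x).natAbs ≤ len g :=
        Finset.single_le_sum (f := fun x => (g x).natAbs) (fun _ _ => Nat.zero_le _) hx
      have h3 := Finsupp.mem_support_iff.1 hx
      omega
    exact ⟨Fin.elim0, Fin.elim0, fun i => i.elim0, by rw [h1]; simp⟩
  | succ n ih =>
    intro g hg
    by_cases hg0 : g = 0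
    · refine ⟨fun _ => x0, fun _ => 0, fun _ => Or.inr rfl, ?_⟩
      rw [hg0]
      simp
    · obtain ⟨x, hx⟩ := Finsupp.support_nonempty_iff.2 hg0
      have hx' := Finsupp.mem_support_iff.1 hx
      set e : SignType := SignType.sign (g x) with he
      have he1 : (g x - (e : ℤ)).natAbs + 1 = (g x).natAbs := by
        rcases lt_trichotomy (g x) 0 with h | h | h
        · have h2 : e = -1 := by rw [he]; exact sign_neg h
          rw [h2]
          simp
          omega
        · exact absurd h hx'
        · have h2 : e = 1 := by rw [he]; exact sign_pos h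
          rw [h2]
          simp
          omega
      set g' : X →₀ ℤ := g - (e : ℤ) • Finsupp.single x 1 with hg'
      have hg'x : g' x = g x - e := by simp [hg']
      have hg'y : ∀ y, y ≠ x → g' y = g y := by
        intro y hy
        simp [hg', hy.symm]
      have hsupp : g'.support ⊆ g.support := by
        intro y hy
        by_cases hyx : y = x
        · rw [hyx]
          exact hx
        · rw [Finsupp.mem_support_iff, hg'y y hyx] at hy
          exact Finsupp.mem_support_iff.2 hy
      have hlen : len g' + 1 ≤ len g := by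
        have h1 : len g' = ∑ y ∈ g.support, (g' y).natAbs := by
          refine Finset.sum_subset hsupp fun y _ hy => ?_
          rw [Finsupp.notMem_support_iff.1 hy]
          rfl
        rw [h1, len, ← Finset.add_sum_erase _ _ hx, ← Finset.add_sum_erase g.support _ hx]
        have h2 : ∑ y ∈ g.support.erase x, (g' y).natAbs = ∑ y ∈ g.support.erase x, (g y).natAbs :=
          Finset.sum_congr rfl fun y hy => by rw [hg'y y (Finset.ne_of_mem_erase hy)]
        rw [h2, hg'x]
        omega
      obtain ⟨y, ε, hy, hgy⟩ := ih g' (by omega)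
      refine ⟨Fin.cons x y, Fin.cons e ε, ?_, ?_⟩
      · intro i
        refine Fin.cases ?_ (fun i => ?_) i
        · exact Or.inl hx
        · rcases hy i with h | h
          · exact Or.inl (hsupp h)
          · exact Or.inr h
      · rw [Fin.sum_univ_succ]
        simp only [Fin.cons_zero, Fin.cons_succ]
        rw [← hgy, hg']
        abel

variable [TopologicalSpace X]

theorem exists_common (hB : BB X) {n : ℕ} (x : ℕ → Fin n → X) (hx : ∀ i, FB fun k => x k i) :
    ∃ φ : ℕ → ℕ, StrictMono φ ∧ ∃ l : Fin n → X, Tendsto (fun k => x (φ k)) atTop (𝓝 l) := by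
  classical
  have h1 : ∀ S : Finset (Fin n), ∃ φ : ℕ → ℕ, StrictMono φ ∧ ∀ i ∈ S, ∃ l : X,
      Tendsto (fun k => x (φ k) i) atTop (𝓝 l) := by
    intro S
    induction S using Finset.induction_on with
    | empty => exact ⟨id, strictMono_id, fun i hi => absurd hi (Finset.notMem_empty i)⟩
    | insert i S _ ih =>
      obtain ⟨φ, hφ, h⟩ := ih
      obtain ⟨ψ, hψ, l, hl⟩ := hB _ ((hx i).comp φ)
      refine ⟨φ ∘ ψ, hφ.comp hψ, fun j hj => ?_⟩
      rcases Finset.mem_insert.1 hj with rfl | hj
      · exact ⟨l, hl⟩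
      · obtain ⟨l', hl'⟩ := h j hj
        exact ⟨l', hl'.comp hψ.tendsto_atTop⟩
  obtain ⟨φ, hφ, h⟩ := h1 Finset.univ
  choose l hl using fun i => h i (Finset.mem_univ i)
  exact ⟨φ, hφ, l, tendsto_pi_nhds.2 hl⟩

theorem exists_const_subseq {α : Type*} [Finite α] (e : ℕ → α) :
    ∃ (a : α) (φ : ℕ → ℕ), StrictMono φ ∧ ∀ k, e (φ k) = a := by
  obtain ⟨a, ha⟩ := Finite.exists_infinite_fiber e
  have h1 : {k | e k = a}.Infinite := Set.infinite_coe_iff.1 ha
  obtain ⟨φ, hφ, hφ2⟩ := extraction_of_frequently_atTop (Nat.frequently_atTop_iff_infinite.2 h1)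
  exact ⟨a, φ, hφ, hφ2⟩

attribute [local instance] topA

/-- The structure of convergent sequences in `A_n(X)`. -/
theorem structure_seq [T35Space X] [Nonempty X] (hB : BB X) {n : ℕ} {g : ℕ → X →₀ ℤ} {g0 : X →₀ ℤ}
    (hlen : ∀ k, len (g k) ≤ n) (hg : Tendsto g atTop (𝓝 g0)) :
    ∃ (φ : ℕ → ℕ) (y : ℕ → Fin n → X) (l : Fin n → X) (e : Fin n → SignType),
      StrictMono φ ∧ Tendsto y atTop (𝓝 l) ∧
      ∀ k, g (φ k) - g0 = ∑ i, (e i : ℤ) • (Finsupp.single (y k i) 1 - Finsupp.single (l i) 1) := by
  obtain ⟨x0⟩ := ‹Nonempty X›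
  choose x ε hx hgx using fun k => exists_letters x0 n (g k) (hlen k)
  have hFB : ∀ i, FB fun k => x k i := by
    intro i h hh
    obtain ⟨C, hC⟩ := letters_bounded hg hh
    refine ⟨max C |h x0|, fun k => ?_⟩
    change |h (x k i)| ≤ _
    rcases hx k i with h1 | h1
    · exact (hC k _ h1).trans (le_max_left _ _)
    · rw [h1]
      exact le_max_right _ _
  obtain ⟨e, φ, hφ, hφe⟩ := exists_const_subseq ε
  obtain ⟨ψ, hψ, l, hl⟩ := exists_common hB (fun k => x (φ k)) fun i => (hFB i).comp φ
  have h1 : ∀ k, g (φ (ψ k)) = ∑ i, (e i : ℤ) • Finsupp.single (x (φ (ψ k)) i) 1 := by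
    intro k
    rw [hgx (φ (ψ k)), hφe]
  have h2 : Tendsto (fun k => g (φ (ψ k))) atTop (𝓝 (∑ i, (e i : ℤ) • Finsupp.single (l i) 1)) := by
    simp only [h1]
    have h3 : Continuous fun y : Fin n → X => ∑ i, (e i : ℤ) • (Finsupp.single (y i) 1 : X →₀ ℤ) := by
      refine continuous_finsetSum _ fun i _ => ?_
      exact (continuous_zsmul (e i : ℤ)).comp ((continuous_single X).comp (continuous_apply i))
    exact (h3.tendsto l).comp hl
  have h3 : g0 = ∑ i, (e i : ℤ) • Finsupp.single (l i) 1 :=
    tendsto_nhds_unique ((hg.comp hφ.tendsto_atTop).comp hψ.tendsto_atTop) h2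
  refine ⟨φ ∘ ψ, fun k => x (φ (ψ k)), l, e, hφ.comp hψ, hl, fun k => ?_⟩
  change g (φ (ψ k)) - g0 = _
  rw [h1, h3, ← Finset.sum_sub_distrib]
  refine Finset.sum_congr rfl fun i _ => ?_
  rw [smul_sub]

end

end Pool.Agent.R821.FA
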