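import Mathlib

/-!
# The affine group of a normed space
-/

set_option autoImplicit false
set_option linter.unusedSectionVars false

open Filter Topology

namespace Pool.Agent.R821.FG

/-- the group of the maps `x ↦ exp t • x + v` of a normed space `V` -/
@[ext] structure Aff (V : Type*) where
  /-- the translation part -/
  v : V
  /-- the logarithm of the scaling part -/
  t : ℝ

namespace Aff

variable {V : Type*} [NormedAddCommGroup V] [NormedSpace ℝ V]

noncomputable instance : Mul (Aff V) := ⟨fun p q => ⟨p.v + Real.exp p.t • q.v, p.t + q.t⟩⟩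
noncomputable instance : One (Aff V) := ⟨⟨0, 0⟩⟩
noncomputable instance : Inv (Aff V) := ⟨fun p => ⟨-(Real.exp (-p.t) • p.v), -p.t⟩⟩

theorem mul_v (p q : Aff V) : (p * q).v = p.v + Real.exp p.t • q.v := rfl
theorem mul_t (p q : Aff V) : (p * q).t = p.t + q.t := rfl
theorem one_v : (1 : Aff V).v = 0 := rfl
theorem one_t : (1 : Aff V).t = 0 := rfl
theorem inv_v (p : Aff V) : (p⁻¹).v = -(Real.exp (-p.t) • p.v) := rfl
theorem inv_t (p : Aff V) : (p⁻¹).t = -p.t := rfl

noncomputable instance : Group (Aff V) :=
  Group.ofLeftAxioms
    (fun p q r => by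
      ext1
      · rw [mul_v, mul_v, mul_v, mul_v, mul_t, Real.exp_add, smul_add, smul_smul, add_assoc]
      · rw [mul_t, mul_t, mul_t, mul_t, add_assoc])
    (fun p => by
      ext1
      · rw [mul_v, one_v, one_t, Real.exp_zero, one_smul, zero_add]
      · rw [mul_t, one_t, zero_add])
    (fun p => by
      ext1
      · rw [mul_v, inv_v, inv_t, one_v, neg_add_cancel]
      · rw [mul_t, inv_t, one_t, neg_add_cancel])

instance : TopologicalSpace (Aff V) := TopologicalSpace.induced (fun p => (p.v, p.t)) inferInstance

theorem continuous_v : Continuous (fun p : Aff V => p.v) :=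
  continuous_fst.comp (continuous_induced_dom : Continuous fun p : Aff V => (p.v, p.t))

theorem continuous_t : Continuous (fun p : Aff V => p.t) :=
  continuous_snd.comp (continuous_induced_dom : Continuous fun p : Aff V => (p.v, p.t))

theorem continuous_mk {Y : Type*} [TopologicalSpace Y] {f : Y → V} {g : Y → ℝ} (hf : Continuous f)
    (hg : Continuous g) : Continuous fun y => (⟨f y, g y⟩ : Aff V) :=
  continuous_induced_rng.2 (hf.prodMk hg)

instance : IsTopologicalGroup (Aff V) where
  continuous_mul := by
    refine continuous_mk ?_ ?_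
    · exact (continuous_v.comp continuous_fst).add
        ((Real.continuous_exp.comp (continuous_t.comp continuous_fst)).smul
          (continuous_v.comp continuous_snd))
    · exact (continuous_t.comp continuous_fst).add (continuous_t.comp continuous_snd)
  continuous_inv := by
    refine continuous_mk ?_ ?_
    · exact ((Real.continuous_exp.comp continuous_t.neg).smul continuous_v).neg
    · exact continuous_t.neg

/-- the image of a word `z^ε b^β c^{-β} z^{-ε}` -/
theorem word_norm {X : Type*} (φ : X → Aff V) {z b c : X} (hz : (φ z).v = 0) (hb : (φ b).t = 0)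
    (hc : (φ c).t = 0) (ε β : Bool) :
    ‖(FreeGroup.lift φ (FreeGroup.mk [(z, ε), (b, β), (c, !β), (z, !ε)])).v‖ =
      Real.exp (cond ε (φ z).t (-(φ z).t)) * ‖(φ b).v - (φ c).v‖ := by
  cases ε <;> cases β <;>
    simp only [FreeGroup.lift_mk, List.map_cons, List.map_nil, List.prod_cons, List.prod_nil, mul_one,
      Bool.not_true, Bool.not_false, cond_true, cond_false, mul_v, mul_t, inv_v, inv_t, hz, hb, hc,
      neg_zero, Real.exp_zero, one_smul, smul_zero, zero_add, add_zero, norm_smul, Real.norm_eq_abs,
      Real.abs_exp] <;> congr 1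
  · rw [← norm_neg]
    congr 1
    abel
  · rw [sub_eq_add_neg]
  · rw [← norm_neg]
    congr 1
    abel
  · rw [sub_eq_add_neg]

end Aff

end Pool.Agent.R821.FG
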