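import Mathlib

/-!
# Dense subgroups of compact abelian groups and characters of precompact groups

* `eq_top_of_separates`: let `K` be a compact Hausdorff abelian group and let `e : X → Hom(K, T)` be a
  homomorphism into the group of characters such that the characters `e x` separate the points of `K`.
  If `C` is a closed subgroup of `K` such that no `e x`, `x ≠ 0`, vanishes on `C`, then `C = K`.
* `dense_hom`: a subgroup of `Hom(X, T)` which separates the points of `X` is dense in `Hom(X, T)`.
* `char_of_continuous` (Comfort and Ross): if the topology of `G` is induced by a group `X` of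
  characters then every continuous character of `G` belongs to `X`.
-/

set_option autoImplicit false

open Filter Topology MeasureTheory

namespace Pool.Agent.R821

universe u v w

/-- the circle group written additively -/
abbrev T : Type := UnitAddCircle

/-- the composition of a character with the embedding of the circle into the complex numbers -/
noncomputable def cc {K : Type u} [AddCommGroup K] [TopologicalSpace K] (f : K →+ T)
    (hf : Continuous f) : C(K, ℂ) where
  toFun k := (AddCircle.toCircle (f k) : ℂ)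
  continuous_toFun := by
    have h1 : Continuous fun t : T => (AddCircle.toCircle t : ℂ) := by fun_prop
    exact h1.comp hf

theorem cc_apply {K : Type u} [AddCommGroup K] [TopologicalSpace K] (f : K →+ T)
    (hf : Continuous f) (k : K) : cc f hf k = (AddCircle.toCircle (f k) : ℂ) := rfl

section SW

variable {K : Type u} [AddCommGroup K] [TopologicalSpace K] [IsTopologicalAddGroup K]
  [CompactSpace K] [T2Space K] {X : Type v} [AddCommGroup X] (e : X →+ (K →+ T))
  (he : ∀ x, Continuous (e x))

include he in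
theorem dense_span (hs : ∀ k : K, k ≠ 0 → ∃ x, e x k ≠ 0) (f : C(K, ℂ)) (ε : ℝ) (hε : 0 < ε) :
    ∃ P ∈ Submodule.span ℂ (Set.range fun x => cc (e x) (he x)), ‖f - P‖ < ε := by
  classical
  let E : X → C(K, ℂ) := fun x => cc (e x) (he x)
  have hE0 : E 0 = 1 := by
    ext k; simp [E, cc_apply]
  have hEadd : ∀ x y, E (x + y) = E x * E y := by
    intro x y
    ext k
    simp [E, cc_apply, AddCircle.toCircle_add]
  have hEneg : ∀ x, star (E x) = E (-x) := by
    intro x
    ext k
    simp only [E, cc_apply, ContinuousMap.star_apply, map_neg, AddMonoidHom.neg_apply,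
      AddCircle.toCircle_neg, Circle.coe_inv_eq_conj]
    rfl
  let A : StarSubalgebra ℂ C(K, ℂ) :=
    { toSubalgebra := Algebra.adjoin ℂ (Set.range E)
      star_mem' := by
        change Algebra.adjoin ℂ (Set.range E) ≤ star (Algebra.adjoin ℂ (Set.range E))
        refine Algebra.adjoin_le ?_
        rintro - ⟨x, rfl⟩
        refine Algebra.subset_adjoin ⟨-x, ?_⟩
        exact (hEneg x).symm }
  have hA : Subalgebra.toSubmodule A.toSubalgebra = Submodule.span ℂ (Set.range E) := by
    apply Algebra.adjoin_eq_span_of_subset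
    refine Set.Subset.trans ?_ Submodule.subset_span
    intro x hx
    refine Submonoid.closure_induction (fun _ => id) ⟨0, hE0⟩ ?_ hx
    rintro - - - - ⟨m, rfl⟩ ⟨n, rfl⟩
    exact ⟨m + n, hEadd m n⟩
  have hsep : A.SeparatesPoints := by
    intro x y hxy
    obtain ⟨z, hz⟩ := hs (x - y) (sub_ne_zero.2 hxy)
    refine ⟨_, ⟨E z, Algebra.subset_adjoin ⟨z, rfl⟩, rfl⟩, ?_⟩
    intro h
    apply hz
    have h1 : AddCircle.toCircle (e z x) = AddCircle.toCircle (e z y) := Circle.ext h
    have h2 := AddCircle.injective_toCircle one_ne_zero h1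
    rw [map_sub, h2, sub_self]
  have htop := ContinuousMap.starSubalgebra_topologicalClosure_eq_top_of_separatesPoints A hsep
  have hf : f ∈ closure (A : Set C(K, ℂ)) := by
    have h1 : f ∈ A.topologicalClosure := by rw [htop]; trivial
    exact h1
  obtain ⟨P, hP, hPf⟩ := Metric.mem_closure_iff.1 hf ε hε
  refine ⟨P, ?_, by rwa [dist_eq_norm] at hPf⟩
  have h2 : P ∈ Subalgebra.toSubmodule A.toSubalgebra := hP
  rw [hA] at h2
  exact h2

include he in
/-- Let `K` be a compact Hausdorff abelian group whose points are separated by the characters `e x`. If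
`C` is a closed subgroup of `K` such that no `e x`, `x ≠ 0`, vanishes on `C`, then `C = K`. -/
theorem eq_top_of_separates (hs : ∀ k : K, k ≠ 0 → ∃ x, e x k ≠ 0) (C : AddSubgroup K)
    (hC : IsClosed (C : Set K)) (hCs : ∀ x, x ≠ 0 → ∃ c ∈ C, e x c ≠ 0) : C = ⊤ := by
  classical
  by_contra hne
  obtain ⟨k, hk⟩ : ∃ k, k ∉ C := by
    by_contra hcon
    push Not at hcon
    exact hne (AddSubgroup.eq_top_iff' _ |>.2 hcon)
  have hCc : CompactSpace C := isCompact_iff_compactSpace.1 hC.isCompact
  let _ : MeasurableSpace C := borel C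
  have : BorelSpace C := ⟨rfl⟩
  let μ : Measure C := Measure.addHaarMeasure ⊤
  have hμ1 : μ Set.univ = 1 := by
    have := Measure.addHaarMeasure_self (K₀ := (⊤ : TopologicalSpace.PositiveCompacts C))
    simpa using this
  have hprob : IsProbabilityMeasure μ := ⟨hμ1⟩
  have hinv : μ.IsAddLeftInvariant := inferInstance
  -- continuous functions on `K` restricted to cosets are integrable
  have hint : ∀ (g : C(K, ℂ)) (a : K), Integrable (fun c : C => g (a + c)) μ := by
    intro g a
    have hcont : Continuous fun c : C => g (a + c) := by fun_prop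
    exact hcont.integrable_of_hasCompactSupport (HasCompactSupport.of_compactSpace _)
  have hcc : ∀ x : X, ∫ c : C, cc (e x) (he x) (0 + c) ∂μ = ∫ c : C, cc (e x) (he x) (k + c) ∂μ := by
    intro x
    have h1 : ∀ a : K, ∫ c : C, cc (e x) (he x) (a + c) ∂μ =
        cc (e x) (he x) a * ∫ c : C, cc (e x) (he x) c ∂μ := by
      intro a
      rw [← integral_const_mul]
      refine integral_congr_ae (Filter.Eventually.of_forall fun c => ?_)
      simp [cc_apply, AddCircle.toCircle_add]
    rw [h1, h1]
    by_cases hx : x = 0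
    · subst hx
      simp [cc_apply]
    · obtain ⟨c0, hc0, hxc0⟩ := hCs x hx
      have h2 : ∫ c : C, cc (e x) (he x) c ∂μ = 0 := by
        have h3 : ∫ c : C, cc (e x) (he x) ((⟨c0, hc0⟩ + c : C) : K) ∂μ =
            ∫ c : C, cc (e x) (he x) c ∂μ :=
          integral_add_left_eq_self (μ := μ) (fun c : C => cc (e x) (he x) (c : K)) ⟨c0, hc0⟩
        have h4 : ∫ c : C, cc (e x) (he x) ((⟨c0, hc0⟩ + c : C) : K) ∂μ =
            cc (e x) (he x) c0 * ∫ c : C, cc (e x) (he x) c ∂μ := h1 c0
        rw [h4] at h3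
        have h5 : (cc (e x) (he x) c0 - 1) * ∫ c : C, cc (e x) (he x) c ∂μ = 0 := by
          rw [sub_mul, h3, one_mul, sub_self]
        rcases mul_eq_zero.1 h5 with h6 | h6
        · exfalso
          apply hxc0
          have h7 : cc (e x) (he x) c0 = 1 := sub_eq_zero.1 h6
          rw [cc_apply] at h7
          have h8 : AddCircle.toCircle (e x c0) = AddCircle.toCircle (0 : T) := by
            refine Circle.ext ?_
            rw [h7]; simp
          exact AddCircle.injective_toCircle one_ne_zero h8
        · exact h6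
      rw [h2, mul_zero, mul_zero]
  have hspan : ∀ P ∈ Submodule.span ℂ (Set.range fun x => cc (e x) (he x)),
      ∫ c : C, P (0 + c) ∂μ = ∫ c : C, P (k + c) ∂μ := by
    intro P hP
    induction hP using Submodule.span_induction with
    | mem P hP =>
      obtain ⟨x, rfl⟩ := hP
      exact hcc x
    | zero => simp
    | add P Q _ _ h1 h2 =>
      have e1 : ∀ a : K, ∫ c : C, (P + Q) (a + c) ∂μ = ∫ c : C, P (a + c) ∂μ + ∫ c : C, Q (a + c) ∂μ :=
        fun a => integral_add (hint P a) (hint Q a)
      rw [e1, e1, h1, h2]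
    | smul r P _ h1 =>
      have e1 : ∀ a : K, ∫ c : C, (r • P) (a + c) ∂μ = r * ∫ c : C, P (a + c) ∂μ := by
        intro a
        exact integral_const_mul r _
      rw [e1, e1, h1]
  -- Urysohn function
  have hdisj : Disjoint (C : Set K) ((fun y => k + y) '' (C : Set K)) := by
    rw [Set.disjoint_left]
    rintro y hy ⟨c, hc, rfl⟩
    exact hk ((C.add_mem_cancel_right hc).1 hy)
  have hcl2 : IsClosed ((fun y => k + y) '' (C : Set K)) := by
    refine (hC.isCompact.image ?_).isClosed
    fun_prop
  obtain ⟨g, hg0, hg1, -⟩ := exists_continuous_zero_one_of_isClosed hC hcl2 hdisj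
  let f : C(K, ℂ) := ⟨fun y => (g y : ℂ), by fun_prop⟩
  obtain ⟨P, hP, hPf⟩ := dense_span e he hs f (1 / 2) (by norm_num)
  have h0 : ∀ c : C, ‖P (0 + c)‖ ≤ ‖f - P‖ := by
    intro c
    have h1 := (f - P).norm_coe_le_norm (0 + c)
    have h2 : f (0 + c) = 0 := by
      change ((g (0 + (c : K)) : ℝ) : ℂ) = 0
      rw [zero_add, hg0 c.2]
      simp
    rw [ContinuousMap.sub_apply, h2, zero_sub, norm_neg] at h1
    exact h1
  have h1 : ∀ c : C, ‖1 - P (k + c)‖ ≤ ‖f - P‖ := by
    intro c
    have h1 := (f - P).norm_coe_le_norm (k + c)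
    have h2 : f (k + c) = 1 := by
      change ((g (k + (c : K)) : ℝ) : ℂ) = 1
      rw [hg1 ⟨c, c.2, rfl⟩]
      simp
    rw [ContinuousMap.sub_apply, h2] at h1
    exact h1
  have i0 : ‖∫ c : C, P (0 + c) ∂μ‖ ≤ ‖f - P‖ := by
    have := norm_integral_le_of_norm_le_const (μ := μ) (Filter.Eventually.of_forall h0)
    simpa using this
  have i1 : ‖∫ c : C, (1 - P (k + c)) ∂μ‖ ≤ ‖f - P‖ := by
    have := norm_integral_le_of_norm_le_const (μ := μ) (Filter.Eventually.of_forall h1)
    simpa using this
  have i2 : ∫ c : C, (1 - P (k + c)) ∂μ = 1 - ∫ c : C, P (0 + c) ∂μ := by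
    rw [hspan P hP, integral_sub (integrable_const _) (hint P k)]
    simp
  rw [i2] at i1
  have i3 : (1 : ℝ) ≤ ‖(1 : ℂ) - ∫ c : C, P (0 + c) ∂μ‖ + ‖∫ c : C, P (0 + c) ∂μ‖ := by
    have h2 := norm_add_le ((1 : ℂ) - ∫ c : C, P (0 + c) ∂μ) (∫ c : C, P (0 + c) ∂μ)
    rw [sub_add_cancel, norm_one] at h2
    exact h2
  linarith

end SW

/-! ### Separation of points by characters -/

/-- the embedding of `ℚ/ℤ` into `ℝ/ℤ` -/
noncomputable def qToT : AddCircle (1 : ℚ) →+ T :=
  QuotientAddGroup.map _ _ ((Rat.castHom ℝ).toAddMonoidHom) (by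
    intro x hx
    obtain ⟨n, rfl⟩ := AddSubgroup.mem_zmultiples_iff.1 hx
    refine AddSubgroup.mem_zmultiples_iff.2 ⟨n, ?_⟩
    simp)

theorem qToT_injective : Function.Injective qToT := by
  rw [injective_iff_map_eq_zero]
  intro a ha
  obtain ⟨q, rfl⟩ := QuotientAddGroup.mk_surjective a
  have h1 : ((q : ℝ) : T) = 0 := ha
  rw [AddCircle.coe_eq_zero_iff] at h1
  obtain ⟨n, hn⟩ := h1
  have h2 : (n : ℝ) = (q : ℝ) := by simpa using hn
  have h3 : (n : ℚ) = q := by exact_mod_cast h2
  refine (AddCircle.coe_eq_zero_iff (1 : ℚ)).2 ⟨n, ?_⟩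
  simpa using h3

/-- characters separate the points of a (discrete) abelian group -/
theorem exists_char_ne_zero {A : Type u} [AddCommGroup A] (a : A) (ha : a ≠ 0) :
    ∃ k : A →+ T, k a ≠ 0 := by
  obtain ⟨c, hc⟩ := CharacterModule.exists_character_apply_ne_zero_of_ne_zero ha
  refine ⟨qToT.comp c, fun h => hc ?_⟩
  exact qToT_injective (h.trans (map_zero _).symm)

/-- characters separate points from subgroups -/
theorem exists_char_sep {A : Type u} [AddCommGroup A] (B : AddSubgroup A) (a : A) (ha : a ∉ B) :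
    ∃ k : A →+ T, (∀ b ∈ B, k b = 0) ∧ k a ≠ 0 := by
  obtain ⟨k, hk⟩ := exists_char_ne_zero (a : A ⧸ B) (by rwa [Ne, QuotientAddGroup.eq_zero_iff])
  refine ⟨k.comp (QuotientAddGroup.mk' B), fun b hb => ?_, hk⟩
  have : (QuotientAddGroup.mk' B) b = 0 := (QuotientAddGroup.eq_zero_iff b).2 hb
  rw [AddMonoidHom.comp_apply, this, map_zero]

/-- the norm of a small real number in the circle -/
theorem norm_coe_eq {r : ℝ} (h : |r| ≤ 1 / 2) : ‖(r : T)‖ = |r| := by
  exact (AddCircle.norm_coe_eq_abs_iff (1 : ℝ) one_ne_zero).2 (by simpa using h)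

/-- the circle group has no small subgroups -/
theorem eq_zero_of_small {y : T} (h : ∀ n : ℕ, ‖n • y‖ ≤ 1 / 4) : y = 0 := by
  obtain ⟨r, rfl⟩ := QuotientAddGroup.mk_surjective y
  have h1 : ‖(r : UnitAddCircle)‖ = |r - round r| := UnitAddCircle.norm_eq
  have h2 : ((r - round r : ℝ) : UnitAddCircle) = (r : UnitAddCircle) := by
    rw [AddCircle.coe_sub]
    have : ((round r : ℝ) : UnitAddCircle) = 0 := by
      rw [AddCircle.coe_eq_zero_iff]
      exact ⟨round r, by simp⟩
    rw [this, sub_zero]
  set q : ℝ := r - round r with hq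
  change ((r : ℝ) : T) = 0
  rw [← h2]
  have h' : ∀ n : ℕ, ‖n • ((q : ℝ) : T)‖ ≤ 1 / 4 := by
    intro n; rw [h2]; exact h n
  have h3 : ∀ j : ℕ, |(2 : ℝ) ^ j * q| ≤ 1 / 4 := by
    intro j
    induction j with
    | zero =>
      have h4 := h' 1
      rw [one_smul, h2, h1] at h4
      simpa using h4
    | succ j ih =>
      have h4 : |(2 : ℝ) ^ (j + 1) * q| ≤ 1 / 2 := by
        have : (2 : ℝ) ^ (j + 1) * q = 2 * ((2 : ℝ) ^ j * q) := by ring
        rw [this, abs_mul, abs_two]
        linarith
      have h5 := h' (2 ^ (j + 1))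
      rw [← AddCircle.coe_nsmul, nsmul_eq_mul] at h5
      push_cast at h5
      rw [norm_coe_eq h4] at h5
      exact h5
  have h4 : q = 0 := by
    by_contra hne
    have hpos : 0 < |q| := abs_pos.2 hne
    obtain ⟨j, hj⟩ := pow_unbounded_of_one_lt (1 / |q|) (one_lt_two : (1 : ℝ) < 2)
    have h5 := h3 j
    rw [abs_mul, abs_of_pos (pow_pos two_pos j)] at h5
    rw [div_lt_iff₀ hpos] at hj
    linarith
  rw [h4]
  rfl

/-! ### Density -/

/-- the closed subgroup of `X → T` which consists of the homomorphisms -/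
def homSub (X : Type u) [AddCommGroup X] : AddSubgroup (X → T) where
  carrier := {h | ∀ x y, h (x + y) = h x + h y}
  zero_mem' := fun x y => by simp
  add_mem' := by
    intro f g hf hg x y
    rw [Pi.add_apply, Pi.add_apply, Pi.add_apply, hf x y, hg x y]
    abel
  neg_mem' := by
    intro f hf x y
    rw [Pi.neg_apply, Pi.neg_apply, Pi.neg_apply, hf x y]
    abel

theorem isClosed_homSub (X : Type u) [AddCommGroup X] : IsClosed (homSub X : Set (X → T)) := by
  have h1 : (homSub X : Set (X → T)) = ⋂ x, ⋂ y, {h : X → T | h (x + y) = h x + h y} := by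
    ext h
    simp only [Set.mem_iInter]
    rfl
  rw [h1]
  refine isClosed_iInter fun x => isClosed_iInter fun y => isClosed_eq ?_ ?_
  · exact continuous_apply _
  · exact (continuous_apply x).add (continuous_apply y)

/-- A group of homomorphisms `X → T` which separates the points of `X` is dense in `Hom(X, T)` with
the topology of pointwise convergence. -/
theorem dense_hom {X : Type u} [AddCommGroup X] (S : AddSubgroup (X → T))
    (hS : ∀ h ∈ S, ∀ x y, h (x + y) = h x + h y) (hsep : ∀ x, x ≠ 0 → ∃ h ∈ S, h x ≠ 0)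
    (k : X → T) (hk : ∀ x y, k (x + y) = k x + k y) : k ∈ closure (S : Set (X → T)) := by
  have hcomp : CompactSpace (homSub X) := isCompact_iff_compactSpace.1 (isClosed_homSub X).isCompact
  have hzero : ∀ h : homSub X, (h : X → T) 0 = 0 := by
    intro h
    have h1 := h.2 0 0
    rw [add_zero] at h1
    simpa using h1
  let e : X →+ (homSub X →+ T) :=
    { toFun := fun x =>
        { toFun := fun h => (h : X → T) x
          map_zero' := rfl
          map_add' := fun h g => rfl }
      map_zero' := by
        ext h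
        exact hzero h
      map_add' := by
        intro x y
        ext h
        exact h.2 x y }
  let C : AddSubgroup (homSub X) := S.topologicalClosure.comap (homSub X).subtype
  have hC : IsClosed (C : Set (homSub X)) :=
    (AddSubgroup.isClosed_topologicalClosure S).preimage continuous_subtype_val
  have htop : C = ⊤ := by
    refine eq_top_of_separates e (fun x => ?_) ?_ C hC ?_
    · exact (continuous_apply x).comp continuous_subtype_val
    · intro h hh
      by_contra hcon
      push Not at hcon
      exact hh (Subtype.ext (funext fun x => hcon x))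
    · intro x hx
      obtain ⟨h, hhS, hhx⟩ := hsep x hx
      exact ⟨⟨h, hS h hhS⟩, AddSubgroup.le_topologicalClosure S hhS, hhx⟩
  have hkC : (⟨k, hk⟩ : homSub X) ∈ C := by rw [htop]; trivial
  exact hkC

/-- (Comfort and Ross) If the topology of `G` is induced by a group of characters, the image of
`e : X → Hom(G, T)`, then every continuous character of `G` belongs to it. -/
theorem char_of_continuous {G : Type u} [AddCommGroup G] [TopologicalSpace G] {X : Type v}
    [AddCommGroup X] (e : X →+ (G →+ T)) (hind : IsInducing fun (g : G) (x : X) => e x g)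
    (v : G →+ T) (hv : Continuous v) : ∃ x, e x = v := by
  classical
  by_contra hcon
  obtain ⟨k, hk0, hkv⟩ := exists_char_sep e.range v (by
    rintro ⟨x, hx⟩
    exact hcon ⟨x, hx⟩)
  -- all multiples of `k` are limits of evaluations
  let S : AddSubgroup ((G →+ T) → T) :=
    { carrier := Set.range fun (g : G) (φ : G →+ T) => φ g
      zero_mem' := ⟨0, by ext φ; simp⟩
      add_mem' := by
        rintro _ _ ⟨g, rfl⟩ ⟨h, rfl⟩
        exact ⟨g + h, by ext φ; simp⟩
      neg_mem' := by
        rintro _ ⟨g, rfl⟩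
        exact ⟨-g, by ext φ; simp⟩ }
  have hdense : ∀ n : ℕ, (fun φ : G →+ T => n • k φ) ∈ closure (S : Set ((G →+ T) → T)) := by
    intro n
    refine dense_hom S ?_ ?_ _ ?_
    · rintro _ ⟨g, rfl⟩ φ ψ
      rfl
    · intro φ hφ
      by_contra hno
      push Not at hno
      apply hφ
      ext g
      exact hno _ ⟨g, rfl⟩
    · intro φ ψ
      rw [map_add, smul_add]
  apply hkv
  refine eq_zero_of_small fun n => ?_
  -- continuity of `v` at zero
  have h1 : v ⁻¹' {y | ‖y‖ < 1 / 8} ∈ 𝓝 (0 : G) := by
    refine hv.continuousAt.preimage_mem_nhds ?_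
    rw [map_zero]
    have h2 : IsOpen {y : T | ‖y‖ < 1 / 8} := isOpen_lt continuous_norm continuous_const
    exact h2.mem_nhds (by simp)
  rw [hind.nhds_eq_comap] at h1
  obtain ⟨W, hW, hWv⟩ := h1
  rw [nhds_pi, Filter.mem_pi] at hW
  obtain ⟨I, hI, U, hU, hIU⟩ := hW
  have hU' : ∀ x, U x ∈ 𝓝 (0 : T) := by
    intro x
    have := hU x
    simpa using this
  have h3 := hdense n
  rw [mem_closure_iff_nhds] at h3
  -- neighbourhood of the limit
  have h4 : (⋂ x ∈ I, {f : (G →+ T) → T | f (e x) ∈ U x}) ∩
      {f : (G →+ T) → T | ‖f v - n • k v‖ < 1 / 8} ∈ 𝓝 (fun φ : G →+ T => n • k φ) := by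
    refine Filter.inter_mem ?_ ?_
    · rw [Filter.biInter_mem hI]
      intro x _
      have h5 : Continuous fun f : (G →+ T) → T => f (e x) := continuous_apply _
      refine h5.continuousAt.preimage_mem_nhds ?_
      have h6 : k (e x) = 0 := hk0 _ ⟨x, rfl⟩
      change U x ∈ 𝓝 (n • k (e x))
      rw [h6, smul_zero]
      exact hU' x
    · have h5 : Continuous fun f : (G →+ T) → T => ‖f v - n • k v‖ :=
        ((continuous_apply v).sub continuous_const).norm
      refine (isOpen_lt h5 continuous_const).mem_nhds ?_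
      simp
  obtain ⟨_, ⟨hf1, hf2⟩, ⟨g, rfl⟩⟩ := h3 _ h4
  have h7 : ‖v g‖ < 1 / 8 := by
    refine hWv (hIU fun x hx => ?_)
    have := Set.mem_iInter₂.1 hf1 x hx
    exact this
  have h8 : ‖v g - n • k v‖ < 1 / 8 := hf2
  have h9 : ‖n • k v‖ ≤ ‖v g‖ + ‖v g - n • k v‖ := by
    have h10 : n • k v = v g - (v g - n • k v) := by abel
    calc ‖n • k v‖ = ‖v g - (v g - n • k v)‖ := by rw [← h10]
      _ ≤ _ := norm_sub_le _ _
  linarith

end Pool.Agent.R821
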