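import Mathlib

/-!
# Total boundedness of groups with a topology induced from a compact group
-/

set_option autoImplicit false

open Filter Topology Pointwise

namespace Pool.Agent.R821

/-- a group whose topology is induced by a homomorphism into a compact group is totally bounded -/
theorem totBdd_of_inducing {G C : Type*} [AddCommGroup G] [TopologicalSpace G]
    [AddCommGroup C] [TopologicalSpace C] [IsTopologicalAddGroup C] [CompactSpace C]
    (φ : G →+ C) (hφ : IsInducing φ) (U : Set G) (hU : U ∈ 𝓝 (0 : G)) :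
    ∃ E : Set G, E.Finite ∧ U + E = Set.univ := by
  classical
  rw [hφ.nhds_eq_comap, map_zero] at hU
  obtain ⟨W, hW, hWU⟩ := hU
  have h1 : Tendsto (fun p : C × C => p.1 - p.2) (𝓝 ((0 : C), (0 : C))) (𝓝 0) := by
    have h2 : Continuous fun p : C × C => p.1 - p.2 := by fun_prop
    simpa using h2.tendsto ((0 : C), (0 : C))
  have h2 := h1 hW
  rw [nhds_prod_eq] at h2
  obtain ⟨W1, hW1, W2, hW2, h12⟩ := Filter.mem_prod_iff.1 h2
  have hW' : W1 ∩ W2 ∈ 𝓝 (0 : C) := inter_mem hW1 hW2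
  obtain ⟨t, ht⟩ := CompactSpace.elim_nhds_subcover
    (fun c : C => (fun y => y - c) ⁻¹' (W1 ∩ W2)) (fun c => by
      have h3 : Continuous fun y : C => y - c := by fun_prop
      refine h3.continuousAt.preimage_mem_nhds ?_
      simpa using hW')
  let g : C → G := fun c => if h : ∃ x : G, φ x - c ∈ W1 ∩ W2 then h.choose else 0
  refine ⟨g '' (t : Set C), t.finite_toSet.image g, Set.eq_univ_of_forall fun x => ?_⟩
  have hx : φ x ∈ ⋃ c ∈ t, (fun y => y - c) ⁻¹' (W1 ∩ W2) := by rw [ht]; trivial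
  simp only [Set.mem_iUnion] at hx
  obtain ⟨c, hc, hxc⟩ := hx
  have hex : ∃ x : G, φ x - c ∈ W1 ∩ W2 := ⟨x, hxc⟩
  have hg : φ (g c) - c ∈ W1 ∩ W2 := by
    have : g c = hex.choose := dif_pos hex
    rw [this]; exact hex.choose_spec
  refine ⟨x - g c, hWU ?_, g c, ⟨c, hc, rfl⟩, sub_add_cancel _ _⟩
  have h4 : (φ x - c, φ (g c) - c) ∈ W1 ×ˢ W2 := ⟨hxc.1, hg.2⟩
  have h5 := h12 h4
  have h6 : φ (x - g c) = (φ x - c) - (φ (g c) - c) := by rw [map_sub]; abel
  change φ (x - g c) ∈ W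
  rw [h6]; exact h5

end Pool.Agent.R821
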