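import Mathlib
import Pool.Agent.R821.Precompact
import Pool.Agent.R821.Duality

/-!
# Bohr sets of integers: gaps and polars
-/

set_option autoImplicit false

open Filter Topology

namespace Pool.Agent.R821

/-- a real representative of minimal absolute value of an element of the circle -/
theorem exists_real (x : T) : ∃ r : ℝ, (r : T) = x ∧ |r| = ‖x‖ ∧ |r| ≤ 1 / 2 := by
  obtain ⟨r, rfl⟩ := QuotientAddGroup.mk_surjective x
  have h1 : ‖(r : UnitAddCircle)‖ = |r - round r| := UnitAddCircle.norm_eq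
  refine ⟨r - round r, ?_, h1.symm, abs_sub_round r⟩
  rw [AddCircle.coe_sub]
  have : ((round r : ℝ) : UnitAddCircle) = 0 := by
    rw [AddCircle.coe_eq_zero_iff]
    exact ⟨round r, by simp⟩
  rw [this, sub_zero]

theorem norm_coe_le (r : ℝ) : ‖(r : T)‖ ≤ |r| := by
  have h1 : ‖(r : UnitAddCircle)‖ = |r - round r| := UnitAddCircle.norm_eq
  change ‖(r : UnitAddCircle)‖ ≤ |r|
  rw [h1]
  have := round_le r 0
  simpa using this

theorem zsmul_norm_le (l : ℤ) (x : T) : ‖l • x‖ ≤ |(l : ℝ)| * ‖x‖ := by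
  obtain ⟨r, rfl, hr, -⟩ := exists_real x
  rw [← hr, ← AddCircle.coe_zsmul, zsmul_eq_mul, ← abs_mul]
  exact norm_coe_le _

/-- if `k • y` has norm at most `1/4` for all `k ≤ n` then `y` has norm at most `1/(4n)` -/
theorem norm_le_of_mult {y : T} {n : ℕ} (hn : 1 ≤ n) (h : ∀ k : ℕ, k ≤ n → ‖k • y‖ ≤ 1 / 4) :
    ‖y‖ ≤ 1 / (4 * n) := by
  obtain ⟨r, rfl, hr, hr2⟩ := exists_real y
  have h1 : ∀ k : ℕ, k ≤ n → |(k : ℝ) * r| ≤ 1 / 4 := by
    intro k hk
    induction k with
    | zero => simp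
    | succ k ih =>
      have h2 := ih (by omega)
      have h3 := h (k + 1) hk
      rw [← AddCircle.coe_nsmul, nsmul_eq_mul] at h3
      by_cases hk0 : k = 0
      · subst hk0
        have h4 := h 1 hn
        rw [one_smul, ← hr] at h4
        simpa using h4
      have h4 : |((k + 1 : ℕ) : ℝ) * r| ≤ 1 / 2 := by
        have hk1 : (1 : ℝ) ≤ k := by
          have : 1 ≤ k := Nat.one_le_iff_ne_zero.2 hk0
          exact_mod_cast this
        rw [abs_mul, abs_of_nonneg (by positivity)] at h2 ⊢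
        push_cast
        nlinarith [abs_nonneg r]
      rw [norm_coe_eq h4] at h3
      exact h3
  have h2 := h1 n le_rfl
  rw [abs_mul, abs_of_nonneg (by positivity)] at h2
  rw [← hr]
  have hn0 : (0 : ℝ) < n := by exact_mod_cast hn
  rw [le_div_iff₀ (by positivity)]
  nlinarith

/-- if the norm of `y` is larger than `1/(4n)` then some multiple `k • y`, `k ≤ n`, has norm larger
than `1/4` -/
theorem exists_mult {y : T} {n : ℕ} (hn : 1 ≤ n) (h : 1 / (4 * n) < ‖y‖) :
    ∃ k : ℕ, k ≤ n ∧ 1 / 4 < ‖k • y‖ := by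
  by_contra hcon
  push Not at hcon
  exact absurd (norm_le_of_mult hn hcon) (not_le.2 h)

/-- the Bohr set -/
def Bohr (F : Finset T) (ε : ℝ) : Set ℤ := {l | ∀ f ∈ F, ‖l • f‖ ≤ ε}

/-- Bohr sets have bounded gaps -/
theorem exists_gap (F : Finset T) (ε : ℝ) (hε : 0 < ε) :
    ∃ R : ℝ, 0 ≤ R ∧ ∀ t : ℝ, ∃ l : ℤ, |(l : ℝ) - t| ≤ R ∧ l ∈ Bohr F ε := by
  classical
  let φ : ℤ →+ (F → T) :=
    { toFun := fun l f => l • (f : T)
      map_zero' := by ext f; simp
      map_add' := fun a b => by ext f; simp [add_smul] }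
  let _ : TopologicalSpace ℤ := TopologicalSpace.induced φ inferInstance
  have hind : IsInducing φ := ⟨rfl⟩
  have hU : {l : ℤ | ∀ f : F, ‖φ l f‖ < ε} ∈ 𝓝 (0 : ℤ) := by
    have h1 : {y : F → T | ∀ f, ‖y f‖ < ε} ∈ 𝓝 (φ 0) := by
      have h2 : IsOpen {y : F → T | ∀ f, ‖y f‖ < ε} := by
        have h3 : {y : F → T | ∀ f, ‖y f‖ < ε} = ⋂ f, {y : F → T | ‖y f‖ < ε} := by
          ext y; simp
        rw [h3]
        exact isOpen_iInter_of_finite fun f => isOpen_lt (continuous_apply f).norm continuous_const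
      refine h2.mem_nhds fun f => ?_
      rw [map_zero]
      simpa using hε
    exact hind.continuous.continuousAt.preimage_mem_nhds h1
  obtain ⟨E, hE, hEU⟩ := totBdd_of_inducing φ hind _ hU
  obtain ⟨M, hM⟩ : ∃ M : ℕ, ∀ e ∈ E, |e| ≤ M := by
    refine ⟨hE.toFinset.sup Int.natAbs, fun e he => ?_⟩
    have h1 : e.natAbs ≤ hE.toFinset.sup Int.natAbs := Finset.le_sup (hE.mem_toFinset.2 he)
    rw [Int.abs_eq_natAbs]
    exact_mod_cast h1
  refine ⟨M + 1, by positivity, fun t => ?_⟩
  have h1 : round t ∈ (Set.univ : Set ℤ) := trivial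
  rw [← hEU] at h1
  obtain ⟨u, hu, e, he, hue⟩ := h1
  refine ⟨u, ?_, fun f hf => (hu ⟨f, hf⟩).le⟩
  have h2 : (u : ℝ) = round t - e := by
    have h3 : u + e = round t := hue
    have : ((u + e : ℤ) : ℝ) = (round t : ℝ) := by exact_mod_cast h3
    push_cast at this
    linarith
  have h3 : |(e : ℝ)| ≤ M := by exact_mod_cast hM e he
  have h4 := abs_sub_round t
  rw [h2]
  calc |(round t : ℝ) - e - t| = |-(t - round t) - e| := by ring_nf
    _ ≤ |-(t - round t)| + |(e : ℝ)| := abs_sub _ _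
    _ ≤ M + 1 := by rw [abs_neg]; linarith

/-- the polar of a Bohr set -/
def polar (F : Finset T) (ε : ℝ) : Set T := {q | ∀ l ∈ Bohr F ε, ‖l • q‖ ≤ 1 / 4}

theorem bohr_mult {F : Finset T} {ε : ℝ} {n : ℕ} (hn : 1 ≤ n) {l : ℤ} (hl : l ∈ Bohr F (ε / n))
    (k : ℕ) (hk : k ≤ n) : (k : ℤ) * l ∈ Bohr F ε := by
  intro f hf
  have h1 := hl f hf
  have hn0 : (0 : ℝ) < n := by exact_mod_cast hn
  rw [mul_smul]
  refine (zsmul_norm_le _ _).trans ?_
  have h2 : (k : ℝ) ≤ n := by exact_mod_cast hk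
  rw [le_div_iff₀ hn0] at h1
  simp only [Int.cast_natCast, Nat.abs_cast]
  nlinarith [norm_nonneg (l • f)]

theorem polar_small {F : Finset T} {ε : ℝ} {n : ℕ} (hn : 1 ≤ n) {q : T} (hq : q ∈ polar F ε)
    {l : ℤ} (hl : l ∈ Bohr F (ε / n)) : ‖l • q‖ ≤ 1 / (4 * n) := by
  refine norm_le_of_mult hn fun k hk => ?_
  have h1 := hq _ (bohr_mult hn hl k hk)
  rw [mul_smul, natCast_zsmul] at h1
  exact h1

/-- the polar of a Bohr set is finite -/
theorem polar_finite (F : Finset T) (ε : ℝ) (hε : 0 < ε) : (polar F ε).Finite := by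
  classical
  obtain ⟨R, hR, hgap⟩ := exists_gap F (ε / 4) (by positivity)
  have hsep : ∀ p ∈ polar F ε, ∀ q ∈ polar F ε, ‖p - q‖ ≤ 1 / (8 * (R + 1)) → p = q := by
    intro p hp q hq hpq
    rw [← sub_eq_zero]
    refine eq_zero_of_small fun n => ?_
    obtain ⟨l, hl, hlB⟩ := hgap n
    have h1 : ‖l • p‖ ≤ 1 / (4 * (4 : ℕ)) := polar_small (n := 4) (by norm_num) hp
      (by simpa using hlB)
    have h2 : ‖l • q‖ ≤ 1 / (4 * (4 : ℕ)) := polar_small (n := 4) (by norm_num) hq
      (by simpa using hlB)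
    have h3 : n • (p - q) = (l • p - l • q) + ((n : ℤ) - l) • (p - q) := by
      rw [← smul_sub, ← add_smul, add_sub_cancel, natCast_zsmul]
    rw [h3]
    have h4 : ‖((n : ℤ) - l) • (p - q)‖ ≤ R * (1 / (8 * (R + 1))) := by
      refine (zsmul_norm_le _ _).trans ?_
      refine mul_le_mul ?_ hpq (norm_nonneg _) hR
      push_cast
      rw [abs_sub_comm]
      exact hl
    have h5 : R * (1 / (8 * (R + 1))) ≤ 1 / 8 := by
      rw [mul_one_div, div_le_div_iff₀ (by positivity) (by norm_num)]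
      nlinarith
    refine (norm_add_le _ _).trans ?_
    have h6 := norm_sub_le (l • p) (l • q)
    norm_num at h1 h2
    linarith
  -- finitely many small balls
  obtain ⟨S, -, hS, hcov⟩ := (isCompact_univ (X := T)).finite_cover_balls
    (e := 1 / (16 * (R + 1))) (by positivity)
  have hch : ∀ q : T, ∃ c ∈ S, q ∈ Metric.ball c (1 / (16 * (R + 1))) := by
    intro q
    have := hcov (Set.mem_univ q)
    simpa using this
  choose c hcS hc using hch
  refine Set.Finite.of_finite_image (f := c) (hS.subset ?_) ?_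
  · rintro _ ⟨q, -, rfl⟩
    exact hcS q
  · intro p hp q hq hpq
    refine hsep p hp q hq ?_
    have h1 := hc p
    have h2 := hc q
    rw [hpq] at h1
    rw [Metric.mem_ball] at h1 h2
    have h3 : dist p q ≤ dist p (c q) + dist (c q) q := dist_triangle _ _ _
    rw [dist_comm (c q) q] at h3
    rw [← dist_eq_norm]
    have h4 : (1 : ℝ) / (16 * (R + 1)) + 1 / (16 * (R + 1)) = 1 / (8 * (R + 1)) := by
      field_simp; norm_num
    linarith

/-- the polar of a Bohr set of `F` is contained in the group generated by `F` -/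
theorem polar_subset (F : Finset T) (ε : ℝ) (hε : 0 < ε) (H : AddSubgroup T)
    (hF : ∀ f ∈ F, f ∈ H) (q : T) (hq : q ∈ polar F ε) : q ∈ H := by
  classical
  let X : AddSubgroup T := H
  let e : X →+ (ℤ →+ T) :=
    { toFun := fun x =>
        { toFun := fun l => l • (x : T)
          map_zero' := by simp
          map_add' := fun a b => by simp [add_smul] }
      map_zero' := by ext; simp
      map_add' := fun a b => by ext; simp }
  let _ : TopologicalSpace ℤ := TopologicalSpace.induced (fun (l : ℤ) (x : X) => e x l) inferInstance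
  have hind : IsInducing (fun (l : ℤ) (x : X) => e x l) := ⟨rfl⟩
  have htg : IsTopologicalAddGroup ℤ :=
    topologicalAddGroup_induced
      ({ toFun := fun (l : ℤ) (x : X) => e x l
         map_zero' := by ext x; simp
         map_add' := fun a b => by ext x; simp } : ℤ →+ (X → T))
  let v : ℤ →+ T :=
    { toFun := fun l => l • q
      map_zero' := by simp
      map_add' := fun a b => by simp [add_smul] }
  have hv : Continuous v := by
    refine continuous_of_continuousAt_zero v ?_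
    rw [ContinuousAt, map_zero, Metric.tendsto_nhds]
    intro δ hδ
    obtain ⟨n, hn⟩ := exists_nat_gt (1 / δ)
    have hn0 : (0 : ℝ) < n := lt_trans (by positivity) hn
    have hn1 : 1 ≤ n := by
      have : 0 < n := by exact_mod_cast hn0
      omega
    have hB : Bohr F (ε / n) ∈ 𝓝 (0 : ℤ) := by
      have h1 : ∀ f ∈ F, {l : ℤ | ‖l • f‖ ≤ ε / n} ∈ 𝓝 (0 : ℤ) := by
        intro f hf
        have h2 : Continuous fun l : ℤ => e ⟨f, hF f hf⟩ l :=
          (continuous_pi_iff.1 hind.continuous) ⟨f, hF f hf⟩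
        have h3 : IsOpen {l : ℤ | ‖e ⟨f, hF f hf⟩ l‖ < ε / n} := isOpen_lt h2.norm continuous_const
        refine mem_of_superset (h3.mem_nhds ?_) fun l hl => ?_
        · change ‖e ⟨f, hF f hf⟩ 0‖ < ε / n
          rw [map_zero, norm_zero]
          positivity
        · have hl' : ‖l • f‖ < ε / n := hl
          exact hl'.le
      have h2 : Bohr F (ε / n) = ⋂ f ∈ F, {l : ℤ | ‖l • f‖ ≤ ε / n} := by
        ext l; simp [Bohr]
      rw [h2]
      exact (Filter.biInter_finset_mem F).2 h1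
    filter_upwards [hB] with l hl
    rw [dist_zero_right]
    have h1 := polar_small hn1 hq hl
    change ‖l • q‖ < δ
    refine lt_of_le_of_lt h1 ?_
    rw [div_lt_iff₀ (by positivity)]
    rw [div_lt_iff₀ hδ] at hn
    nlinarith
  obtain ⟨x, hx⟩ := char_of_continuous e hind v hv
  have h1 : e x 1 = v 1 := by rw [hx]
  have h2 : (x : T) = q := by
    have h3 : (1 : ℤ) • (x : T) = (1 : ℤ) • q := h1
    simpa using h3
  rw [← h2]
  exact x.2

/-- finitely many members of a Bohr set already confine its polar to a neighbourhood -/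
theorem polar_compact (F : Finset T) (ε δ : ℝ) (hδ : 0 < δ) : ∃ L : ℕ, ∀ x : T,
    (∀ l : ℤ, |l| ≤ L → l ∈ Bohr F ε → ‖l • x‖ ≤ 1 / 4) → ∃ q ∈ polar F ε, ‖x - q‖ < δ := by
  classical
  by_contra hcon
  push Not at hcon
  choose x hx1 hx2 using hcon
  obtain ⟨a, -, φ, hφ, ha⟩ := (isCompact_univ (X := T)).tendsto_subseq (x := x) fun n => trivial
  have hpol : a ∈ polar F ε := by
    intro l hl
    have h1 : Tendsto (fun n => ‖l • (x ∘ φ) n‖) atTop (𝓝 ‖l • a‖) := (ha.const_smul l).norm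
    refine le_of_tendsto h1 ?_
    filter_upwards [eventually_ge_atTop l.natAbs] with n hn
    refine hx1 (φ n) l ?_ hl
    have h2 : n ≤ φ n := hφ.le_apply
    rw [Int.abs_eq_natAbs]
    exact_mod_cast hn.trans h2
  have h1 : Tendsto (fun n => ‖(x ∘ φ) n - a‖) atTop (𝓝 0) := by
    have h2 : Tendsto (fun n => ‖(x ∘ φ) n - a‖) atTop (𝓝 ‖a - a‖) := (ha.sub_const a).norm
    simpa using h2
  have h2 : δ ≤ 0 := ge_of_tendsto h1 (Filter.Eventually.of_forall fun n => hx2 (φ n) a hpol)
  linarith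

end Pool.Agent.R821
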