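import Mathlib
import Pool.Agent.R821.Precompact

/-!
# A precompact abelian group which is no continuous image of a reflexive precompact group

The group is the countable Boolean group `ℕ →₀ ℤ/2` with its Bohr topology, the coarsest topology which
makes all homomorphisms to `ℤ/2` continuous. Its compact subsets are finite, so if `π : G → H` is a
continuous homomorphism onto it, the compositions of `π` with the coordinate characters form a null
sequence in the dual of `G`. If the evaluation map of `G` is continuous then this null sequence is
equicontinuous, so that some neighbourhood of the identity of `G` is mapped to the identity by `π`, which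
is impossible if `G` is precompact.
-/

set_option autoImplicit false

open Filter Topology Pointwise

namespace Pool.Agent.R821

universe u

/-- A topological group `G` is precompact (totally bounded): for every neighbourhood `U` of the identity
there is a finite set `F` with `F * U = G`. -/
def Precompact (G : Type u) [Group G] [TopologicalSpace G] : Prop :=
  ∀ U ∈ 𝓝 (1 : G), ∃ F : Set G, F.Finite ∧ F * U = Set.univ

/-- An abelian topological group `G` is reflexive: the evaluation map `g ↦ (χ ↦ χ g)` is a topological
isomorphism of `G` onto the dual of its dual. Here `PontryaginDual G` is the group of continuous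
homomorphisms from `G` to the circle with the compact-open topology. -/
def Reflexive (G : Type u) [CommGroup G] [TopologicalSpace G] : Prop :=
  ∃ α : G ≃ₜ* PontryaginDual (PontryaginDual G), ∀ (g : G) (χ : PontryaginDual G), α g χ = χ g

/-- In a vector space over `ℤ/2` with a topology for which all linear functionals are continuous, the
compact sets are finite. -/
theorem compact_finite {V : Type u} [AddCommGroup V] [Module (ZMod 2) V] [TopologicalSpace V]
    (hf : ∀ f : V →ₗ[ZMod 2] ZMod 2, Continuous f) {K : Set V} (hK : IsCompact K) : K.Finite := by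
  classical
  by_contra hinf
  -- a maximal independent subset of `K`
  obtain ⟨B, hBK, hspan, hli⟩ := exists_linearIndependent (ZMod 2) K
  have hBinf : B.Infinite := by
    intro hBfin
    have h1 : (Submodule.span (ZMod 2) B : Set V).Finite := by
      have : Module.Finite (ZMod 2) (Submodule.span (ZMod 2) B) := Module.Finite.span_of_finite _ hBfin
      have h2 : Finite (Submodule.span (ZMod 2) B) := Module.finite_of_finite (ZMod 2)
      exact Set.toFinite _
    rw [hspan] at h1
    exact hinf (h1.subset Submodule.subset_span)
  obtain ⟨c, hcK, hc⟩ := hBinf.exists_accPt_cofinite_inf_principal_of_subset_isCompact hK hBK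
  have hli' : LinearIndepOn (ZMod 2) id B := hli
  let b := Module.Basis.extend hli'
  -- the functional which is one on the elements of `B` outside the support of `c`
  let f : V →ₗ[ZMod 2] ZMod 2 := b.constr (ZMod 2)
    (fun i => if (i : V) ∈ B ∧ b.repr c i = 0 then (1 : ZMod 2) else 0)
  have hfc : f c = 0 := by
    rw [Module.Basis.constr_apply, Finsupp.sum]
    refine Finset.sum_eq_zero fun i hi => ?_
    rw [if_neg (fun h => (Finsupp.mem_support_iff.1 hi) h.2), smul_zero]
  have hopen : {x | f x = 0} ∈ 𝓝 c := by
    have h1 : IsOpen (f ⁻¹' {0}) := (isOpen_discrete ({0} : Set (ZMod 2))).preimage (hf f)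
    exact h1.mem_nhds hfc
  have hfin : ({x | f x = 0} ∩ B).Finite := by
    have h2 : ({x | f x = 0} ∩ B) ⊆ (fun i : hli'.extend (Set.subset_univ B) => (i : V)) ''
        (((b.repr c).support : Finset (hli'.extend (Set.subset_univ B))) : Set _) := by
      rintro x ⟨hx, hxB⟩
      have hxe : x ∈ hli'.extend (Set.subset_univ B) := hli'.subset_extend _ hxB
      refine ⟨⟨x, hxe⟩, ?_, rfl⟩
      rw [Finset.mem_coe, Finsupp.mem_support_iff]
      intro h0
      have h3 : f (b ⟨x, hxe⟩) = 1 := by
        rw [Module.Basis.constr_basis, if_pos ⟨hxB, h0⟩]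
      have h4 : b ⟨x, hxe⟩ = x := Module.Basis.extend_apply_self hli' ⟨x, hxe⟩
      rw [h4] at h3
      have h5 : f x = 0 := hx
      rw [h5] at h3
      exact zero_ne_one h3
    exact ((b.repr c).support.finite_toSet.image _).subset h2
  have h6 : ({x | f x = 0} ∩ B)ᶜ ∈ (Filter.cofinite : Filter V) := by
    rw [Filter.mem_cofinite, compl_compl]
    exact hfin
  have h7 : (∅ : Set V) ∈ 𝓝[≠] c ⊓ (Filter.cofinite ⊓ 𝓟 B) := by
    have h8 : {x | f x = 0} ∩ (({x | f x = 0} ∩ B)ᶜ ∩ B) ∈ 𝓝[≠] c ⊓ (Filter.cofinite ⊓ 𝓟 B) :=
      Filter.inter_mem_inf (mem_nhdsWithin_of_mem_nhds hopen)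
        (Filter.inter_mem_inf h6 (Filter.mem_principal_self B))
    refine Filter.mem_of_superset h8 ?_
    rintro x ⟨hx, hx1, hx2⟩
    exact hx1 ⟨hx, hx2⟩
  exact hc.ne (Filter.empty_mem_iff_bot.1 h7)

/-- the countable Boolean group -/
abbrev BV : Type := ℕ →₀ ZMod 2

/-- the evaluation of `BV` at all its linear functionals -/
noncomputable def bvEval : BV →+ ((BV →ₗ[ZMod 2] ZMod 2) → ZMod 2) where
  toFun v f := f v
  map_zero' := by ext f; simp
  map_add' v w := by ext f; simp

/-- the Bohr topology on `BV`: the coarsest topology which makes all homomorphisms to `ℤ/2`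
continuous -/
noncomputable abbrev bvTop : TopologicalSpace BV := TopologicalSpace.induced bvEval inferInstance

theorem bvEval_injective : Function.Injective bvEval := by
  intro v w h
  ext n
  exact congrFun h (Finsupp.lapply n)

theorem bv_continuous (f : BV →ₗ[ZMod 2] ZMod 2) : @Continuous BV (ZMod 2) bvTop _ f := by
  let _ := bvTop
  have h1 : IsInducing bvEval := ⟨rfl⟩
  exact (continuous_apply f).comp h1.continuous

/-- the circle elements of order at most two -/
theorem toCircle_re {a : ZMod 2} (h : 0 < ((ZMod.toCircle a : Circle) : ℂ).re) : a = 0 := by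
  by_contra hne
  have h1 : ZMod.toCircle a ≠ 1 := by
    intro h2
    exact hne (ZMod.injective_toCircle (h2.trans (by simp)))
  have h2 : ZMod.toCircle a * ZMod.toCircle a = 1 := by
    rw [← AddChar.map_add_eq_mul, CharTwo.add_self_eq_zero, AddChar.map_zero_eq_one]
  have h3 : ((ZMod.toCircle a : Circle) : ℂ) * ((ZMod.toCircle a : Circle) : ℂ) = 1 := by
    rw [← Circle.coe_mul, h2, Circle.coe_one]
  rcases mul_self_eq_one_iff.1 h3 with h4 | h4
  · exact h1 (Circle.ext (by rw [h4, Circle.coe_one]))
  · rw [h4] at h
    norm_num at h

/-- The core: no precompact abelian group for which the evaluation map is continuous has a continuous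
homomorphism onto the countable Boolean group with its Bohr topology. -/
theorem core {G : Type u} [CommGroup G] [TopologicalSpace G]
    (hG : Precompact G) (hα : Reflexive G) (π : G →* Multiplicative BV)
    (hπ : @Continuous G BV _ bvTop fun g => Multiplicative.toAdd (π g))
    (hs : Function.Surjective π) : False := by
  classical
  let _ := bvTop
  let χ : ℕ → PontryaginDual G := fun n =>
    { toFun := fun g => ZMod.toCircle (Multiplicative.toAdd (π g) n)
      map_one' := by simp
      map_mul' := fun g h => by
        rw [map_mul, toAdd_mul, Finsupp.add_apply, AddChar.map_add_eq_mul]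
      continuous_toFun := by
        have h1 : Continuous fun a : ZMod 2 => ZMod.toCircle a := continuous_of_discreteTopology
        have h2 : Continuous fun v : BV => v n := bv_continuous (Finsupp.lapply n)
        exact h1.comp (h2.comp hπ) }
  have hχ : ∀ n g, χ n g = ZMod.toCircle (Multiplicative.toAdd (π g) n) := fun n g => rfl
  have htend : Tendsto χ atTop (𝓝 (1 : PontryaginDual G)) := by
    refine ((ContinuousMonoidHom.isInducing_toContinuousMap G Circle).tendsto_nhds_iff).2 ?_
    rw [ContinuousMap.tendsto_nhds_compactOpen]
    intro K hK U hU hmaps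
    have hfin : ((fun g => Multiplicative.toAdd (π g)) '' K).Finite :=
      compact_finite bv_continuous (hK.image hπ)
    have hev : ∀ v ∈ (fun g => Multiplicative.toAdd (π g)) '' K, ∀ᶠ n in atTop, v n = 0 := by
      intro v _
      refine Filter.eventually_atTop.2 ⟨v.support.sup id + 1, fun n hn => ?_⟩
      by_contra hne
      have h1 : n ≤ v.support.sup id := Finset.le_sup (f := id) (Finsupp.mem_support_iff.2 hne)
      omega
    have hall := (Set.Finite.eventually_all hfin).2 hev
    filter_upwards [hall] with n hn g hg
    have h1 : Multiplicative.toAdd (π g) n = 0 := hn _ ⟨g, hg, rfl⟩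
    have h2 : χ n g = 1 := by rw [hχ, h1]; simp
    have h3 : (1 : Circle) ∈ U := hmaps hg
    change χ n g ∈ U
    rw [h2]
    exact h3
  have hS : IsCompact (insert 1 (Set.range χ)) := htend.isCompact_insert_range
  obtain ⟨α, hα⟩ := hα
  have hopen : IsOpen {ξ : PontryaginDual (PontryaginDual G) |
      Set.MapsTo ξ (insert 1 (Set.range χ)) {z : Circle | 0 < (z : ℂ).re}} := by
    have h1 : IsOpen {z : Circle | 0 < (z : ℂ).re} :=
      isOpen_lt continuous_const (Complex.continuous_re.comp (by fun_prop))
    exact isOpen_induced (ContinuousMap.isOpen_setOfPred_mapsTo hS h1)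
  have hU : {g : G | Set.MapsTo (α g) (insert 1 (Set.range χ)) {z : Circle | 0 < (z : ℂ).re}} ∈
      𝓝 (1 : G) := by
    refine (hopen.preimage α.continuous).mem_nhds ?_
    change Set.MapsTo (α 1) _ _
    intro χ' _
    rw [hα]
    simp
  obtain ⟨F, hF, hFU⟩ := hG _ hU
  have hker : ∀ g ∈ {g : G | Set.MapsTo (α g) (insert 1 (Set.range χ))
      {z : Circle | 0 < (z : ℂ).re}}, π g = 1 := by
    intro g hg
    apply Multiplicative.toAdd.injective
    ext n
    have h1 := hg (Set.mem_insert_of_mem 1 ⟨n, rfl⟩ : χ n ∈ insert 1 (Set.range χ))
    rw [hα, hχ] at h1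
    exact toCircle_re h1
  have hfin : (Set.univ : Set (Multiplicative BV)).Finite := by
    refine (hF.image π).subset fun h _ => ?_
    obtain ⟨g, rfl⟩ := hs h
    have hg : g ∈ (Set.univ : Set G) := trivial
    rw [← hFU] at hg
    obtain ⟨a, ha, b, hb, rfl⟩ := hg
    refine ⟨a, ha, ?_⟩
    change π a = π (a * b)
    rw [map_mul, hker b hb, mul_one]
  have hfin2 : Finite (Multiplicative BV) := Set.finite_univ_iff.1 hfin
  have hinf : Infinite BV := by
    refine Infinite.of_injective (fun n : ℕ => (Finsupp.single n 1 : BV)) ?_
    intro a b hab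
    exact Finsupp.single_left_injective one_ne_zero hab
  exact hinf.not_finite (Finite.of_equiv _ (Multiplicative.toAdd (α := BV)))

/-- **The common theorem.** There is a precompact Hausdorff abelian group `H` (namely the countable
Boolean group with its Bohr topology) such that no precompact reflexive abelian group admits a
continuous homomorphism onto `H`. -/
theorem exists_not_image : ∃ (H : Type) (_ : CommGroup H) (_ : TopologicalSpace H)
    (_ : IsTopologicalGroup H) (_ : T2Space H), Precompact H ∧
    ∀ (G : Type u) [CommGroup G] [TopologicalSpace G] [IsTopologicalGroup G] [T2Space G],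
      Precompact G → Reflexive G → ∀ π : G →* H, Continuous π → ¬ Function.Surjective π := by
  let _ := bvTop
  have hind : IsInducing bvEval := ⟨rfl⟩
  have htg : IsTopologicalAddGroup BV := topologicalAddGroup_induced bvEval
  have hT2 : T2Space BV := (⟨hind, bvEval_injective⟩ : IsEmbedding bvEval).t2Space
  refine ⟨Multiplicative BV, inferInstance, inferInstance, inferInstance, inferInstance, ?_, ?_⟩
  · intro U hU
    obtain ⟨E, hE, hEU⟩ := totBdd_of_inducing bvEval hind (Multiplicative.ofAdd ⁻¹' U) hU
    refine ⟨Multiplicative.toAdd ⁻¹' E, hE.preimage Multiplicative.toAdd.injective.injOn, ?_⟩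
    refine Set.eq_univ_of_forall fun x => ?_
    have hx : Multiplicative.toAdd x ∈ (Multiplicative.ofAdd ⁻¹' U : Set BV) + E := by
      rw [hEU]; trivial
    obtain ⟨u, hu, e, he, hue⟩ := hx
    refine ⟨Multiplicative.ofAdd e, he, Multiplicative.ofAdd u, hu, ?_⟩
    change Multiplicative.ofAdd e * Multiplicative.ofAdd u = x
    rw [← ofAdd_add, add_comm, show u + e = Multiplicative.toAdd x from hue]
    rfl
  · intro G _ _ _ _ hG hR π hπ hs
    exact core hG hR π hπ hs

end Pool.Agent.R821
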