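import Pool.Agent.R821.BpRefl

/-!
# Pseudocompact Boolean groups: the main theorem
-/

set_option autoImplicit false

open Filter Topology Cardinal

namespace Pool.Agent.R821.Bp

universe u v

/-- linearly independent functionals take arbitrary values on finite sets -/
theorem exists_values {V : Type u} [AddCommGroup V] [Module (ZMod 2) V] {ι : Type v}
    (b : ι → Module.Dual (ZMod 2) V) (hb : LinearIndependent (ZMod 2) b) (F : Finset ι)
    (s : ι → ZMod 2) : ∃ v : V, ∀ i ∈ F, b i v = s i := by
  classical
  let T : V →ₗ[ZMod 2] (F → ZMod 2) := LinearMap.pi fun i : F => b i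
  have hT : LinearMap.range T = ⊤ := by
    by_contra hne
    obtain ⟨f, hf0, hf⟩ := Submodule.exists_le_ker_of_lt_top (LinearMap.range T) (lt_top_iff_ne_top.2 hne)
    have h1 : ∀ x : F → ZMod 2, f x = ∑ i, x i • f (fun j => if i = j then 1 else 0) :=
      fun x => LinearMap.pi_apply_eq_sum_univ f x
    have hbF : LinearIndependent (ZMod 2) fun i : F => b i := hb.comp _ Subtype.val_injective
    have h2 : ∀ i : F, f (fun j => if i = j then 1 else 0) = 0 := by
      have h3 : ∑ i : F, f (fun j => if i = j then 1 else 0) • b i = 0 := by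
        ext v
        have h4 : f (T v) = 0 := hf ⟨v, rfl⟩
        rw [h1] at h4
        rw [LinearMap.sum_apply, LinearMap.zero_apply]
        refine Eq.trans ?_ h4
        refine Finset.sum_congr rfl fun i _ => ?_
        rw [LinearMap.smul_apply, smul_eq_mul, smul_eq_mul, mul_comm]
        rfl
      exact fun i => (Fintype.linearIndependent_iff.1 hbF) _ h3 i
    apply hf0
    ext1 i
    ext
    rw [LinearMap.comp_apply, LinearMap.comp_apply, LinearMap.zero_apply, h1]
    refine Finset.sum_eq_zero fun j _ => ?_
    rw [h2, smul_zero]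
  obtain ⟨v, hv⟩ : (fun i : F => s i) ∈ LinearMap.range T := by rw [hT]; trivial
  refine ⟨v, fun i hi => ?_⟩
  exact congrFun hv ⟨i, hi⟩

/-- in a pseudocompact space a sequence of conditions on continuous functions with discrete values which
is finitely satisfiable is satisfiable -/
theorem exists_all {X : Type u} [TopologicalSpace X] (hp : Pseudocompact X) (f : ℕ → X → ZMod 2)
    (hf : ∀ n, Continuous (f n)) (s : ℕ → ZMod 2) (h : ∀ n, ∃ x, ∀ i ≤ n, f i x = s i) :
    ∃ x, ∀ n, f n x = s n := by
  classical
  by_contra hcon
  push Not at hcon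
  have hc : Continuous fun x => ((Nat.find (hcon x) : ℕ) : ℝ) := by
    rw [continuous_iff_continuousAt]
    intro x
    have hO : {y | ∀ i ∈ Finset.range (Nat.find (hcon x) + 1), f i y = f i x} ∈ 𝓝 x := by
      have h1 : ∀ i ∈ Finset.range (Nat.find (hcon x) + 1), ∀ᶠ y in 𝓝 x, f i y = f i x := by
        intro i _
        exact ((isOpen_discrete {f i x}).preimage (hf i)).mem_nhds rfl
      exact (Finset.eventually_all _).2 h1
    refine tendsto_const_nhds.congr' ?_
    filter_upwards [hO] with y hy
    have h2 : Nat.find (hcon y) = Nat.find (hcon x) := by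
      rw [Nat.find_eq_iff]
      constructor
      · rw [hy _ (Finset.mem_range.2 (Nat.lt_succ_self _))]
        exact Nat.find_spec (hcon x)
      · intro i hi
        rw [hy _ (Finset.mem_range.2 (by omega))]
        exact Nat.find_min (hcon x) hi
    rw [h2]
  obtain ⟨M, hM⟩ := hp _ hc
  obtain ⟨n, hn⟩ := exists_nat_gt M
  obtain ⟨x, hx⟩ := h n
  have h3 : n < Nat.find (hcon x) := by
    rw [Nat.lt_find_iff]
    intro m hm
    rw [not_not]
    exact hx m hm
  have h4 := hM x
  rw [abs_of_nonneg (by positivity)] at h4
  have h5 : (n : ℝ) < (Nat.find (hcon x) : ℕ) := by exact_mod_cast h3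
  linarith

/-- an infinite pseudocompact Boolean group yields a separating family of functions on an infinite set
realising all countable patterns -/
theorem exists_family {G : Type u} [CommGroup G] [Infinite G] (hB : ∀ x : G, x * x = 1)
    [TopologicalSpace G] [IsTopologicalGroup G] [T2Space G] (hp : Pseudocompact G) :
    ∃ (Λ : Type u) (_ : Infinite Λ) (δ : G → Λ → ZMod 2), Function.Injective δ ∧ Pat δ := by
  classical
  let _ := boolMod hB
  let D : Submodule (ZMod 2) (Module.Dual (ZMod 2) (Additive G)) :=
    { carrier := {f | Continuous fun g : G => f (Additive.ofMul g)}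
      zero_mem' := by
        change Continuous fun _ : G => (0 : ZMod 2)
        exact continuous_const
      add_mem' := fun {f g} hf hg => by
        have hf' : Continuous fun g : G => f (Additive.ofMul g) := hf
        have hg' : Continuous fun x : G => g (Additive.ofMul x) := hg
        exact hf'.add hg'
      smul_mem' := fun a f hf => by
        have hf' : Continuous fun g : G => f (Additive.ofMul g) := hf
        have h1 : Continuous fun b : ZMod 2 => a • b := continuous_of_discreteTopology
        exact h1.comp hf' }
  let b := Module.Basis.ofVectorSpace (ZMod 2) D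
  let Λ := Module.Basis.ofVectorSpaceIndex (ZMod 2) D
  let δ : G → Λ → ZMod 2 := fun g l => (b l).1 (Additive.ofMul g)
  have hinj : Function.Injective δ := by
    intro g h hgh
    by_contra hne
    have h1 : g * h ≠ 1 := by
      intro h2
      apply hne
      have h3 := hB h
      calc g = g * (h * h) := by rw [h3, mul_one]
        _ = h := by rw [← mul_assoc, h2, one_mul]
    obtain ⟨N, hN, hNgh⟩ := exists_open_subgroup G hB hp (g * h) h1
    let N' : Submodule (ZMod 2) (Additive G) := AddSubgroup.toZModSubmodule 2 (Subgroup.toAddSubgroup N)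
    have hN' : Additive.ofMul (g * h) ∉ N' := hNgh
    obtain ⟨f, hf1, hf2⟩ := Submodule.exists_dual_map_eq_bot_of_notMem hN' inferInstance
    have hfN : ∀ x ∈ N, f (Additive.ofMul x) = 0 := by
      intro x hx
      have : f (Additive.ofMul x) ∈ Submodule.map f N' := Submodule.mem_map_of_mem hx
      rw [hf2] at this
      exact (Submodule.mem_bot (ZMod 2)).1 this
    have hfc : Continuous fun x : G => f (Additive.ofMul x) := by
      rw [continuous_iff_continuousAt]
      intro x
      refine tendsto_const_nhds.congr' ?_
      have hO : (fun y : G => x⁻¹ * y) ⁻¹' (N : Set G) ∈ 𝓝 x := by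
        refine (hN.preimage (continuous_const_mul x⁻¹)).mem_nhds ?_
        change x⁻¹ * x ∈ N
        rw [inv_mul_cancel]
        exact N.one_mem
      filter_upwards [hO] with y hy
      have h2 := hfN _ hy
      rw [ofMul_mul, map_add, ofMul_inv, map_neg] at h2
      rw [neg_add_eq_zero] at h2
      exact h2
    have h4 : ∀ d : D, d.1 (Additive.ofMul g) = d.1 (Additive.ofMul h) := by
      intro d
      let ev : Additive G → (D →ₗ[ZMod 2] ZMod 2) := fun x =>
        { toFun := fun d => d.1 x
          map_add' := fun _ _ => rfl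
          map_smul' := fun _ _ => rfl }
      have h5 : ev (Additive.ofMul g) = ev (Additive.ofMul h) := b.ext fun l => congrFun hgh l
      exact congrArg (fun e => e d) h5
    apply hf1
    rw [ofMul_mul, map_add, h4 ⟨f, hfc⟩]
    exact CharTwo.add_self_eq_zero _
  refine ⟨Λ, ?_, δ, hinj, ?_⟩
  · by_contra hfin
    rw [not_infinite_iff_finite] at hfin
    exact (Infinite.of_injective δ hinj : Infinite (Λ → ZMod 2)).not_finite inferInstance
  · intro S hS s
    rcases S.eq_empty_or_nonempty with rfl | hne
    · exact ⟨1, fun z hz => absurd hz (Set.notMem_empty z)⟩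
    obtain ⟨e, rfl⟩ := hS.exists_eq_range hne
    have hli : LinearIndependent (ZMod 2) fun l : Λ => (b l).1 :=
      b.linearIndependent.map' D.subtype D.ker_subtype
    obtain ⟨g, hg⟩ := exists_all hp (fun n g => δ g (e n)) (fun n => (b (e n)).2) (fun n => s (e n))
      (fun n => by
        obtain ⟨v, hv⟩ := exists_values _ hli ((Finset.range (n + 1)).image e) s
        refine ⟨Additive.toMul v, fun i hi => ?_⟩
        exact hv (e i) (Finset.mem_image_of_mem e (Finset.mem_range.2 (Nat.lt_succ_of_le hi))))
    refine ⟨g, ?_⟩
    rintro _ ⟨n, rfl⟩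
    exact hg n

/-- an infinite Boolean group has a basis indexed by the group itself -/
theorem exists_basis {V : Type u} [AddCommGroup V] [Module (ZMod 2) V] [Infinite V] :
    Nonempty (Module.Basis V (ZMod 2) V) := by
  classical
  let b := Module.Basis.ofVectorSpace (ZMod 2) V
  let I := Module.Basis.ofVectorSpaceIndex (ZMod 2) V
  have h1 : #V = #(I →₀ ZMod 2) := Cardinal.mk_congr b.repr.toEquiv
  have hI : Infinite I := by
    by_contra hfin
    rw [not_infinite_iff_finite] at hfin
    have : Finite (I →₀ ZMod 2) :=
      Finite.of_injective (fun f : I →₀ ZMod 2 => (f : I → ZMod 2)) DFunLike.coe_injective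
    exact Infinite.not_finite (α := V) (Finite.of_equiv _ b.repr.toEquiv.symm)
  rw [Cardinal.mk_finsupp_lift_of_infinite, Cardinal.lift_uzero] at h1
  have h2 : Cardinal.lift.{u} #(ZMod 2) ≤ #I := by
    have h3 : #(ZMod 2) < ℵ₀ := Cardinal.lt_aleph0_of_finite _
    have h4 : Cardinal.lift.{u} #(ZMod 2) < ℵ₀ := by
      rw [← Cardinal.lift_aleph0.{u, 0}]
      exact Cardinal.lift_lt.2 h3
    exact h4.le.trans (Cardinal.aleph0_le_mk I)
  rw [max_eq_left h2] at h1
  obtain ⟨e⟩ := Cardinal.eq.1 h1
  exact ⟨b.reindex e.symm⟩

/-- **The main theorem.** -/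
theorem main (G : Type u) [CommGroup G] [Infinite G] (hB : ∀ x : G, x * x = 1)
    (h : ∃ t : TopologicalSpace G, @IsTopologicalGroup G t _ ∧ @T2Space G t ∧ @Pseudocompact G t) :
    ∃ t : TopologicalSpace G, @IsTopologicalGroup G t _ ∧ @T2Space G t ∧ @Pseudocompact G t ∧
      @Reflexive G _ t ∧ ¬ @SelectivelyPseudocompact G t ∧
      ∀ K : Set G, @IsCompact G t K → K.Finite := by
  classical
  obtain ⟨C, hC, M, hM1, hM2⟩ : ∃ (C : Type u) (_ : Infinite C) (M : G → C → ZMod 2),
      Pat M ∧ Pat fun c x => M x c := by
    obtain ⟨t, ht1, ht2, ht3⟩ := h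
    obtain ⟨Λ, hΛ, δ, hδ1, hδ2⟩ := exists_family hB ht3
    exact exists_matrix δ hδ1 hδ2
  let _ := boolMod hB
  have hinf : Infinite (Additive G) := ‹Infinite G›
  obtain ⟨b0⟩ := exists_basis (V := Additive G)
  let b : Module.Basis G (ZMod 2) (Additive G) := b0.reindex Additive.toMul
  let φL : C → (Additive G →ₗ[ZMod 2] ZMod 2) := fun c => b.constr (ZMod 2) fun x => M x c
  let φ : C → G → ZMod 2 := fun c g => φL c (Additive.ofMul g)
  have hφL : ∀ c x, φL c (b x) = M x c := fun c x => Module.Basis.constr_basis _ _ _ _
  have hφ : ∀ c x y, φ c (x * y) = φ c x + φ c y := fun c x y => by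
    change φL c (Additive.ofMul (x * y)) = _
    rw [ofMul_mul, map_add]
  have ha : Pat fun g c => φ c g := by
    intro S hS s
    obtain ⟨x, hx⟩ := hM1 S hS s
    refine ⟨Additive.toMul (b x), fun c hc => ?_⟩
    change φL c (b x) = s c
    rw [hφL, hx c hc]
  have hb : ∀ A : Set G, A.Countable → ∀ f : G → ZMod 2, (∀ x y, f (x * y) = f x + f y) →
      ∃ c, ∀ g ∈ A, φ c g = f g := by
    intro A hA f hf
    have hf1 : f 1 = 0 := by
      have h1 := hf 1 1
      rw [mul_one] at h1
      exact left_eq_add.1 h1
    let fL : Additive G →ₗ[ZMod 2] ZMod 2 := AddMonoidHom.toZModLinearMap 2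
      ({ toFun := fun g => f (Additive.toMul g)
         map_zero' := hf1
         map_add' := fun g h => hf _ _ } : Additive G →+ ZMod 2)
    obtain ⟨c, hc⟩ := hM2 (⋃ g ∈ A, ((b.repr (Additive.ofMul g)).support : Set G))
      (hA.biUnion fun g _ => (b.repr (Additive.ofMul g)).support.countable_toSet)
      (fun x => fL (b x))
    refine ⟨c, fun g hg => ?_⟩
    have h1 : fL = b.constr (ZMod 2) fun x => fL (b x) := (Module.Basis.constr_self b (ZMod 2) fL).symm
    change φL c (Additive.ofMul g) = fL (Additive.ofMul g)
    rw [h1, Module.Basis.constr_apply, Module.Basis.constr_apply]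
    refine Finset.sum_congr rfl fun x hx => ?_
    dsimp only
    have h2 : M x c = fL (b x) := hc x (Set.mem_biUnion hg (Finset.mem_coe.2 hx))
    rw [h2]
  have hsep : ∀ g : G, (∀ c, φ c g = 0) → g = 1 := by
    intro g hg
    have h1 : b.repr (Additive.ofMul g) = 0 := by
      ext x
      obtain ⟨c, hc⟩ := hb {g} (Set.countable_singleton g) (fun g => b.repr (Additive.ofMul g) x)
        (fun y z => by rw [ofMul_mul, map_add, Finsupp.add_apply])
      have h2 := hc g rfl
      rw [hg c] at h2
      exact h2.symm
    have h2 : Additive.ofMul g = 0 := by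
      apply b.repr.injective
      rw [h1, map_zero]
    exact Additive.ofMul.injective h2
  let t : TopologicalSpace G := TopologicalSpace.induced (fun g c => φ c g) inferInstance
  have hind : @IsInducing G (C → ZMod 2) t _ fun g c => φ c g := ⟨rfl⟩
  refine ⟨t, ?_, ?_, ?_, ?_, ?_, ?_⟩
  · let Φ : G →* Multiplicative (C → ZMod 2) :=
      { toFun := fun g => Multiplicative.ofAdd fun c => φ c g
        map_one' := by
          apply Multiplicative.toAdd.injective
          funext c
          have h1 := hφ c 1 1
          rw [mul_one] at h1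
          exact left_eq_add.1 h1
        map_mul' := fun x y => by
          apply Multiplicative.toAdd.injective
          funext c
          exact hφ c x y }
    exact topologicalGroup_induced Φ
  · have hinj : Function.Injective fun (g : G) (c : C) => φ c g := by
      intro g h hgh
      have h1 : g * h = 1 := by
        apply hsep
        intro c
        have h2 : φ c g = φ c h := congrFun hgh c
        rw [hφ, h2]
        exact CharTwo.add_self_eq_zero _
      calc g = g * (h * h) := by rw [hB h, mul_one]
        _ = h := by rw [← mul_assoc, h1, one_mul]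
    exact (⟨hind, hinj⟩ : IsEmbedding fun (g : G) (c : C) => φ c g).t2Space
  · exact pseudocompact_of_pat hind ha
  · exact reflexive_of_pat hB hφ hind hsep ha hb
  · exact not_selectively hB hφ hind ha hb
  · exact fun K hK => compact_finite' hB (fun A hA f hf => by
      obtain ⟨c, hc⟩ := hb A hA f hf
      exact ⟨φ c, continuous_phi hind c, hc⟩) hK

end Pool.Agent.R821.Bp
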