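import Mathlib

/-!
# Matrices all of whose countable patterns are realised by rows and by columns
-/

set_option autoImplicit false

open Filter Topology Cardinal

namespace Pool.Agent.R821.Bp

universe u

/-- every countable pattern on `Z` is realised by a member of the family `δ` -/
def Pat {X Z : Type*} (δ : X → Z → ZMod 2) : Prop :=
  ∀ S : Set Z, S.Countable → ∀ s : Z → ZMod 2, ∃ x, ∀ z ∈ S, δ x z = s z

theorem Pat.comp {X Z Z' : Type*} {δ : X → Z → ZMod 2} (h : Pat δ) (f : Z' → Z)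
    (hf : Function.Injective f) : Pat fun x z => δ x (f z) := by
  classical
  intro S hS s
  obtain ⟨x, hx⟩ := h (f '' S) (hS.image f)
    (fun z => if hz : ∃ z' : Z', f z' = z then s hz.choose else 0)
  refine ⟨x, fun z hz => ?_⟩
  beta_reduce
  rw [hx (f z) ⟨z, hz, rfl⟩]
  have hex : ∃ z' : Z', f z' = f z := ⟨z, rfl⟩
  rw [dif_pos hex, hf hex.choose_spec]

/-- the initial segment of length `n` of the sequence `y` -/
def pre {Λ : Type*} (y : ℕ → Λ) (n : ℕ) : List Λ := (List.range n).map y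

theorem pre_eq {Λ : Type*} {y y' : ℕ → Λ} {n n' : ℕ} (h : pre y n = pre y' n') :
    ∀ m < n, y m = y' m := by
  have h1 : n = n' := by
    have := congrArg List.length h
    simpa [pre] using this
  subst h1
  intro m hm
  have h2 := (List.map_inj_left.1 h) m (List.mem_range.2 hm)
  exact h2

theorem zmod_two (a : ZMod 2) : a = 0 ∨ a = 1 := by
  revert a; decide

open Classical in
/-- patterns on sequences from patterns on finite sequences -/
theorem pat_limit {X Λ : Type*} (δ : X → List Λ → ZMod 2) (h : Pat δ) :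
    Pat fun (x : X) (y : ℕ → Λ) =>
      if ∃ N, ∀ n ≥ N, δ x (pre y n) = 1 then (1 : ZMod 2) else 0 := by
  intro S hS s
  rcases S.eq_empty_or_nonempty with rfl | hne
  · obtain ⟨x, -⟩ := h ∅ Set.countable_empty (fun _ => 0)
    exact ⟨x, fun z hz => absurd hz (Set.notMem_empty z)⟩
  obtain ⟨e, rfl⟩ := hS.exists_eq_range hne
  let p : List Λ → ZMod 2 := fun t =>
    if ht : ∃ k, ∃ n, t = pre (e k) n then s (e (Nat.find ht)) else 0
  obtain ⟨x, hx⟩ := h (Set.range fun q : ℕ × ℕ => pre (e q.1) q.2) (Set.countable_range _) p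
  refine ⟨x, ?_⟩
  rintro _ ⟨k0, rfl⟩
  -- the least index of the sequence
  have hk0 : ∃ k, e k = e k0 := ⟨k0, rfl⟩
  obtain ⟨k, hk, hmin⟩ : ∃ k, e k = e k0 ∧ ∀ j < k, e j ≠ e k0 :=
    ⟨Nat.find hk0, Nat.find_spec hk0, fun j hj => Nat.find_min hk0 hj⟩
  rw [← hk] at hmin ⊢
  have hdiff : ∀ j < k, ∃ m, e j m ≠ e k m := by
    intro j hj
    by_contra hcon
    push Not at hcon
    exact hmin j hj (funext hcon)
  choose! m hm using hdiff
  obtain ⟨N, hN⟩ : ∃ N, ∀ j < k, m j < N :=
    ⟨(Finset.range k).sup m + 1, fun j hj =>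
      Nat.lt_succ_of_le (Finset.le_sup (Finset.mem_range.2 hj))⟩
  have key : ∀ n ≥ N, δ x (pre (e k) n) = s (e k) := by
    intro n hn
    rw [hx (pre (e k) n) ⟨(k, n), rfl⟩]
    have hex : ∃ k', ∃ n', pre (e k) n = pre (e k') n' := ⟨k, n, rfl⟩
    change (if ht : ∃ k', ∃ n', pre (e k) n = pre (e k') n' then s (e (Nat.find ht)) else 0) = _
    rw [dif_pos hex]
    have hfind : Nat.find hex = k := by
      rw [Nat.find_eq_iff]
      refine ⟨⟨n, rfl⟩, ?_⟩
      rintro j hj ⟨n', hn'⟩
      exact hm j hj (pre_eq hn' (m j) ((hN j hj).trans_le hn)).symm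
    rw [hfind]
  beta_reduce
  rcases zmod_two (s (e k)) with h0 | h1
  · rw [h0, if_neg]
    rintro ⟨N', hN'⟩
    have h2 := hN' (max N N') (le_max_right _ _)
    rw [key _ (le_max_left _ _), h0] at h2
    exact zero_ne_one h2
  · rw [h1, if_pos ⟨N, fun n hn => (key n hn).trans h1⟩]

open Classical in
/-- the functions on `Λ → ZMod 2` which depend on countably many coordinates realise all the countable
patterns -/
theorem pat_dual {Λ : Type*} [Nonempty Λ] :
    Pat fun (c : (ℕ → Λ) × (ℕ → Option (ℕ → ZMod 2))) (x : Λ → ZMod 2) =>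
      if ∃ n, c.2 n = some (fun k => x (c.1 k)) then (1 : ZMod 2) else 0 := by
  intro S hS s
  rcases S.eq_empty_or_nonempty with rfl | hne
  · exact ⟨(fun _ => Classical.arbitrary Λ, fun _ => none), fun z hz => absurd hz (Set.notMem_empty z)⟩
  obtain ⟨e, rfl⟩ := hS.exists_eq_range hne
  have hsep : ∀ i j, ∃ l : Λ, e i ≠ e j → e i l ≠ e j l := by
    intro i j
    by_cases h : e i = e j
    · exact ⟨Classical.arbitrary Λ, fun h' => absurd h h'⟩
    · obtain ⟨l, hl⟩ := Function.ne_iff.1 h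
      exact ⟨l, fun _ => hl⟩
  choose l hl using hsep
  let c1 : ℕ → Λ := fun k => l k.unpair.1 k.unpair.2
  refine ⟨(c1, fun n => if s (e n) = 1 then some (fun k => e n (c1 k)) else none), ?_⟩
  rintro _ ⟨m, rfl⟩
  dsimp only
  rcases zmod_two (s (e m)) with h0 | h1
  · rw [h0, if_neg]
    rintro ⟨n, hn⟩
    split_ifs at hn with h2
    have h3 : (fun k => e n (c1 k)) = fun k => e m (c1 k) := Option.some.inj hn
    have h4 : e n = e m := by
      by_contra hne
      have h5 := congrFun h3 (Nat.pair n m)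
      simp only [c1, Nat.unpair_pair] at h5
      exact hl n m hne h5
    rw [h4, h0] at h2
    exact zero_ne_one h2
  · rw [h1, if_pos ⟨m, by rw [if_pos h1]⟩]

theorem mk_seq : #(ℕ → ZMod 2) = 𝔠 := by
  simp

/-- **The matrix.** If a family of functions on an infinite set `Λ` indexed by `X` separates the points
of `X` and realises all countable patterns on `Λ`, then there is a matrix with rows indexed by `X` all of
whose countable patterns are realised by rows and by columns. -/
theorem exists_matrix {X Λ : Type u} [Infinite Λ] (δ : X → Λ → ZMod 2)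
    (hinj : Function.Injective δ) (hp : Pat δ) :
    ∃ (C : Type u) (_ : Infinite C) (M : X → C → ZMod 2), Pat M ∧ Pat fun c x => M x c := by
  classical
  -- the size of `X`
  have hX : 𝔠 ≤ #X := by
    let f := Infinite.natEmbedding Λ
    have h1 := hp.comp f f.injective
    have hsurj : Function.Surjective fun (x : X) (n : ℕ) => δ x (f n) := by
      intro s
      obtain ⟨x, hx⟩ := h1 Set.univ Set.countable_univ s
      exact ⟨x, funext fun n => hx n trivial⟩
    have h2 := Cardinal.mk_le_of_surjective (α := ULift.{0} X) (β := ULift.{u} (ℕ → ZMod 2))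
      (f := fun x => ULift.up fun n => δ x.down (f n)) (fun s => by
        obtain ⟨x, hx⟩ := hsurj s.down
        exact ⟨⟨x⟩, ULift.down_injective hx⟩)
    rw [Cardinal.mk_uLift, Cardinal.mk_uLift, mk_seq] at h2
    simpa using h2
  let W := ℕ → ZMod 2
  let WX := ℕ → W
  let C0 := (ℕ → Λ) × (ℕ → Option (ℕ → ZMod 2))
  let C := C0 × W
  have hΛ : 𝔠 ≤ #(ℕ → Λ) := by
    have h1 : #(ℕ → Λ) = #Λ ^ ℵ₀ := by simp
    rw [h1]
    have h2 : (2 : Cardinal.{u}) ≤ #Λ := (Cardinal.natCast_lt_aleph0 (n := 2)).le.trans (Cardinal.aleph0_le_mk Λ)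
    calc 𝔠 = 2 ^ ℵ₀ := (Cardinal.two_power_aleph0).symm
      _ ≤ _ := Cardinal.power_le_power_right h2
  have hC : #C ≤ #(ℕ → Λ) := by
    have hO : #(ℕ → Option (ℕ → ZMod 2)) = 𝔠 := by
      have : #(Option (ℕ → ZMod 2)) = 𝔠 := by
        rw [Cardinal.mk_option, mk_seq, Cardinal.add_eq_left Cardinal.aleph0_le_continuum]
        exact (Cardinal.one_le_aleph0).trans Cardinal.aleph0_le_continuum
      simp [this]
    have h0 : ℵ₀ ≤ #(ℕ → Λ) := Cardinal.aleph0_le_continuum.trans hΛ
    have h1 : #C0 = #(ℕ → Λ) := by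
      rw [Cardinal.mk_prod, hO, Cardinal.lift_continuum, Cardinal.lift_uzero]
      exact Cardinal.mul_eq_left h0 hΛ Cardinal.continuum_ne_zero
    rw [Cardinal.mk_prod, h1, mk_seq, Cardinal.lift_continuum, Cardinal.lift_uzero,
      Cardinal.mul_eq_left h0 hΛ Cardinal.continuum_ne_zero]
  obtain ⟨jC⟩ := (Cardinal.le_def _ _).1 hC
  have hW : #(X × WX) = #X := by
    have : #WX = 𝔠 := by simp [WX, W]
    rw [Cardinal.mk_prod, this, Cardinal.lift_continuum, Cardinal.lift_uzero]
    exact Cardinal.mul_eq_left (Cardinal.aleph0_le_continuum.trans hX) hX Cardinal.continuum_ne_zero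
  obtain ⟨eX⟩ := Cardinal.eq.1 hW
  have hL : #(List Λ) = #Λ := Cardinal.mk_list_eq_mk Λ
  obtain ⟨eL⟩ := Cardinal.eq.1 hL
  -- patterns on `C`
  obtain ⟨d, hd⟩ : ∃ d : X → C → ZMod 2, Pat d := ⟨_, (pat_limit _ (hp.comp eL eL.injective)).comp jC jC.injective⟩
  -- dual patterns
  obtain ⟨g, hg⟩ : ∃ g : C0 → (X × WX) → ZMod 2, Pat g :=
    ⟨_, (pat_dual (Λ := Λ)).comp (fun x => δ (eX x)) (hinj.comp eX.injective)⟩
  let M : X × WX → C → ZMod 2 := fun x c =>
    if c.2 ∈ Set.range x.2 then d x.1 c else g c.1 x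
  have hM1 : Pat M := by
    intro S hS s
    obtain ⟨x, hx⟩ := hd S hS s
    obtain ⟨i, hi⟩ : ∃ i : ℕ → W, Prod.snd '' S ⊆ Set.range i := by
      rcases (Prod.snd '' S).eq_empty_or_nonempty with h | h
      · exact ⟨fun _ => 0, by rw [h]; exact Set.empty_subset _⟩
      · obtain ⟨i, hi⟩ := (hS.image Prod.snd).exists_eq_range h
        exact ⟨i, hi.subset⟩
    refine ⟨(x, i), fun c hc => ?_⟩
    change (if c.2 ∈ Set.range i then d x c else g c.1 (x, i)) = s c
    rw [if_pos (hi ⟨c, hc, rfl⟩), hx c hc]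
  have hM2 : Pat fun c x => M x c := by
    intro A hA t
    obtain ⟨c, hc⟩ := hg A hA t
    have hcount : (⋃ x ∈ A, Set.range x.2 : Set W).Countable :=
      hA.biUnion fun x _ => Set.countable_range _
    obtain ⟨j, hj⟩ : ∃ j : W, j ∉ (⋃ x ∈ A, Set.range x.2 : Set W) := by
      by_contra hcon
      push Not at hcon
      have h1 : (Set.univ : Set W).Countable := hcount.mono fun j _ => hcon j
      have h2 : #W ≤ ℵ₀ := by
        have := h1.le_aleph0
        rwa [Cardinal.mk_univ] at this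
      have h3 : #W = 𝔠 := mk_seq
      rw [h3] at h2
      exact absurd h2 (not_le.2 Cardinal.aleph0_lt_continuum)
    refine ⟨(c, j), fun x hx => ?_⟩
    change (if j ∈ Set.range x.2 then d x.1 (c, j) else g c x) = t x
    rw [if_neg, hc x hx]
    intro h
    exact hj (Set.mem_biUnion hx h)
  refine ⟨C, ?_, fun x c => M (eX.symm x) c, ?_, ?_⟩
  · have : Infinite (ℕ → Λ) := inferInstance
    have : Infinite C0 := Prod.infinite_of_left
    exact Prod.infinite_of_left
  · intro S hS s
    obtain ⟨x, hx⟩ := hM1 S hS s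
    exact ⟨eX x, fun c hc => by beta_reduce; rw [Equiv.symm_apply_apply]; exact hx c hc⟩
  · exact hM2.comp eX.symm eX.symm.injective

end Pool.Agent.R821.Bp
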