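import Pool.Agent.R821.BpTop
import Pool.Agent.R821.BohrBoolean

/-!
# Boolean groups all of whose countable patterns are realised: reflexivity
-/

set_option autoImplicit false

open Filter Topology Cardinal

namespace Pool.Agent.R821.Bp

universe u v

theorem circle_mul_one {z w : Circle} (hz : z * z = 1) (hw : w * w = 1) (h1 : z ≠ 1) (h2 : w ≠ 1) :
    z * w = 1 := by
  have key : ∀ {z : Circle}, z * z = 1 → z ≠ 1 → (z : ℂ) = -1 := by
    intro z hz h1
    have h3 : (z : ℂ) * (z : ℂ) = 1 := by
      rw [← Circle.coe_mul, hz, Circle.coe_one]
    rcases mul_self_eq_one_iff.1 h3 with h4 | h4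
    · exact absurd (Circle.ext (by rw [h4, Circle.coe_one])) h1
    · exact h4
  apply Circle.ext
  rw [Circle.coe_mul, key hz h1, key hw h2, Circle.coe_one]
  norm_num

/-- a `±1`-valued character which vanishes on a finite intersection of kernels of `±1`-valued characters
is a product of these characters -/
theorem char_prod {Q : Type*} [CommGroup Q] {ι : Type*} (e : ι → Q →* Circle)
    (he : ∀ i x, e i x * e i x = 1) (F : Finset ι) : ∀ θ : Q →* Circle, (∀ x, θ x * θ x = 1) →
    (∀ x, (∀ i ∈ F, e i x = 1) → θ x = 1) → ∃ F' ⊆ F, θ = ∏ i ∈ F', e i := by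
  classical
  induction F using Finset.induction_on with
  | empty =>
    intro θ _ h
    refine ⟨∅, Finset.Subset.refl _, ?_⟩
    rw [Finset.prod_empty]
    ext x
    rw [h x (fun i hi => absurd hi (Finset.notMem_empty i))]
    rfl
  | insert j F0 hj ih =>
    intro θ hθ h
    by_cases h0 : ∀ x, (∀ i ∈ F0, e i x = 1) → θ x = 1
    · obtain ⟨F', hF', hF⟩ := ih θ hθ h0
      exact ⟨F', hF'.trans (Finset.subset_insert _ _), hF⟩
    · push Not at h0
      obtain ⟨x, hx, hxθ⟩ := h0
      have hjx : e j x ≠ 1 := by
        intro h1
        apply hxθ
        apply h x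
        intro i hi
        rcases Finset.mem_insert.1 hi with rfl | hi
        · exact h1
        · exact hx i hi
      obtain ⟨F', hF', hF⟩ := ih (θ * e j) (fun y => by
        rw [MonoidHom.mul_apply, mul_mul_mul_comm, hθ, he, one_mul]) (by
        intro y hy
        rw [MonoidHom.mul_apply]
        by_cases h1 : e j y = 1
        · rw [h1, mul_one]
          apply h y
          intro i hi
          rcases Finset.mem_insert.1 hi with rfl | hi
          · exact h1
          · exact hy i hi
        · have h2 : θ (x * y) = 1 := by
            apply h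
            intro i hi
            rcases Finset.mem_insert.1 hi with rfl | hi
            · rw [map_mul]
              exact circle_mul_one (he _ _) (he _ _) hjx h1
            · rw [map_mul, hx i hi, hy i hi, mul_one]
          have h3 : θ y ≠ 1 := by
            intro h4
            rw [map_mul, h4, mul_one] at h2
            exact hxθ h2
          exact circle_mul_one (hθ _) (he _ _) h3 h1)
      have hjF : j ∉ F' := fun h => hj (hF' h)
      refine ⟨insert j F', Finset.insert_subset_insert _ hF', ?_⟩
      rw [Finset.prod_insert hjF, ← hF]
      ext y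
      rw [MonoidHom.mul_apply, MonoidHom.mul_apply, mul_left_comm, he, mul_one]

/-- if all compact sets are finite then the compact-open topology is the topology of pointwise
convergence -/
theorem inducing_coe {Y Z : Type*} [TopologicalSpace Y] [TopologicalSpace Z]
    (h : ∀ K : Set Y, IsCompact K → K.Finite) : IsInducing fun (f : C(Y, Z)) (y : Y) => f y := by
  constructor
  apply le_antisymm
  · apply continuous_iff_le_induced.1
    exact continuous_pi fun y => continuous_eval_const y
  · rw [ContinuousMap.compactOpen_eq]
    apply le_generateFrom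
    rintro _ ⟨K, hK, U, hU, rfl⟩
    have h1 : {f : C(Y, Z) | Set.MapsTo f K U} =
        (fun (f : C(Y, Z)) (y : Y) => f y) ⁻¹' (⋂ y ∈ K, {g : Y → Z | g y ∈ U}) := by
      ext f
      simp [Set.MapsTo]
    have h2 : IsOpen (⋂ y ∈ K, {g : Y → Z | g y ∈ U}) := by
      refine (h K hK).isOpen_biInter fun y _ => ?_
      have hU' : IsOpen U := hU
      exact hU'.preimage (continuous_apply y)
    exact isOpen_induced_iff.2 ⟨_, h2, h1.symm⟩

theorem dual_inducing {A : Type*} [Monoid A] [TopologicalSpace A]
    (hK : ∀ K : Set A, IsCompact K → K.Finite) :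
    IsInducing fun (χ : PontryaginDual A) (a : A) => χ a :=
  (inducing_coe hK).comp (ContinuousMonoidHom.isInducing_toContinuousMap A Circle)

open Classical in
/-- the exponent of a circle element of order at most two -/
noncomputable def expo (z : Circle) : ZMod 2 := if z = 1 then 0 else 1

theorem expo_toCircle (a : ZMod 2) : expo (ZMod.toCircle a) = a := by
  rcases zmod_two a with rfl | rfl
  · simp [expo]
  · unfold expo
    rw [if_neg]
    intro h
    have : (1 : ZMod 2) = 0 := ZMod.injective_toCircle (h.trans (by simp))
    exact one_ne_zero this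

theorem toCircle_sq (a : ZMod 2) : ZMod.toCircle a * ZMod.toCircle a = 1 := by
  rw [← AddChar.map_add_eq_mul, CharTwo.add_self_eq_zero, AddChar.map_zero_eq_one]

/-- the exponent of a continuous family of circle elements of order at most two is continuous -/
theorem continuous_expo {X : Type*} [TopologicalSpace X] {f : X → Circle} (hf : Continuous f)
    (h : ∀ x, f x * f x = 1) : Continuous fun x => expo (f x) := by
  have key : ∀ x, expo (f x) = 0 ↔ 0 < ((f x : Circle) : ℂ).re := by
    intro x
    constructor
    · intro h1
      have : f x = 1 := by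
        by_contra h2
        unfold expo at h1
        rw [if_neg h2] at h1
        exact one_ne_zero h1
      rw [this]
      simp
    · intro h1
      unfold expo
      rw [if_pos (circle_eq_one (h x) h1)]
  have key' : ∀ x, expo (f x) = 1 ↔ ((f x : Circle) : ℂ).re < 0 := by
    intro x
    constructor
    · intro h1
      have h2 : f x ≠ 1 := by
        intro h2
        unfold expo at h1
        rw [if_pos h2] at h1
        exact zero_ne_one h1
      have h3 : ((f x : Circle) : ℂ) * (f x : ℂ) = 1 := by
        rw [← Circle.coe_mul, h, Circle.coe_one]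
      rcases mul_self_eq_one_iff.1 h3 with h4 | h4
      · exact absurd (Circle.ext (by rw [h4, Circle.coe_one])) h2
      · rw [h4]; norm_num
    · intro h1
      rcases zmod_two (expo (f x)) with h2 | h2
      · have := (key x).1 h2
        linarith
      · exact h2
  have hre : Continuous fun x => ((f x : Circle) : ℂ).re :=
    Complex.continuous_re.comp (by fun_prop)
  rw [continuous_discrete_rng]
  intro b
  rcases zmod_two b with rfl | rfl
  · have : (fun x => expo (f x)) ⁻¹' {0} = {x | 0 < ((f x : Circle) : ℂ).re} := by
      ext x; exact key x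
    rw [this]
    exact isOpen_lt continuous_const hre
  · have : (fun x => expo (f x)) ⁻¹' {1} = {x | ((f x : Circle) : ℂ).re < 0} := by
      ext x; exact key' x
    rw [this]
    exact isOpen_lt hre continuous_const

theorem induced_le_induced {G P C : Type*} (β : G → P → Circle) (φ : C → G → ZMod 2)
    (h : ∀ c, ∃ χ, ∀ g, β g χ * β g χ = 1 ∧ φ c g = expo (β g χ)) :
    TopologicalSpace.induced β inferInstance ≤
      TopologicalSpace.induced (fun g c => φ c g) inferInstance := by
  apply continuous_iff_le_induced.1
  let _ : TopologicalSpace G := TopologicalSpace.induced β inferInstance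
  refine continuous_pi fun c => ?_
  obtain ⟨χ, hχ⟩ := h c
  have h1 : Continuous fun g : G => β g χ := by
    have h2 : Continuous β := continuous_induced_dom
    exact (continuous_apply χ).comp h2
  have h3 := continuous_expo h1 (fun g => (hχ g).1)
  have h4 : (fun g : G => expo (β g χ)) = fun g => φ c g := by
    funext g
    exact (hχ g).2.symm
  rw [h4] at h3
  exact h3

section Main

variable {G : Type u} [CommGroup G] {C : Type v} {φ : C → G → ZMod 2}

/-- **Reflexivity.** A Boolean group with the topology induced by homomorphisms `φ c` to `ℤ/2` is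
reflexive if all countable patterns on `C` are realised by elements of the group and all homomorphisms
from countable subgroups to `ℤ/2` are realised by the `φ c`. -/
theorem reflexive_of_pat (hB : ∀ x : G, x * x = 1) [TopologicalSpace G]
    (hφ : ∀ c x y, φ c (x * y) = φ c x + φ c y)
    (hind : IsInducing fun (g : G) (c : C) => φ c g)
    (hsep : ∀ g : G, (∀ c, φ c g = 0) → g = 1)
    (ha : Pat fun g c => φ c g)
    (hb : ∀ A : Set G, A.Countable → ∀ f : G → ZMod 2, (∀ x y, f (x * y) = f x + f y) →
      ∃ c, ∀ g ∈ A, φ c g = f g) : Reflexive G := by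
  classical
  have hcont := continuous_phi hind
  have hφ1 : ∀ c, φ c 1 = 0 := by
    intro c
    have h1 := hφ c 1 1
    rw [mul_one] at h1
    exact left_eq_add.1 h1
  -- compact subsets of `G` are finite
  have hKG : ∀ K : Set G, IsCompact K → K.Finite := fun K hK =>
    compact_finite' hB (fun A hA f hf => by
      obtain ⟨c, hc⟩ := hb A hA f hf
      exact ⟨φ c, hcont c, hc⟩) hK
  have hP := dual_inducing hKG
  have hsqP : ∀ (χ : PontryaginDual G) (g : G), χ g * χ g = 1 := fun χ g => by
    rw [← map_mul, hB, map_one]
  -- the coordinate characters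
  let χc : C → PontryaginDual G := fun c =>
    { toFun := fun g => ZMod.toCircle (φ c g)
      map_one' := by rw [hφ1]; simp
      map_mul' := fun g h => by rw [hφ, AddChar.map_add_eq_mul]
      continuous_toFun := by
        have h1 : Continuous fun a : ZMod 2 => ZMod.toCircle a := continuous_of_discreteTopology
        exact h1.comp (hcont c) }
  have hχc : ∀ c g, χc c g = ZMod.toCircle (φ c g) := fun c g => rfl
  -- every character is a product of coordinate characters
  have hchar : ∀ χ : PontryaginDual G, ∃ F : Finset C, ∀ g, χ g = ∏ c ∈ F, χc c g := by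
    intro χ
    have hO : {g | 0 < ((χ g : Circle) : ℂ).re} ∈ 𝓝 (1 : G) := by
      refine (isOpen_re.preimage χ.continuous_toFun).mem_nhds ?_
      change 0 < ((χ 1 : Circle) : ℂ).re
      rw [map_one]
      simp
    obtain ⟨F, hF⟩ := nb hind hO
    obtain ⟨F', -, hF'⟩ := char_prod (fun c => (χc c : G →* Circle)) (fun c g => hsqP (χc c) g) F
      (χ : G →* Circle) (fun g => hsqP χ g) (by
        intro g hg
        refine circle_eq_one (hsqP χ g) (hF g fun c hc => ?_)
        have h1 : ZMod.toCircle (φ c g) = 1 := hg c hc
        rw [hφ1, ← expo_toCircle (φ c g), h1]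
        simp [expo])
    refine ⟨F', fun g => ?_⟩
    have h1 : (χ : G →* Circle) g = (∏ c ∈ F', (χc c : G →* Circle)) g := by rw [← hF']
    rw [MonoidHom.finsetProd_apply] at h1
    exact h1
  have hBP : ∀ χ : PontryaginDual G, χ * χ = 1 := by
    intro χ
    ext g
    exact congrArg _ (hsqP χ g)
  have hevc : ∀ g : G, Continuous fun χ : PontryaginDual G => χ g := fun g =>
    (continuous_apply g).comp hP.continuous
  -- compact subsets of the dual are finite
  have hKP : ∀ K : Set (PontryaginDual G), IsCompact K → K.Finite := by
    intro K hK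
    refine compact_finite' hBP (fun A hA f hf => ?_) hK
    choose F hF using hchar
    obtain ⟨g, hg⟩ := ha (⋃ χ ∈ A, (F χ : Set C)) (hA.biUnion fun χ _ => (F χ).countable_toSet)
      (fun c => f (χc c))
    refine ⟨fun χ => expo (χ g), continuous_expo (hevc g) (fun χ => hsqP χ g), fun χ hχ => ?_⟩
    have hf1 : f 1 = 0 := by
      have h1 := hf 1 1
      rw [mul_one] at h1
      exact left_eq_add.1 h1
    have h1 : χ = ∏ c ∈ F χ, χc c := by
      ext g'
      rw [hF χ g']
      congr 1
      have h2 : ∀ s : Finset C, (∏ c ∈ s, χc c) g' = ∏ c ∈ s, χc c g' := by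
        intro s
        induction s using Finset.induction_on with
        | empty => rfl
        | insert j s hj ih =>
          rw [Finset.prod_insert hj, Finset.prod_insert hj, ← ih]
          rfl
      exact (h2 _).symm
    have h3 : ∀ s : Finset C, f (∏ c ∈ s, χc c) = ∑ c ∈ s, f (χc c) := by
      intro s
      induction s using Finset.induction_on with
      | empty => rw [Finset.prod_empty, Finset.sum_empty, hf1]
      | insert j s hj ih => rw [Finset.prod_insert hj, Finset.sum_insert hj, hf, ih]
    have h4 : χ g = ZMod.toCircle (f χ) := by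
      have h5 : ∀ s : Finset C, s ⊆ F χ → ∏ c ∈ s, χc c g = ZMod.toCircle (∑ c ∈ s, f (χc c)) := by
        intro s
        induction s using Finset.induction_on with
        | empty => intro _; simp
        | insert j s hj ih =>
          intro hs
          rw [Finset.prod_insert hj, Finset.sum_insert hj, AddChar.map_add_eq_mul,
            ih ((Finset.subset_insert _ _).trans hs), hχc]
          have h6 : φ j g = f (χc j) :=
            hg j (Set.mem_biUnion hχ (Finset.mem_coe.2 (hs (Finset.mem_insert_self _ _))))
          rw [h6]
      rw [hF χ g, h5 _ (Finset.Subset.refl _), ← h3, ← h1]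
    change expo (χ g) = f χ
    rw [h4, expo_toCircle]
  have hPP := dual_inducing hKP
  -- the evaluation map
  let α : G →* PontryaginDual (PontryaginDual G) :=
    { toFun := fun g =>
        { toFun := fun χ => χ g
          map_one' := rfl
          map_mul' := fun _ _ => rfl
          continuous_toFun := hevc g }
      map_one' := by
        ext χ
        exact congrArg _ (map_one χ)
      map_mul' := fun g h => by
        ext χ
        exact congrArg _ (map_mul χ g h) }
  have hα : ∀ g χ, α g χ = χ g := fun g χ => rfl
  have hαinj : Function.Injective α := by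
    rw [injective_iff_map_eq_one]
    intro g hg
    apply hsep
    intro c
    have h1 : α g (χc c) = 1 := by rw [hg]; rfl
    rw [hα, hχc] at h1
    rw [← expo_toCircle (φ c g), h1]
    simp [expo]
  have hαsurj : Function.Surjective α := by
    intro θ
    have hO : {χ | 0 < ((θ χ : Circle) : ℂ).re} ∈ 𝓝 (1 : PontryaginDual G) := by
      refine (isOpen_re.preimage θ.continuous_toFun).mem_nhds ?_
      change 0 < ((θ 1 : Circle) : ℂ).re
      rw [map_one]
      simp
    rw [hP.nhds_eq_comap, Filter.mem_comap] at hO
    obtain ⟨t, ht, htO⟩ := hO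
    rw [nhds_pi, Filter.mem_pi] at ht
    obtain ⟨I, hI, s, hs, hst⟩ := ht
    have hsqθ : ∀ χ, θ χ * θ χ = 1 := fun χ => by rw [← map_mul, hBP, map_one]
    obtain ⟨F', -, hF'⟩ := char_prod (fun g => (α g : PontryaginDual G →* Circle))
      (fun g χ => hsqP χ g) hI.toFinset (θ : PontryaginDual G →* Circle) hsqθ (by
        intro χ hχ
        refine circle_eq_one (hsqθ χ) (htO (hst fun g hg => ?_))
        have h1 : χ g = 1 := hχ g (hI.mem_toFinset.2 hg)
        change χ g ∈ s g
        rw [h1]
        exact mem_of_mem_nhds (hs g))
    refine ⟨∏ g ∈ F', g, ?_⟩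
    ext χ
    have h1 : (θ : PontryaginDual G →* Circle) χ =
        (∏ g ∈ F', (α g : PontryaginDual G →* Circle)) χ := by rw [← hF']
    rw [MonoidHom.finsetProd_apply] at h1
    have h2 : θ χ = ∏ g ∈ F', χ g := h1
    rw [hα, map_prod, h2]
  have hαind : IsInducing α := by
    rw [← hPP.of_comp_iff]
    constructor
    apply le_antisymm
    · apply continuous_iff_le_induced.1
      exact continuous_pi fun χ => χ.continuous_toFun
    · refine le_of_le_of_eq (induced_le_induced _ _ fun c => ⟨χc c, fun g => ⟨hsqP (χc c) g, ?_⟩⟩)
        hind.eq_induced.symm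
      change φ c g = expo (χc c g)
      rw [hχc, expo_toCircle]
  let E : G ≃* PontryaginDual (PontryaginDual G) := MulEquiv.ofBijective α ⟨hαinj, hαsurj⟩
  refine ⟨{ toMulEquiv := E
            continuous_toFun := hαind.continuous
            continuous_invFun := ?_ }, fun g χ => rfl⟩
  rw [hαind.continuous_iff]
  have : (α ∘ E.invFun) = id := by
    funext θ
    exact E.apply_symm_apply θ
  rw [this]
  exact continuous_id

end Main

end Pool.Agent.R821.Bp
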