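import Mathlib
import Pool.Agent.TH264.Bridge.PW

/-!
# Pseudocompact Boolean groups: open subgroups separate points
-/

set_option autoImplicit false

open Filter Topology Pointwise

namespace Pool.Agent.R821.Bp

universe u

/-- A space is pseudocompact if every continuous real-valued function on it is bounded. -/
def Pseudocompact (X : Type u) [TopologicalSpace X] : Prop :=
  ∀ f : X → ℝ, Continuous f → ∃ M : ℝ, ∀ x, |f x| ≤ M

/-- pseudocompact topological groups are precompact (adapted from the starting file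
`Pool/Agent/H658R3/ZM7.lean`, which is stated for `Type`) -/
theorem precompact_of_pseudocompact (G : Type u) [Group G] [TopologicalSpace G] [IsTopologicalGroup G]
    (h : Pseudocompact G) : ∀ U ∈ 𝓝 (1 : G), ∃ s : Finset G, ∀ y, ∃ x ∈ s, y ∈ x • U := by
  classical
  by_contra hcon
  push Not at hcon
  obtain ⟨U, hU, hF⟩ := hcon
  obtain ⟨u, -, hu⟩ := exists_seq_of_forall_finset_exists (fun _ : G => True)
    (fun x y => y ∉ x • U) (by
      intro s _
      obtain ⟨y, hy⟩ := hF s
      exact ⟨y, trivial, hy⟩)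
  obtain ⟨V, hV, hVU⟩ := exists_nhds_one_split4 hU
  obtain ⟨W, hWV, hWo, h1W⟩ := mem_nhds_iff.1 (inter_mem hV (inv_mem_nhds_one G hV))
  have hloc : ∀ x w1 w2 w3 w4 : G, ∀ m n, w1 ∈ W → w2 ∈ W → w3 ∈ W → w4 ∈ W →
      x * w1 = u m * w2 → x * w3 = u n * w4 → m = n := by
    have key : ∀ x w1 w2 w3 w4 : G, ∀ m n, w1 ∈ W → w2 ∈ W → w3 ∈ W → w4 ∈ W →
      x * w1 = u m * w2 → x * w3 = u n * w4 → ¬ m < n := by
      intro x w1 w2 w3 w4 m n h1 h2 h3 h4 e1 e2 hmn
      apply hu m n hmn
      rw [Set.mem_smul_set_iff_inv_smul_mem, smul_eq_mul]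
      have e3 : (u m)⁻¹ * u n = w2 * w1⁻¹ * w3 * w4⁻¹ := by
        have e4 : u n = x * w3 * w4⁻¹ := by rw [e2, mul_inv_cancel_right]
        have e5 : (u m)⁻¹ = w2 * w1⁻¹ * x⁻¹ := by
          have : u m = x * w1 * w2⁻¹ := by rw [e1, mul_inv_cancel_right]
          rw [this]; group
        rw [e4, e5]; group
      rw [e3]
      exact hVU (hWV h2).1 (by simpa using (hWV h1).2) (hWV h3).1 (by simpa using (hWV h4).2)
    intro x w1 w2 w3 w4 m n h1 h2 h3 h4 e1 e2
    rcases lt_trichotomy m n with h | h | h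
    · exact absurd h (key x w1 w2 w3 w4 m n h1 h2 h3 h4 e1 e2)
    · exact h
    · exact absurd h (key x w3 w4 w1 w2 n m h3 h4 h1 h2 e2 e1)
  let _ : UniformSpace G := IsTopologicalGroup.rightUniformSpace G
  obtain ⟨φ, hφ, hφ1, hφW⟩ := CompletelyRegularSpace.completely_regular_isOpen (1 : G) W hWo h1W
  let f : ℕ → G → ℝ := fun n x => n * (1 - (φ ((u n)⁻¹ * x) : ℝ))
  have hfc : ∀ n, Continuous (f n) := by
    intro n
    have : Continuous fun x => (φ ((u n)⁻¹ * x) : ℝ) :=
      continuous_subtype_val.comp (hφ.comp (continuous_const_mul _))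
    exact continuous_const.mul (continuous_const.sub this)
  have hsupp : ∀ n x, f n x ≠ 0 → ∃ w ∈ W, x = u n * w := by
    intro n x hx
    by_contra hcon
    apply hx
    have h1 : (u n)⁻¹ * x ∈ Wᶜ := fun hw => hcon ⟨_, hw, by rw [mul_inv_cancel_left]⟩
    have h2 := hφW h1
    change (n : ℝ) * (1 - (φ ((u n)⁻¹ * x) : ℝ)) = 0
    rw [h2]
    simp
  have hlf : LocallyFinite fun n => Function.support (f n) := by
    intro x
    refine ⟨(fun y => x⁻¹ * y) ⁻¹' W, ?_, ?_⟩
    · have hc : ContinuousAt (fun y : G => x⁻¹ * y) x := by fun_prop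
      apply hc
      simpa using hWo.mem_nhds h1W
    · apply Set.Subsingleton.finite
      rintro m ⟨y, hy, hyW⟩ n ⟨z, hz, hzW⟩
      obtain ⟨w2, hw2, e1⟩ := hsupp m y hy
      obtain ⟨w4, hw4, e2⟩ := hsupp n z hz
      exact hloc x (x⁻¹ * y) w2 (x⁻¹ * z) w4 m n hyW hw2 hzW hw4
        (by rw [mul_inv_cancel_left, e1]) (by rw [mul_inv_cancel_left, e2])
  obtain ⟨M, hM⟩ := h (fun x => ∑ᶠ n, f n x) (continuous_finsum hfc hlf)
  obtain ⟨k, hk⟩ := exists_nat_gt M
  have h1 : ∑ᶠ n, f n (u k) = k := by
    rw [finsum_eq_single _ k]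
    · change (k : ℝ) * (1 - (φ ((u k)⁻¹ * u k) : ℝ)) = k
      rw [inv_mul_cancel, hφ1]
      simp
    · intro n hn
      by_contra hne
      obtain ⟨w, hw, e⟩ := hsupp n (u k) hne
      apply hn
      exact (hloc (u k) 1 1 1 w k n h1W h1W h1W hw rfl (by rw [mul_one, e])).symm
  have h2 := hM (u k)
  rw [h1] at h2
  have h3 := le_abs_self (k : ℝ)
  linarith

/-- the circle elements of order at most two with positive real part -/
theorem circle_eq_one {z : Circle} (h2 : z * z = 1) (h : 0 < (z : ℂ).re) : z = 1 := by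
  have h3 : (z : ℂ) * (z : ℂ) = 1 := by
    rw [← Circle.coe_mul, h2, Circle.coe_one]
  rcases mul_self_eq_one_iff.1 h3 with h4 | h4
  · exact Circle.ext (by rw [h4, Circle.coe_one])
  · rw [h4] at h
    norm_num at h

theorem isOpen_re : IsOpen {z : Circle | 0 < (z : ℂ).re} :=
  isOpen_lt continuous_const (Complex.continuous_re.comp (by fun_prop))

/-- the continuous characters of a precompact Hausdorff abelian group separate points -/
theorem char_sep_precompact (V : Type u) [AddCommGroup V] [TopologicalSpace V]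
    [IsTopologicalAddGroup V] [T2Space V]
    (h : ∀ U ∈ 𝓝 (0 : V), ∃ s : Finset V, ∀ y, ∃ x ∈ s, y ∈ x +ᵥ U) (a : V) (ha : a ≠ 0) :
    ∃ χ : Multiplicative V →* Circle, Continuous χ ∧ χ (Multiplicative.ofAdd a) ≠ 1 := by
  let _ : UniformSpace V := IsTopologicalAddGroup.rightUniformSpace V
  have hu : IsUniformAddGroup V := isUniformAddGroup_of_addCommGroup
  have htb : TotallyBounded (Set.univ : Set V) := by
    rw [totallyBounded_iff_subset_finite_iUnion_nhds_zero]
    intro U hU
    obtain ⟨s, hs⟩ := h U hU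
    refine ⟨(s : Set V), s.finite_toSet, fun y _ => ?_⟩
    obtain ⟨x, hx, hy⟩ := hs y
    exact Set.mem_biUnion (Finset.mem_coe.2 hx) hy
  let K := UniformSpace.Completion V
  have hK : CompactSpace K := by
    refine ⟨isCompact_iff_totallyBounded_isComplete.2 ⟨?_, isComplete_univ⟩⟩
    have h1 := (htb.image (UniformSpace.Completion.uniformContinuous_coe V)).closure
    rw [Set.image_univ] at h1
    rw [← UniformSpace.Completion.denseRange_coe.closure_range]
    exact h1
  have hTK : IsTopologicalAddGroup K := inferInstance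
  have hT2 : T2Space K := inferInstance
  have hka : ((a : K)) ≠ 0 := by
    intro h0
    apply ha
    have h1 : (a : K) = ((0 : V) : K) := by rw [h0]; exact (UniformSpace.Completion.coe_zero).symm
    exact UniformSpace.Completion.coe_injective V h1
  have hT2' : T2Space (Multiplicative K) := hT2
  have hK' : CompactSpace (Multiplicative K) := hK
  obtain ⟨χ, hχ, hχa⟩ := Pool.Agent.TH264.Bridge.char_sep_mul (Multiplicative K)
    (Multiplicative.ofAdd (a : K)) (fun h0 => hka (Multiplicative.ofAdd.injective h0))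
  refine ⟨χ.comp (AddMonoidHom.toMultiplicative
    ({ toFun := fun v => (v : K), map_zero' := UniformSpace.Completion.coe_zero,
       map_add' := UniformSpace.Completion.coe_add } : V →+ K)), ?_, hχa⟩
  exact hχ.comp (UniformSpace.Completion.continuous_coe V)

/-- in a pseudocompact Boolean group, each point other than the identity is missed by an open
subgroup -/
theorem exists_open_subgroup (G : Type u) [CommGroup G] [TopologicalSpace G] [IsTopologicalGroup G]
    [T2Space G] (hB : ∀ x : G, x * x = 1) (hp : Pseudocompact G) (a : G) (ha : a ≠ 1) :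
    ∃ N : Subgroup G, IsOpen (N : Set G) ∧ a ∉ N := by
  have h1 := precompact_of_pseudocompact G hp
  have hT2 : T2Space (Additive G) := ‹T2Space G›
  obtain ⟨χ, hχ, hχa⟩ := char_sep_precompact (Additive G) h1 (Additive.ofMul a)
    (fun h0 => ha (by simpa using h0))
  let ψ : G →* Circle := χ
  have hψ : Continuous ψ := hχ
  refine ⟨ψ.ker, ?_, fun h => hχa (MonoidHom.mem_ker.1 h)⟩
  have h2 : (ψ.ker : Set G) = ψ ⁻¹' {z : Circle | 0 < (z : ℂ).re} := by
    ext g
    constructor
    · intro hg
      have : ψ g = 1 := hg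
      change 0 < ((ψ g : Circle) : ℂ).re
      rw [this]
      simp
    · intro hg
      exact circle_eq_one (by rw [← map_mul, hB, map_one]) hg
  rw [h2]
  exact isOpen_re.preimage hψ

end Pool.Agent.R821.Bp
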