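import Pool.Agent.R821.BpSep
import Pool.Agent.R821.BpMat

/-!
# Boolean groups all of whose countable patterns are realised: pseudocompactness
-/

set_option autoImplicit false

open Filter Topology Cardinal

namespace Pool.Agent.R821.Bp

universe u v

/-- A space is selectively pseudocompact if in each sequence `U 0, U 1, …` of nonempty open sets one can
choose points `x n ∈ U n` such that the sequence `x` has an accumulation point, that is, a point each
neighbourhood of which contains `x n` for infinitely many `n`. -/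
def SelectivelyPseudocompact (X : Type u) [TopologicalSpace X] : Prop :=
  ∀ U : ℕ → Set X, (∀ n, IsOpen (U n) ∧ (U n).Nonempty) →
    ∃ x : ℕ → X, (∀ n, x n ∈ U n) ∧ ∃ y : X, ∀ O ∈ 𝓝 y, {n | x n ∈ O}.Infinite

/-- given a linearly independent set `B` of a vector space over `ℤ/2` and a vector `c` there is a linear
functional which vanishes at `c` and at only finitely many elements of `B` -/
theorem exists_functional {V : Type u} [AddCommGroup V] [Module (ZMod 2) V] {B : Set V}
    (hli : LinearIndepOn (ZMod 2) id B) (c : V) :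
    ∃ f : V →ₗ[ZMod 2] ZMod 2, f c = 0 ∧ ({x | f x = 0} ∩ B).Finite := by
  classical
  let b := Module.Basis.extend hli
  let f : V →ₗ[ZMod 2] ZMod 2 := b.constr (ZMod 2)
    (fun i => if (i : V) ∈ B ∧ b.repr c i = 0 then (1 : ZMod 2) else 0)
  have hfc : f c = 0 := by
    rw [Module.Basis.constr_apply, Finsupp.sum]
    refine Finset.sum_eq_zero fun i hi => ?_
    rw [if_neg (fun h => (Finsupp.mem_support_iff.1 hi) h.2), smul_zero]
  refine ⟨f, hfc, ?_⟩
  have h2 : ({x | f x = 0} ∩ B) ⊆ (fun i : hli.extend (Set.subset_univ B) => (i : V)) ''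
      (((b.repr c).support : Finset (hli.extend (Set.subset_univ B))) : Set _) := by
    rintro x ⟨hx, hxB⟩
    have hxe : x ∈ hli.extend (Set.subset_univ B) := hli.subset_extend _ hxB
    refine ⟨⟨x, hxe⟩, ?_, rfl⟩
    rw [Finset.mem_coe, Finsupp.mem_support_iff]
    intro h0
    have h3 : f (b ⟨x, hxe⟩) = 1 := by
      rw [Module.Basis.constr_basis, if_pos ⟨hxB, h0⟩]
    have h4 : b ⟨x, hxe⟩ = x := Module.Basis.extend_apply_self hli ⟨x, hxe⟩
    rw [h4] at h3
    have h5 : f x = 0 := hx
    rw [h5] at h3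
    exact zero_ne_one h3
  exact ((b.repr c).support.finite_toSet.image _).subset h2

/-- the `ℤ/2`-module structure of a Boolean group -/
@[reducible] def boolMod {G : Type u} [CommGroup G] (hB : ∀ x : G, x * x = 1) :
    Module (ZMod 2) (Additive G) :=
  AddCommGroup.zmodModule (n := 2) (G := Additive G) fun x => by
    rw [two_nsmul]
    exact hB (Additive.toMul x)

/-- in a Boolean group such that every homomorphism to `ℤ/2` agrees on each countable set with a
continuous function, the compact sets are finite -/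
theorem compact_finite' {G : Type u} [CommGroup G] (hB : ∀ x : G, x * x = 1) [TopologicalSpace G]
    (hf : ∀ A : Set G, A.Countable → ∀ f : G → ZMod 2, (∀ x y, f (x * y) = f x + f y) →
      ∃ f' : G → ZMod 2, Continuous f' ∧ ∀ v ∈ A, f' v = f v)
    {K : Set G} (hK : IsCompact K) : K.Finite := by
  classical
  by_contra hinf
  let _ := boolMod hB
  let K' : Set (Additive G) := Additive.toMul ⁻¹' K
  have hK' : K'.Infinite := fun h => hinf (by
    have := h.image Additive.toMul
    rwa [Set.image_preimage_eq _ Additive.toMul.surjective] at this)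
  obtain ⟨B, hBK, hspan, hli⟩ := exists_linearIndependent (ZMod 2) K'
  have hBinf : B.Infinite := by
    intro hBfin
    have h1 : (Submodule.span (ZMod 2) B : Set (Additive G)).Finite := by
      have : Module.Finite (ZMod 2) (Submodule.span (ZMod 2) B) := Module.Finite.span_of_finite _ hBfin
      have h2 : Finite (Submodule.span (ZMod 2) B) := Module.finite_of_finite (ZMod 2)
      exact Set.toFinite _
    rw [hspan] at h1
    exact hK' (h1.subset Submodule.subset_span)
  let x : ℕ ↪ B := hBinf.natEmbedding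
  let A : Set (Additive G) := Set.range fun n => (x n : Additive G)
  have hAB : A ⊆ B := by
    rintro _ ⟨n, rfl⟩
    exact (x n).2
  have hAinf : (Additive.ofMul ⁻¹' A : Set G).Infinite := by
    intro h
    have h1 : A.Finite := by
      have := h.image Additive.ofMul
      rwa [Set.image_preimage_eq _ Additive.ofMul.surjective] at this
    exact Set.infinite_range_of_injective
      (f := fun n => (x n : Additive G)) (Subtype.val_injective.comp x.injective) h1
  have hAK : (Additive.ofMul ⁻¹' A : Set G) ⊆ K := fun g hg => hBK (hAB hg)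
  obtain ⟨c, hcK, hc⟩ := hAinf.exists_accPt_cofinite_inf_principal_of_subset_isCompact hK hAK
  have hliA : LinearIndepOn (ZMod 2) id A := LinearIndepOn.mono hli hAB
  obtain ⟨f, hfc, hffin⟩ := exists_functional hliA (Additive.ofMul c)
  obtain ⟨f', hf', hff'⟩ := hf (insert c (Additive.ofMul ⁻¹' A))
    (((Set.countable_range _).preimage Additive.ofMul.injective).insert c)
    (fun g => f (Additive.ofMul g)) (fun g h => by rw [ofMul_mul, map_add])
  have hopen : {x | f' x = 0} ∈ 𝓝 c := by
    have h1 : IsOpen (f' ⁻¹' {0}) := (isOpen_discrete ({0} : Set (ZMod 2))).preimage hf'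
    refine h1.mem_nhds ?_
    change f' c = 0
    rw [hff' c (Set.mem_insert _ _)]
    exact hfc
  have hfin : ({x | f' x = 0} ∩ (Additive.ofMul ⁻¹' A : Set G)).Finite := by
    refine (hffin.preimage (f := (Additive.ofMul : G → Additive G))
      Additive.ofMul.injective.injOn).subset ?_
    rintro g ⟨hg, hgA⟩
    refine ⟨?_, hgA⟩
    change f (Additive.ofMul g) = 0
    rw [← hff' g (Set.mem_insert_of_mem _ hgA)]
    exact hg
  have h6 : ({x | f' x = 0} ∩ (Additive.ofMul ⁻¹' A : Set G))ᶜ ∈ (Filter.cofinite : Filter G) := by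
    rw [Filter.mem_cofinite, compl_compl]
    exact hfin
  have h7 : (∅ : Set G) ∈ 𝓝[≠] c ⊓ (Filter.cofinite ⊓ 𝓟 (Additive.ofMul ⁻¹' A : Set G)) := by
    have h8 : {x | f' x = 0} ∩ (({x | f' x = 0} ∩ (Additive.ofMul ⁻¹' A : Set G))ᶜ ∩
        (Additive.ofMul ⁻¹' A : Set G)) ∈ 𝓝[≠] c ⊓ (Filter.cofinite ⊓ 𝓟 (Additive.ofMul ⁻¹' A : Set G)) :=
      Filter.inter_mem_inf (mem_nhdsWithin_of_mem_nhds hopen)
        (Filter.inter_mem_inf h6 (Filter.mem_principal_self _))
    refine Filter.mem_of_superset h8 ?_
    rintro x ⟨hx, hx1, hx2⟩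
    exact hx1 ⟨hx, hx2⟩
  exact hc.ne (Filter.empty_mem_iff_bot.1 h7)

section Pairing

variable {G : Type u} {C : Type v} {φ : C → G → ZMod 2}

/-- neighbourhoods in the topology induced by functions to `ℤ/2` -/
theorem nb [TopologicalSpace G] (hind : IsInducing fun (g : G) (c : C) => φ c g) {g : G} {O : Set G}
    (hO : O ∈ 𝓝 g) : ∃ F : Finset C, ∀ g', (∀ c ∈ F, φ c g' = φ c g) → g' ∈ O := by
  classical
  rw [hind.nhds_eq_comap, Filter.mem_comap] at hO
  obtain ⟨t, ht, htO⟩ := hO
  rw [nhds_pi, Filter.mem_pi] at ht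
  obtain ⟨I, hI, s, hs, hst⟩ := ht
  refine ⟨hI.toFinset, fun g' hg' => htO (hst fun c hc => ?_)⟩
  have h1 : φ c g' = φ c g := hg' c (hI.mem_toFinset.2 hc)
  have h2 : φ c g ∈ s c := mem_of_mem_nhds (hs c)
  change φ c g' ∈ s c
  rw [h1]; exact h2

theorem continuous_phi [TopologicalSpace G] (hind : IsInducing fun (g : G) (c : C) => φ c g) (c : C) :
    Continuous (φ c) := (continuous_apply c).comp hind.continuous

/-- if all countable patterns are realised then the group is pseudocompact -/
theorem pseudocompact_of_pat [TopologicalSpace G] (hind : IsInducing fun (g : G) (c : C) => φ c g)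
    (ha : Pat fun g c => φ c g) : Pseudocompact G := by
  classical
  intro f hf
  by_contra hcon
  push Not at hcon
  have h1 : ∀ n : ℕ, ∃ x, (n : ℝ) < |f x| := fun n => hcon n
  choose h hh using h1
  have h2 : ∀ n : ℕ, ∃ F : Finset C, ∀ g', (∀ c ∈ F, φ c g' = φ c (h n)) → (n : ℝ) < |f g'| := by
    intro n
    have hO : {g' | (n : ℝ) < |f g'|} ∈ 𝓝 (h n) :=
      (isOpen_lt continuous_const hf.abs).mem_nhds (hh n)
    exact nb hind hO
  choose F hF using h2
  -- the limit pattern
  have h3 : ∀ c : C, ∃ b : ZMod 2, ∀ᶠ n in (hyperfilter ℕ : Filter ℕ), φ c (h n) = b := by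
    intro c
    rcases Ultrafilter.em (hyperfilter ℕ) (fun n => φ c (h n) = 0) with h4 | h4
    · exact ⟨0, h4⟩
    · exact ⟨1, h4.mono fun n hn => (zmod_two _).resolve_left hn⟩
  choose s hs using h3
  obtain ⟨y, hy⟩ := ha (⋃ n, (F n : Set C)) (Set.countable_iUnion fun n => (F n).countable_toSet) s
  have hO : {g' | |f g'| < |f y| + 1} ∈ 𝓝 y :=
    (isOpen_lt hf.abs continuous_const).mem_nhds (by
      change |f y| < |f y| + 1
      linarith)
  obtain ⟨E, hE⟩ := nb hind hO
  have h5 : ∀ᶠ n in (hyperfilter ℕ : Filter ℕ), ∀ c ∈ E, φ c (h n) = s c :=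
    (Finset.eventually_all E).2 fun c _ => hs c
  obtain ⟨N, hN⟩ := exists_nat_gt (|f y| + 1)
  have h6 : ∀ᶠ n in (hyperfilter ℕ : Filter ℕ), N ≤ n := by
    have : ∀ᶠ n in (atTop : Filter ℕ), N ≤ n := eventually_ge_atTop N
    rw [← Nat.cofinite_eq_atTop] at this
    exact this.filter_mono hyperfilter_le_cofinite
  obtain ⟨n, hn1, hn2⟩ := (h5.and h6).exists
  obtain ⟨z, hz⟩ := ha ((F n : Set C) ∪ E) ((F n).countable_toSet.union E.countable_toSet)
    (fun c => if c ∈ F n then φ c (h n) else φ c y)
  have h7 : (n : ℝ) < |f z| := by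
    apply hF n
    intro c hc
    have := hz c (Or.inl (Finset.mem_coe.2 hc))
    rwa [if_pos hc] at this
  have h8 : |f z| < |f y| + 1 := by
    apply hE
    intro c hc
    have h9 : φ c z = if c ∈ F n then φ c (h n) else φ c y := hz c (Or.inr (Finset.mem_coe.2 hc))
    by_cases hcn : c ∈ F n
    · rw [if_pos hcn] at h9
      rw [h9, hn1 c hc]
      exact (hy c (Set.mem_iUnion.2 ⟨n, Finset.mem_coe.2 hcn⟩)).symm
    · rwa [if_neg hcn] at h9
  have h9 : (N : ℝ) ≤ n := by exact_mod_cast hn2
  linarith

/-- if moreover all homomorphisms of countable subgroups to `ℤ/2` are realised then the group is not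
selectively pseudocompact -/
theorem not_selectively [CommGroup G] (hB : ∀ x : G, x * x = 1) [Infinite C] [TopologicalSpace G]
    (hφ : ∀ c x y, φ c (x * y) = φ c x + φ c y)
    (hind : IsInducing fun (g : G) (c : C) => φ c g)
    (ha : Pat fun g c => φ c g)
    (hb : ∀ A : Set G, A.Countable → ∀ f : G → ZMod 2, (∀ x y, f (x * y) = f x + f y) →
      ∃ c, ∀ g ∈ A, φ c g = f g) : ¬ SelectivelyPseudocompact G := by
  classical
  intro hsel
  let c : ℕ ↪ C := Infinite.natEmbedding C
  let U : ℕ → Set G := fun n => {g | φ (c n) g = 1 ∧ ∀ i < n, φ (c i) g = 0}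
  have hcont := continuous_phi hind
  have hU : ∀ n, IsOpen (U n) ∧ (U n).Nonempty := by
    intro n
    constructor
    · have h1 : U n = (φ (c n)) ⁻¹' {1} ∩ ⋂ i ∈ Finset.range n, (φ (c i)) ⁻¹' {0} := by
        ext g
        simp [U]
      rw [h1]
      refine ((isOpen_discrete _).preimage (hcont _)).inter ?_
      exact isOpen_biInter_finset fun i _ => (isOpen_discrete _).preimage (hcont _)
    · obtain ⟨g, hg⟩ := ha (Set.range c) (Set.countable_range c) (fun d => if d = c n then 1 else 0)
      refine ⟨g, ?_, fun i hi => ?_⟩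
      · have := hg (c n) ⟨n, rfl⟩
        rwa [if_pos rfl] at this
      · have := hg (c i) ⟨i, rfl⟩
        rwa [if_neg (fun h => hi.ne (c.injective h))] at this
  obtain ⟨x, hx, y, hy⟩ := hsel U hU
  let _ := boolMod hB
  -- the homomorphisms as linear functionals
  let ψ : C → (Additive G →ₗ[ZMod 2] ZMod 2) := fun d =>
    AddMonoidHom.toZModLinearMap 2
      ({ toFun := fun g => φ d (Additive.toMul g)
         map_zero' := by
          have h1 := hφ d 1 1
          rw [mul_one] at h1
          exact left_eq_add.1 h1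
         map_add' := fun g h => hφ d _ _ } : Additive G →+ ZMod 2)
  have hψ : ∀ d g, ψ d (Additive.ofMul g) = φ d g := fun d g => rfl
  have hli : LinearIndependent (ZMod 2) fun n => Additive.ofMul (x n) := by
    rw [linearIndependent_iff']
    intro s a hsum i hi
    by_contra hne
    -- the least index with nonzero coefficient
    have hex : ∃ i, i ∈ s ∧ a i ≠ 0 := ⟨i, hi, hne⟩
    obtain ⟨j, ⟨hjs, hja⟩, hmin⟩ : ∃ j, (j ∈ s ∧ a j ≠ 0) ∧ ∀ k < j, ¬ (k ∈ s ∧ a k ≠ 0) :=
      ⟨Nat.find hex, Nat.find_spec hex, fun k hk => Nat.find_min hex hk⟩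
    have h1 := congrArg (ψ (c j)) hsum
    rw [map_sum, map_zero, Finset.sum_eq_single j] at h1
    · rw [map_smul, hψ, (hx j).1, smul_eq_mul, mul_one] at h1
      exact hja h1
    · intro k hks hkj
      rw [map_smul, hψ]
      rcases lt_or_gt_of_ne hkj with hlt | hgt
      · have : a k = 0 := by
          by_contra h2
          exact hmin k hlt ⟨hks, h2⟩
        rw [this, zero_smul]
      · rw [(hx k).2 j hgt, smul_zero]
    · intro h2
      exact absurd hjs h2
  have hli' : LinearIndepOn (ZMod 2) id (Set.range fun n => Additive.ofMul (x n)) :=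
    hli.linearIndepOn_id
  have hinj : Function.Injective fun n => Additive.ofMul (x n) := hli.injective
  obtain ⟨f, hfc, hffin⟩ := exists_functional hli' (Additive.ofMul y)
  obtain ⟨d, hd⟩ := hb (insert y (Set.range x)) ((Set.countable_range x).insert y)
    (fun g => f (Additive.ofMul g)) (fun g h => by rw [ofMul_mul, map_add])
  have hO : (φ d) ⁻¹' {0} ∈ 𝓝 y := by
    refine ((isOpen_discrete _).preimage (hcont d)).mem_nhds ?_
    change φ d y = 0
    rw [hd y (Set.mem_insert _ _)]
    exact hfc
  refine hy _ hO ?_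
  refine (hffin.preimage (f := fun n => Additive.ofMul (x n)) hinj.injOn).subset ?_
  intro n hn
  refine ⟨?_, ⟨n, rfl⟩⟩
  have h1 : φ d (x n) = 0 := hn
  rw [hd (x n) (Set.mem_insert_of_mem _ ⟨n, rfl⟩)] at h1
  exact h1

end Pairing

end Pool.Agent.R821.Bp
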