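import Mathlib
import Pool.Agent.R821.Bohr

/-!
# Fast null sequences in countable subgroups of the circle

For every infinite countable subgroup `H` of the circle there is a null sequence `s` of nonzero elements
of `H` such that every element `x` of the circle which is continuous on `ℤ` for the topology generated
by `H` and by the uniform convergence on `s` belongs to `H`.
-/

set_option autoImplicit false

open Filter Topology

namespace Pool.Agent.R821

/-- the error bounds -/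
noncomputable def eps (N : ℕ) : ℝ := 1 / (4096 * ((N : ℝ) + 1) ^ 2)

/-- the coarse bounds -/
noncomputable def coarse (N : ℕ) : ℝ := 1 / (8 * ((N : ℝ) + 1))

theorem eps_pos (N : ℕ) : 0 < eps N := by unfold eps; positivity

theorem coarse_pos (N : ℕ) : 0 < coarse N := by unfold coarse; positivity

/-- the data of one step of the construction -/
structure SD (H : AddSubgroup T) (N : ℕ) (F : Finset T) where
  Q : Finset T
  R : ℝ
  δ : ℝ
  L : ℝ
  η : ℝ
  hQ : ∀ q ∈ Q, q ∈ H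
  hR : 0 ≤ R
  hδ : 0 < δ
  hL : 0 ≤ L
  hη : 0 < η
  hRδ : R * δ ≤ eps N
  hgap : ∀ t : ℝ, ∃ l : ℤ, |(l : ℝ) - t| ≤ R ∧ (∀ f ∈ F, ‖l • f‖ ≤ eps N) ∧
    (∀ q ∈ Q, ‖l • q‖ ≤ eps N)
  hcomp : ∀ x : T, (∀ l : ℤ, |(l : ℝ)| ≤ L → (∀ f ∈ F, ‖l • f‖ ≤ coarse N) → ‖l • x‖ ≤ 1 / 4) →
    ∃ q ∈ Q, ‖x - q‖ < δ
  hRη : R * η ≤ eps N
  hLη : L * η ≤ coarse N
  hsep : ∀ p, (p ∈ F ∨ p ∈ Q) → ∀ q, (q ∈ F ∨ q ∈ Q) → p ≠ q → 100 * ((N : ℝ) + 1) * η ≤ ‖p - q‖
  hsmall : ∀ f ∈ F, f ≠ 0 → η ≤ eps N * ‖f‖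
  hηeps : η ≤ eps N

/-- a finite family of positive numbers has a positive lower bound -/
theorem exists_pos_le {α : Type} (S : Finset α) (f : α → ℝ) (h : ∀ a ∈ S, 0 < f a) :
    ∃ η > 0, ∀ a ∈ S, η ≤ f a := by
  classical
  induction S using Finset.induction_on with
  | empty => exact ⟨1, one_pos, by simp⟩
  | insert a S ha ih =>
    obtain ⟨η, hη, hηS⟩ := ih fun b hb => h b (Finset.mem_insert_of_mem hb)
    refine ⟨min η (f a), lt_min hη (h a (Finset.mem_insert_self a S)), fun b hb => ?_⟩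
    rcases Finset.mem_insert.1 hb with rfl | hb
    · exact min_le_right _ _
    · exact (min_le_left _ _).trans (hηS b hb)

theorem nonempty_SD (H : AddSubgroup T) (N : ℕ) (F : Finset T) (hF : ∀ f ∈ F, f ∈ H) :
    Nonempty (SD H N F) := by
  classical
  have hfin := polar_finite F (coarse N) (coarse_pos N)
  let Q : Finset T := hfin.toFinset
  have hQm : ∀ q, q ∈ Q ↔ q ∈ polar F (coarse N) := fun q => hfin.mem_toFinset
  obtain ⟨R, hR, hgap⟩ := exists_gap (F ∪ Q) (eps N) (eps_pos N)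
  let δ : ℝ := eps N / (R + 1)
  have hδ : 0 < δ := div_pos (eps_pos N) (by linarith)
  obtain ⟨L, hL⟩ := polar_compact F (coarse N) δ hδ
  obtain ⟨η1, hη1, hη1'⟩ := exists_pos_le (((F ∪ Q) ×ˢ (F ∪ Q)).filter fun p => p.1 ≠ p.2)
    (fun p => ‖p.1 - p.2‖ / (100 * ((N : ℝ) + 1))) (fun p hp => by
      have h1 := (Finset.mem_filter.1 hp).2
      have h2 : 0 < ‖p.1 - p.2‖ := norm_pos_iff.2 (sub_ne_zero.2 h1)
      positivity)
  obtain ⟨η2, hη2, hη2'⟩ := exists_pos_le (F.filter fun f => f ≠ 0) (fun f => eps N * ‖f‖)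
    (fun f hf => mul_pos (eps_pos N) (norm_pos_iff.2 (Finset.mem_filter.1 hf).2))
  have hR1 : 0 < R + 1 := by linarith
  have hL1 : (0 : ℝ) < L + 1 := by positivity
  have he := eps_pos N
  have hc := coarse_pos N
  let η : ℝ := min (min (eps N / (R + 1)) (coarse N / (L + 1))) (min (min η1 η2) (eps N))
  have e1 : η ≤ eps N / (R + 1) := (min_le_left _ _).trans (min_le_left _ _)
  have e2 : η ≤ coarse N / (L + 1) := (min_le_left _ _).trans (min_le_right _ _)
  have e3 : η ≤ η1 := (min_le_right _ _).trans ((min_le_left _ _).trans (min_le_left _ _))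
  have e4 : η ≤ η2 := (min_le_right _ _).trans ((min_le_left _ _).trans (min_le_right _ _))
  have e5 : η ≤ eps N := (min_le_right _ _).trans (min_le_right _ _)
  have hηpos : 0 < η :=
    lt_min (lt_min (div_pos he hR1) (div_pos hc hL1)) (lt_min (lt_min hη1 hη2) he)
  refine ⟨⟨Q, R, δ, L, η, ?_, hR, hδ, by positivity, hηpos, ?_, ?_, ?_, ?_, ?_, ?_, ?_, e5⟩⟩
  · intro q hq
    exact polar_subset F (coarse N) hc H hF q ((hQm q).1 hq)
  · change R * (eps N / (R + 1)) ≤ eps N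
    rw [mul_div_assoc', div_le_iff₀ hR1]
    nlinarith
  · intro t
    obtain ⟨l, hl, hlB⟩ := hgap t
    exact ⟨l, hl, fun f hf => hlB f (Finset.mem_union_left _ hf),
      fun q hq => hlB q (Finset.mem_union_right _ hq)⟩
  · intro x hx
    obtain ⟨q, hq, hxq⟩ := hL x (fun l hl hlB => hx l (by exact_mod_cast hl) hlB)
    exact ⟨q, (hQm q).2 hq, hxq⟩
  · calc R * η ≤ R * (eps N / (R + 1)) := mul_le_mul_of_nonneg_left e1 hR
      _ ≤ eps N := by
        rw [mul_div_assoc', div_le_iff₀ hR1]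
        nlinarith
  · calc (L : ℝ) * η ≤ L * (coarse N / (L + 1)) := mul_le_mul_of_nonneg_left e2 (by positivity)
      _ ≤ coarse N := by
        rw [mul_div_assoc', div_le_iff₀ hL1]
        nlinarith
  · intro p hp q hq hpq
    have h1 := hη1' (p, q) (Finset.mem_filter.2 ⟨Finset.mem_product.2
      ⟨Finset.mem_union.2 hp, Finset.mem_union.2 hq⟩, hpq⟩)
    have h2 := e3.trans h1
    rw [le_div_iff₀ (by positivity)] at h2
    linarith
  · intro f hf hf0
    exact e4.trans (hη2' f (Finset.mem_filter.2 ⟨hf, hf0⟩))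

/-- an infinite subgroup of the circle has small nonzero elements -/
theorem exists_small_elem (H : AddSubgroup T) (hH : (H : Set T).Infinite) (η : ℝ) (hη : 0 < η) :
    ∃ s ∈ H, s ≠ 0 ∧ ‖s‖ < η := by
  classical
  obtain ⟨S, -, hS, hcov⟩ := (isCompact_univ (X := T)).finite_cover_balls (e := η / 2) (by positivity)
  have hch : ∀ q : T, ∃ c ∈ S, q ∈ Metric.ball c (η / 2) := by
    intro q
    have := hcov (Set.mem_univ q)
    simpa using this
  choose c hcS hc using hch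
  obtain ⟨p, hp, q, hq, hpq, hcc⟩ := hH.exists_ne_map_eq_of_mapsTo
    (f := c) (t := S) (fun q _ => hcS q) hS
  refine ⟨p - q, H.sub_mem hp hq, sub_ne_zero.2 hpq, ?_⟩
  have h1 := hc p
  have h2 := hc q
  rw [hcc] at h1
  rw [Metric.mem_ball] at h1 h2
  have h3 : dist p q ≤ dist p (c q) + dist (c q) q := dist_triangle _ _ _
  rw [dist_comm (c q) q] at h3
  rw [← dist_eq_norm]
  linarith

/-- the sequences constructed by recursion -/
structure Fast (H : AddSubgroup T) (h : ℕ → T) where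
  F : ℕ → Finset T
  s : ℕ → T
  D : ∀ N, SD H N (F N)
  hF : ∀ N, ∀ f ∈ F N, f ∈ H
  hs : ∀ N, s N ∈ H
  hs0 : ∀ N, s N ≠ 0
  hsη : ∀ N, ‖s N‖ < (D N).η
  hF1 : ∀ N, F N ⊆ F (N + 1)
  hF2 : ∀ N, s N ∈ F (N + 1)
  hF3 : ∀ N, (D N).Q ⊆ F (N + 1)
  hF4 : ∀ N, h N ∈ F (N + 1)

theorem exists_Fast (H : AddSubgroup T) (hH : (H : Set T).Infinite) (h : ℕ → T)
    (hh : ∀ n, h n ∈ H) : Nonempty (Fast H h) := by
  classical
  have hD : ∀ (N : ℕ) (F : {F : Finset T // ∀ f ∈ F, f ∈ H}), Nonempty (SD H N F.1) :=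
    fun N F => nonempty_SD H N F.1 F.2
  let D : ∀ (N : ℕ) (F : {F : Finset T // ∀ f ∈ F, f ∈ H}), SD H N F.1 :=
    fun N F => Classical.choice (hD N F)
  have hs : ∀ (N : ℕ) (F : {F : Finset T // ∀ f ∈ F, f ∈ H}), ∃ s ∈ H, s ≠ 0 ∧ ‖s‖ < (D N F).η :=
    fun N F => exists_small_elem H hH _ (D N F).hη
  choose s hsH hs0 hsη using hs
  let st : ℕ → {F : Finset T // ∀ f ∈ F, f ∈ H} := fun n => Nat.rec ⟨∅, by simp⟩
    (fun N F => ⟨F.1 ∪ {s N F} ∪ (D N F).Q ∪ {h N}, by
      intro f hf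
      simp only [Finset.mem_union, Finset.mem_singleton] at hf
      rcases hf with ((hf | hf) | hf) | hf
      · exact F.2 f hf
      · rw [hf]; exact hsH N F
      · exact (D N F).hQ f hf
      · rw [hf]; exact hh N⟩) n
  have hst : ∀ N, (st (N + 1)).1 = (st N).1 ∪ {s N (st N)} ∪ (D N (st N)).Q ∪ {h N} := fun N => rfl
  refine ⟨⟨fun N => (st N).1, fun N => s N (st N), fun N => D N (st N), fun N => (st N).2,
    fun N => hsH _ _, fun N => hs0 _ _, fun N => hsη _ _, ?_, ?_, ?_, ?_⟩⟩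
  · intro N f hf
    rw [hst]
    simp only [Finset.mem_union]
    exact Or.inl (Or.inl (Or.inl hf))
  · intro N
    rw [hst]
    simp
  · intro N f hf
    rw [hst]
    simp only [Finset.mem_union]
    exact Or.inl (Or.inr hf)
  · intro N
    rw [hst]
    simp

end Pool.Agent.R821
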