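import Mathlib
import Pool.Agent.R821.FastSeq

/-!
# The main property of fast sequences
-/

set_option autoImplicit false

open Filter Topology

namespace Pool.Agent.R821

theorem norm_alt (w : ℝ) : |w| ≤ ‖(w : T)‖ ∨ 1 - |w| ≤ ‖(w : T)‖ := by
  have h1 : ‖(w : UnitAddCircle)‖ = |w - round w| := UnitAddCircle.norm_eq
  change |w| ≤ ‖(w : UnitAddCircle)‖ ∨ 1 - |w| ≤ ‖(w : UnitAddCircle)‖
  rw [h1]
  by_cases h : round w = 0
  · left
    rw [h]
    simp
  · right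
    have h2 : (1 : ℝ) ≤ |(round w : ℝ)| := by
      have : (1 : ℤ) ≤ |round w| := Int.one_le_abs h
      exact_mod_cast this
    have h3 := abs_sub_abs_le_abs_sub (round w : ℝ) w
    rw [abs_sub_comm] at h3
    linarith

theorem norm_coe_self {w : ℝ} (h : |w| ≤ 1 / 2) : ‖(w : T)‖ = |w| := norm_coe_eq h

/-- the one-variable lemma -/
theorem rho_bound (ρ Λ κ e : ℝ) (hΛ : 1 ≤ Λ) (hκ : 0 < κ) (hκ1 : κ ≤ 1) (he : 0 ≤ e)
    (he2 : e ≤ 1 / 32)
    (h : ∀ t : ℝ, |t| ≤ Λ → ‖(t : T)‖ ≤ κ → ‖((t * ρ : ℝ) : T)‖ ≤ 1 / 4 + e) :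
    |ρ| * κ ≤ 1 / 2 ∧ ∃ j : ℤ, |ρ - j| ≤ 1 / Λ := by
  have hΛ0 : 0 < Λ := by linarith
  constructor
  · by_contra hcon
    push Not at hcon
    have hρ : 0 < |ρ| := by
      by_contra h0
      have : |ρ| = 0 := le_antisymm (not_lt.1 h0) (abs_nonneg _)
      rw [this] at hcon
      linarith
    have hρ0 : ρ ≠ 0 := abs_pos.1 hρ
    have h1 : |(3 / 8) / ρ| ≤ κ := by
      rw [abs_div, abs_of_pos (by norm_num : (0 : ℝ) < 3 / 8), div_le_iff₀ hρ]
      linarith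
    have h2 := h ((3 / 8) / ρ) (by linarith) ((norm_coe_le _).trans h1)
    rw [div_mul_cancel₀ _ hρ0] at h2
    have h3 : ‖((3 / 8 : ℝ) : T)‖ = |(3 / 8 : ℝ)| := norm_coe_self (by norm_num [abs_of_pos])
    rw [h3, abs_of_pos (by norm_num : (0 : ℝ) < 3 / 8)] at h2
    linarith
  · refine ⟨round ρ, ?_⟩
    set θ := ρ - round ρ with hθ
    have hθ2 : |θ| ≤ 1 / 2 := abs_sub_round ρ
    have hk : ∀ k : ℕ, (k : ℝ) ≤ Λ → ‖((k * θ : ℝ) : T)‖ ≤ 1 / 4 + e := by
      intro k hkΛ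
      have h1 := h k (by rw [Nat.abs_cast]; exact hkΛ) (by
        have : ((k : ℝ) : T) = 0 := by
          rw [AddCircle.coe_eq_zero_iff]
          exact ⟨k, by simp⟩
        rw [this, norm_zero]
        exact hκ.le)
      have h2 : ((k * θ : ℝ) : T) = ((k * ρ : ℝ) : T) := by
        rw [hθ, mul_sub, AddCircle.coe_sub]
        have : ((k * (round ρ : ℝ) : ℝ) : T) = 0 := by
          rw [AddCircle.coe_eq_zero_iff]
          exact ⟨k * round ρ, by simp⟩
        rw [this, sub_zero]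
      rw [h2]
      exact h1
    have hi : ∀ i : ℕ, (2 : ℝ) ^ i ≤ Λ → |(2 : ℝ) ^ i * θ| ≤ 1 / 4 + e := by
      intro i
      induction i with
      | zero =>
        intro _
        have h1 := hk 1 (by simpa using hΛ)
        rw [Nat.cast_one, one_mul, norm_coe_self hθ2] at h1
        simpa using h1
      | succ i ih =>
        intro hi
        have h0 : (2 : ℝ) ^ i ≤ 2 ^ (i + 1) := pow_le_pow_right₀ one_le_two (by omega)
        have h1 := ih (h0.trans hi)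
        have h2 : |(2 : ℝ) ^ (i + 1) * θ| ≤ 1 / 2 + 2 * e := by
          have : (2 : ℝ) ^ (i + 1) * θ = 2 * ((2 : ℝ) ^ i * θ) := by ring
          rw [this, abs_mul, abs_two]
          linarith
        have h3 := hk (2 ^ (i + 1)) (by exact_mod_cast hi)
        push_cast at h3
        rcases norm_alt ((2 : ℝ) ^ (i + 1) * θ) with h4 | h4
        · exact h4.trans h3
        · exfalso
          linarith
    obtain ⟨i, hi1, hi2⟩ := exists_nat_pow_near hΛ (one_lt_two : (1 : ℝ) < 2)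
    have h1 := hi i hi1
    rw [abs_mul, abs_of_pos (pow_pos two_pos i)] at h1
    rw [le_div_iff₀ hΛ0]
    rw [pow_succ] at hi2
    have h2 : |θ| * Λ ≤ |θ| * (2 ^ i * 2) := mul_le_mul_of_nonneg_left hi2.le (abs_nonneg _)
    nlinarith

section

variable {H : AddSubgroup T} {h : ℕ → T} (Φ : Fast H h)

namespace Fast

include Φ

theorem F_mono {N M : ℕ} (hNM : N ≤ M) : Φ.F N ⊆ Φ.F M := by
  induction hNM with
  | refl => exact Finset.Subset.refl _
  | step _ ih => exact ih.trans (Φ.hF1 _)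

theorem s_mem {N M : ℕ} (hNM : N < M) : Φ.s N ∈ Φ.F M := Φ.F_mono hNM (Φ.hF2 N)

theorem norm_pos (N : ℕ) : 0 < ‖Φ.s N‖ := norm_pos_iff.2 (Φ.hs0 N)

theorem s_le {N M : ℕ} (hNM : N < M) : ‖Φ.s M‖ ≤ eps M * ‖Φ.s N‖ :=
  (Φ.hsη M).le.trans ((Φ.D M).hsmall _ (Φ.s_mem hNM) (Φ.hs0 N))

theorem s_eps (N : ℕ) : ‖Φ.s N‖ ≤ eps N := (Φ.hsη N).le.trans (Φ.D N).hηeps

end Fast

theorem eps_le_one (N : ℕ) : eps N ≤ 1 / 4096 := by
  unfold eps
  apply div_le_div_of_nonneg_left (by norm_num) (by norm_num)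
  have : (1 : ℝ) ≤ ((N : ℝ) + 1) ^ 2 := by
    have : (0 : ℝ) ≤ N := Nat.cast_nonneg N
    nlinarith
  linarith

theorem eps_anti {N M : ℕ} (h : N ≤ M) : eps M ≤ eps N := by
  unfold eps
  apply div_le_div_of_nonneg_left (by norm_num) (by positivity)
  have : (N : ℝ) ≤ M := by exact_mod_cast h
  have : (0 : ℝ) ≤ N := Nat.cast_nonneg N
  nlinarith

namespace Fast

include Φ

theorem s_anti {N M : ℕ} (hNM : N ≤ M) : ‖Φ.s M‖ ≤ ‖Φ.s N‖ := by
  rcases hNM.lt_or_eq with h | h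
  · refine (Φ.s_le h).trans ?_
    have := eps_le_one M
    have := eps_pos M
    have := Φ.norm_pos N
    nlinarith
  · rw [h]

end Fast

variable (F : Finset T) (m : ℕ) (x : T)

/-- the hypothesis on `x` -/
def Hyp : Prop := ∀ l : ℤ, (∀ f ∈ F, ‖l • f‖ ≤ 1 / (4 * m)) → (∀ N, ‖l • Φ.s N‖ ≤ 1 / (4 * m)) →
  ‖l • x‖ ≤ 1 / 4

theorem coarse_le {m N : ℕ} (hm : 1 ≤ m) (hmN : m ≤ N) : coarse N ≤ 1 / (8 * m) := by
  unfold coarse
  have h1 : (0 : ℝ) < m := by exact_mod_cast hm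
  have h2 : (m : ℝ) ≤ N := by exact_mod_cast hmN
  apply div_le_div_of_nonneg_left (by norm_num) (by positivity)
  linarith

theorem eps_le_coarse (N : ℕ) : eps N ≤ coarse N := by
  unfold eps coarse
  have : (0 : ℝ) ≤ N := Nat.cast_nonneg N
  apply div_le_div_of_nonneg_left (by norm_num) (by positivity)
  nlinarith

variable {F m x}

theorem crit (hx : Hyp Φ F m x) (hm : 1 ≤ m) {N : ℕ} (hmN : m ≤ N) (hFN : F ⊆ Φ.F N) {l : ℤ}
    (h1 : ∀ f ∈ Φ.F N, ‖l • f‖ ≤ coarse N) (h2 : ∀ j, N ≤ j → ‖l • Φ.s j‖ ≤ 1 / (4 * m)) :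
    ‖l • x‖ ≤ 1 / 4 := by
  have hm0 : (0 : ℝ) < m := by exact_mod_cast hm
  have h3 : coarse N ≤ 1 / (4 * m) := by
    refine (coarse_le hm hmN).trans ?_
    apply div_le_div_of_nonneg_left (by norm_num) (by positivity)
    linarith
  refine hx l (fun f hf => (h1 f (hFN hf)).trans h3) (fun j => ?_)
  rcases lt_or_ge j N with hj | hj
  · exact (h1 _ (Φ.s_mem hj)).trans h3
  · exact h2 j hj

theorem claim1 (hx : Hyp Φ F m x) (hm : 1 ≤ m) {N : ℕ} (hmN : m ≤ N) (hFN : F ⊆ Φ.F N) :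
    ∃ a ∈ (Φ.D N).Q, ‖x - a‖ < (Φ.D N).δ := by
  have hm0 : (0 : ℝ) < m := by exact_mod_cast hm
  refine (Φ.D N).hcomp x fun l hl hlF => crit Φ hx hm hmN hFN hlF fun j hj => ?_
  refine (zsmul_norm_le _ _).trans ?_
  have h1 : |(l : ℝ)| * ‖Φ.s j‖ ≤ (Φ.D N).L * (Φ.D N).η :=
    mul_le_mul hl ((Φ.s_anti hj).trans (Φ.hsη N).le) (norm_nonneg _) (Φ.D N).hL
  have h2 : coarse N ≤ 1 / (4 * m) := by
    refine (coarse_le hm hmN).trans ?_
    apply div_le_div_of_nonneg_left (by norm_num) (by positivity)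
    linarith
  exact h1.trans ((Φ.D N).hLη.trans h2)

theorem decomp (hx : Hyp Φ F m x) (hm : 1 ≤ m) {N : ℕ} (hmN : m ≤ N) (hFN : F ⊆ Φ.F N) :
    ∃ a ∈ (Φ.D N).Q, ∃ (j : ℤ) (r z : ℝ), (r : T) = Φ.s N ∧ |r| = ‖Φ.s N‖ ∧
      x = a + ((j * r + z : ℝ) : T) ∧ |(j : ℝ)| ≤ 8 * ((N : ℝ) + 1) + 1 ∧
      |z| ≤ 32 * ((N : ℝ) + 1) * ‖Φ.s (N + 1)‖ := by
  have hm0 : (0 : ℝ) < m := by exact_mod_cast hm
  have hN0 : (0 : ℝ) ≤ N := Nat.cast_nonneg N
  have hmN' : (m : ℝ) ≤ N := by exact_mod_cast hmN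
  obtain ⟨a, ha, hxa⟩ := claim1 Φ hx hm hmN hFN
  obtain ⟨r, hr, hr1, hr2⟩ := exists_real (Φ.s N)
  obtain ⟨y, hy, hy1, hy2⟩ := exists_real (x - a)
  have hrpos : 0 < |r| := by rw [hr1]; exact Φ.norm_pos N
  have hr0 : r ≠ 0 := abs_pos.1 hrpos
  have hs1 : 0 < ‖Φ.s (N + 1)‖ := Φ.norm_pos _
  have heps := eps_pos N
  have heps1 := eps_le_one N
  have hRr : (Φ.D N).R * |r| ≤ eps N := by
    rw [hr1]
    exact (mul_le_mul_of_nonneg_left (Φ.hsη N).le (Φ.D N).hR).trans (Φ.D N).hRη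
  have hRy : (Φ.D N).R * |y| ≤ eps N := by
    rw [hy1]
    exact (mul_le_mul_of_nonneg_left hxa.le (Φ.D N).hR).trans (Φ.D N).hRδ
  set Λ : ℝ := |r| / (32 * ((N : ℝ) + 1) * ‖Φ.s (N + 1)‖) with hΛ
  have hΛ1 : 1 ≤ Λ := by
    rw [hΛ, le_div_iff₀ (by positivity), one_mul, hr1]
    have h1 := Φ.s_le (Nat.lt_succ_self N)
    have h2 : eps (N + 1) ≤ eps N := eps_anti (Nat.le_succ N)
    have h3 : eps N * (32 * ((N : ℝ) + 1)) ≤ 1 := by
      unfold eps
      rw [one_div_mul_eq_div, div_le_one (by positivity)]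
      nlinarith
    have h4 : 0 < ‖Φ.s N‖ := Φ.norm_pos N
    have h5 : ‖Φ.s (N + 1)‖ ≤ eps N * ‖Φ.s N‖ :=
      h1.trans (mul_le_mul_of_nonneg_right h2 h4.le)
    calc 32 * ((N : ℝ) + 1) * ‖Φ.s (N + 1)‖ ≤ 32 * ((N : ℝ) + 1) * (eps N * ‖Φ.s N‖) :=
          mul_le_mul_of_nonneg_left h5 (by positivity)
      _ = (eps N * (32 * ((N : ℝ) + 1))) * ‖Φ.s N‖ := by ring
      _ ≤ 1 * ‖Φ.s N‖ := mul_le_mul_of_nonneg_right h3 h4.le
      _ = ‖Φ.s N‖ := one_mul _
  have hstar : ∀ t : ℝ, |t| ≤ Λ → ‖(t : T)‖ ≤ 1 / (16 * ((N : ℝ) + 1)) →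
      ‖((t * (y / r) : ℝ) : T)‖ ≤ 1 / 4 + 2 * eps N := by
    intro t ht1 ht2
    obtain ⟨l, hl, hlF, hlQ⟩ := (Φ.D N).hgap (t / r)
    have hlr : |(l : ℝ) * r - t| ≤ eps N := by
      have : (l : ℝ) * r - t = (l - t / r) * r := by field_simp
      rw [this, abs_mul]
      exact (mul_le_mul_of_nonneg_right hl (abs_nonneg _)).trans hRr
    have hly : |(l : ℝ) * y - t * (y / r)| ≤ eps N := by
      have : (l : ℝ) * y - t * (y / r) = (l - t / r) * y := by field_simp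
      rw [this, abs_mul]
      exact (mul_le_mul_of_nonneg_right hl (abs_nonneg _)).trans hRy
    have hc : 1 / (16 * ((N : ℝ) + 1)) + eps N ≤ 1 / (4 * m) := by
      have h1 : eps N ≤ 1 / (16 * ((N : ℝ) + 1)) := by
        unfold eps
        apply div_le_div_of_nonneg_left (by norm_num) (by positivity)
        nlinarith
      have h2 : 1 / (16 * ((N : ℝ) + 1)) + 1 / (16 * ((N : ℝ) + 1)) = 1 / (8 * ((N : ℝ) + 1)) := by
        field_simp; norm_num
      have h3 : 1 / (8 * ((N : ℝ) + 1)) ≤ 1 / (4 * m) := by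
        apply div_le_div_of_nonneg_left (by norm_num) (by positivity)
        linarith
      linarith
    have hlx : ‖l • x‖ ≤ 1 / 4 := by
      refine crit Φ hx hm hmN hFN (fun f hf => (hlF f hf).trans (eps_le_coarse N)) fun j hj => ?_
      rcases hj.lt_or_eq with hj | hj
      · -- `N < j`
        refine (zsmul_norm_le _ _).trans ?_
        have hj' : ‖Φ.s j‖ ≤ ‖Φ.s (N + 1)‖ := Φ.s_anti hj
        have h1 : |(l : ℝ)| ≤ |t| / |r| + (Φ.D N).R := by
          have h2 : |(l : ℝ)| ≤ |(l : ℝ) - t / r| + |t / r| := by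
            have := abs_add_le ((l : ℝ) - t / r) (t / r)
            simpa using this
          rw [abs_div] at h2
          linarith
        have h3 : |(l : ℝ)| * ‖Φ.s j‖ ≤ (|t| / |r| + (Φ.D N).R) * ‖Φ.s (N + 1)‖ :=
          mul_le_mul h1 hj' (norm_nonneg _) (by have := (Φ.D N).hR; positivity)
        refine h3.trans ?_
        rw [add_mul]
        have h4 : |t| / |r| * ‖Φ.s (N + 1)‖ ≤ 1 / (32 * ((N : ℝ) + 1)) := by
          rw [hΛ, le_div_iff₀ (by positivity)] at ht1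
          rw [div_mul_eq_mul_div, div_le_div_iff₀ hrpos (by positivity)]
          linarith
        have h5 : (Φ.D N).R * ‖Φ.s (N + 1)‖ ≤ eps N := by
          refine (mul_le_mul_of_nonneg_left (Φ.s_anti (Nat.le_succ N)) (Φ.D N).hR).trans ?_
          rw [← hr1]
          exact hRr
        have h6 : 1 / (32 * ((N : ℝ) + 1)) ≤ 1 / (16 * ((N : ℝ) + 1)) := by
          apply div_le_div_of_nonneg_left (by norm_num) (by positivity)
          linarith
        linarith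
      · subst hj
        rw [← hr, ← AddCircle.coe_zsmul, zsmul_eq_mul]
        have h1 : ‖(((l : ℝ) * r : ℝ) : T)‖ ≤ ‖(t : T)‖ + |(l : ℝ) * r - t| := by
          have h2 : (((l : ℝ) * r : ℝ) : T) = (t : T) + (((l : ℝ) * r - t : ℝ) : T) := by
            rw [← AddCircle.coe_add]
            congr 1
            ring
          rw [h2]
          exact (norm_add_le _ _).trans (add_le_add le_rfl (norm_coe_le _))
        linarith
    have hla := hlQ a ha
    have h1 : ‖(((l : ℝ) * y : ℝ) : T)‖ ≤ 1 / 4 + eps N := by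
      have h2 : (((l : ℝ) * y : ℝ) : T) = l • x - l • a := by
        rw [← smul_sub, ← hy, ← AddCircle.coe_zsmul, zsmul_eq_mul]
      rw [h2]
      exact (norm_sub_le _ _).trans (add_le_add hlx hla)
    have h2 : ((t * (y / r) : ℝ) : T) = (((l : ℝ) * y : ℝ) : T) -
        (((l : ℝ) * y - t * (y / r) : ℝ) : T) := by
      rw [← AddCircle.coe_sub]
      congr 1
      ring
    rw [h2]
    refine (norm_sub_le _ _).trans ?_
    have h3 := norm_coe_le ((l : ℝ) * y - t * (y / r))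
    linarith
  obtain ⟨hρ, j, hj⟩ := rho_bound (y / r) Λ (1 / (16 * ((N : ℝ) + 1))) (2 * eps N) hΛ1
    (by positivity) (by
      rw [div_le_one (by positivity)]
      linarith) (by linarith) (by linarith) hstar
  refine ⟨a, ha, j, r, y - j * r, hr, hr1, ?_, ?_, ?_⟩
  · have h1 : (j : ℝ) * r + (y - j * r) = y := by ring
    rw [h1, hy]
    abel
  · have h1 : |y / r| ≤ 8 * ((N : ℝ) + 1) := by
      rw [mul_one_div, div_le_div_iff₀ (by positivity) (by norm_num)] at hρ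
      linarith
    have h2 : |(j : ℝ)| ≤ |y / r| + |y / r - j| := by
      have := abs_sub (y / r) (y / r - j)
      simpa using this
    have h3 : 1 / Λ ≤ 1 := by
      rw [div_le_one (by linarith)]
      exact hΛ1
    linarith
  · have h1 : y - j * r = (y / r - j) * r := by field_simp
    rw [h1, abs_mul]
    have h2 : 1 / Λ * |r| = 32 * ((N : ℝ) + 1) * ‖Φ.s (N + 1)‖ := by
      rw [hΛ]
      field_simp
    rw [← h2]
    exact mul_le_mul_of_nonneg_right hj (abs_nonneg _)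

end

end Pool.Agent.R821
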