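import Mathlib
import Pool.Agent.R821.FastMain

/-!
# The main property of fast sequences: conclusion
-/

set_option autoImplicit false

open Filter Topology

namespace Pool.Agent.R821

variable {H : AddSubgroup T} {h : ℕ → T} (Φ : Fast H h) {F : Finset T} {m : ℕ} {x : T}

/-- Only finitely many of the coefficients `j` can be nonzero. -/
theorem finite_nonzero (hx : Hyp Φ F m x) (hm : 1 ≤ m) {N0 : ℕ} (hmN : m ≤ N0)
    (hFN : F ⊆ Φ.F N0) (a : ℕ → T) (j : ℕ → ℤ) (r z : ℕ → ℝ)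
    (ha : ∀ N, N0 ≤ N → a N ∈ (Φ.D N).Q) (hr : ∀ N, N0 ≤ N → ((r N : ℝ) : T) = Φ.s N)
    (hr1 : ∀ N, N0 ≤ N → |r N| = ‖Φ.s N‖)
    (hxa : ∀ N, N0 ≤ N → x = a N + ((j N * r N + z N : ℝ) : T))
    (hj : ∀ N, N0 ≤ N → |(j N : ℝ)| ≤ 8 * ((N : ℝ) + 1) + 1)
    (hz : ∀ N, N0 ≤ N → |z N| ≤ 32 * ((N : ℝ) + 1) * ‖Φ.s (N + 1)‖) :
    {N | N0 ≤ N ∧ j N ≠ 0}.Finite := by
  classical
  by_contra hinf
  have hinf' : {N | N0 ≤ N ∧ j N ≠ 0}.Infinite := hinf
  obtain ⟨S, hS, hcard⟩ := hinf'.exists_subset_card_eq (4 * m)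
  have hm0 : (0 : ℝ) < m := by exact_mod_cast hm
  have hm1 : (1 : ℝ) ≤ m := by exact_mod_cast hm
  have hmN' : (m : ℝ) ≤ N0 := by exact_mod_cast hmN
  have hN00 : (0 : ℝ) ≤ N0 := Nat.cast_nonneg _
  have hSN : ∀ N ∈ S, N0 ≤ N := fun N hN => (hS hN).1
  have hSj : ∀ N ∈ S, j N ≠ 0 := fun N hN => (hS hN).2
  -- the integers `l N`
  have hl : ∀ N, ∃ l : ℤ, |(l : ℝ) - (1 / (8 * m * j N)) / r N| ≤ (Φ.D N).R ∧
      (∀ f ∈ Φ.F N, ‖l • f‖ ≤ eps N) ∧ (∀ q ∈ (Φ.D N).Q, ‖l • q‖ ≤ eps N) :=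
    fun N => (Φ.D N).hgap _
  choose l hl1 hl2 hl3 using hl
  have heps0 : 32 * (m : ℝ) ^ 2 * eps N0 ≤ 1 / 128 := by
    unfold eps
    rw [mul_one_div, div_le_div_iff₀ (by positivity) (by norm_num)]
    nlinarith
  -- estimates
  have hrpos : ∀ N ∈ S, 0 < |r N| := fun N hN => by rw [hr1 N (hSN N hN)]; exact Φ.norm_pos N
  have hj1 : ∀ N ∈ S, (1 : ℝ) ≤ |(j N : ℝ)| := by
    intro N hN
    have : (1 : ℤ) ≤ |j N| := Int.one_le_abs (hSj N hN)
    exact_mod_cast this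
  have ht : ∀ N ∈ S, |1 / (8 * (m : ℝ) * j N)| ≤ 1 / (8 * m) := by
    intro N hN
    rw [abs_div, abs_one, abs_mul, abs_of_pos (by positivity : (0 : ℝ) < 8 * m)]
    apply div_le_div_of_nonneg_left (by norm_num) (by positivity)
    have := hj1 N hN
    nlinarith
  have hRr : ∀ N ∈ S, (Φ.D N).R * |r N| ≤ eps N := by
    intro N hN
    rw [hr1 N (hSN N hN)]
    exact (mul_le_mul_of_nonneg_left (Φ.hsη N).le (Φ.D N).hR).trans (Φ.D N).hRη
  have hlr : ∀ N ∈ S, |(l N : ℝ) * r N - 1 / (8 * m * j N)| ≤ eps N := by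
    intro N hN
    have hr0 : r N ≠ 0 := abs_pos.1 (hrpos N hN)
    have : (l N : ℝ) * r N - 1 / (8 * m * j N) = (l N - (1 / (8 * m * j N)) / r N) * r N := by
      field_simp
    rw [this, abs_mul]
    exact (mul_le_mul_of_nonneg_right (hl1 N) (abs_nonneg _)).trans (hRr N hN)
  have hlr1 : ∀ N ∈ S, |(l N : ℝ)| * |r N| ≤ 1 := by
    intro N hN
    rw [← abs_mul]
    have h1 : |(l N : ℝ) * r N| ≤ |(l N : ℝ) * r N - 1 / (8 * m * j N)| + |1 / (8 * (m : ℝ) * j N)| := by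
      have := abs_add_le ((l N : ℝ) * r N - 1 / (8 * m * j N)) (1 / (8 * m * j N))
      simpa using this
    have h2 := hlr N hN
    have h3 := ht N hN
    have h4 := eps_le_one N
    have h5 : 1 / (8 * (m : ℝ)) ≤ 1 / 8 := by
      apply div_le_div_of_nonneg_left (by norm_num) (by norm_num)
      linarith
    linarith
  have hepsN : ∀ N ∈ S, eps N ≤ eps N0 := fun N hN => eps_anti (hSN N hN)
  -- the action of `l N` on the sequence
  have hls : ∀ N ∈ S, ∀ i, ‖l N • Φ.s i‖ ≤ eps N0 + if i = N then 1 / (8 * (m : ℝ)) else 0 := by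
    intro N hN i
    rcases lt_trichotomy i N with hi | hi | hi
    · rw [if_neg (by omega), add_zero]
      exact (hl2 N _ (Φ.s_mem hi)).trans (hepsN N hN)
    · subst hi
      rw [if_pos rfl, ← hr i (hSN i hN), ← AddCircle.coe_zsmul, zsmul_eq_mul]
      refine (norm_coe_le _).trans ?_
      have h1 : |(l i : ℝ) * r i| ≤ |(l i : ℝ) * r i - 1 / (8 * m * j i)| +
          |1 / (8 * (m : ℝ) * j i)| := by
        have := abs_add_le ((l i : ℝ) * r i - 1 / (8 * m * j i)) (1 / (8 * m * j i))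
        simpa using this
      have h2 := hlr i hN
      have h3 := ht i hN
      have h4 := hepsN i hN
      linarith
    · rw [if_neg (by omega), add_zero]
      refine (zsmul_norm_le _ _).trans ?_
      have h1 := Φ.s_le hi
      have h2 : |(l N : ℝ)| * ‖Φ.s i‖ ≤ |(l N : ℝ)| * (eps i * ‖Φ.s N‖) :=
        mul_le_mul_of_nonneg_left h1 (abs_nonneg _)
      refine h2.trans ?_
      have h3 := hlr1 N hN
      rw [hr1 N (hSN N hN)] at h3
      have h4 : eps i ≤ eps N0 := eps_anti ((hSN N hN).trans hi.le)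
      have h5 := eps_pos i
      calc |(l N : ℝ)| * (eps i * ‖Φ.s N‖) = (|(l N : ℝ)| * ‖Φ.s N‖) * eps i := by ring
        _ ≤ 1 * eps i := mul_le_mul_of_nonneg_right h3 h5.le
        _ ≤ eps N0 := by linarith
  -- the integer `L`
  let L : ℤ := ∑ N ∈ S, l N
  have hL : ∀ y : T, ‖L • y‖ ≤ ∑ N ∈ S, ‖l N • y‖ := by
    intro y
    have : L • y = ∑ N ∈ S, l N • y := Finset.sum_smul
    rw [this]
    exact norm_sum_le _ _
  have hcardR : (S.card : ℝ) = 4 * m := by rw [hcard]; push_cast; ring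
  have h4m : 4 * (m : ℝ) * eps N0 ≤ 1 / (8 * m) := by
    rw [le_div_iff₀ (by positivity)]
    nlinarith
  have hLx : ‖L • x‖ ≤ 1 / 4 := by
    refine hx L (fun f hf => ?_) (fun i => ?_)
    · refine (hL f).trans ?_
      have h1 : ∑ N ∈ S, ‖l N • f‖ ≤ ∑ N ∈ S, eps N0 := Finset.sum_le_sum fun N hN =>
        (hl2 N f (Φ.F_mono (hSN N hN) (hFN hf))).trans (hepsN N hN)
      refine h1.trans ?_
      rw [Finset.sum_const, nsmul_eq_mul, hcardR]
      refine h4m.trans ?_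
      apply div_le_div_of_nonneg_left (by norm_num) (by positivity)
      linarith
    · refine (hL _).trans ?_
      have h1 : ∑ N ∈ S, ‖l N • Φ.s i‖ ≤ ∑ N ∈ S, (eps N0 + if i = N then 1 / (8 * (m : ℝ)) else 0) :=
        Finset.sum_le_sum fun N hN => hls N hN i
      refine h1.trans ?_
      rw [Finset.sum_add_distrib, Finset.sum_const, nsmul_eq_mul, hcardR, Finset.sum_ite_eq]
      have h2 : (if i ∈ S then 1 / (8 * (m : ℝ)) else 0) ≤ 1 / (8 * m) := by
        split_ifs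
        · exact le_rfl
        · positivity
      have h3 : 1 / (8 * (m : ℝ)) + 1 / (8 * m) = 1 / (4 * m) := by field_simp; norm_num
      linarith
  -- the value of `L • x`
  have hterm : ∀ N ∈ S, ‖l N • x - ((1 / (8 * m) : ℝ) : T)‖ ≤ 42 / (4096 * ((N0 : ℝ) + 1)) := by
    intro N hN
    have hNN := hSN N hN
    have hNr : (N0 : ℝ) ≤ N := by exact_mod_cast hNN
    have hN0 : (0 : ℝ) ≤ N := Nat.cast_nonneg N
    have h1 : l N • x - ((1 / (8 * m) : ℝ) : T) = l N • a N +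
        (((j N * (l N * r N - 1 / (8 * m * j N)) + l N * z N : ℝ)) : T) := by
      have h2 : ((j N * (l N * r N - 1 / (8 * m * j N)) + l N * z N : ℝ) : T) =
          (((l N : ℝ) * (j N * r N + z N) : ℝ) : T) - ((1 / (8 * m) : ℝ) : T) := by
        rw [← AddCircle.coe_sub]
        congr 1
        have h3 : (j N : ℝ) ≠ 0 := by exact_mod_cast hSj N hN
        field_simp
        ring
      rw [h2, hxa N hNN, smul_add, ← AddCircle.coe_zsmul, zsmul_eq_mul]
      exact add_sub_assoc _ _ _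
    rw [h1]
    refine (norm_add_le _ _).trans ?_
    have h2 : ‖l N • a N‖ ≤ eps N := hl3 N _ (ha N hNN)
    have h3 : ‖((j N * (l N * r N - 1 / (8 * m * j N)) + l N * z N : ℝ) : T)‖ ≤
        |(j N : ℝ)| * eps N + 32 * ((N : ℝ) + 1) * eps (N + 1) := by
      refine (norm_coe_le _).trans ((abs_add_le _ _).trans ?_)
      rw [abs_mul, abs_mul]
      refine add_le_add (mul_le_mul_of_nonneg_left (hlr N hN) (abs_nonneg _)) ?_
      have h4 := hz N hNN
      have h5 := Φ.s_le (Nat.lt_succ_self N)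
      have h6 := hlr1 N hN
      rw [hr1 N hNN] at h6
      calc |(l N : ℝ)| * |z N| ≤ |(l N : ℝ)| * (32 * ((N : ℝ) + 1) * (eps (N + 1) * ‖Φ.s N‖)) := by
            refine mul_le_mul_of_nonneg_left (h4.trans ?_) (abs_nonneg _)
            exact mul_le_mul_of_nonneg_left h5 (by positivity)
        _ = (|(l N : ℝ)| * ‖Φ.s N‖) * (32 * ((N : ℝ) + 1) * eps (N + 1)) := by ring
        _ ≤ 1 * (32 * ((N : ℝ) + 1) * eps (N + 1)) :=
            mul_le_mul_of_nonneg_right h6 (by have := eps_pos (N + 1); positivity)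
        _ = 32 * ((N : ℝ) + 1) * eps (N + 1) := one_mul _
    have h4 := hj N hNN
    have h5 := eps_pos N
    have h6 : eps (N + 1) ≤ eps N := eps_anti (Nat.le_succ N)
    have h7 : eps N + ((8 * ((N : ℝ) + 1) + 1) * eps N + 32 * ((N : ℝ) + 1) * eps N) ≤
        42 / (4096 * ((N0 : ℝ) + 1)) := by
      have h8 : eps N + ((8 * ((N : ℝ) + 1) + 1) * eps N + 32 * ((N : ℝ) + 1) * eps N) =
          (40 * ((N : ℝ) + 1) + 2) * eps N := by ring
      rw [h8]
      have h9 : (40 * ((N : ℝ) + 1) + 2) * eps N ≤ 42 / (4096 * ((N : ℝ) + 1)) := by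
        unfold eps
        rw [mul_one_div, div_le_div_iff₀ (by positivity) (by positivity)]
        nlinarith
      refine h9.trans ?_
      apply div_le_div_of_nonneg_left (by norm_num) (by positivity)
      linarith
    have h10 : |(j N : ℝ)| * eps N ≤ (8 * ((N : ℝ) + 1) + 1) * eps N :=
      mul_le_mul_of_nonneg_right h4 h5.le
    have h11 : 32 * ((N : ℝ) + 1) * eps (N + 1) ≤ 32 * ((N : ℝ) + 1) * eps N :=
      mul_le_mul_of_nonneg_left h6 (by positivity)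
    linarith
  have hsum : ‖L • x - ((1 / 2 : ℝ) : T)‖ ≤ 1 / 16 := by
    have h1 : L • x - ((1 / 2 : ℝ) : T) = ∑ N ∈ S, (l N • x - ((1 / (8 * m) : ℝ) : T)) := by
      rw [Finset.sum_sub_distrib, Finset.sum_const, hcard]
      congr 1
      · exact Finset.sum_smul
      · rw [← AddCircle.coe_nsmul, nsmul_eq_mul]
        congr 1
        push_cast
        field_simp
        norm_num
    rw [h1]
    refine (norm_sum_le _ _).trans ((Finset.sum_le_sum hterm).trans ?_)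
    rw [Finset.sum_const, nsmul_eq_mul, hcardR, mul_div_assoc', div_le_div_iff₀ (by positivity)
      (by norm_num)]
    nlinarith
  have hhalf : ‖((1 / 2 : ℝ) : T)‖ = 1 / 2 := by
    rw [norm_coe_eq (by rw [abs_of_pos] <;> norm_num), abs_of_pos (by norm_num)]
  have h1 : ‖((1 / 2 : ℝ) : T)‖ ≤ ‖L • x‖ + ‖L • x - ((1 / 2 : ℝ) : T)‖ := by
    have h2 : ((1 / 2 : ℝ) : T) = L • x - (L • x - ((1 / 2 : ℝ) : T)) := by abel
    calc ‖((1 / 2 : ℝ) : T)‖ = ‖L • x - (L • x - ((1 / 2 : ℝ) : T))‖ := by rw [← h2]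
      _ ≤ _ := norm_sub_le _ _
  linarith

/-- **Main property of fast sequences.** -/
theorem mem_of_hyp (hH : ∀ x ∈ H, ∃ n, h n = x) (hF : ∀ f ∈ F, f ∈ H) (hx : Hyp Φ F m x)
    (hm : 1 ≤ m) : x ∈ H := by
  classical
  -- a level `N0` with `F ⊆ F N0` and `m ≤ N0`
  obtain ⟨N1, hN1⟩ : ∃ N1, F ⊆ Φ.F N1 := by
    have h1 : ∀ f ∈ F, ∃ n, f ∈ Φ.F n := by
      intro f hf
      obtain ⟨n, rfl⟩ := hH f (hF f hf)
      exact ⟨n + 1, Φ.hF4 n⟩
    choose! k hk using h1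
    exact ⟨F.sup k, fun f hf => Φ.F_mono (Finset.le_sup hf) (hk f hf)⟩
  let N0 := max N1 m
  have hmN : m ≤ N0 := le_max_right _ _
  have hFN : F ⊆ Φ.F N0 := hN1.trans (Φ.F_mono (le_max_left _ _))
  have hdec := fun (N : ℕ) (hN : N0 ≤ N) =>
    decomp Φ hx hm (hmN.trans hN) (hFN.trans (Φ.F_mono hN))
  choose! a ha j r z hr hr1 hxa hj hz using hdec
  have hfin := finite_nonzero Φ hx hm hmN hFN a j r z ha hr hr1 hxa hj hz
  obtain ⟨M, hM⟩ : ∃ M, ∀ N, M ≤ N → N0 ≤ N → j N = 0 := by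
    obtain ⟨M, hM⟩ := hfin.bddAbove
    refine ⟨M + 1, fun N hN hN0 => ?_⟩
    by_contra hne
    have := hM ⟨hN0, hne⟩
    omega
  let N2 := max M N0
  have hN2 : N0 ≤ N2 := le_max_right _ _
  have hxz : ∀ N, N2 ≤ N → ‖x - a N‖ ≤ 32 * ((N : ℝ) + 1) * ‖Φ.s (N + 1)‖ := by
    intro N hN
    have h1 := hxa N (hN2.trans hN)
    rw [hM N ((le_max_left _ _).trans hN) (hN2.trans hN)] at h1
    have h2 : x - a N = ((z N : ℝ) : T) := by
      rw [h1]
      simp
    rw [h2]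
    exact (norm_coe_le _).trans (hz N (hN2.trans hN))
  have hstep : ∀ N, N2 ≤ N → a (N + 1) = a N := by
    intro N hN
    by_contra hne
    have h1 := (Φ.D (N + 1)).hsep (a N) (Or.inl (Φ.hF3 N (ha N (hN2.trans hN)))) (a (N + 1))
      (Or.inr (ha (N + 1) (hN2.trans (by omega)))) (fun h => hne h.symm)
    have h2 : ‖a N - a (N + 1)‖ ≤ ‖x - a N‖ + ‖x - a (N + 1)‖ := by
      have h10 : a N - a (N + 1) = (x - a (N + 1)) - (x - a N) := by abel
      have h11 := norm_sub_le (x - a (N + 1)) (x - a N)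
      rw [h10]
      linarith
    have h3 := hxz N hN
    have h4 := hxz (N + 1) (by omega)
    have h5 : ‖Φ.s (N + 1 + 1)‖ ≤ ‖Φ.s (N + 1)‖ := Φ.s_anti (Nat.le_succ _)
    have h6 := Φ.hsη (N + 1)
    have h7 := Φ.norm_pos (N + 1)
    have hN0 : (0 : ℝ) ≤ N := Nat.cast_nonneg N
    push_cast at h1 h4
    have h8 : 32 * ((N : ℝ) + 1 + 1) * ‖Φ.s (N + 1 + 1)‖ ≤ 32 * ((N : ℝ) + 1 + 1) * ‖Φ.s (N + 1)‖ :=
      mul_le_mul_of_nonneg_left h5 (by positivity)
    have h9 : 100 * ((N : ℝ) + 1 + 1) * ‖Φ.s (N + 1)‖ ≤ 100 * ((N : ℝ) + 1 + 1) * (Φ.D (N + 1)).η :=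
      mul_le_mul_of_nonneg_left h6.le (by positivity)
    nlinarith
  have hconst : ∀ n, a (N2 + n) = a N2 := by
    intro n
    induction n with
    | zero => rfl
    | succ n ih => rw [← add_assoc, hstep _ (by omega), ih]
  have hxa' : x = a N2 := by
    rw [← sub_eq_zero, ← norm_le_zero_iff]
    refine le_of_forall_pos_le_add fun δ hδ => ?_
    obtain ⟨n, hn⟩ := exists_nat_gt (1 / δ)
    have h1 := hxz (N2 + n) (by omega)
    rw [hconst n] at h1
    refine h1.trans ?_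
    have h2 := Φ.s_eps (N2 + n + 1)
    have h3 : 32 * (((N2 + n : ℕ) : ℝ) + 1) * eps (N2 + n + 1) ≤ 1 / ((n : ℝ) + 1) := by
      unfold eps
      push_cast
      rw [mul_one_div, div_le_div_iff₀ (by positivity) (by positivity)]
      have h4 : (0 : ℝ) ≤ N2 := Nat.cast_nonneg _
      have h5 : (0 : ℝ) ≤ n := Nat.cast_nonneg _
      nlinarith [mul_nonneg h4 h5]
    have h4 : 1 / ((n : ℝ) + 1) ≤ δ := by
      rw [div_lt_iff₀ hδ] at hn
      rw [div_le_iff₀ (by positivity)]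
      nlinarith
    have h5 : 32 * (((N2 + n : ℕ) : ℝ) + 1) * ‖Φ.s (N2 + n + 1)‖ ≤
        32 * (((N2 + n : ℕ) : ℝ) + 1) * eps (N2 + n + 1) :=
      mul_le_mul_of_nonneg_left h2 (by positivity)
    linarith
  rw [hxa']
  exact (Φ.D N2).hQ _ (ha N2 hN2)

end Pool.Agent.R821
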