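import Mathlib

/-!
# Minimal abelian group topologies: tools
-/

set_option autoImplicit false

open Filter Topology Pointwise

namespace Pool.Agent.R821

universe u v

/-- A (Hausdorff) abelian topological group `(G, τ)` is minimal: there is no Hausdorff group topology on
`G` strictly coarser than `τ` (in Mathlib `τ ≤ σ` says that `σ` is coarser than `τ`). -/
def AddMinimal (G : Type u) [AddCommGroup G] [τ : TopologicalSpace G] : Prop :=
  ∀ σ : TopologicalSpace G, @IsTopologicalAddGroup G σ _ → @T2Space G σ → τ ≤ σ → σ = τ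

theorem le_of_zero {G : Type u} [AddCommGroup G] (τ ρ : TopologicalSpace G)
    (h1 : @IsTopologicalAddGroup G τ _) (h2 : @IsTopologicalAddGroup G ρ _)
    (h : @nhds G τ 0 ≤ @nhds G ρ 0) : τ ≤ ρ := by
  refine le_of_nhds_le_nhds fun x => ?_
  have e1 : Filter.map (fun y => x + y) (@nhds G τ 0) = @nhds G τ x :=
    @map_add_left_nhds_zero G τ _ _ x
  have e2 : Filter.map (fun y => x + y) (@nhds G ρ 0) = @nhds G ρ x :=
    @map_add_left_nhds_zero G ρ _ _ x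
  rw [← e1, ← e2]
  exact Filter.map_mono h

/-- A group of exponent four whose topology is that of a subgroup of a compact Hausdorff group `C` of
exponent four and which contains all elements of `C` of order at most two is minimal. -/
theorem minimal_of_socle {N : Type u} {C : Type v} [AddCommGroup N] [τ : TopologicalSpace N]
    [IsTopologicalAddGroup N] [AddCommGroup C] [TopologicalSpace C] [IsTopologicalAddGroup C]
    [CompactSpace C] [T2Space C] (ι : N →+ C) (hι : IsInducing ι)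
    (h4 : ∀ c : C, (2 : ℕ) • (2 : ℕ) • c = 0) (hs : ∀ c : C, (2 : ℕ) • c = 0 → ∃ n, ι n = c)
    : AddMinimal N := by
  have hcomap : ∀ s : N, @nhds N τ s = Filter.comap ι (𝓝 (ι s)) := fun s => hι.nhds_eq_comap s
  intro σ hσ hσ2 hle
  refine le_antisymm ?_ hle
  refine le_of_zero σ τ hσ inferInstance ?_
  intro U hU
  by_contra hcon
  have hne : (@nhds N σ 0 ⊓ 𝓟 Uᶜ).NeBot := by
    rw [Filter.inf_principal_neBot_iff]
    intro V hV
    by_contra hemp
    rw [Set.not_nonempty_iff_eq_empty] at hemp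
    exact hcon (Filter.mem_of_superset hV fun x hx => by
      by_contra hxU
      have : x ∈ V ∩ Uᶜ := ⟨hx, hxU⟩
      rw [hemp] at this
      exact this)
  let 𝒰 : Ultrafilter N := @Ultrafilter.of N (@nhds N σ 0 ⊓ 𝓟 Uᶜ) hne
  have h𝒰 : (𝒰 : Filter N) ≤ @nhds N σ 0 ⊓ 𝓟 Uᶜ := Ultrafilter.of_le _
  have h𝒰σ : (𝒰 : Filter N) ≤ @nhds N σ 0 := h𝒰.trans inf_le_left
  obtain ⟨c, -, hc⟩ := isCompact_univ.ultrafilter_le_nhds (𝒰.map ι) (by simp)
  have hc' : Tendsto ι (𝒰 : Filter N) (𝓝 c) := hc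
  -- doubling
  have h2c : Tendsto (fun x : N => ι ((2 : ℕ) • x)) (𝒰 : Filter N) (𝓝 ((2 : ℕ) • c)) := by
    have h1 : Tendsto (fun x : N => (2 : ℕ) • ι x) (𝒰 : Filter N) (𝓝 ((2 : ℕ) • c)) :=
      hc'.const_smul 2
    refine h1.congr fun x => ?_
    rw [map_nsmul]
  obtain ⟨s0, hs0⟩ := hs ((2 : ℕ) • c) (h4 c)
  have h3 : @Tendsto N N (fun x => (2 : ℕ) • x) (𝒰 : Filter N) (@nhds N τ s0) := by
    rw [hcomap, hs0]
    exact Filter.tendsto_comap_iff.2 h2c
  have h4' : @Tendsto N N (fun x => (2 : ℕ) • x) (𝒰 : Filter N) (@nhds N σ s0) :=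
    h3.mono_right (nhds_mono hle)
  have h5 : @Tendsto N N (fun x => (2 : ℕ) • x) (𝒰 : Filter N) (@nhds N σ 0) := by
    have h6 : @Continuous N N σ σ (fun x => (2 : ℕ) • x) :=
      @continuous_nsmul N σ _ (@IsTopologicalAddGroup.toContinuousAdd N σ _ hσ) 2
    have h7 : @Tendsto N N (fun x => (2 : ℕ) • x) (@nhds N σ 0) (@nhds N σ ((2 : ℕ) • 0)) :=
      @Continuous.tendsto N N σ σ _ h6 0
    rw [smul_zero] at h7
    exact h7.mono_left h𝒰σ
  have h6 : s0 = 0 := @tendsto_nhds_unique N N σ hσ2 _ _ _ _ _ h4' h5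
  rw [h6, map_zero] at hs0
  obtain ⟨c0, hc0⟩ := hs c hs0.symm
  have h7 : (𝒰 : Filter N) ≤ @nhds N τ c0 := by
    rw [hcomap, hc0]
    exact Filter.tendsto_iff_comap.1 hc'
  have h8 : c0 = 0 := by
    have h9 : (𝒰 : Filter N) ≤ @nhds N σ c0 := h7.trans (nhds_mono hle)
    exact @eq_of_nhds_neBot N σ hσ2 c0 0 (Filter.NeBot.mono (inferInstance : (𝒰 : Filter N).NeBot)
      (le_inf h9 h𝒰σ))
  rw [h8] at h7
  have h10 : U ∈ (𝒰 : Filter N) := h7 hU
  have h11 : Uᶜ ∈ (𝒰 : Filter N) := (h𝒰.trans inf_le_right) (Filter.mem_principal_self _)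
  have h12 := Filter.inter_mem h10 h11
  rw [Set.inter_compl_self] at h12
  exact Filter.NeBot.ne inferInstance (Filter.empty_mem_iff_bot.1 h12)

/-- A minimal abelian group has no continuous homomorphism `f` to a normed group such that
`‖f (n • g)‖ = n * ‖f g‖` and `f g ≠ 0`. -/
theorem eq_zero_of_minimal {M : Type u} {D : Type v} [AddCommGroup M] [τ : TopologicalSpace M]
    [IsTopologicalAddGroup M] [T2Space M] [NormedAddCommGroup D]
    (hD : ∀ (n : ℤ) (x : D), ‖n • x‖ = |(n : ℝ)| * ‖x‖) (hM : AddMinimal M) (f : M →+ D)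
    (hf : Continuous f) (g : M) : f g = 0 := by
  by_contra hne
  have hr : 0 < ‖f g‖ := norm_pos_iff.2 hne
  have hsum : ∀ A ∈ 𝓝 (0 : M), ∃ A' ∈ 𝓝 (0 : M), A' + A' ⊆ A := by
    intro A hA
    obtain ⟨V, hV, h1, h2⟩ := exists_open_nhds_zero_add_subset hA
    exact ⟨V, hV.mem_nhds h1, h2⟩
  let Z : ℕ → AddSubgroup M := fun n => AddSubgroup.zmultiples ((2 ^ n : ℕ) • g)
  have hZ : ∀ {m n : ℕ}, m ≤ n → (Z n : Set M) ⊆ Z m := by
    intro m n hmn x hx
    obtain ⟨j, rfl⟩ := AddSubgroup.mem_zmultiples_iff.1 hx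
    obtain ⟨d, rfl⟩ := Nat.exists_eq_add_of_le hmn
    refine AddSubgroup.mem_zmultiples_iff.2 ⟨j * (2 ^ d : ℕ), ?_⟩
    rw [pow_add, mul_comm (2 ^ m) (2 ^ d), mul_smul, mul_smul, Nat.cast_smul_eq_nsmul]
  let Bas : AddGroupFilterBasis M :=
    { sets := {T | ∃ U ∈ @nhds M τ 0, ∃ n : ℕ, T = U + (Z n : Set M)}
      nonempty := ⟨_, Set.univ, univ_mem, 0, rfl⟩
      inter_sets := by
        rintro _ _ ⟨U, hU, n, rfl⟩ ⟨U', hU', m, rfl⟩
        refine ⟨_, ⟨U ∩ U', inter_mem hU hU', max n m, rfl⟩, ?_⟩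
        refine Set.subset_inter ?_ ?_
        · exact Set.add_subset_add Set.inter_subset_left (hZ (le_max_left _ _))
        · exact Set.add_subset_add Set.inter_subset_right (hZ (le_max_right _ _))
      zero' := by
        rintro _ ⟨U, hU, n, rfl⟩
        exact ⟨0, mem_of_mem_nhds hU, 0, (Z n).zero_mem, add_zero 0⟩
      add' := by
        rintro _ ⟨U, hU, n, rfl⟩
        obtain ⟨U', hU', h1⟩ := hsum U hU
        refine ⟨_, ⟨U', hU', n, rfl⟩, ?_⟩
        rintro _ ⟨_, ⟨u, hu, a, ha, rfl⟩, _, ⟨u', hu', a', ha', rfl⟩, rfl⟩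
        refine ⟨u + u', h1 ⟨u, hu, u', hu', rfl⟩, a + a', (Z n).add_mem ha ha', ?_⟩
        exact add_add_add_comm _ _ _ _
      neg' := by
        rintro _ ⟨U, hU, n, rfl⟩
        refine ⟨_, ⟨-U, neg_mem_nhds_zero M hU, n, rfl⟩, ?_⟩
        rintro _ ⟨u, hu, a, ha, rfl⟩
        refine ⟨-u, hu, -a, (Z n).neg_mem ha, ?_⟩
        change -u + -a = -(u + a)
        rw [neg_add]
      conj' := by
        rintro x0 _ ⟨U, hU, n, rfl⟩
        refine ⟨_, ⟨U, hU, n, rfl⟩, ?_⟩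
        intro y hy
        have h1 : x0 + y + -x0 = y := by abel
        refine Set.mem_preimage.2 ?_
        rw [h1]
        exact hy }
  have hmem : ∀ {T : Set M}, T ∈ Bas ↔ ∃ U ∈ @nhds M τ 0, ∃ n : ℕ, T = U + (Z n : Set M) := Iff.rfl
  have hnball : ∀ r > 0, {u : M | ‖f u‖ < r} ∈ @nhds M τ 0 := by
    intro r hr
    refine (isOpen_lt hf.norm continuous_const).mem_nhds ?_
    simpa using hr
  have hpt : ∀ y : M, y ≠ 0 → {y}ᶜ ∈ @nhds M τ 0 := fun y hy =>
    isOpen_compl_singleton.mem_nhds (by simpa using hy.symm)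
  have hnorm : ∀ (n : ℕ) (j : ℤ), ‖f (j • (2 ^ n : ℕ) • g)‖ = |(j : ℝ)| * (2 ^ n * ‖f g‖) := by
    intro n j
    rw [map_zsmul, hD, map_nsmul, ← natCast_zsmul, hD]
    simp
  let σ : TopologicalSpace M := Bas.topology
  have hσ : @IsTopologicalAddGroup M σ _ := Bas.isTopologicalAddGroup
  have hb : (@nhds M σ 0).HasBasis (fun S => S ∈ Bas) id := Bas.nhds_zero_hasBasis
  have hle : τ ≤ σ := by
    refine le_of_zero τ σ inferInstance hσ ?_
    intro T hT
    obtain ⟨T', hT', hTT⟩ := hb.mem_iff.1 hT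
    obtain ⟨U, hU, n, rfl⟩ := hmem.1 hT'
    exact mem_of_superset hU fun u hu => hTT ⟨u, hu, 0, (Z n).zero_mem, add_zero u⟩
  have hT2 : @T2Space M σ := by
    refine @IsTopologicalAddGroup.t2Space_of_zero_sep M σ _ hσ ?_
    intro y hy
    obtain ⟨n, hn⟩ := pow_unbounded_of_one_lt ((‖f y‖ + 1) / ‖f g‖) (one_lt_two : (1 : ℝ) < 2)
    rw [div_lt_iff₀ hr] at hn
    refine ⟨_, hb.mem_of_mem (hmem.2 ⟨{u : M | ‖f u‖ < 1} ∩ {y}ᶜ,
      inter_mem (hnball 1 one_pos) (hpt y hy), n, rfl⟩), ?_⟩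
    rintro ⟨u, ⟨hu1, hu2⟩, z, hz, huz⟩
    obtain ⟨j, rfl⟩ := AddSubgroup.mem_zmultiples_iff.1 hz
    change u + j • (2 ^ n : ℕ) • g = y at huz
    have h1 : ‖f (j • (2 ^ n : ℕ) • g)‖ ≤ ‖f y‖ + ‖f u‖ := by
      have h2 : f (j • (2 ^ n : ℕ) • g) = f y - f u := by
        rw [← map_sub, ← huz]
        congr 1
        abel
      rw [h2]
      exact norm_sub_le _ _
    rw [hnorm] at h1
    have h2 : ‖f u‖ < 1 := hu1
    have h3 : j = 0 := by
      by_contra hj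
      have h4 : (1 : ℝ) ≤ |(j : ℝ)| := by
        have : (1 : ℤ) ≤ |j| := Int.one_le_abs hj
        exact_mod_cast this
      nlinarith [norm_nonneg (f y), norm_nonneg (f u)]
    subst h3
    apply hu2
    rw [zero_smul, add_zero] at huz
    exact huz
  have heq : σ = τ := hM σ hσ hT2 hle
  have h1 : {u : M | ‖f u‖ < ‖f g‖} ∈ @nhds M σ 0 := by
    rw [heq]
    exact hnball _ hr
  obtain ⟨T', hT', hTT⟩ := hb.mem_iff.1 h1
  obtain ⟨U, hU, n, rfl⟩ := hmem.1 hT'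
  have h2 : ((2 ^ n : ℕ) • g) ∈ {u : M | ‖f u‖ < ‖f g‖} := by
    refine hTT ⟨0, @mem_of_mem_nhds M τ 0 U hU, _, AddSubgroup.mem_zmultiples _, zero_add _⟩
  have h3 : ‖f ((2 ^ n : ℕ) • g)‖ < ‖f g‖ := h2
  have h4 := hnorm n 1
  rw [one_smul] at h4
  rw [h4] at h3
  have h5 : (1 : ℝ) ≤ 2 ^ n := one_le_pow₀ one_le_two
  simp at h3
  nlinarith

end Pool.Agent.R821
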