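import Mathlib
import Pool.Agent.R821.FastFinal
import Pool.Agent.R821.MinTop

/-!
# Metrizable precompact group topologies on the integers are not Mackey

Every metrizable precompact locally quasi-convex group topology on `ℤ` has a strictly finer locally
quasi-convex group topology with the same continuous characters.
-/

set_option autoImplicit false

open Filter Topology Pointwise

namespace Pool.Agent.R821

/-- the subset `[-1/4, 1/4] + ℤ` of the circle `ℝ/ℤ` -/
def Tplus : Set T := (fun r : ℝ => (r : T)) '' Set.Icc (-(1 / 4)) (1 / 4)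

/-- A set `A` of integers is quasi-convex for the topology `τ` on `ℤ`: every point outside `A` can be
separated from `A` by a `τ`-continuous character. -/
def QuasiConvex (τ : TopologicalSpace ℤ) (A : Set ℤ) : Prop :=
  ∀ x, x ∉ A → ∃ χ : ℤ →+ T, @Continuous ℤ T τ _ χ ∧ (∀ a ∈ A, χ a ∈ Tplus) ∧ χ x ∉ Tplus

/-- The topology `τ` on `ℤ` is locally quasi-convex: `0` has a neighbourhood base of quasi-convex
sets. -/
def LocallyQuasiConvex (τ : TopologicalSpace ℤ) : Prop :=
  ∀ U ∈ @nhds ℤ τ 0, ∃ A ∈ @nhds ℤ τ 0, A ⊆ U ∧ QuasiConvex τ A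

/-- The two topologies on `ℤ` have the same continuous characters. -/
def Compatible (σ τ : TopologicalSpace ℤ) : Prop :=
  ∀ χ : ℤ →+ T, @Continuous ℤ T σ _ χ ↔ @Continuous ℤ T τ _ χ

/-- The topology `τ` on `ℤ` is precompact: for every neighbourhood `U` of `0` there is a finite set `F`
with `F + U = ℤ`. -/
def PrecompactTop (τ : TopologicalSpace ℤ) : Prop :=
  ∀ U ∈ @nhds ℤ τ 0, ∃ F : Set ℤ, F.Finite ∧ F + U = Set.univ

/-- The group topology `τ` on `ℤ` is Mackey: it is locally quasi-convex and it is finer than every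
locally quasi-convex Hausdorff group topology `σ` on `ℤ` with the same continuous characters (in Mathlib
`τ ≤ σ` says that `τ` is finer than `σ`). -/
def Mackey (τ : TopologicalSpace ℤ) : Prop :=
  LocallyQuasiConvex τ ∧ ∀ σ : TopologicalSpace ℤ, @IsTopologicalAddGroup ℤ σ _ → @T2Space ℤ σ →
    LocallyQuasiConvex σ → Compatible σ τ → τ ≤ σ

theorem mem_Tplus {t : T} : t ∈ Tplus ↔ ‖t‖ ≤ 1 / 4 := by
  constructor
  · rintro ⟨r, ⟨hr1, hr2⟩, rfl⟩
    exact (norm_coe_le r).trans (abs_le.2 ⟨hr1, hr2⟩)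
  · intro h
    obtain ⟨r, hr, hr1, -⟩ := exists_real t
    rw [← hr1, abs_le] at h
    exact ⟨r, ⟨h.1, h.2⟩, hr⟩

/-- the character of `ℤ` given by an element of the circle -/
noncomputable def chr (x : T) : ℤ →+ T where
  toFun l := l • x
  map_zero' := zero_smul ℤ x
  map_add' a b := add_smul a b x

theorem chr_apply (x : T) (l : ℤ) : chr x l = l • x := rfl

theorem eq_chr (χ : ℤ →+ T) : χ = chr (χ 1) := by
  ext
  simp [chr_apply]

theorem finite_of_sep (P : Set T) (c : ℝ) (hc : 0 < c)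
    (hP : ∀ p ∈ P, ∀ q ∈ P, ‖p - q‖ ≤ c → p = q) : P.Finite := by
  classical
  obtain ⟨S, -, hS, hcov⟩ := (isCompact_univ (X := T)).finite_cover_balls
    (e := c / 2) (by positivity)
  have hch : ∀ q : T, ∃ a ∈ S, q ∈ Metric.ball a (c / 2) := by
    intro q
    have := hcov (Set.mem_univ q)
    simpa using this
  choose a haS ha using hch
  refine Set.Finite.of_finite_image (f := a) (hS.subset ?_) ?_
  · rintro _ ⟨q, -, rfl⟩
    exact haS q
  · intro p hp q hq hpq
    refine hP p hp q hq ?_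
    have h1 := ha p
    have h2 := ha q
    rw [hpq] at h1
    rw [Metric.mem_ball] at h1 h2
    have h3 : dist p q ≤ dist p (a q) + dist (a q) q := dist_triangle _ _ _
    rw [dist_comm (a q) q] at h3
    rw [← dist_eq_norm]
    linarith

theorem bound_finite {E : Set ℤ} (hE : E.Finite) : ∃ M : ℝ, 0 < M ∧ ∀ e ∈ E, |(e : ℝ)| ≤ M := by
  refine ⟨hE.toFinset.sup Int.natAbs + 1, by positivity, fun e he => ?_⟩
  have h1 : e.natAbs ≤ hE.toFinset.sup Int.natAbs := Finset.le_sup (hE.mem_toFinset.2 he)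
  have h2 : |(e : ℝ)| = (e.natAbs : ℝ) := by
    rw [Nat.cast_natAbs, Int.cast_abs]
  rw [h2]
  have h3 : (e.natAbs : ℝ) ≤ (hE.toFinset.sup Int.natAbs : ℕ) := by exact_mod_cast h1
  linarith

/-- the polar of a neighbourhood of zero in a precompact topology is finite -/
theorem polar_nhds_finite (τ : TopologicalSpace ℤ) (hτ : @IsTopologicalAddGroup ℤ τ _)
    (hp : PrecompactTop τ) (A : Set ℤ) (hA : A ∈ @nhds ℤ τ 0) :
    {x : T | ∀ a ∈ A, ‖a • x‖ ≤ 1 / 4}.Finite := by
  classical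
  have hk : ∀ k : ℕ, {l : ℤ | k • l ∈ A} ∈ @nhds ℤ τ 0 := by
    intro k
    have h1 : @Continuous ℤ ℤ τ τ (fun l => k • l) :=
      @continuous_nsmul ℤ τ _ (@IsTopologicalAddGroup.toContinuousAdd ℤ τ _ hτ) k
    have h2 := @Continuous.tendsto ℤ ℤ τ τ _ h1 0
    rw [smul_zero] at h2
    exact h2 hA
  have hA' : (⋂ k ∈ Finset.range 5, {l : ℤ | k • l ∈ A}) ∈ @nhds ℤ τ 0 :=
    (Filter.biInter_finset_mem _).2 fun k _ => hk k
  obtain ⟨E, hE, hEA⟩ := hp _ hA'
  obtain ⟨M, hM, hME⟩ := bound_finite hE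
  have hx16 : ∀ x : T, (∀ a ∈ A, ‖a • x‖ ≤ 1 / 4) → ∀ l ∈ ⋂ k ∈ Finset.range 5, {l : ℤ | k • l ∈ A},
      ‖l • x‖ ≤ 1 / 16 := by
    intro x hx l hl
    have h1 := norm_le_of_mult (y := l • x) (n := 4) (by norm_num) fun k hk => by
      have h2 : k • l ∈ A := by
        have := Set.mem_iInter₂.1 hl k (Finset.mem_range.2 (by omega))
        exact this
      have h3 := hx _ h2
      rw [smul_assoc] at h3
      exact h3
    norm_num at h1
    linarith
  refine finite_of_sep _ (1 / (8 * M)) (by positivity) ?_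
  intro p hp q hq hpq
  rw [← sub_eq_zero]
  refine eq_zero_of_small fun n => ?_
  have hn : (n : ℤ) ∈ (Set.univ : Set ℤ) := trivial
  rw [← hEA] at hn
  obtain ⟨e, he, l, hl, hel⟩ := hn
  have h1 : n • (p - q) = e • (p - q) + (l • p - l • q) := by
    have hel' : e + l = (n : ℤ) := hel
    rw [← natCast_zsmul, ← hel', add_smul, smul_sub l]
  rw [h1]
  refine (norm_add_le _ _).trans ?_
  have h2 : ‖e • (p - q)‖ ≤ 1 / 8 := by
    refine (zsmul_norm_le _ _).trans ?_
    calc |(e : ℝ)| * ‖p - q‖ ≤ M * (1 / (8 * M)) := mul_le_mul (hME e he) hpq (norm_nonneg _) hM.le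
      _ = 1 / 8 := by field_simp
  have h3 := norm_sub_le (l • p) (l • q)
  have h4 := hx16 p hp l hl
  have h5 := hx16 q hq l hl
  linarith

theorem cont_add' {X : Type} [TopologicalSpace X] {f g : X → T} (hf : Continuous f)
    (hg : Continuous g) : Continuous fun x => f x + g x := hf.add hg

theorem cont_neg' {X : Type} [TopologicalSpace X] {f : X → T} (hf : Continuous f) :
    Continuous fun x => - f x := hf.neg

theorem firstCountable_of_metrizable {X : Type} [TopologicalSpace X]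
    [TopologicalSpace.MetrizableSpace X] : FirstCountableTopology X := by
  let _ := TopologicalSpace.metrizableSpaceMetric X
  infer_instance

/-- **The main theorem.** Every metrizable precompact locally quasi-convex group topology on `ℤ` has a
strictly finer locally quasi-convex group topology with the same continuous characters. -/
theorem exists_finer (τ : TopologicalSpace ℤ) (hτ : @IsTopologicalAddGroup ℤ τ _)
    (hmet : @TopologicalSpace.MetrizableSpace ℤ τ) (hp : PrecompactTop τ)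
    (hlqc : LocallyQuasiConvex τ) :
    ∃ σ : TopologicalSpace ℤ, @IsTopologicalAddGroup ℤ σ _ ∧ @T2Space ℤ σ ∧ LocallyQuasiConvex σ ∧
      Compatible σ τ ∧ σ ≤ τ ∧ ¬ τ ≤ σ := by
  classical
  have hT2 : @T2Space ℤ τ := @TopologicalSpace.t2Space_of_metrizableSpace ℤ τ hmet
  -- the dual group
  let H : AddSubgroup T :=
    { carrier := {x | @Continuous ℤ T τ _ (chr x)}
      zero_mem' := by
        have h1 : (chr 0 : ℤ → T) = fun _ => 0 := by ext l; simp [chr_apply]
        change @Continuous ℤ T τ _ (chr 0)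
        rw [h1]
        exact @continuous_const ℤ T τ _ 0
      add_mem' := by
        intro x y hx hy
        have hx' : @Continuous ℤ T τ _ (chr x) := hx
        have hy' : @Continuous ℤ T τ _ (chr y) := hy
        have h1 : (chr (x + y) : ℤ → T) = fun l => chr x l + chr y l := by
          ext l; simp [chr_apply]
        change @Continuous ℤ T τ _ (chr (x + y))
        rw [h1]
        exact @cont_add' ℤ τ _ _ hx' hy'
      neg_mem' := by
        intro x hx
        have hx' : @Continuous ℤ T τ _ (chr x) := hx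
        have h1 : (chr (-x) : ℤ → T) = fun l => - chr x l := by
          ext l; simp [chr_apply]
        change @Continuous ℤ T τ _ (chr (-x))
        rw [h1]
        exact @cont_neg' ℤ τ _ hx' }
  have hHm : ∀ x : T, x ∈ H ↔ @Continuous ℤ T τ _ (chr x) := fun x => Iff.rfl
  have hball : ∀ x ∈ H, ∀ δ > 0, {l : ℤ | ‖l • x‖ < δ} ∈ @nhds ℤ τ 0 := by
    intro x hx δ hδ
    have h1 := @Continuous.tendsto ℤ T τ _ _ ((hHm x).1 hx) 0
    rw [map_zero] at h1
    have h2 : {y : T | ‖y‖ < δ} ∈ 𝓝 (0 : T) :=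
      (isOpen_lt continuous_norm continuous_const).mem_nhds (by simpa using hδ)
    exact h1 h2
  -- neighbourhoods contain Bohr sets
  have hbohr : ∀ U ∈ @nhds ℤ τ 0, ∃ F : Finset T, (∀ f ∈ F, f ∈ H) ∧
      ∀ l : ℤ, (∀ f ∈ F, ‖l • f‖ ≤ 1 / 4) → l ∈ U := by
    intro U hU
    obtain ⟨A, hA, hAU, hqc⟩ := hlqc U hU
    have hfin := polar_nhds_finite τ hτ hp A hA
    refine ⟨hfin.toFinset.filter fun x => x ∈ H, fun f hf => (Finset.mem_filter.1 hf).2,
      fun l hl => hAU ?_⟩
    by_contra hlA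
    obtain ⟨χ, hχ, hχA, hχl⟩ := hqc l hlA
    apply hχl
    rw [mem_Tplus]
    have h1 : χ l = l • χ 1 := by
      conv_lhs => rw [eq_chr χ]
      rfl
    rw [h1]
    refine hl (χ 1) (Finset.mem_filter.2 ⟨hfin.mem_toFinset.2 fun a ha => ?_, ?_⟩)
    · have h2 := mem_Tplus.1 (hχA a ha)
      rw [eq_chr χ] at h2
      exact h2
    · rw [hHm, ← eq_chr χ]
      exact hχ
  -- `H` is countable
  have hcount : (H : Set T).Countable := by
    have hfc : (@nhds ℤ τ 0).IsCountablyGenerated := by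
      have : @FirstCountableTopology ℤ τ := @firstCountable_of_metrizable ℤ τ hmet
      exact @FirstCountableTopology.nhds_generated_countable ℤ τ this 0
    obtain ⟨B, hB⟩ := (@nhds ℤ τ 0).exists_antitone_basis
    have h1 : (H : Set T) ⊆ ⋃ n, {x : T | ∀ a ∈ B n, ‖a • x‖ ≤ 1 / 4} := by
      intro x hx
      obtain ⟨n, -, hn⟩ := hB.toHasBasis.mem_iff.1 (hball x hx (1 / 4) (by norm_num))
      refine Set.mem_iUnion.2 ⟨n, fun a ha => ?_⟩
      have h2 : ‖a • x‖ < 1 / 4 := hn ha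
      exact h2.le
    refine (Set.countable_iUnion fun n => ?_).mono h1
    exact (polar_nhds_finite τ hτ hp (B n) (hB.toHasBasis.mem_of_mem trivial)).countable
  -- `H` is infinite
  have hinf : (H : Set T).Infinite := by
    intro hfin
    have hF : Finite H := hfin.to_subtype
    have hcard : 0 < Nat.card H := Nat.card_pos
    have h1 : {((Nat.card H : ℕ) : ℤ)}ᶜ ∈ @nhds ℤ τ 0 := by
      have h2 : @IsOpen ℤ τ {((Nat.card H : ℕ) : ℤ)}ᶜ :=
        @isOpen_compl_singleton ℤ τ (@T2Space.t1Space ℤ τ hT2) _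
      refine @IsOpen.mem_nhds ℤ τ 0 _ h2 ?_
      intro h3
      have h4 : (0 : ℤ) = (Nat.card H : ℕ) := h3
      omega
    obtain ⟨F, hFH, hF2⟩ := hbohr _ h1
    refine hF2 _ (fun f hf => ?_) rfl
    have h3 : (Nat.card H) • (⟨f, hFH f hf⟩ : H) = 0 := card_nsmul_eq_zero'
    have h4 : (Nat.card H) • f = 0 := congrArg Subtype.val h3
    rw [natCast_zsmul, h4, norm_zero]
    norm_num
  -- enumerate `H` and choose a fast sequence
  have hne : (H : Set T).Nonempty := ⟨0, H.zero_mem⟩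
  obtain ⟨h, hh⟩ := hcount.exists_eq_range hne
  have hhH : ∀ n, h n ∈ H := fun n => by
    have : h n ∈ (H : Set T) := by rw [hh]; exact ⟨n, rfl⟩
    exact this
  have hHh : ∀ x ∈ H, ∃ n, h n = x := by
    intro x hx
    have h1 : x ∈ (H : Set T) := hx
    rw [hh] at h1
    exact h1
  obtain ⟨Φ⟩ := exists_Fast H hinf h hhH
  -- the finer topology
  let W : Finset T → ℕ → Set ℤ := fun F m =>
    {l | (∀ f ∈ F, ‖l • f‖ ≤ 1 / (4 * m)) ∧ ∀ N, ‖l • Φ.s N‖ ≤ 1 / (4 * m)}
  have hWmono : ∀ {F F' : Finset T} {m m' : ℕ}, F' ⊆ F → 1 ≤ m' → m' ≤ m → W F m ⊆ W F' m' := by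
    intro F F' m m' hF hm hmm l hl
    have hm0 : (0 : ℝ) < m' := by exact_mod_cast hm
    have hmm' : (m' : ℝ) ≤ m := by exact_mod_cast hmm
    have h1 : 1 / (4 * (m : ℝ)) ≤ 1 / (4 * m') := by
      apply div_le_div_of_nonneg_left (by norm_num) (by positivity)
      linarith
    exact ⟨fun f hf => (hl.1 f (hF hf)).trans h1, fun N => (hl.2 N).trans h1⟩
  have hsum : ∀ (m : ℕ) (x : T) (a b : ℤ), 1 ≤ m → ‖a • x‖ ≤ 1 / (4 * ((2 * m : ℕ) : ℝ)) →
      ‖b • x‖ ≤ 1 / (4 * ((2 * m : ℕ) : ℝ)) → ‖(a + b) • x‖ ≤ 1 / (4 * m) := by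
    intro m x a b hm ha hb
    have hm0 : (0 : ℝ) < m := by exact_mod_cast hm
    rw [add_smul]
    refine (norm_add_le _ _).trans ?_
    have h1 : 1 / (4 * ((2 * m : ℕ) : ℝ)) + 1 / (4 * ((2 * m : ℕ) : ℝ)) = 1 / (4 * m) := by
      push_cast
      field_simp
      norm_num
    linarith
  let Bas : AddGroupFilterBasis ℤ :=
    { sets := {V | ∃ F : Finset T, (∀ f ∈ F, f ∈ H) ∧ ∃ m : ℕ, 1 ≤ m ∧ V = W F m}
      nonempty := ⟨_, ∅, by simp, 1, le_rfl, rfl⟩
      inter_sets := by
        rintro _ _ ⟨F, hF, m, hm, rfl⟩ ⟨F', hF', m', hm', rfl⟩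
        refine ⟨_, ⟨F ∪ F', fun f hf => ?_, max m m', hm.trans (le_max_left _ _), rfl⟩, ?_⟩
        · rcases Finset.mem_union.1 hf with h | h
          · exact hF f h
          · exact hF' f h
        · exact Set.subset_inter (hWmono Finset.subset_union_left hm (le_max_left _ _))
            (hWmono Finset.subset_union_right hm' (le_max_right _ _))
      zero' := by
        rintro _ ⟨F, hF, m, hm, rfl⟩
        refine ⟨fun f _ => ?_, fun N => ?_⟩
        · rw [zero_smul, norm_zero]; positivity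
        · rw [zero_smul, norm_zero]; positivity
      add' := by
        rintro _ ⟨F, hF, m, hm, rfl⟩
        refine ⟨_, ⟨F, hF, 2 * m, by omega, rfl⟩, ?_⟩
        rintro _ ⟨a, ha, b, hb, rfl⟩
        exact ⟨fun f hf => hsum m f a b hm (ha.1 f hf) (hb.1 f hf),
          fun N => hsum m _ a b hm (ha.2 N) (hb.2 N)⟩
      neg' := by
        rintro _ ⟨F, hF, m, hm, rfl⟩
        refine ⟨_, ⟨F, hF, m, hm, rfl⟩, ?_⟩
        intro l hl
        refine ⟨fun f hf => ?_, fun N => ?_⟩
        · rw [neg_smul, norm_neg]; exact hl.1 f hf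
        · rw [neg_smul, norm_neg]; exact hl.2 N
      conj' := by
        rintro x0 _ ⟨F, hF, m, hm, rfl⟩
        refine ⟨_, ⟨F, hF, m, hm, rfl⟩, ?_⟩
        intro y hy
        have h1 : x0 + y + -x0 = y := by ring
        refine Set.mem_preimage.2 ?_
        rw [h1]
        exact hy }
  have hmem : ∀ {V : Set ℤ}, V ∈ Bas ↔ ∃ F : Finset T, (∀ f ∈ F, f ∈ H) ∧ ∃ m : ℕ, 1 ≤ m ∧
      V = W F m := Iff.rfl
  obtain ⟨σ, hσdef⟩ : ∃ σ : TopologicalSpace ℤ, σ = Bas.topology := ⟨_, rfl⟩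
  have hσ : @IsTopologicalAddGroup ℤ σ _ := by rw [hσdef]; exact Bas.isTopologicalAddGroup
  have hb : (@nhds ℤ σ 0).HasBasis (fun S => S ∈ Bas) id := by
    rw [hσdef]; exact Bas.nhds_zero_hasBasis
  -- `σ` is finer than `τ`
  have hle : σ ≤ τ := by
    refine le_of_zero σ τ hσ hτ ?_
    intro U hU
    obtain ⟨F, hFH, hF2⟩ := hbohr U hU
    refine mem_of_superset (hb.mem_of_mem (hmem.2 ⟨F, hFH, 1, le_rfl, rfl⟩)) ?_
    intro l hl
    refine hF2 l fun f hf => ?_
    have := hl.1 f hf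
    simpa using this
  have hσT2 : @T2Space ℤ σ := @t2Space_antitone ℤ σ τ hle hT2
  have hHσ : ∀ x ∈ H, @Continuous ℤ T σ _ (chr x) := fun x hx => continuous_le_dom hle ((hHm x).1 hx)
  refine ⟨σ, hσ, hσT2, ?_, ?_, hle, ?_⟩
  · -- locally quasi-convex
    intro U hU
    obtain ⟨V, hV, hVU⟩ := hb.mem_iff.1 hU
    refine ⟨V, hb.mem_of_mem hV, hVU, ?_⟩
    obtain ⟨F, hF, m, hm, rfl⟩ := hmem.1 hV
    have hm0 : (0 : ℝ) < m := by exact_mod_cast hm
    intro l hl
    obtain ⟨f, hfH, hf1, hf2⟩ : ∃ f ∈ H, (∀ w ∈ W F m, ‖w • f‖ ≤ 1 / (4 * m)) ∧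
        1 / (4 * m) < ‖l • f‖ := by
      by_contra hcon
      push Not at hcon
      apply hl
      exact ⟨fun f hf => hcon f (hF f hf) fun w hw => hw.1 f hf,
        fun N => hcon _ (Φ.hs N) fun w hw => hw.2 N⟩
    obtain ⟨k, hk, hk2⟩ := exists_mult hm hf2
    refine ⟨chr (k • f), hHσ _ (H.nsmul_mem hfH k), fun w hw => ?_, fun hcon => ?_⟩
    · rw [mem_Tplus, chr_apply, smul_comm]
      have h1 := hf1 w hw
      have h2 := zsmul_norm_le (k : ℤ) (w • f)
      rw [natCast_zsmul] at h2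
      refine h2.trans ?_
      have hk' : (k : ℝ) ≤ m := by exact_mod_cast hk
      simp only [Int.cast_natCast, Nat.abs_cast]
      calc (k : ℝ) * ‖w • f‖ ≤ m * (1 / (4 * m)) := mul_le_mul hk' h1 (norm_nonneg _) hm0.le
        _ = 1 / 4 := by field_simp
    · rw [mem_Tplus, chr_apply, smul_comm] at hcon
      exact absurd hk2 (not_lt.2 hcon)
  · -- compatible
    intro χ
    constructor
    · intro hχ
      have h1 : {l : ℤ | ‖l • χ 1‖ ≤ 1 / 4} ∈ @nhds ℤ σ 0 := by
        have h2 := @Continuous.tendsto ℤ T σ _ _ hχ 0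
        rw [map_zero] at h2
        have h3 : {y : T | ‖y‖ < 1 / 4} ∈ 𝓝 (0 : T) :=
          (isOpen_lt continuous_norm continuous_const).mem_nhds (by norm_num)
        refine mem_of_superset (h2 h3) fun l hl => ?_
        have h4 : ‖χ l‖ < 1 / 4 := hl
        rw [eq_chr χ] at h4
        exact h4.le
      obtain ⟨V, hV, hVU⟩ := hb.mem_iff.1 h1
      obtain ⟨F, hF, m, hm, rfl⟩ := hmem.1 hV
      have h2 : χ 1 ∈ H := mem_of_hyp Φ hHh hF (F := F) (m := m)
        (fun l hl1 hl2 => hVU ⟨hl1, hl2⟩) hm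
      rw [eq_chr χ]
      exact (hHm _).1 h2
    · intro hχ
      exact continuous_le_dom hle hχ
  · -- not coarser
    intro hτσ
    have h1 : W ∅ 2 ∈ @nhds ℤ τ 0 :=
      (nhds_mono hτσ) (hb.mem_of_mem (hmem.2 ⟨∅, by simp, 2, by norm_num, rfl⟩))
    obtain ⟨E, hE, hEW⟩ := hp _ h1
    obtain ⟨M, hM, hME⟩ := bound_finite hE
    obtain ⟨N, hN⟩ := exists_nat_gt M
    have hN0 : (0 : ℝ) < N := lt_trans hM hN
    refine Φ.hs0 N (eq_zero_of_small fun n => ?_)
    have hn : (n : ℤ) ∈ (Set.univ : Set ℤ) := trivial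
    rw [← hEW] at hn
    obtain ⟨e, he, l, hl, hel⟩ := hn
    have hel' : e + l = (n : ℤ) := hel
    rw [← natCast_zsmul, ← hel', add_smul]
    refine (norm_add_le _ _).trans ?_
    have h2 : ‖l • Φ.s N‖ ≤ 1 / 8 := by
      have := hl.2 N
      norm_num at this
      linarith
    have h3 : ‖e • Φ.s N‖ ≤ 1 / 8 := by
      refine (zsmul_norm_le _ _).trans ?_
      have h4 : |(e : ℝ)| * ‖Φ.s N‖ ≤ N * eps N :=
        mul_le_mul ((hME e he).trans hN.le) (Φ.s_eps N) (norm_nonneg _) hN0.le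
      refine h4.trans ?_
      unfold eps
      rw [mul_one_div, div_le_div_iff₀ (by positivity) (by norm_num)]
      nlinarith
    linarith

end Pool.Agent.R821
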