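import Mathlib
import Pool.Agent.R821.NoMackey

/-!
# Topologies on the integers of uniform convergence on a set of characters
-/

set_option autoImplicit false

open Filter Topology Pointwise

namespace Pool.Agent.R821

/-- the subset `[-1/(4m), 1/(4m)] + ℤ` of the circle `ℝ/ℤ` -/
def Tm (m : ℕ) : Set T := (fun r : ℝ => (r : T)) '' Set.Icc (-(1 / (4 * (m : ℝ)))) (1 / (4 * (m : ℝ)))

theorem mem_Tm {m : ℕ} {t : T} : t ∈ Tm m ↔ ‖t‖ ≤ 1 / (4 * (m : ℝ)) := by
  constructor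
  · rintro ⟨r, ⟨hr1, hr2⟩, rfl⟩
    exact (norm_coe_le r).trans (abs_le.2 ⟨hr1, hr2⟩)
  · intro h
    obtain ⟨r, hr, hr1, -⟩ := exists_real t
    rw [← hr1, abs_le] at h
    exact ⟨r, ⟨h.1, h.2⟩, hr⟩

/-- the set of the integers `l` such that `l • s ∈ [-1/(4m), 1/(4m)] + ℤ` for all `s ∈ S` -/
def Vset (S : Set T) (m : ℕ) : Set ℤ := {l | ∀ s ∈ S, l • s ∈ Tm m}

theorem mem_Vset {S : Set T} {m : ℕ} {l : ℤ} :
    l ∈ Vset S m ↔ ∀ s ∈ S, ‖l • s‖ ≤ 1 / (4 * (m : ℝ)) := by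
  constructor
  · intro h s hs
    exact mem_Tm.1 (h s hs)
  · intro h s hs
    exact mem_Tm.2 (h s hs)

theorem inv_mono {m m' : ℕ} (hm : 1 ≤ m') (hmm : m' ≤ m) :
    1 / (4 * (m : ℝ)) ≤ 1 / (4 * (m' : ℝ)) := by
  have hm0 : (0 : ℝ) < m' := by exact_mod_cast hm
  have hmm' : (m' : ℝ) ≤ m := by exact_mod_cast hmm
  apply div_le_div_of_nonneg_left (by norm_num) (by positivity)
  linarith

theorem Vset_mono {S S' : Set T} {m m' : ℕ} (hS : S' ⊆ S) (hm : 1 ≤ m') (hmm : m' ≤ m) :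
    Vset S m ⊆ Vset S' m' := by
  intro l hl
  rw [mem_Vset] at hl ⊢
  exact fun s hs => (hl s (hS hs)).trans (inv_mono hm hmm)

/-- the sets `Vset S m`, `m ≥ 1`, form a base of neighbourhoods of zero of a group topology -/
@[reducible] def unifBasis (S : Set T) : AddGroupFilterBasis ℤ where
  sets := {V | ∃ m : ℕ, 1 ≤ m ∧ V = Vset S m}
  nonempty := ⟨_, 1, le_rfl, rfl⟩
  inter_sets := by
    rintro _ _ ⟨m, hm, rfl⟩ ⟨m', hm', rfl⟩
    refine ⟨_, ⟨max m m', hm.trans (le_max_left _ _), rfl⟩, ?_⟩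
    exact Set.subset_inter (Vset_mono (Set.Subset.refl _) hm (le_max_left _ _))
      (Vset_mono (Set.Subset.refl _) hm' (le_max_right _ _))
  zero' := by
    rintro _ ⟨m, hm, rfl⟩
    rw [mem_Vset]
    intro s _
    rw [zero_smul, norm_zero]; positivity
  add' := by
    rintro _ ⟨m, hm, rfl⟩
    refine ⟨_, ⟨2 * m, by omega, rfl⟩, ?_⟩
    rintro _ ⟨a, ha, b, hb, rfl⟩
    rw [mem_Vset] at ha hb ⊢
    intro s hs
    have hm0 : (0 : ℝ) < m := by exact_mod_cast hm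
    change ‖(a + b) • s‖ ≤ _
    rw [add_smul]
    refine (norm_add_le _ _).trans ?_
    have h1 : 1 / (4 * ((2 * m : ℕ) : ℝ)) + 1 / (4 * ((2 * m : ℕ) : ℝ)) = 1 / (4 * m) := by
      push_cast
      field_simp
      norm_num
    have h2 := ha s hs
    have h3 := hb s hs
    linarith
  neg' := by
    rintro _ ⟨m, hm, rfl⟩
    refine ⟨_, ⟨m, hm, rfl⟩, ?_⟩
    intro l hl
    rw [mem_Vset] at hl
    refine Set.mem_preimage.2 ?_
    rw [mem_Vset]
    intro s hs
    rw [neg_smul, norm_neg]; exact hl s hs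
  conj' := by
    rintro x0 _ ⟨m, hm, rfl⟩
    refine ⟨_, ⟨m, hm, rfl⟩, ?_⟩
    intro y hy
    have h1 : x0 + y + -x0 = y := by ring
    refine Set.mem_preimage.2 ?_
    rw [h1]
    exact hy

/-- the topology on `ℤ` of uniform convergence on the set `S` of characters: the group topology with the
neighbourhood base `Vset S m`, `m ≥ 1`, of zero -/
@[reducible] def unifTop (S : Set T) : TopologicalSpace ℤ := (unifBasis S).topology

theorem unifTop_group (S : Set T) : @IsTopologicalAddGroup ℤ (unifTop S) _ :=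
  (unifBasis S).isTopologicalAddGroup

theorem unifTop_mem (S : Set T) {U : Set ℤ} :
    U ∈ @nhds ℤ (unifTop S) 0 ↔ ∃ m : ℕ, 1 ≤ m ∧ Vset S m ⊆ U := by
  have hb : (@nhds ℤ (unifTop S) 0).HasBasis (fun V => V ∈ unifBasis S) id :=
    (unifBasis S).nhds_zero_hasBasis
  rw [hb.mem_iff]
  constructor
  · rintro ⟨V, ⟨m, hm, rfl⟩, hVU⟩
    exact ⟨m, hm, hVU⟩
  · rintro ⟨m, hm, hVU⟩
    exact ⟨_, ⟨m, hm, rfl⟩, hVU⟩

theorem cont_aux {G : Type} [AddCommGroup G] [TopologicalSpace G] [IsTopologicalAddGroup G]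
    (f : G →+ T) (h : ContinuousAt f 0) : Continuous f := continuous_of_continuousAt_zero f h

theorem chr_continuous_of_mem {S : Set T} {s : T} (hs : s ∈ S) :
    @Continuous ℤ T (unifTop S) _ (chr s) := by
  have h1 : @ContinuousAt ℤ T (unifTop S) _ (chr s) 0 := by
    change Tendsto (chr s) (@nhds ℤ (unifTop S) 0) (𝓝 (chr s 0))
    rw [map_zero, Metric.tendsto_nhds]
    intro δ hδ
    obtain ⟨m, hm⟩ := exists_nat_gt (1 / δ)
    have hm0 : (0 : ℝ) < m := lt_trans (by positivity) hm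
    have hm1 : 1 ≤ m := by
      have : 0 < m := by exact_mod_cast hm0
      omega
    have h2 : Vset S m ∈ @nhds ℤ (unifTop S) 0 := (unifTop_mem S).2 ⟨m, hm1, Set.Subset.refl _⟩
    filter_upwards [h2] with l hl
    rw [dist_zero_right, chr_apply]
    refine lt_of_le_of_lt (mem_Vset.1 hl s hs) ?_
    rw [div_lt_iff₀ (by positivity)]
    rw [div_lt_iff₀ hδ] at hm
    nlinarith
  exact @cont_aux ℤ _ (unifTop S) (unifTop_group S) (chr s) h1

theorem chr_continuous_zsmul {τ : TopologicalSpace ℤ} {x : T} (hx : @Continuous ℤ T τ _ (chr x))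
    (k : ℤ) : @Continuous ℤ T τ _ (chr (k • x)) := by
  have h1 : (chr (k • x) : ℤ → T) = (fun y : T => k • y) ∘ (chr x) := by
    funext l
    exact smul_comm l k x
  rw [h1]
  exact (continuous_zsmul k).comp hx

theorem unifTop_lqc (S : Set T) : LocallyQuasiConvex (unifTop S) := by
  intro U hU
  obtain ⟨m, hm, hVU⟩ := (unifTop_mem S).1 hU
  refine ⟨Vset S m, (unifTop_mem S).2 ⟨m, hm, Set.Subset.refl _⟩, hVU, ?_⟩
  have hm0 : (0 : ℝ) < m := by exact_mod_cast hm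
  intro l hl
  obtain ⟨f, hfS, hf2⟩ : ∃ f ∈ S, 1 / (4 * (m : ℝ)) < ‖l • f‖ := by
    by_contra hcon
    push Not at hcon
    exact hl (mem_Vset.2 hcon)
  obtain ⟨k, hk, hk2⟩ := exists_mult hm hf2
  refine ⟨chr ((k : ℤ) • f), chr_continuous_zsmul (chr_continuous_of_mem hfS) _, fun w hw => ?_,
    fun hcon => ?_⟩
  · rw [mem_Tplus, chr_apply, smul_comm]
    have h1 := mem_Vset.1 hw f hfS
    have h2 := zsmul_norm_le (k : ℤ) (w • f)
    refine h2.trans ?_
    have hk' : (k : ℝ) ≤ m := by exact_mod_cast hk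
    simp only [Int.cast_natCast, Nat.abs_cast]
    calc (k : ℝ) * ‖w • f‖ ≤ m * (1 / (4 * m)) := mul_le_mul hk' h1 (norm_nonneg _) hm0.le
      _ = 1 / 4 := by field_simp
  · rw [mem_Tplus, chr_apply, smul_comm, natCast_zsmul] at hcon
    exact absurd hk2 (not_lt.2 hcon)

end Pool.Agent.R821
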