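import Mathlib
import Pool.Agent.R821.UnifTop

/-!
# D-sequences and the topologies `λ_b`, `τ_b`, `s_b` on the integers
-/

set_option autoImplicit false

open Filter Topology Pointwise

namespace Pool.Agent.R821.DS

/-- A D-sequence: a sequence of positive integers with `b 0 = 1`, `b n ∣ b (n + 1)` and
`b n ≠ b (n + 1)` for all `n`. -/
def DSeq (b : ℕ → ℕ) : Prop := b 0 = 1 ∧ ∀ n, 0 < b n ∧ b n ∣ b (n + 1) ∧ b n ≠ b (n + 1)

/-- The D-sequences with `b (n + 1) / b n → ∞`. -/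
def DInf (b : ℕ → ℕ) : Prop := DSeq b ∧ Tendsto (fun n => b (n + 1) / b n) atTop atTop

/-- The topology `λ_b`: the coarsest topology on `ℤ` for which all the reductions
`ℤ → ℤ/(b n)` into discrete groups are continuous. If `b` is a D-sequence, then it is the group topology
with the neighbourhood base `b n ℤ` of zero, see `mem_nhds_lam`. -/
@[reducible] def lam (b : ℕ → ℕ) : TopologicalSpace ℤ :=
  ⨅ n, TopologicalSpace.induced (fun l : ℤ => (l : ZMod (b n))) ⊥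

/-- The topology `τ_b` of uniform convergence on the characters `k ↦ k / b n`, `n ≥ 1`. -/
@[reducible] noncomputable def tau (b : ℕ → ℕ) : TopologicalSpace ℤ :=
  unifTop {x : T | ∃ n, 1 ≤ n ∧ x = ((1 / (b n : ℝ) : ℝ) : T)}

/-- The topology `s_b`, the supremum (in Mathlib the infimum) of the topologies `τ_c`, where `c` is a
D-sequence with `c (n + 1) / c n → ∞` and `λ_c = λ_b`: the coarsest topology finer than all of them. -/
@[reducible] noncomputable def sup (b : ℕ → ℕ) : TopologicalSpace ℤ :=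
  sInf {τ | ∃ c : ℕ → ℕ, DInf c ∧ lam c = lam b ∧ τ = tau c}

/-- the group `H_b` of the elements `k / b n` of the circle -/
def Hb (b : ℕ → ℕ) : Set T := {x | ∃ (k : ℤ) (n : ℕ), x = (((k : ℝ) / (b n : ℝ) : ℝ) : T)}

theorem DSeq.dvd {b : ℕ → ℕ} (hb : DSeq b) {n m : ℕ} (h : n ≤ m) : b n ∣ b m := by
  induction h with
  | refl => exact dvd_rfl
  | step _ ih => exact ih.trans (hb.2 _).2.1

theorem nhds_induced_bot {α : Type} (f : ℤ → α) :
    @nhds ℤ (TopologicalSpace.induced f ⊥) 0 = 𝓟 {l | f l = f 0} := by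
  let _ : TopologicalSpace α := ⊥
  have : DiscreteTopology α := ⟨rfl⟩
  rw [nhds_induced, nhds_discrete, ← Filter.principal_singleton, Filter.comap_principal]
  rfl

theorem mem_nhds_lam {b : ℕ → ℕ} (hb : DSeq b) {U : Set ℤ} :
    U ∈ @nhds ℤ (lam b) 0 ↔ ∃ n, {l : ℤ | ((b n : ℕ) : ℤ) ∣ l} ⊆ U := by
  have h1 : @nhds ℤ (lam b) 0 = ⨅ n, 𝓟 {l : ℤ | ((b n : ℕ) : ℤ) ∣ l} := by
    rw [lam, nhds_iInf]
    congr 1
    funext n
    rw [nhds_induced_bot]
    congr 1
    ext l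
    change ((l : ℤ) : ZMod (b n)) = ((0 : ℤ) : ZMod (b n)) ↔ _
    rw [Int.cast_zero]
    exact ZMod.intCast_zmod_eq_zero_iff_dvd l (b n)
  rw [h1, Filter.mem_iInf_of_directed]
  · simp only [Filter.mem_principal]
  · intro n m
    refine ⟨max n m, ?_, ?_⟩
    · exact Filter.principal_mono.2 fun l hl =>
        (Int.natCast_dvd_natCast.2 (hb.dvd (le_max_left n m))).trans hl
    · exact Filter.principal_mono.2 fun l hl =>
        (Int.natCast_dvd_natCast.2 (hb.dvd (le_max_right n m))).trans hl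

theorem lam_group (b : ℕ → ℕ) : @IsTopologicalAddGroup ℤ (lam b) _ := by
  refine topologicalAddGroup_iInf fun n => ?_
  let _ : TopologicalSpace (ZMod (b n)) := ⊥
  have : DiscreteTopology (ZMod (b n)) := ⟨rfl⟩
  exact topologicalAddGroup_induced (Int.castAddHom (ZMod (b n)))

theorem lam_le {b c : ℕ → ℕ} (hb : DSeq b) (hc : DSeq c) (h : ∀ n, ∃ m, c n ∣ b m) :
    lam b ≤ lam c := by
  refine le_of_zero _ _ (lam_group _) (lam_group _) ?_
  intro U hU
  obtain ⟨n, hn⟩ := (mem_nhds_lam hc).1 hU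
  obtain ⟨m, hm⟩ := h n
  exact (mem_nhds_lam hb).2 ⟨m, fun l hl => hn ((Int.natCast_dvd_natCast.2 hm).trans hl)⟩

theorem lam_eq {b c : ℕ → ℕ} (hb : DSeq b) (hc : DSeq c) (h : ∀ n, ∃ m, c n ∣ b m)
    (h' : ∀ n, ∃ m, b n ∣ c m) : lam b = lam c :=
  le_antisymm (lam_le hb hc h) (lam_le hc hb h')

/-- the continuous characters for `λ_b` -/
theorem char_lam {b : ℕ → ℕ} (hb : DSeq b) {χ : ℤ →+ T} (hχ : @Continuous ℤ T (lam b) _ χ) :
    χ 1 ∈ Hb b := by
  have h1 : {l : ℤ | ‖χ l‖ < 1 / 4} ∈ @nhds ℤ (lam b) 0 := by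
    have h2 := @Continuous.tendsto ℤ T (lam b) _ _ hχ 0
    rw [map_zero] at h2
    have h3 : {y : T | ‖y‖ < 1 / 4} ∈ 𝓝 (0 : T) :=
      (isOpen_lt continuous_norm continuous_const).mem_nhds (by norm_num)
    exact h2 h3
  obtain ⟨n, hn⟩ := (mem_nhds_lam hb).1 h1
  have h2 : χ (b n : ℤ) = 0 := by
    refine eq_zero_of_small fun k => ?_
    have h3 : ((k : ℤ) * (b n : ℤ)) ∈ {l : ℤ | ‖χ l‖ < 1 / 4} := hn ⟨k, by ring⟩
    have h4 : ‖χ ((k : ℤ) * (b n : ℤ))‖ < 1 / 4 := h3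
    have h5 : χ ((k : ℤ) * (b n : ℤ)) = k • χ (b n : ℤ) := by
      rw [← smul_eq_mul, map_zsmul, natCast_zsmul]
    rw [h5] at h4
    exact h4.le
  have h3 : (b n : ℤ) • χ 1 = 0 := by
    rw [← map_zsmul, smul_eq_mul, mul_one]
    exact h2
  obtain ⟨r, hr, -, -⟩ := exists_real (χ 1)
  rw [← hr, ← AddCircle.coe_zsmul, AddCircle.coe_eq_zero_iff] at h3
  obtain ⟨k, hk⟩ := h3
  refine ⟨k, n, ?_⟩
  rw [← hr]
  congr 1
  rw [zsmul_eq_mul] at hk
  have hpos : (0 : ℝ) < b n := by exact_mod_cast (hb.2 n).1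
  rw [eq_div_iff hpos.ne']
  simp at hk
  linarith

end Pool.Agent.R821.DS
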