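import Mathlib
import Pool.Agent.R821.FreeT2

/-!
# Words of length at most four
-/

set_option autoImplicit false

open Filter Topology Pointwise

namespace Pool.Agent.R821.FG

theorem pattern1 : ∀ a : Bool × Bool, a.1 = true → (∀ l ∈ FreeGroup.reduce [a], l.1 = false) →
    False := by decide

theorem pattern2 : ∀ a b : Bool × Bool, (a.1 = true ∨ b.1 = true) →
    ¬ (a.1 = true ∧ b.1 = true ∧ a.2 = !b.2) →
    (∀ l ∈ FreeGroup.reduce [a, b], l.1 = false) → False := by decide

set_option maxRecDepth 100000 in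
theorem pattern3 : ∀ a b c : Bool × Bool, (a.1 = true ∨ b.1 = true ∨ c.1 = true) →
    ¬ (a.1 = true ∧ b.1 = true ∧ a.2 = !b.2) → ¬ (b.1 = true ∧ c.1 = true ∧ b.2 = !c.2) →
    (∀ l ∈ FreeGroup.reduce [a, b, c], l.1 = false) → False := by decide

/-- the boolean test for words of length four -/
def chk4 (a b c d : Bool × Bool) : Bool :=
  !((a.1 || b.1 || c.1 || d.1) && !(a.1 && b.1 && (a.2 == !b.2)) && !(b.1 && c.1 && (b.2 == !c.2)) &&
    !(c.1 && d.1 && (c.2 == !d.2)) && (FreeGroup.reduce [a, b, c, d]).all (fun l => !l.1)) ||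
  (a.1 && !b.1 && !c.1 && d.1 && (c.2 == !b.2) && (d.2 == !a.2))

set_option maxRecDepth 100000 in
theorem chk4_all : ∀ a b c d : Bool × Bool, chk4 a b c d = true := by decide

theorem pattern4 (a b c d : Bool × Bool)
    (h1 : a.1 = true ∨ b.1 = true ∨ c.1 = true ∨ d.1 = true)
    (h2 : ¬ (a.1 = true ∧ b.1 = true ∧ a.2 = !b.2)) (h3 : ¬ (b.1 = true ∧ c.1 = true ∧ b.2 = !c.2))
    (h4 : ¬ (c.1 = true ∧ d.1 = true ∧ c.2 = !d.2))
    (h5 : ∀ l ∈ FreeGroup.reduce [a, b, c, d], l.1 = false) :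
    a.1 = true ∧ b.1 = false ∧ c.1 = false ∧ d.1 = true ∧ c.2 = !b.2 ∧ d.2 = !a.2 := by
  have h := chk4_all a b c d
  have h6 : (FreeGroup.reduce [a, b, c, d]).all (fun l => !l.1) = true := by
    rw [List.all_eq_true]
    intro l hl
    simp [h5 l hl]
  unfold chk4 at h
  rw [h6] at h
  have e2 : (a.1 && b.1 && (a.2 == !b.2)) = false := by
    rw [Bool.eq_false_iff]
    intro h7
    simp only [Bool.and_eq_true, beq_iff_eq] at h7
    exact h2 ⟨h7.1.1, h7.1.2, h7.2⟩
  have e3 : (b.1 && c.1 && (b.2 == !c.2)) = false := by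
    rw [Bool.eq_false_iff]
    intro h7
    simp only [Bool.and_eq_true, beq_iff_eq] at h7
    exact h3 ⟨h7.1.1, h7.1.2, h7.2⟩
  have e4 : (c.1 && d.1 && (c.2 == !d.2)) = false := by
    rw [Bool.eq_false_iff]
    intro h7
    simp only [Bool.and_eq_true, beq_iff_eq] at h7
    exact h4 ⟨h7.1.1, h7.1.2, h7.2⟩
  have e1 : (a.1 || b.1 || c.1 || d.1) = true := by
    simp only [Bool.or_eq_true]
    tauto
  rw [e1, e2, e3, e4] at h
  simp only [Bool.not_false, Bool.and_true, Bool.not_true, Bool.false_or, Bool.and_eq_true,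
    Bool.not_eq_true', beq_iff_eq] at h
  exact ⟨h.1.1.1.1.1, h.1.1.1.1.2, h.1.1.1.2, h.1.1.2, h.1.2, h.2⟩

/-- words of length at most four, in which a letter `z` is cancelled -/
theorem pattern (L : List (Bool × Bool)) (hlen : L.length ≤ 4) (h1 : ∃ l ∈ L, l.1 = true)
    (h2 : L.IsChain fun a b => ¬ (a.1 = true ∧ b.1 = true ∧ a.2 = !b.2))
    (h3 : ∀ l ∈ FreeGroup.reduce L, l.1 = false) :
    ∃ a b c d, L = [a, b, c, d] ∧ a.1 = true ∧ b.1 = false ∧ c.1 = false ∧ d.1 = true ∧
      c.2 = !b.2 ∧ d.2 = !a.2 := by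
  match L, hlen, h1, h2, h3 with
  | [], _, h1, _, _ => simp at h1
  | [a], _, h1, h2, h3 =>
    exact (pattern1 a (by simpa using h1) h3).elim
  | [a, b], _, h1, h2, h3 =>
    exact (pattern2 a b (by simpa using h1) (by simpa [-not_and] using h2) h3).elim
  | [a, b, c], _, h1, h2, h3 =>
    have h2' : ¬ (a.1 = true ∧ b.1 = true ∧ a.2 = !b.2) ∧ ¬ (b.1 = true ∧ c.1 = true ∧ b.2 = !c.2) := by
      simpa [-not_and, List.isChain_cons_cons] using h2
    exact (pattern3 a b c (by simpa [-not_and] using h1) h2'.1 h2'.2 h3).elim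
  | [a, b, c, d], _, h1, h2, h3 =>
    have h2' : ¬ (a.1 = true ∧ b.1 = true ∧ a.2 = !b.2) ∧
        ¬ (b.1 = true ∧ c.1 = true ∧ b.2 = !c.2) ∧ ¬ (c.1 = true ∧ d.1 = true ∧ c.2 = !d.2) := by
      simpa [-not_and, List.isChain_cons_cons] using h2
    exact ⟨a, b, c, d, rfl, pattern4 a b c d (by simpa [-not_and] using h1) h2'.1 h2'.2.1 h2'.2.2 h3⟩
  | a :: b :: c :: d :: e :: L, h, _, _, _ =>
    exfalso
    simp only [List.length_cons] at h
    omega

section

variable {X : Type*} [DecidableEq X]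

theorem structure_lemma {D : Set X} {L W : List (X × Bool)} (hL : FreeGroup.IsReduced L)
    (hlen : L.length ≤ 4) (q : X → Option X) (hq : ∀ x ∈ D, q x = some x)
    (hq' : ∀ x, x ∉ D → q x = none)
    (h : FreeGroup.mk (L.map fun l => (q l.1, l.2)) = FreeGroup.mk (W.map fun l => (q l.1, l.2)))
    {z : X} (hzD : z ∈ D) (hzL : ∃ b, (z, b) ∈ L) (hzW : ∀ b, (z, b) ∉ W) :
    ∃ (ε : Bool) (b : X) (β : Bool) (c : X), L = [(z, ε), (b, β), (c, !β), (z, !ε)] ∧
      b ∉ D ∧ c ∉ D ∧ b ≠ c := by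
  have hqz : ∀ x, q x = some z → x = z := by
    intro x hx
    by_cases hxD : x ∈ D
    · rw [hq x hxD] at hx
      exact Option.some_injective _ hx
    · rw [hq' x hxD] at hx
      exact absurd hx (by simp)
  -- the first test
  let p : Option X → Bool := fun o => decide (o = some z)
  have hp : ∀ x, p (q x) = true → x = z := fun x hx => hqz x (of_decide_eq_true hx)
  have hpz : p (q z) = true := decide_eq_true (hq z hzD)
  set L' : List (Bool × Bool) := L.map fun l => (p (q l.1), l.2) with hL'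
  have h1 : FreeGroup.mk L' = FreeGroup.mk (W.map fun l => (p (q l.1), l.2)) := by
    have := congrArg (FreeGroup.map p) h
    rw [FreeGroup.map.mk, FreeGroup.map.mk, List.map_map, List.map_map] at this
    exact this
  have h2 : ∀ l ∈ FreeGroup.reduce L', l.1 = false := by
    intro l hl
    rw [FreeGroup.reduce.sound h1] at hl
    have h3 := (FreeGroup.Red.sublist (FreeGroup.reduce.red)).subset hl
    obtain ⟨⟨x, b⟩, hx, rfl⟩ := List.mem_map.1 h3
    by_contra hcon
    have h4 : p (q x) = true := by simpa using hcon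
    rw [hp x h4] at hx
    exact hzW b hx
  have h3 : L'.IsChain fun a b => ¬ (a.1 = true ∧ b.1 = true ∧ a.2 = !b.2) := by
    rw [hL', List.isChain_map]
    refine List.IsChain.imp ?_ hL
    rintro ⟨x, b⟩ ⟨x', b'⟩ hab ⟨ha, hb, hc⟩
    have h5 : x = x' := (hp x ha).trans (hp x' hb).symm
    have h6 : b = b' := hab h5
    have h7 : b = !b' := hc
    rw [h6] at h7
    simp at h7
  obtain ⟨bz, hbz⟩ := hzL
  obtain ⟨a', b', c', d', hLL, ha, hb, hc, hd, he, hf⟩ := pattern L' (by simpa [hL'] using hlen)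
    ⟨(p (q z), bz), List.mem_map_of_mem hbz, hpz⟩ h3 h2
  obtain ⟨⟨x1, ε⟩, ⟨b, β⟩, ⟨c, γ⟩, ⟨x4, ζ⟩, rfl⟩ : ∃ a b c d, L = [a, b, c, d] := by
    have hl4 : L.length = 4 := by
      have := congrArg List.length hLL
      simpa [hL'] using this
    match L, hl4 with
    | [a, b, c, d], _ => exact ⟨a, b, c, d, rfl⟩
  simp only [hL', List.map_cons, List.map_nil, List.cons.injEq, and_true] at hLL
  obtain ⟨rfl, rfl, rfl, rfl⟩ := hLL
  simp only at ha hb hc hd he hf
  obtain rfl := hp x1 ha
  obtain rfl := hp x4 hd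
  subst he hf
  refine ⟨ε, b, β, c, rfl, ?_⟩
  -- the second test
  have hred : ((x4, ε).1 = (b, β).1 → ε = β) ∧ (b = c → β = !β) ∧ (c = x4 → (!β) = (!ε)) := by
    simpa [FreeGroup.IsReduced, List.isChain_cons_cons] using hL
  have hbc : b ≠ c := by
    intro h4
    have := hred.2.1 h4
    simp at this
  have hbz : q b ≠ some x4 := by
    intro h4
    rw [hqz b h4] at hb
    rw [hpz] at hb
    exact Bool.noConfusion hb
  have hcz : q c ≠ some x4 := by
    intro h4
    rw [hqz c h4] at hc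
    rw [hpz] at hc
    exact Bool.noConfusion hc
  have hqbc : q b = q c := by
    by_contra hcon
    have h5 : FreeGroup.IsReduced ([(x4, ε), (b, β), (c, !β), (x4, !ε)].map fun l => (q l.1, l.2)) := by
      simp only [FreeGroup.IsReduced, List.map_cons, List.map_nil, List.isChain_cons_cons,
        List.isChain_singleton, and_true]
      refine ⟨fun h => absurd ?_ hbz, fun h => absurd h hcon, fun h => absurd ?_ hcz⟩
      · rw [← h, hq x4 hzD]
      · rw [h, hq x4 hzD]
    have h6 := FreeGroup.reduce.sound h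
    rw [h5.reduce_eq] at h6
    have h7 : (q x4, ε) ∈ FreeGroup.reduce (W.map fun l => (q l.1, l.2)) := by
      rw [← h6]
      simp
    have h8 := (FreeGroup.Red.sublist (FreeGroup.reduce.red)).subset h7
    obtain ⟨⟨x, b1⟩, hx, hx2⟩ := List.mem_map.1 h8
    have h9 : q x = some x4 := by
      have := congrArg Prod.fst hx2
      rw [← hq x4 hzD]
      exact this
    rw [hqz x h9] at hx
    exact hzW _ hx
  refine ⟨?_, ?_, hbc⟩
  · intro hbD
    rw [hq b hbD] at hqbc
    by_cases hcD : c ∈ D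
    · rw [hq c hcD] at hqbc
      exact hbc (Option.some_injective _ hqbc)
    · rw [hq' c hcD] at hqbc
      simp at hqbc
  · intro hcD
    rw [hq c hcD] at hqbc
    by_cases hbD : b ∈ D
    · rw [hq b hbD] at hqbc
      exact hbc (Option.some_injective _ hqbc)
    · rw [hq' b hbD] at hqbc
      simp at hqbc

/-- an element which commutes with a letter that does not occur in it is trivial -/
theorem eq_one_of_commute {w : FreeGroup X} {z : X} (hz : ∀ b, (z, b) ∉ w.toWord)
    (h : w * FreeGroup.of z = FreeGroup.of z * w) : w = 1 := by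
  have hw := FreeGroup.isReduced_toWord (x := w)
  have h1 : FreeGroup.IsReduced (w.toWord ++ [(z, true)]) := by
    rw [FreeGroup.IsReduced, List.isChain_append]
    refine ⟨hw, List.isChain_singleton _, ?_⟩
    intro x hx y hy hxy
    simp only [List.head?_cons, Option.mem_def, Option.some.injEq] at hy
    subst hy
    exfalso
    have h2 : x ∈ w.toWord := List.mem_of_getLast? hx
    refine hz x.2 ?_
    have h3 : x.1 = z := hxy
    rw [← h3]
    exact h2
  have h2 : FreeGroup.IsReduced ((z, true) :: w.toWord) := by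
    rw [FreeGroup.IsReduced, List.isChain_cons]
    refine ⟨?_, hw⟩
    intro x hx hxy
    exfalso
    have h2 : x ∈ w.toWord := List.mem_of_head? hx
    refine hz x.2 ?_
    have h3 : z = x.1 := hxy
    rw [h3]
    exact h2
  have h3 := congrArg FreeGroup.toWord h
  rw [FreeGroup.toWord_mul, FreeGroup.toWord_mul, FreeGroup.toWord_of, h1.reduce_eq,
    List.singleton_append, h2.reduce_eq] at h3
  rcases h4 : w.toWord with _ | ⟨l, L⟩
  · exact FreeGroup.toWord_eq_nil_iff.1 h4
  · exfalso
    rw [h4, List.cons_append, List.cons.injEq] at h3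
    refine hz true ?_
    rw [h4, h3.1]
    exact List.mem_cons_self

end

end Pool.Agent.R821.FG
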