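import Mathlib

/-!
# An embedding of a metric space adapted to a compact set
-/

set_option autoImplicit false

open Filter Topology ENNReal

namespace Pool.Agent.R821.FG

variable {X : Type*} [MetricSpace X] (K : Set X)

/-- the truncated distance to `K` -/
noncomputable def hK (x : X) : ℝ := min 1 (Metric.infDist x K)

open Classical in
/-- the metric `min 1 (dist x y) + h x + h y` for `x ≠ y` -/
noncomputable def rho (x y : X) : ℝ := if x = y then 0 else min 1 (dist x y) + hK K x + hK K y

theorem hK_nonneg (x : X) : 0 ≤ hK K x := le_min zero_le_one Metric.infDist_nonneg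

theorem hK_le (x : X) : hK K x ≤ 1 := min_le_left _ _

theorem rho_self (x : X) : rho K x x = 0 := if_pos rfl

theorem rho_ne {x y : X} (h : x ≠ y) : rho K x y = min 1 (dist x y) + hK K x + hK K y := if_neg h

theorem rho_nonneg (x y : X) : 0 ≤ rho K x y := by
  unfold rho
  split_ifs
  · exact le_rfl
  · have := hK_nonneg K x
    have := hK_nonneg K y
    have : 0 ≤ min 1 (dist x y) := le_min zero_le_one dist_nonneg
    linarith

theorem rho_comm (x y : X) : rho K x y = rho K y x := by
  rcases eq_or_ne x y with rfl | h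
  · rfl
  · rw [rho_ne K h, rho_ne K h.symm, dist_comm]
    ring

theorem rho_le (x y : X) : rho K x y ≤ 3 := by
  unfold rho
  split_ifs
  · norm_num
  · have := hK_le K x
    have := hK_le K y
    have : min 1 (dist x y) ≤ 1 := min_le_left _ _
    linarith

theorem rho_triangle (x y z : X) : rho K x z ≤ rho K x y + rho K y z := by
  rcases eq_or_ne x y with rfl | hxy
  · rw [rho_self, zero_add]
  rcases eq_or_ne y z with rfl | hyz
  · rw [rho_self, add_zero]
  rcases eq_or_ne x z with rfl | hxz
  · rw [rho_self]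
    exact add_nonneg (rho_nonneg _ _ _) (rho_nonneg _ _ _)
  rw [rho_ne K hxy, rho_ne K hyz, rho_ne K hxz]
  have h1 := hK_nonneg K y
  have h2 : min 1 (dist x z) ≤ min 1 (dist x y) + min 1 (dist y z) := by
    rcases le_total 1 (dist x y) with h | h
    · rw [min_eq_left h]
      have : 0 ≤ min 1 (dist y z) := le_min zero_le_one dist_nonneg
      have := min_le_left 1 (dist x z)
      linarith
    · rcases le_total 1 (dist y z) with h' | h'
      · rw [min_eq_left h']
        have : 0 ≤ min 1 (dist x y) := le_min zero_le_one dist_nonneg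
        have := min_le_left 1 (dist x z)
        linarith
      · rw [min_eq_right h, min_eq_right h']
        exact (min_le_right _ _).trans (dist_triangle x y z)
  linarith

/-- the Kuratowski embedding of the metric `rho` -/
noncomputable def kur (x : X) : lp (fun _ : X => ℝ) ∞ :=
  ⟨fun y => rho K x y, memℓp_infty ⟨3, by
    rintro _ ⟨y, rfl⟩
    simp only [Real.norm_eq_abs]
    rw [abs_of_nonneg (rho_nonneg K x y)]
    exact rho_le K x y⟩⟩

theorem kur_apply (x y : X) : (kur K x : X → ℝ) y = rho K x y := rfl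

theorem rho_le_norm (x y : X) : rho K x y ≤ ‖kur K x - kur K y‖ := by
  have h1 := lp.norm_apply_le_norm (p := ∞) (by simp) (kur K x - kur K y) y
  rw [lp.coeFn_sub, Pi.sub_apply, kur_apply, kur_apply, rho_self, sub_zero, Real.norm_eq_abs,
    abs_of_nonneg (rho_nonneg K x y)] at h1
  exact h1

theorem norm_le_rho (x y : X) : ‖kur K x - kur K y‖ ≤ rho K x y := by
  refine lp.norm_le_of_forall_le (rho_nonneg K x y) fun z => ?_
  rw [lp.coeFn_sub, Pi.sub_apply, kur_apply, kur_apply, Real.norm_eq_abs, abs_le]
  have h1 := rho_triangle K x y z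
  have h2 := rho_triangle K y x z
  rw [rho_comm K y x] at h2
  constructor <;> linarith

theorem kur_continuous (hiso : ∀ x, x ∉ K → IsOpen ({x} : Set X)) : Continuous (kur K) := by
  rw [continuous_iff_continuousAt]
  intro x
  by_cases hx : x ∈ K
  · rw [ContinuousAt, tendsto_iff_norm_sub_tendsto_zero]
    have h1 : Tendsto (fun y => dist y x + dist y x) (𝓝 x) (𝓝 0) := by
      have : Continuous fun y => dist y x + dist y x := by fun_prop
      have h2 := this.tendsto x
      simpa using h2
    refine squeeze_zero (fun y => norm_nonneg _) (fun y => (norm_le_rho K y x).trans ?_) h1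
    rcases eq_or_ne y x with rfl | h
    · rw [rho_self]
      positivity
    · rw [rho_ne K h]
      have h2 : hK K x = 0 := by
        rw [hK, Metric.infDist_zero_of_mem hx]
        simp
      have h3 : hK K y ≤ dist y x := (min_le_right _ _).trans (Metric.infDist_le_dist_of_mem hx)
      have h4 : min 1 (dist y x) ≤ dist y x := min_le_right _ _
      linarith
  · have h1 : 𝓝 x = pure x := (isOpen_singleton_iff_nhds_eq_pure x).1 (hiso x hx)
    rw [ContinuousAt, h1]
    exact tendsto_pure_nhds _ _

/-- if the pairs `(b n, c n)` of distinct points become `rho`-close, then they have a common limit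
point in `K` along a subsequence -/
theorem exists_limit (hKc : IsCompact K) (hne : K.Nonempty) {b c : ℕ → X} (hbc : ∀ n, b n ≠ c n)
    (h : Tendsto (fun n => rho K (b n) (c n)) atTop (𝓝 0)) :
    ∃ k ∈ K, ∃ φ : ℕ → ℕ, StrictMono φ ∧ Tendsto (fun n => b (φ n)) atTop (𝓝 k) ∧
      Tendsto (fun n => c (φ n)) atTop (𝓝 k) := by
  have hb : ∀ n, ∃ k ∈ K, Metric.infDist (b n) K = dist (b n) k := fun n =>
    hKc.exists_infDist_eq_dist hne (b n)
  choose k hkK hk using hb
  obtain ⟨k0, hk0, φ, hφ, hφk⟩ := hKc.tendsto_subseq hkK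
  have hρ : Tendsto (fun n => rho K (b (φ n)) (c (φ n))) atTop (𝓝 0) := h.comp hφ.tendsto_atTop
  have hmin : ∀ {f : ℕ → ℝ}, Tendsto (fun n => min 1 (f n)) atTop (𝓝 0) → Tendsto f atTop (𝓝 0) := by
    intro f hf
    refine hf.congr' ?_
    have h1 : ∀ᶠ n in atTop, min 1 (f n) < 1 := hf.eventually (gt_mem_nhds zero_lt_one)
    filter_upwards [h1] with n hn
    rw [min_eq_right]
    by_contra hcon
    rw [min_eq_left (not_le.1 hcon).le] at hn
    exact lt_irrefl _ hn
  have hh : Tendsto (fun n => hK K (b (φ n))) atTop (𝓝 0) := by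
    refine squeeze_zero (fun n => hK_nonneg K _) (fun n => ?_) hρ
    rw [rho_ne K (hbc _)]
    have h1 : 0 ≤ min 1 (dist (b (φ n)) (c (φ n))) := le_min zero_le_one dist_nonneg
    have h2 := hK_nonneg K (c (φ n))
    linarith
  have hd : Tendsto (fun n => dist (b (φ n)) (c (φ n))) atTop (𝓝 0) := by
    refine hmin (squeeze_zero (fun n => le_min zero_le_one dist_nonneg) (fun n => ?_) hρ)
    rw [rho_ne K (hbc _)]
    have h1 := hK_nonneg K (b (φ n))
    have h2 := hK_nonneg K (c (φ n))
    linarith
  have hbk : Tendsto (fun n => b (φ n)) atTop (𝓝 k0) := by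
    rw [tendsto_iff_dist_tendsto_zero]
    have h1 : Tendsto (fun n => dist (b (φ n)) (k (φ n)) + dist (k (φ n)) k0) atTop (𝓝 0) := by
      rw [← add_zero (0 : ℝ)]
      refine Tendsto.add ?_ (tendsto_iff_dist_tendsto_zero.1 hφk)
      refine (hmin hh).congr fun n => ?_
      exact hk _
    exact squeeze_zero (fun n => dist_nonneg) (fun n => dist_triangle _ _ _) h1
  refine ⟨k0, hk0, φ, hφ, hbk, ?_⟩
  rw [tendsto_iff_dist_tendsto_zero] at hbk ⊢
  have h1 : Tendsto (fun n => dist (b (φ n)) (c (φ n)) + dist (b (φ n)) k0) atTop (𝓝 0) := by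
    rw [← add_zero (0 : ℝ)]
    exact hd.add hbk
  refine squeeze_zero (fun n => dist_nonneg) (fun n => ?_) h1
  rw [dist_comm (b (φ n)) (c (φ n))]
  exact dist_triangle _ _ _

end Pool.Agent.R821.FG
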