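import Mathlib
import Pool.Agent.R821.FourWords
import Pool.Agent.R821.Aff
import Pool.Agent.R821.Kur

/-!
# `F_4(X)` is Fréchet–Urysohn for metrizable `X` with compact derived set
-/

set_option autoImplicit false
set_option linter.unusedSectionVars false

open Filter Topology

namespace Pool.Agent.R821.FG

attribute [local instance] topF

section

variable {X : Type*} [MetricSpace X]

theorem letter_continuous (b : Bool) :
    Continuous (fun x : X => (FreeGroup.mk [(x, b)] : FreeGroup X)) := by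
  cases b
  · have h1 : (fun x : X => (FreeGroup.mk [(x, false)] : FreeGroup X)) = fun x => (FreeGroup.of x)⁻¹ := rfl
    rw [h1]
    exact (continuous_of X).inv
  · exact continuous_of X

theorem mk_continuous {Y : Type*} [TopologicalSpace Y] (L : List ((Y → X) × Bool))
    (hL : ∀ l : (Y → X) × Bool, l ∈ L → Continuous l.1) :
    Continuous (fun y => (FreeGroup.mk (L.map fun l => (l.1 y, l.2)) : FreeGroup X)) := by
  induction L with
  | nil =>
    change Continuous fun _ : Y => (FreeGroup.mk [] : FreeGroup X)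
    exact continuous_const
  | cons l L ih =>
    have h1 : (fun y => (FreeGroup.mk ((l :: L).map fun l => (l.1 y, l.2)) : FreeGroup X)) =
        fun y => FreeGroup.mk [(l.1 y, l.2)] * FreeGroup.mk (L.map fun l => (l.1 y, l.2)) := by
      funext y
      rw [FreeGroup.mul_mk]
      rfl
    rw [h1]
    exact ((letter_continuous l.2).comp (hL l List.mem_cons_self)).mul
      (ih fun l' hl' => hL l' (List.mem_cons_of_mem _ hl'))

/-- the evaluation of words with a given pattern of signs -/
def ev {j : ℕ} (σ : Fin j → Bool) (v : Fin j → X) : FreeGroup X :=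
  FreeGroup.mk (List.ofFn fun i => (v i, σ i))

theorem ev_continuous {j : ℕ} (σ : Fin j → Bool) : Continuous (ev (X := X) σ) := by
  have h1 : (ev (X := X) σ) = fun v => (FreeGroup.mk
      ((List.ofFn fun i => ((fun v : Fin j → X => v i), σ i)).map fun l => (l.1 v, l.2)) :
        FreeGroup X) := by
    funext v
    rw [List.map_ofFn]
    rfl
  rw [h1]
  refine mk_continuous _ fun l hl => ?_
  obtain ⟨i, rfl⟩ := List.mem_ofFn.1 hl
  exact continuous_apply i

/-- The part with the letters near a compact set. -/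
theorem compact_part {K : Set X} (hK : IsCompact K) (S : Finset X) {w : FreeGroup X}
    {A : Set (FreeGroup X)}
    (hno : ∀ u : ℕ → FreeGroup X, (∀ n, u n ∈ A) → ¬ Tendsto u atTop (𝓝 w)) {j : ℕ}
    (σ : Fin j → Bool) :
    ∀ᶠ δ in 𝓝[>] (0 : ℝ), ∀ᶠ g in 𝓝 w, g ∈ A → ∀ v : Fin j → X,
      (∀ i, v i ∈ Metric.thickening δ K ∨ v i ∈ S) → ev σ v ≠ g := by
  set L : Set (Fin j → X) := Set.univ.pi fun _ => K ∪ (S : Set X) with hL
  have hLc : IsCompact L := isCompact_univ_pi fun _ => hK.union S.finite_toSet.isCompact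
  have h1 : Disjoint (𝓝ˢ L) (𝓟 (ev σ ⁻¹' A) ⊓ comap (ev σ) (𝓝 w)) := by
    rw [hLc.disjoint_nhdsSet_left]
    intro v _
    by_cases hv : ev σ v = w
    · refine Disjoint.mono_right inf_le_left ?_
      rw [disjoint_principal_right]
      by_contra hcon
      have h2 : v ∈ closure (ev σ ⁻¹' A) := by
        rw [mem_closure_iff_frequently]
        intro h3
        exact hcon h3
      obtain ⟨s, hs, hsv⟩ := mem_closure_iff_seq_limit.1 h2
      refine hno (fun n => ev σ (s n)) (fun n => hs n) ?_
      rw [← hv]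
      exact ((ev_continuous σ).tendsto v).comp hsv
    · refine Disjoint.mono_right inf_le_right ?_
      have h2 : Disjoint (𝓝 (ev σ v)) (𝓝 w) := disjoint_nhds_nhds.2 hv
      refine Disjoint.mono_left ?_ (disjoint_comap h2 : Disjoint (comap (ev σ) _) (comap (ev σ) _))
      exact ((ev_continuous σ).tendsto v).le_comap
  obtain ⟨O, hO, P, hP, hOP⟩ := Filter.disjoint_iff.1 h1
  obtain ⟨O', hO', hLO', hO'O⟩ := mem_nhdsSet_iff_exists.1 hO
  obtain ⟨ε, hε, hth⟩ := hLc.exists_thickening_subset_open hO' hLO'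
  obtain ⟨P1, hP1, P2, hP2, hPP⟩ := Filter.mem_inf_iff.1 hP
  obtain ⟨P3, hP3, hP3P⟩ := hP2
  filter_upwards [Ioc_mem_nhdsGT hε] with δ hδ
  filter_upwards [hP3] with g hg hgA v hv hvg
  have h4 : v ∈ O → v ∉ P := fun h => Set.disjoint_left.1 hOP h
  refine h4 (hO'O (hth ?_)) ?_
  · -- `v` is close to `L`
    have h3 : ∀ i, ∃ k, k ∈ K ∪ (S : Set X) ∧ dist (v i) k < ε := by
      intro i
      rcases hv i with h | h
      · obtain ⟨k, hk, hk2⟩ := Metric.mem_thickening_iff.1 h
        exact ⟨k, Or.inl hk, hk2.trans_le hδ.2⟩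
      · exact ⟨v i, Or.inr h, by rw [dist_self]; exact hε⟩
    choose k hk hk2 using h3
    rw [Metric.mem_thickening_iff]
    refine ⟨k, fun i _ => hk i, ?_⟩
    rw [dist_pi_lt_iff hε]
    exact hk2
  · rw [hPP]
    refine ⟨(mem_principal.1 hP1) ?_, hP3P ?_⟩
    · rw [Set.mem_preimage, hvg]
      exact hgA
    · rw [Set.mem_preimage, hvg]
      exact hg

/-- the words `z^ε b^β c^{-β} z^{-ε}` -/
def cw (ε β : Bool) (z b c : X) : FreeGroup X := FreeGroup.mk [(z, ε), (b, β), (c, !β), (z, !ε)]

theorem cw_continuous (ε β : Bool) (z : X) :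
    Continuous (fun p : X × X => cw ε β z p.1 p.2) := by
  have h1 : (fun p : X × X => cw ε β z p.1 p.2) = fun p => (FreeGroup.mk
      (([((fun _ => z), ε), ((fun p => p.1), β), ((fun p => p.2), !β), ((fun _ => z), !ε)] :
        List ((X × X → X) × Bool)).map fun l => (l.1 p, l.2)) : FreeGroup X) := rfl
  rw [h1]
  refine mk_continuous _ ?_
  intro l hl
  simp only [List.mem_cons, List.not_mem_nil, or_false] at hl
  rcases hl with rfl | rfl | rfl | rfl
  · exact continuous_const
  · exact continuous_fst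
  · exact continuous_snd
  · exact continuous_const

/-- one letter with a sign -/
def lt (z : X) (ε : Bool) : FreeGroup X := FreeGroup.mk [(z, ε)]

theorem lt_not (z : X) (ε : Bool) : lt z (!ε) = (lt z ε)⁻¹ := by
  rw [lt, lt, FreeGroup.inv_mk]
  rfl

theorem cw_eq (ε β : Bool) (z b c : X) :
    cw ε β z b c = lt z ε * (lt b β * (lt c β)⁻¹) * (lt z ε)⁻¹ := by
  rw [← lt_not, ← lt_not, lt, lt, lt, lt, FreeGroup.mul_mk, FreeGroup.mul_mk, FreeGroup.mul_mk]
  rfl

theorem cw_self (ε β : Bool) (z b : X) : cw ε β z b b = 1 := by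
  rw [cw_eq]
  group

theorem lift_lt {G : Type*} [Group G] (f : X → G) (z : X) (ε : Bool) :
    FreeGroup.lift f (lt z ε) = cond ε (f z) (f z)⁻¹ := by
  cases ε <;> simp [lt]

/-- the limit point is the identity, if the words `z^ε b^β c^{-β} z^{-ε}` with far `z` matter -/
theorem far_part [DecidableEq X] {w : FreeGroup X} (E : Set X) (hE : ∀ x ∈ E, IsOpen ({x} : Set X))
    (hE' : IsOpen Eᶜ) {z0 : X} (hz0 : z0 ∈ E) (hw : ∀ l ∈ w.toWord, l.1 ∉ E)
    (hfr : ∃ᶠ g in 𝓝 w, ∃ ε β, ∃ z ∈ E, ∃ b c, b ∉ E ∧ c ∉ E ∧ g = cw ε β z b c) : w = 1 := by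
  let _ : DecidablePred (· ∈ E) := fun _ => Classical.propDecidable _
  let κ : FreeGroup X → X → FreeGroup X := fun s x => if x ∈ E then s else FreeGroup.of x
  have hκ : ∀ s, Continuous (κ s) := by
    intro s
    rw [continuous_iff_continuousAt]
    intro x
    by_cases hx : x ∈ E
    · rw [ContinuousAt, (isOpen_singleton_iff_nhds_eq_pure x).1 (hE x hx)]
      exact tendsto_pure_nhds _ _
    · have h1 : κ s =ᶠ[𝓝 x] FreeGroup.of := by
        filter_upwards [hE'.mem_nhds hx] with y hy
        exact if_neg hy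
      exact ((continuous_of X).continuousAt).congr h1.symm
  have hκ' : ∀ s, Continuous (FreeGroup.lift (κ s)) := fun s => lift_continuous (hκ s)
  have hκw : ∀ s, FreeGroup.lift (κ s) w = w := by
    intro s
    have h1 : ∀ L : List (X × Bool), (∀ l ∈ L, l.1 ∉ E) →
        FreeGroup.lift (κ s) (FreeGroup.mk L) = FreeGroup.mk L := by
      intro L
      induction L with
      | nil => intro _; exact map_one _
      | cons l L ih =>
        intro h
        have h2 : (FreeGroup.mk (l :: L) : FreeGroup X) = lt l.1 l.2 * FreeGroup.mk L := by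
          rw [lt, FreeGroup.mul_mk]
          rfl
        rw [h2, map_mul, ih fun l' hl' => h l' (List.mem_cons_of_mem _ hl'), lift_lt]
        congr 1
        have h3 : κ s l.1 = FreeGroup.of l.1 := if_neg (h l List.mem_cons_self)
        rw [h3]
        rcases l with ⟨x, b⟩
        cases b <;> rfl
    have h2 := h1 w.toWord hw
    rwa [FreeGroup.mk_toWord] at h2
  set s : FreeGroup X := FreeGroup.of z0 with hs
  -- the closed set of the elements with the conjugation property
  let C : Bool → Set (FreeGroup X) := fun ε =>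
    {g | FreeGroup.lift (κ s) g = cond ε s s⁻¹ * FreeGroup.lift (κ 1) g * (cond ε s s⁻¹)⁻¹}
  have hC : ∀ ε, IsClosed (C ε) := fun ε =>
    isClosed_eq (hκ' s) ((continuous_const.mul (hκ' 1)).mul continuous_const)
  have h1 : ∃ᶠ g in 𝓝 w, g ∈ C true ∪ C false := by
    refine hfr.mono ?_
    rintro g ⟨ε, β, z, hz, b, c, hb, hc, rfl⟩
    have h2 : cw ε β z b c ∈ C ε := by
      change FreeGroup.lift (κ s) _ = cond ε s s⁻¹ * FreeGroup.lift (κ 1) _ * (cond ε s s⁻¹)⁻¹
      rw [cw_eq]
      simp only [map_mul, map_inv, lift_lt]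
      have e1 : ∀ t, κ t z = t := fun t => if_pos hz
      have e2 : ∀ t, κ t b = FreeGroup.of b := fun t => if_neg hb
      have e3 : ∀ t, κ t c = FreeGroup.of c := fun t => if_neg hc
      rw [e1, e1, e2, e2, e3, e3]
      cases ε <;> simp
    cases ε
    · exact Or.inr h2
    · exact Or.inl h2
  have h2 : w ∈ C true ∪ C false := by
    have := mem_closure_iff_frequently.2 h1
    rwa [((hC true).union (hC false)).closure_eq] at this
  have h3 : w * s = s * w := by
    rcases h2 with h2 | h2
    · have h4 : FreeGroup.lift (κ s) w = s * FreeGroup.lift (κ 1) w * s⁻¹ := h2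
      rw [hκw, hκw] at h4
      nth_rewrite 1 [h4]
      group
    · have h4 : FreeGroup.lift (κ s) w = s⁻¹ * FreeGroup.lift (κ 1) w * (s⁻¹)⁻¹ := h2
      rw [hκw, hκw] at h4
      nth_rewrite 2 [h4]
      group
  exact eq_one_of_commute (fun b hb => hw (z0, b) hb hz0) h3

/-- continuity of a piecewise map on a set of isolated points and on its open complement -/
theorem continuous_piece {Y : Type*} [TopologicalSpace Y] {D : Set X} [DecidablePred (· ∈ D)]
    (hD : ∀ x ∈ D, IsOpen ({x} : Set X)) (hD' : IsOpen Dᶜ) (f g : X → Y) (hg : Continuous g) :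
    Continuous fun x => if x ∈ D then f x else g x := by
  rw [continuous_iff_continuousAt]
  intro x
  by_cases hx : x ∈ D
  · rw [ContinuousAt, (isOpen_singleton_iff_nhds_eq_pure x).1 (hD x hx)]
    exact tendsto_pure_nhds _ _
  · have h1 : (fun x => if x ∈ D then f x else g x) =ᶠ[𝓝 x] g := by
      filter_upwards [hD'.mem_nhds hx] with y hy
      exact if_neg hy
    exact (hg.continuousAt).congr h1.symm

/-- The words `z^ε b^β c^{-β} z^{-ε}` with far `z` near the identity. -/
theorem affine_part {K : Set X} (hKc : IsCompact K) (hne : K.Nonempty)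
    (hiso : ∀ x, x ∉ K → IsOpen ({x} : Set X)) {A : Set (FreeGroup X)}
    (hno : ∀ u : ℕ → FreeGroup X, (∀ n, u n ∈ A) → ¬ Tendsto u atTop (𝓝 1)) {δ : ℝ} (hδ : 0 < δ)
    (ε : Bool) :
    ∀ᶠ g in 𝓝 (1 : FreeGroup X), g ∈ A → ∀ (β : Bool) (z b c : X), z ∉ Metric.thickening δ K →
      b ∈ Metric.thickening δ K → c ∈ Metric.thickening δ K → b ≠ c → g ≠ cw ε β z b c := by
  -- the pairs occurring with `z` are not close
  have h1 : ∀ z : X, ∃ r : ℝ, 0 < r ∧ ∀ (β : Bool) (b c : X), b ≠ c → cw ε β z b c ∈ A →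
      r ≤ rho K b c := by
    intro z
    by_contra hcon
    push Not at hcon
    have h2 : ∀ n : ℕ, ∃ (β : Bool) (b c : X), b ≠ c ∧ cw ε β z b c ∈ A ∧
        rho K b c < 1 / ((n : ℝ) + 1) := fun n => hcon _ (by positivity)
    choose β b c hbc hA hr using h2
    have h3 : Tendsto (fun n => rho K (b n) (c n)) atTop (𝓝 0) :=
      squeeze_zero (fun n => rho_nonneg K _ _) (fun n => (hr n).le)
        tendsto_one_div_add_atTop_nhds_zero_nat
    obtain ⟨k, hk, φ, hφ, hbk, hck⟩ := exists_limit K hKc hne hbc h3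
    refine hno (fun n => cw ε (β (φ n)) z (b (φ n)) (c (φ n))) (fun n => hA _) ?_
    have h4 : ∀ β', Tendsto (fun n => cw ε β' z (b (φ n)) (c (φ n))) atTop (𝓝 1) := by
      intro β'
      have h5 := ((cw_continuous ε β' z).tendsto (k, k)).comp (hbk.prodMk_nhds hck)
      rw [cw_self] at h5
      exact h5
    intro U hU
    have h6 := (h4 true) hU
    have h7 := (h4 false) hU
    rw [Filter.mem_map] at h6 h7 ⊢
    filter_upwards [h6, h7] with n hn hn'
    rcases hβ : β (φ n) with _ | _
    · rw [Set.mem_preimage, hβ]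
      exact hn'
    · rw [Set.mem_preimage, hβ]
      exact hn
  choose r hr0 hr using h1
  let _ : DecidablePred (· ∈ (Metric.thickening δ K)ᶜ) := fun _ => Classical.propDecidable _
  have hD : ∀ x ∈ (Metric.thickening δ K)ᶜ, IsOpen ({x} : Set X) := fun x hx =>
    hiso x fun h => hx (Metric.self_subset_thickening hδ K h)
  have hD' : IsOpen ((Metric.thickening δ K)ᶜ)ᶜ := by
    rw [compl_compl]
    exact Metric.isOpen_thickening
  let φ : X → Aff (lp (fun _ : X => ℝ) ⊤) := fun x =>
    ⟨if x ∈ (Metric.thickening δ K)ᶜ then 0 else kur K x,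
      if x ∈ (Metric.thickening δ K)ᶜ then cond ε (-Real.log (r x)) (Real.log (r x)) else 0⟩
  have hφ : Continuous φ := Aff.continuous_mk
    (continuous_piece hD hD' (fun _ => 0) (kur K) (kur_continuous K hiso))
    (continuous_piece hD hD' (fun x => cond ε (-Real.log (r x)) (Real.log (r x))) (fun _ => 0)
      continuous_const)
  have hφ' : Continuous fun g => ‖(FreeGroup.lift φ g).v‖ :=
    (Aff.continuous_v.comp (lift_continuous hφ)).norm
  have h2 : ∀ᶠ g in 𝓝 (1 : FreeGroup X), ‖(FreeGroup.lift φ g).v‖ < 1 := by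
    have h3 := hφ'.tendsto 1
    refine h3.eventually (gt_mem_nhds ?_)
    rw [map_one, Aff.one_v, norm_zero]
    exact zero_lt_one
  filter_upwards [h2] with g hg hgA β z b c hz hb hc hbc hgc
  subst hgc
  have hzt : (φ z).t = cond ε (-Real.log (r z)) (Real.log (r z)) := if_pos hz
  have hzv : (φ z).v = 0 := if_pos hz
  have hbt : (φ b).t = 0 := if_neg fun h => h hb
  have hct : (φ c).t = 0 := if_neg fun h => h hc
  have hbv : (φ b).v = kur K b := if_neg fun h => h hb
  have hcv : (φ c).v = kur K c := if_neg fun h => h hc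
  have h3 := Aff.word_norm φ hzv hbt hct ε β
  change ‖(FreeGroup.lift φ (cw ε β z b c)).v‖ = _ at h3
  rw [h3, hzt, hbv, hcv] at hg
  have h4 : (cond ε (cond ε (-Real.log (r z)) (Real.log (r z)))
      (-cond ε (-Real.log (r z)) (Real.log (r z)))) = -Real.log (r z) := by
    cases ε <;> rfl
  rw [h4, Real.exp_neg, Real.exp_log (hr0 z)] at hg
  have h5 := hr z β b c hbc hgA
  have h6 := rho_le_norm K b c
  have h7 : (r z)⁻¹ * r z ≤ (r z)⁻¹ * ‖kur K b - kur K c‖ :=
    mul_le_mul_of_nonneg_left (h5.trans h6) (inv_nonneg.2 (hr0 z).le)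
  rw [inv_mul_cancel₀ (hr0 z).ne'] at h7
  exact absurd hg (not_lt.2 h7)

/-- **The main theorem.** If the set of the non-isolated points of the metric space `X` is compact,
then every point in the closure of a set `A` of elements of length at most four of the free topological
group on `X` is the limit of a sequence in `A`. -/
theorem four_main (hKc : IsCompact {x : X | ¬ IsOpen ({x} : Set X)}) {A : Set (FreeGroup X)}
    (hA : ∀ g ∈ A, ∃ L : List (X × Bool), L.length ≤ 4 ∧ FreeGroup.mk L = g) {w : FreeGroup X}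
    (hw : w ∈ closure A) : ∃ u : ℕ → FreeGroup X, (∀ n, u n ∈ A) ∧ Tendsto u atTop (𝓝 w) := by
  classical
  by_contra hcon
  push Not at hcon
  set K : Set X := {x : X | ¬ IsOpen ({x} : Set X)} with hK
  have hiso : ∀ x, x ∉ K → IsOpen ({x} : Set X) := fun x hx => not_not.1 hx
  rcases K.eq_empty_or_nonempty with hKe | hne
  · -- `X` is discrete
    have h1 : ∀ x : X, IsOpen ({x} : Set X) := fun x => hiso x (by rw [hKe]; exact Set.notMem_empty x)
    have hdisc : DiscreteTopology X := discreteTopology_iff_isOpen_singleton.2 h1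
    have h4 : IsOpen[topF X] ({w} : Set (FreeGroup X)) := by
      rw [topF_discrete]
      trivial
    obtain ⟨g, hg, hgA⟩ := mem_closure_iff.1 hw {w} h4 rfl
    obtain rfl : g = w := hg
    exact hcon (fun _ => g) (fun _ => hgA) tendsto_const_nhds
  set S : Finset X := (w.toWord.map Prod.fst).toFinset with hS
  have hSw : ∀ l ∈ w.toWord, l.1 ∈ S := by
    intro l hl
    rw [hS, List.mem_toFinset]
    exact List.mem_map_of_mem hl
  -- the choice of `δ`
  have hc1 : ∀ᶠ δ in 𝓝[>] (0 : ℝ), ∀ j ∈ Finset.range 5, ∀ σ : Fin j → Bool, ∀ᶠ g in 𝓝 w, g ∈ A →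
      ∀ v : Fin j → X, (∀ i, v i ∈ Metric.thickening δ K ∨ v i ∈ S) → ev σ v ≠ g :=
    (Filter.eventually_all_finset _).2 fun j _ => Filter.eventually_all.2 fun σ =>
      compact_part hKc S hcon σ
  obtain ⟨δ, hδ, hδ0⟩ := (hc1.and self_mem_nhdsWithin).exists
  have hδ0' : 0 < δ := hδ0
  have hc2 : ∀ᶠ g in 𝓝 w, ∀ j ∈ Finset.range 5, ∀ σ : Fin j → Bool, g ∈ A →
      ∀ v : Fin j → X, (∀ i, v i ∈ Metric.thickening δ K ∨ v i ∈ S) → ev σ v ≠ g :=
    (Filter.eventually_all_finset _).2 fun j hj => Filter.eventually_all.2 fun σ => hδ j hj σ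
  set D : Set X := (Metric.thickening δ K)ᶜ with hDdef
  have hD : ∀ x ∈ D, IsOpen ({x} : Set X) := fun x hx =>
    hiso x fun h => hx (Metric.self_subset_thickening hδ0 K h)
  have hD' : IsOpen Dᶜ := by
    rw [hDdef, compl_compl]
    exact Metric.isOpen_thickening
  -- the map onto the discrete space
  let q : X → Option X := fun x => if x ∈ D then some x else none
  let tt : TopologicalSpace (FreeGroup (Option X)) := ⊥
  have htt : @DiscreteTopology (FreeGroup (Option X)) tt := ⟨rfl⟩
  have hq : Continuous (FreeGroup.lift fun x => FreeGroup.of (q x)) := by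
    refine lift_continuous ?_
    have h1 : (fun x => FreeGroup.of (q x)) =
        fun x => if x ∈ D then FreeGroup.of (some x) else FreeGroup.of none := by
      funext x
      change FreeGroup.of (if x ∈ D then some x else none) = _
      split_ifs <;> rfl
    rw [h1]
    exact continuous_piece hD hD' _ _ continuous_const
  have hc3 : ∀ᶠ g in 𝓝 w, FreeGroup.map q g = FreeGroup.map q w := by
    have h1 := hq.tendsto w
    rw [show 𝓝 (FreeGroup.lift (fun x => FreeGroup.of (q x)) w) = pure _ from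
      congrFun (nhds_discrete _) _, tendsto_pure] at h1
    filter_upwards [h1] with g hg
    rw [FreeGroup.map_eq_lift]
    exact hg
  -- the remaining words
  have hfr : ∃ᶠ g in 𝓝 w, g ∈ A ∧ ∃ ε β, ∃ z ∈ D \ S, ∃ b c, b ∉ D ∧ c ∉ D ∧ b ≠ c ∧
      g = cw ε β z b c := by
    refine ((mem_closure_iff_frequently.1 hw).and_eventually (hc2.and hc3)).mono ?_
    rintro g ⟨hgA, hg2, hg3⟩
    refine ⟨hgA, ?_⟩
    have hlen : g.toWord.length ≤ 4 := by
      obtain ⟨L, hL, rfl⟩ := hA g hgA
      exact (FreeGroup.norm_mk_le (L₁ := L)).trans hL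
    by_cases hall : ∀ l ∈ g.toWord, l.1 ∈ Metric.thickening δ K ∨ l.1 ∈ S
    · exfalso
      refine hg2 g.toWord.length (Finset.mem_range.2 (by omega)) (fun i => (g.toWord.get i).2) hgA
        (fun i => (g.toWord.get i).1) (fun i => hall _ (List.get_mem _ _)) ?_
      rw [ev]
      conv_rhs => rw [← FreeGroup.mk_toWord (x := g)]
      congr 1
      exact List.ofFn_get _
    · push Not at hall
      obtain ⟨l, hl, hl1, hl2⟩ := hall
      obtain ⟨ε, b, β, c, hL, hb, hc, hbc⟩ := structure_lemma (D := D) (L := g.toWord)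
        (W := w.toWord) FreeGroup.isReduced_toWord hlen q (fun x hx => if_pos hx)
        (fun x hx => if_neg hx) (by
          rw [← FreeGroup.map.mk, ← FreeGroup.map.mk, FreeGroup.mk_toWord, FreeGroup.mk_toWord]
          exact hg3) (z := l.1) hl1 ⟨l.2, hl⟩ (fun b hb => hl2 (hSw (l.1, b) hb))
      refine ⟨ε, β, l.1, ⟨hl1, hl2⟩, b, c, hb, hc, hbc, ?_⟩
      rw [cw, ← hL, FreeGroup.mk_toWord]
  -- the limit point is the identity
  have hw1 : w = 1 := by
    obtain ⟨g, -, ε, β, z0, hz0, -⟩ := hfr.exists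
    refine far_part (D \ S) (fun x hx => hD x hx.1) ?_ hz0 (fun l hl h => h.2 (hSw l hl)) ?_
    · rw [isOpen_iff_mem_nhds]
      intro x hx
      by_cases hxD : x ∈ D
      · rw [(isOpen_singleton_iff_nhds_eq_pure x).1 (hD x hxD)]
        exact hx
      · exact Filter.mem_of_superset (hD'.mem_nhds hxD) fun y hy h => hy h.1
    · refine hfr.mono ?_
      rintro g ⟨-, ε, β, z, hz, b, c, hb, hc, -, rfl⟩
      exact ⟨ε, β, z, hz, b, c, fun h => hb h.1, fun h => hc h.1, rfl⟩
  rw [hw1] at hfr
  have hno : ∀ u : ℕ → FreeGroup X, (∀ n, u n ∈ A) → ¬ Tendsto u atTop (𝓝 1) := by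
    rw [hw1] at hcon
    exact hcon
  have h1 := affine_part hKc hne hiso hno hδ0' true
  have h2 := affine_part hKc hne hiso hno hδ0' false
  obtain ⟨g, ⟨hgA, ε, β, z, hz, b, c, hb, hc, hbc, hg⟩, h3, h4⟩ :=
    (hfr.and_eventually (h1.and h2)).exists
  have hb' : b ∈ Metric.thickening δ K := by
    by_contra h
    exact hb h
  have hc' : c ∈ Metric.thickening δ K := by
    by_contra h
    exact hc h
  cases ε
  · exact h4 hgA β z b c hz.1 hb' hc' hbc hg
  · exact h3 hgA β z b c hz.1 hb' hc' hbc hg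

end

end Pool.Agent.R821.FG
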