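import Mathlib
import Pool.Agent.R821.AbSeq

/-!
# `snf`-countability and `csf`-countability of the levels `A_n(X)`
-/

set_option autoImplicit false
set_option linter.unusedSectionVars false

open Filter Topology

namespace Pool.Agent.R821.SN

universe u

/-- The family `P` of subsets of `Y` is an sn-network at `y`: its members contain `y`, (i) they are
sequential neighbourhoods of `y`, (ii) every open set containing `y` contains a member of `P`, (iii) the
intersection of two members of `P` contains a member of `P`. -/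
def IsSnNetworkAt {Y : Type u} [TopologicalSpace Y] (y : Y) (P : Set (Set Y)) : Prop :=
  (∀ A ∈ P, y ∈ A) ∧
  (∀ A ∈ P, ∀ s : ℕ → Y, Tendsto s atTop (𝓝 y) → ∀ᶠ n in atTop, s n ∈ A) ∧
  (∀ U : Set Y, IsOpen U → y ∈ U → ∃ A ∈ P, A ⊆ U) ∧
  (∀ A ∈ P, ∀ B ∈ P, ∃ C ∈ P, C ⊆ A ∩ B)

/-- The space `Y` is snf-countable: every point of `Y` has a countable sn-network. -/
def SnfCountable (Y : Type u) [TopologicalSpace Y] : Prop :=
  ∀ y : Y, ∃ P : Set (Set Y), P.Countable ∧ IsSnNetworkAt y P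

/-- The family `P` of subsets of `Y` is a cs-network at `y`: its members contain `y` and for every
sequence `s` converging to `y` and every open set `U` containing `y` some `A ∈ P` is contained in `U` and
contains `s n` for all but finitely many `n`. -/
def IsCsNetworkAt {Y : Type u} [TopologicalSpace Y] (y : Y) (P : Set (Set Y)) : Prop :=
  (∀ A ∈ P, y ∈ A) ∧
  ∀ s : ℕ → Y, Tendsto s atTop (𝓝 y) → ∀ U : Set Y, IsOpen U → y ∈ U →
    ∃ A ∈ P, A ⊆ U ∧ ∀ᶠ n in atTop, s n ∈ A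

/-- The space `Y` is csf-countable: every point of `Y` has a countable cs-network at it. -/
def CsfCountable (Y : Type u) [TopologicalSpace Y] : Prop :=
  ∀ y : Y, ∃ P : Set (Set Y), P.Countable ∧ IsCsNetworkAt y P

/-- The set `A_n(X)` of the elements `g` of length `∑ |g x| ≤ n` of the free abelian group with the
basis `X`. -/
def An (X : Type u) (n : ℕ) : Type u := {g : X →₀ ℤ // ∑ x ∈ g.support, (g x).natAbs ≤ n}

/-- `A_n(X)` carries the subspace topology of the free abelian topological group `A(X)`. -/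
noncomputable instance (X : Type u) [TopologicalSpace X] (n : ℕ) : TopologicalSpace (An X n) :=
  TopologicalSpace.induced (fun g : An X n => g.1) (FA.topA X)

section

open FA BS

attribute [local instance] topA

variable {X : Type u} [TopologicalSpace X]

theorem len_zero : ∑ x ∈ (0 : X →₀ ℤ).support, ((0 : X →₀ ℤ) x).natAbs = 0 := by simp

variable (X) in
/-- the zero element -/
def zero (n : ℕ) : An X n := ⟨0, by rw [len_zero]; omega⟩

theorem len_sub (x y : X) : ∑ z ∈ (Finsupp.single x 1 - Finsupp.single y 1 : X →₀ ℤ).support,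
    ((Finsupp.single x 1 - Finsupp.single y 1 : X →₀ ℤ) z).natAbs ≤ 2 := by
  classical
  have h1 : (Finsupp.single x 1 - Finsupp.single y 1 : X →₀ ℤ).support ⊆ {x, y} := by
    refine (Finsupp.support_sub).trans ?_
    refine Finset.union_subset ?_ ?_
    · exact (Finsupp.support_single_subset).trans (by simp)
    · exact (Finsupp.support_single_subset).trans (by simp)
  refine (Finset.sum_le_sum_of_subset h1).trans ?_
  refine (Finset.sum_le_card_nsmul _ _ 1 ?_).trans ?_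
  · intro z _
    rw [Finsupp.sub_apply, Finsupp.single_apply, Finsupp.single_apply]
    split_ifs <;> simp
  · simpa using Finset.card_le_two

/-- the differences of two letters -/
noncomputable def diff (x y : X) : An X 2 := ⟨Finsupp.single x 1 - Finsupp.single y 1, len_sub x y⟩

theorem diff_tendsto {y : ℕ → X} {l : X} (h : Tendsto y atTop (𝓝 l)) :
    Tendsto (fun k => diff (y k) l) atTop (𝓝 (zero X 2)) := by
  rw [nhds_induced, tendsto_comap_iff]
  have h1 : Tendsto (fun k => (Finsupp.single (y k) 1 : X →₀ ℤ) - Finsupp.single l 1) atTop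
      (𝓝 (Finsupp.single l 1 - Finsupp.single l 1)) :=
    (((continuous_single X).tendsto l).comp h).sub tendsto_const_nhds
  rw [sub_self] at h1
  exact h1

/-- the sums of `n` elements of `Q ∪ -Q ∪ {0}` -/
def nsum (n : ℕ) (Q : Set (An X 2)) : Set (X →₀ ℤ) :=
  {g | ∃ q : Fin n → X →₀ ℤ, (∀ i, q i = 0 ∨ (∃ a ∈ Q, q i = a.1) ∨ ∃ a ∈ Q, q i = -a.1) ∧
    g = ∑ i, q i}

theorem zero_mem_nsum (n : ℕ) (Q : Set (An X 2)) : (0 : X →₀ ℤ) ∈ nsum n Q :=
  ⟨fun _ => 0, fun _ => Or.inl rfl, by simp⟩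

theorem nsum_mono {n : ℕ} {Q Q' : Set (An X 2)} (h : Q ⊆ Q') : nsum n Q ⊆ nsum n Q' := by
  rintro g ⟨q, hq, hg⟩
  refine ⟨q, fun i => ?_, hg⟩
  rcases hq i with h1 | ⟨a, ha, h1⟩ | ⟨a, ha, h1⟩
  · exact Or.inl h1
  · exact Or.inr (Or.inl ⟨a, h ha, h1⟩)
  · exact Or.inr (Or.inr ⟨a, h ha, h1⟩)

theorem mem_nsum {n : ℕ} {Q : Set (An X 2)} {y l : Fin n → X} {e : Fin n → SignType}
    (h : ∀ i, diff (y i) (l i) ∈ Q) :
    ∑ i, (e i : ℤ) • (Finsupp.single (y i) 1 - Finsupp.single (l i) 1 : X →₀ ℤ) ∈ nsum n Q := by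
  refine ⟨fun i => (e i : ℤ) • (Finsupp.single (y i) 1 - Finsupp.single (l i) 1), fun i => ?_, rfl⟩
  rcases SignType.trichotomy (e i) with h1 | h1 | h1
  · right
    right
    exact ⟨_, h i, by simp [diff, h1]⟩
  · left
    simp [h1]
  · right
    left
    exact ⟨_, h i, by simp [diff, h1]⟩

/-- small neighbourhoods -/
theorem exists_small {n : ℕ} (g0 : An X n) {U : Set (An X n)} (hU : IsOpen U) (hg0 : g0 ∈ U) :
    ∃ W : Set (An X 2), IsOpen W ∧ zero X 2 ∈ W ∧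
      ∀ Q, Q ⊆ W → ∀ g : An X n, g.1 - g0.1 ∈ nsum n Q → g ∈ U := by
  obtain ⟨U', hU', rfl⟩ := isOpen_induced_iff.1 hU
  have h1 : Continuous fun q : Fin n → X →₀ ℤ => g0.1 + ∑ i, q i := by
    exact continuous_const.add (continuous_finsetSum _ fun i _ => continuous_apply i)
  have h2 : (fun q : Fin n → X →₀ ℤ => g0.1 + ∑ i, q i) ⁻¹' U' ∈ 𝓝 (0 : Fin n → X →₀ ℤ) := by
    refine h1.continuousAt.preimage_mem_nhds (hU'.mem_nhds ?_)
    simpa using hg0
  rw [nhds_pi, Filter.mem_pi] at h2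
  obtain ⟨I, hI, V, hV, hVU⟩ := h2
  -- a common symmetric neighbourhood
  have h3 : (⋂ i, V i) ∩ -(⋂ i, V i) ∈ 𝓝 (0 : X →₀ ℤ) := by
    have h4 : (⋂ i, V i) ∈ 𝓝 (0 : X →₀ ℤ) := Filter.iInter_mem.2 fun i => hV i
    refine Filter.inter_mem h4 ?_
    have h5 := (neg_mem_nhds_zero (X →₀ ℤ)) h4
    exact h5
  obtain ⟨W, hWs, hWo, hW0⟩ := mem_nhds_iff.1 h3
  refine ⟨(fun a : An X 2 => a.1) ⁻¹' W, isOpen_induced_iff.2 ⟨W, hWo, rfl⟩, hW0, ?_⟩
  rintro Q hQ g ⟨q, hq, hg⟩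
  have h6 : q ∈ I.pi V := by
    intro i _
    rcases hq i with h7 | ⟨a, ha, h7⟩ | ⟨a, ha, h7⟩
    · rw [h7]
      exact mem_of_mem_nhds (hV i)
    · rw [h7]
      exact Set.mem_iInter.1 (hWs (hQ ha)).1 i
    · rw [h7]
      exact Set.mem_iInter.1 (Set.mem_neg.1 (hWs (hQ ha)).2) i
  have h7 := hVU h6
  change g0.1 + ∑ i, q i ∈ U' at h7
  rw [← hg] at h7
  simpa using h7

/-- **snf-countability.** -/
theorem snf_main [T35Space X] (hB : BB X) (h2 : SnfCountable (An X 2)) (n : ℕ) :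
    SnfCountable (An X n) := by
  intro g0
  rcases isEmpty_or_nonempty X with hX | hX
  · -- `A_n(X)` is a singleton
    have h1 : ∀ g : An X n, g = g0 := fun g => Subtype.ext (Finsupp.ext fun x => (hX.false x).elim)
    refine ⟨{Set.univ}, Set.countable_singleton _, ?_, ?_, ?_, ?_⟩
    · rintro _ rfl
      trivial
    · rintro _ rfl s _
      exact Eventually.of_forall fun _ => trivial
    · intro U _ hU
      exact ⟨Set.univ, rfl, fun g _ => by rw [h1 g]; exact hU⟩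
    · rintro _ rfl _ rfl
      exact ⟨Set.univ, rfl, by simp⟩
  obtain ⟨P, hPc, hP1, hP2, hP3, hP4⟩ := h2 (zero X 2)
  let F : Set (An X 2) → Set (An X n) := fun Q => {g | g.1 - g0.1 ∈ nsum n Q}
  have hFmono : ∀ Q Q', Q ⊆ Q' → F Q ⊆ F Q' := fun Q Q' h g hg => nsum_mono h hg
  refine ⟨F '' P, hPc.image F, ?_, ?_, ?_, ?_⟩
  · rintro _ ⟨Q, _, rfl⟩
    change g0.1 - g0.1 ∈ nsum n Q
    rw [sub_self]
    exact zero_mem_nsum n Q
  · rintro _ ⟨Q, hQ, rfl⟩ s hs
    by_contra hcon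
    rw [Filter.not_eventually] at hcon
    obtain ⟨φ, hφ, hφ2⟩ := extraction_of_frequently_atTop hcon
    have hs' : Tendsto (fun k => (s k).1) atTop (𝓝 g0.1) :=
      (continuous_induced_dom.tendsto g0).comp hs
    obtain ⟨ψ, y, l, e, hψ, hy, h⟩ := structure_seq hB (fun k => (s (φ k)).2)
      (hs'.comp hφ.tendsto_atTop)
    have h3 : ∀ᶠ k in atTop, ∀ i, diff (y k i) (l i) ∈ Q := by
      rw [Filter.eventually_all]
      intro i
      exact hP2 Q hQ _ (diff_tendsto ((tendsto_pi_nhds.1 hy) i))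
    obtain ⟨k, hk⟩ := h3.exists
    refine hφ2 (ψ k) ?_
    change (s (φ (ψ k))).1 - g0.1 ∈ nsum n Q
    have h4 : (s (φ (ψ k))).1 - g0.1 = _ := h k
    rw [h4]
    exact mem_nsum hk
  · intro U hU hg0
    obtain ⟨W, hW, hW0, hWU⟩ := exists_small g0 hU hg0
    obtain ⟨Q, hQ, hQW⟩ := hP3 W hW hW0
    exact ⟨F Q, ⟨Q, hQ, rfl⟩, fun g hg => hWU Q hQW g hg⟩
  · rintro _ ⟨Q, hQ, rfl⟩ _ ⟨Q', hQ', rfl⟩
    obtain ⟨Q'', hQ'', h⟩ := hP4 Q hQ Q' hQ'
    exact ⟨F Q'', ⟨Q'', hQ'', rfl⟩, fun g hg =>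
      ⟨hFmono _ _ (h.trans Set.inter_subset_left) hg, hFmono _ _ (h.trans Set.inter_subset_right) hg⟩⟩

/-- **csf-countability.** -/
theorem csf_main [T35Space X] (hB : BB X) (h2 : CsfCountable (An X 2)) (n : ℕ) :
    CsfCountable (An X n) := by
  intro g0
  rcases isEmpty_or_nonempty X with hX | hX
  · have h1 : ∀ g : An X n, g = g0 := fun g => Subtype.ext (Finsupp.ext fun x => (hX.false x).elim)
    refine ⟨{Set.univ}, Set.countable_singleton _, ?_, ?_⟩
    · rintro _ rfl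
      trivial
    · intro s _ U _ hU
      exact ⟨Set.univ, rfl, fun g _ => by rw [h1 g]; exact hU, Eventually.of_forall fun _ => trivial⟩
  obtain ⟨P, hPc, hP1, hP2⟩ := h2 (zero X 2)
  let F : Set (An X 2) → Set (An X n) := fun Q => {g | g.1 - g0.1 ∈ nsum n Q}
  have hFmono : ∀ Q Q', Q ⊆ Q' → F Q ⊆ F Q' := fun Q Q' h g hg => nsum_mono h hg
  refine ⟨(fun S : Set (Set (An X 2)) => F (⋃₀ S)) '' {S | S.Finite ∧ S ⊆ P},
    (Set.Countable.image (Set.countable_ofPred_finite_subset hPc) _), ?_, ?_⟩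
  · rintro _ ⟨S, _, rfl⟩
    change g0.1 - g0.1 ∈ nsum n _
    rw [sub_self]
    exact zero_mem_nsum n _
  · intro s hs U hU hg0
    obtain ⟨W, hW, hW0, hWU⟩ := exists_small g0 hU hg0
    -- the members of the network contained in `W`
    have hPW : ({Q | Q ∈ P ∧ Q ⊆ W} : Set (Set (An X 2))).Countable := hPc.mono fun Q hQ => hQ.1
    have hne : ({Q | Q ∈ P ∧ Q ⊆ W} : Set (Set (An X 2))).Nonempty := by
      obtain ⟨Q, hQ, hQW, -⟩ := hP2 (fun _ => zero X 2) tendsto_const_nhds W hW hW0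
      exact ⟨Q, hQ, hQW⟩
    obtain ⟨f, hf⟩ := hPW.exists_eq_range hne
    have hfP : ∀ j, f j ∈ P ∧ f j ⊆ W := fun j => by
      have : f j ∈ ({Q | Q ∈ P ∧ Q ⊆ W} : Set (Set (An X 2))) := by
        rw [hf]
        exact ⟨j, rfl⟩
      exact this
    let S : ℕ → Set (Set (An X 2)) := fun j => f '' Set.Iic j
    have hSfin : ∀ j, (S j).Finite := fun j => (Set.finite_Iic j).image f
    have hSP : ∀ j, S j ⊆ P := by
      rintro j _ ⟨i, _, rfl⟩
      exact (hfP i).1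
    have hSW : ∀ j, ⋃₀ S j ⊆ W := by
      rintro j a ⟨_, ⟨i, _, rfl⟩, ha⟩
      exact (hfP i).2 ha
    have hSmono : ∀ i j, i ≤ j → ⋃₀ S i ⊆ ⋃₀ S j := by
      rintro i j hij a ⟨_, ⟨m, hm, rfl⟩, ha⟩
      exact ⟨f m, ⟨m, le_trans hm hij, rfl⟩, ha⟩
    by_contra hcon
    have hfr : ∀ j, ∃ᶠ k in atTop, s k ∉ F (⋃₀ S j) := by
      intro j
      rw [← Filter.not_eventually]
      intro h
      exact hcon ⟨F (⋃₀ S j), ⟨S j, ⟨hSfin j, hSP j⟩, rfl⟩, fun g hg => hWU _ (hSW j) g hg, h⟩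
    obtain ⟨φ, hφ, hφ2⟩ := extraction_forall_of_frequently hfr
    have hs' : Tendsto (fun k => (s k).1) atTop (𝓝 g0.1) :=
      (continuous_induced_dom.tendsto g0).comp hs
    obtain ⟨ψ, y, l, e, hψ, hy, h⟩ := structure_seq hB (fun k => (s (φ k)).2)
      (hs'.comp hφ.tendsto_atTop)
    have h3 : ∀ i, ∃ m, ∀ᶠ k in atTop, diff (y k i) (l i) ∈ f m := by
      intro i
      obtain ⟨Q, hQ, hQW, hQ3⟩ := hP2 _ (diff_tendsto ((tendsto_pi_nhds.1 hy) i)) W hW hW0
      have h4 : Q ∈ ({Q | Q ∈ P ∧ Q ⊆ W} : Set (Set (An X 2))) := ⟨hQ, hQW⟩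
      rw [hf] at h4
      obtain ⟨m, rfl⟩ := h4
      exact ⟨m, hQ3⟩
    choose m hm using h3
    let J := Finset.univ.sup m
    have h5 : ∀ᶠ k in atTop, ∀ i, diff (y k i) (l i) ∈ ⋃₀ S J := by
      rw [Filter.eventually_all]
      intro i
      filter_upwards [hm i] with k hk
      exact ⟨f (m i), ⟨m i, Set.mem_Iic.2 (Finset.le_sup (f := m) (Finset.mem_univ i)), rfl⟩, hk⟩
    obtain ⟨k, hk, hkJ⟩ := (h5.and (eventually_ge_atTop J)).exists
    refine hφ2 (ψ k) ?_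
    refine hFmono _ _ (hSmono J (ψ k) (hkJ.trans (hψ.id_le k))) ?_
    change (s (φ (ψ k))).1 - g0.1 ∈ nsum n _
    have h4 : (s (φ (ψ k))).1 - g0.1 = _ := h k
    rw [h4]
    exact mem_nsum hk

/-- `csf`-countability is hereditary -/
theorem csf_mono {m n : ℕ} (hmn : m ≤ n) (h : CsfCountable (An X n)) : CsfCountable (An X m) := by
  let ι : An X m → An X n := fun g => ⟨g.1, g.2.trans hmn⟩
  have hι : Topology.IsInducing ι := by
    refine ⟨?_⟩
    change TopologicalSpace.induced _ _ = TopologicalSpace.induced _ (TopologicalSpace.induced _ _)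
    rw [induced_compose]
    rfl
  intro g
  obtain ⟨P, hPc, hP1, hP2⟩ := h (ι g)
  refine ⟨(fun A => ι ⁻¹' A) '' P, hPc.image _, ?_, ?_⟩
  · rintro _ ⟨A, hA, rfl⟩
    exact hP1 A hA
  · intro s hs U hU hgU
    obtain ⟨U', hU', rfl⟩ := hι.isOpen_iff.1 hU
    obtain ⟨A, hA, hAU, hAs⟩ := hP2 (ι ∘ s) ((hι.continuous.tendsto g).comp hs) U' hU' hgU
    exact ⟨ι ⁻¹' A, ⟨A, hA, rfl⟩, Set.preimage_mono hAU, hAs⟩

/-- `snf`-countability is hereditary -/
theorem snf_mono {m n : ℕ} (hmn : m ≤ n) (h : SnfCountable (An X n)) : SnfCountable (An X m) := by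
  let ι : An X m → An X n := fun g => ⟨g.1, g.2.trans hmn⟩
  have hι : Topology.IsInducing ι := by
    refine ⟨?_⟩
    change TopologicalSpace.induced _ _ = TopologicalSpace.induced _ (TopologicalSpace.induced _ _)
    rw [induced_compose]
    rfl
  intro g
  obtain ⟨P, hPc, hP1, hP2, hP3, hP4⟩ := h (ι g)
  refine ⟨(fun A => ι ⁻¹' A) '' P, hPc.image _, ?_, ?_, ?_, ?_⟩
  · rintro _ ⟨A, hA, rfl⟩
    exact hP1 A hA
  · rintro _ ⟨A, hA, rfl⟩ s hs
    exact hP2 A hA (ι ∘ s) ((hι.continuous.tendsto g).comp hs)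
  · intro U hU hgU
    obtain ⟨U', hU', rfl⟩ := hι.isOpen_iff.1 hU
    obtain ⟨A, hA, hAU⟩ := hP3 U' hU' hgU
    exact ⟨ι ⁻¹' A, ⟨A, hA, rfl⟩, Set.preimage_mono hAU⟩
  · rintro _ ⟨A, hA, rfl⟩ _ ⟨B, hB, rfl⟩
    obtain ⟨C, hC, hCAB⟩ := hP4 A hA B hB
    exact ⟨ι ⁻¹' C, ⟨C, hC, rfl⟩, Set.preimage_mono hCAB⟩

end

end Pool.Agent.R821.SN
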