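import Mathlib
import Pool.Agent.R821.SnfDefs
import Pool.Agent.R821.Aff
import Pool.Agent.R821.FourWords

/-!
# Convergent sequences in `F_3(X)`
-/

set_option autoImplicit false
set_option linter.unusedSectionVars false

open Filter Topology

namespace Pool.Agent.R821.FS

open Pool.Agent.R821.BS

universe u

/-- the exponent sum of the letter `x` in a word -/
def cnt {X : Type u} [DecidableEq X] (x : X) (L : List (X × Bool)) : ℤ :=
  (L.map fun l => if l.1 = x then (cond l.2 1 (-1) : ℤ) else 0).sum

theorem cnt_cases {X : Type u} [DecidableEq X] {L : List (X × Bool)} (hL : FreeGroup.IsReduced L)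
    (hlen : L.length ≤ 3) {x : X} {b : Bool} (hx : (x, b) ∈ L) :
    cnt x L ≠ 0 ∨ ∃ (a : Bool) (y : X) (c : Bool), L = [(x, a), (y, c), (x, !a)] ∧ cnt y L ≠ 0 := by
  match L, hL, hlen, hx with
  | [], _, _, hx => simp at hx
  | [(x1, b1)], _, _, hx =>
    left
    simp only [List.mem_singleton, Prod.mk.injEq] at hx
    obtain ⟨rfl, rfl⟩ := hx
    cases b <;> simp [cnt]
  | [(x1, b1), (x2, b2)], hL, _, hx =>
    left
    have h1 : x1 = x2 → b1 = b2 := by
      simpa [FreeGroup.IsReduced, List.isChain_cons_cons] using hL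
    by_cases e1 : x1 = x <;> by_cases e2 : x2 = x
    · have h2 := h1 (e1.trans e2.symm)
      subst h2
      cases b1 <;> simp [cnt, e1, e2]
    · cases b1 <;> simp [cnt, e1, e2]
    · cases b2 <;> simp [cnt, e1, e2]
    · exfalso
      simp only [List.mem_cons, Prod.mk.injEq, List.not_mem_nil, or_false] at hx
      rcases hx with h | h
      · exact e1 h.1.symm
      · exact e2 h.1.symm
  | [(x1, b1), (x2, b2), (x3, b3)], hL, _, hx =>
    have h1 : (x1 = x2 → b1 = b2) ∧ (x2 = x3 → b2 = b3) := by
      simpa [FreeGroup.IsReduced, List.isChain_cons_cons] using hL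
    by_cases e1 : x1 = x <;> by_cases e2 : x2 = x <;> by_cases e3 : x3 = x
    · left
      have h2 := h1.1 (e1.trans e2.symm)
      have h3 := h1.2 (e2.trans e3.symm)
      subst h2 h3
      cases b1 <;> simp [cnt, e1, e2, e3]
    · left
      have h2 := h1.1 (e1.trans e2.symm)
      subst h2
      cases b1 <;> simp [cnt, e1, e2, e3]
    · by_cases h2 : b3 = !b1
      · right
        refine ⟨b1, x2, b2, by rw [e1, e3, h2], ?_⟩
        have e4 : x ≠ x2 := fun h => e2 h.symm
        cases b2 <;> simp [cnt, e1, e3, e4]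
      · left
        have h3 : b3 = b1 := by
          revert h2
          cases b1 <;> cases b3 <;> simp
        subst h3
        cases b3 <;> simp [cnt, e1, e2, e3]
    · left
      cases b1 <;> simp [cnt, e1, e2, e3]
    · left
      have h3 := h1.2 (e2.trans e3.symm)
      subst h3
      cases b2 <;> simp [cnt, e1, e2, e3]
    · left
      cases b2 <;> simp [cnt, e1, e2, e3]
    · left
      cases b3 <;> simp [cnt, e1, e2, e3]
    · exfalso
      simp only [List.mem_cons, Prod.mk.injEq, List.not_mem_nil, or_false] at hx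
      rcases hx with h | h | h
      · exact e1 h.1.symm
      · exact e2 h.1.symm
      · exact e3 h.1.symm
  | a :: b :: c :: d :: L, _, h, _ =>
    exfalso
    simp only [List.length_cons] at h
    omega

section

variable {X : Type u}

/-- the abelianization -/
noncomputable def ab : FreeGroup X →* Multiplicative (X →₀ ℤ) :=
  FreeGroup.lift fun x => Multiplicative.ofAdd (Finsupp.single x 1)

theorem ab_apply [DecidableEq X] (x : X) (L : List (X × Bool)) :
    (Multiplicative.toAdd (ab (FreeGroup.mk L))) x = cnt x L := by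
  induction L with
  | nil =>
    have h1 : (FreeGroup.mk [] : FreeGroup X) = 1 := rfl
    rw [h1, map_one]
    simp [cnt]
  | cons l L ih =>
    have h1 : (FreeGroup.mk (l :: L) : FreeGroup X) = FreeGroup.mk [l] * FreeGroup.mk L := by
      rw [FreeGroup.mul_mk]
      rfl
    rw [h1, map_mul, toAdd_mul, Finsupp.add_apply, ih]
    rcases l with ⟨y, b⟩
    cases b
    · simp [cnt, ab, Finsupp.single_apply]
      split_ifs <;> simp
    · simp [cnt, ab, Finsupp.single_apply]

variable [TopologicalSpace X]

attribute [local instance] FG.topF FA.topA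

theorem ab_continuous : Continuous (ab (X := X)) := by
  refine FG.lift_continuous ?_
  exact continuous_ofAdd.comp (FA.continuous_single X)

/-- the image of a word `x^a y^c x^{-a}` in the affine group -/
theorem aff_abs (φ : X → FG.Aff ℝ) {x y : X} (hx : (φ x).v = 1) (hy : (φ y).v = 1)
    (hy' : (φ y).t = 0) (a c : Bool) :
    |(FreeGroup.lift φ (FreeGroup.mk [(x, a), (y, c), (x, !a)])).v| =
      Real.exp (cond a (φ x).t (-(φ x).t)) := by
  have h1 : Real.exp (φ x).t * Real.exp (-(φ x).t) = 1 := by
    rw [← Real.exp_add, add_neg_cancel, Real.exp_zero]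
  have h2 := Real.exp_pos (φ x).t
  have h3 := Real.exp_pos (-(φ x).t)
  cases a <;> cases c <;>
    simp only [FreeGroup.lift_mk, List.map_cons, List.map_nil, List.prod_cons, List.prod_nil, mul_one,
      Bool.not_true, Bool.not_false, cond_true, cond_false, FG.Aff.mul_v,
      FG.Aff.inv_v, FG.Aff.inv_t, hx, hy, hy', neg_zero, Real.exp_zero, smul_eq_mul, one_mul]
  · rw [abs_eq h3.le]
    right
    ring
  · rw [abs_eq h3.le]
    left
    ring
  · rw [abs_eq h2.le]
    right
    linear_combination (-1 : ℝ) * h1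
  · rw [abs_eq h2.le]
    left
    linear_combination (-1 : ℝ) * h1

/-- The letters of a convergent sequence in `F_3(X)` form a functionally bounded set. -/
theorem letters_bounded_F [DecidableEq X] [T35Space X] {g : ℕ → FreeGroup X} {g0 : FreeGroup X}
    (hlen : ∀ k, (g k).toWord.length ≤ 3) (hg : Tendsto g atTop (𝓝 g0))
    {h : X → ℝ} (hh : Continuous h) : ∃ C : ℝ, ∀ k, ∀ l ∈ (g k).toWord, |h l.1| ≤ C := by
  -- the letters surviving in the abelianization
  have h1 : Tendsto (fun k => Multiplicative.toAdd (ab (g k))) atTop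
      (𝓝 (Multiplicative.toAdd (ab g0))) :=
    (continuous_toAdd.tendsto _).comp ((ab_continuous.tendsto g0).comp hg)
  obtain ⟨C0, hC0⟩ := FA.letters_bounded h1 hh
  have hcnt : ∀ k (x : X), cnt x (g k).toWord ≠ 0 → |h x| ≤ C0 := by
    intro k x hx
    refine hC0 k x ?_
    rw [Finsupp.mem_support_iff]
    have h2 := ab_apply x (g k).toWord
    rw [FreeGroup.mk_toWord] at h2
    rw [h2]
    exact hx
  -- the affine tests
  let m : X → ℝ := fun x => max (|h x| - C0) 0
  have hm : Continuous m := by fun_prop
  have htest : ∀ s : ℝ, ∃ C, ∀ k, |(FreeGroup.lift (fun x => (⟨1, s * m x⟩ : FG.Aff ℝ)) (g k)).v| ≤ C := by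
    intro s
    have h2 : Continuous fun x => (⟨1, s * m x⟩ : FG.Aff ℝ) :=
      FG.Aff.continuous_mk continuous_const (continuous_const.mul hm)
    have h3 : Tendsto (fun k => (FreeGroup.lift (fun x => (⟨1, s * m x⟩ : FG.Aff ℝ)) (g k)).v) atTop
        (𝓝 ((FreeGroup.lift (fun x => (⟨1, s * m x⟩ : FG.Aff ℝ)) g0).v)) :=
      ((FG.Aff.continuous_v.comp (FG.lift_continuous h2)).tendsto g0).comp hg
    obtain ⟨C, hC⟩ := (Metric.isBounded_range_of_tendsto _ h3).exists_norm_le
    exact ⟨C, fun k => hC _ ⟨k, rfl⟩⟩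
  obtain ⟨C1, hC1⟩ := htest 1
  obtain ⟨C2, hC2⟩ := htest (-1)
  refine ⟨|C0| + |C1| + |C2|, fun k l hl => ?_⟩
  have e0 := le_abs_self C0
  have e1 := abs_nonneg C1
  have e2 := abs_nonneg C2
  rcases cnt_cases FreeGroup.isReduced_toWord (hlen k) (x := l.1) (b := l.2) hl with h2 | h2
  · have := hcnt k _ h2
    linarith
  · obtain ⟨a, y, c, hL, hy⟩ := h2
    have hy0 : m y = 0 := max_eq_right (by linarith [hcnt k y hy])
    have h3 : |h l.1| ≤ C0 + m l.1 := by
      have := le_max_left (|h l.1| - C0) 0
      change |h l.1| ≤ C0 + max (|h l.1| - C0) 0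
      linarith
    have h4 : m l.1 ≤ |C1| + |C2| := by
      have h5 : m l.1 + 1 ≤ Real.exp (m l.1) := Real.add_one_le_exp _
      have hgk : g k = FreeGroup.mk [(l.1, a), (y, c), (l.1, !a)] := by
        rw [← hL, FreeGroup.mk_toWord]
      cases a
      · have h6 := hC2 k
        rw [hgk, aff_abs _ rfl rfl (by simp [hy0])] at h6
        simp only [cond_false, neg_mul, one_mul, neg_neg] at h6
        have := le_abs_self C2
        linarith
      · have h6 := hC1 k
        rw [hgk, aff_abs _ rfl rfl (by simp [hy0])] at h6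
        simp only [cond_true, one_mul] at h6
        have := le_abs_self C1
        linarith
    linarith

/-- the space `F_n(X)` -/
def Fn (X : Type u) (n : ℕ) : Type u :=
  {g : FreeGroup X // ∃ L : List (X × Bool), FreeGroup.IsReduced L ∧ L.length ≤ n ∧
    FreeGroup.mk L = g}

/-- `F_n(X)` carries the subspace topology of the free topological group `F(X)`. -/
noncomputable instance (n : ℕ) : TopologicalSpace (Fn X n) :=
  TopologicalSpace.induced (fun g : Fn X n => g.1) (FG.topF X)

theorem mem_Fn {n : ℕ} {L : List (X × Bool)} (hL : L.length ≤ n) :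
    ∃ L' : List (X × Bool), FreeGroup.IsReduced L' ∧ L'.length ≤ n ∧
      FreeGroup.mk L' = FreeGroup.mk L := by
  classical
  refine ⟨FreeGroup.reduce L, ?_, ?_, FreeGroup.reduce.self⟩
  · exact FreeGroup.isReduced_iff_reduce_eq.2 FreeGroup.reduce.idem
  · exact (FreeGroup.Red.sublist FreeGroup.reduce.red).length_le.trans hL

theorem Fn_length [DecidableEq X] {n : ℕ} (g : Fn X n) : g.1.toWord.length ≤ n := by
  obtain ⟨L, hL, hLn, hLg⟩ := g.2
  rw [← hLg, FreeGroup.toWord_mk, hL.reduce_eq]
  exact hLn

/-- one letter with a sign -/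
def lt (z : X × Bool) : FreeGroup X := FreeGroup.mk [z]

theorem lt_mul (z z' : X × Bool) : lt z * lt z' = FreeGroup.mk [z, z'] := by
  rw [lt, lt, FreeGroup.mul_mk]
  rfl

theorem lt_inv (z : X × Bool) : (lt z)⁻¹ = lt (z.1, !z.2) := by
  rw [lt, FreeGroup.inv_mk]
  rfl

theorem lt_continuous (b : Bool) : Continuous fun x : X => (lt (x, b) : FreeGroup X) := by
  cases b
  · have h1 : (fun x : X => (lt (x, false) : FreeGroup X)) = fun x => (FreeGroup.of x)⁻¹ := rfl
    rw [h1]
    exact (FG.continuous_of X).inv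
  · exact FG.continuous_of X

/-- products of a word with small elements inserted -/
def Th (L : List (X × Bool)) (q : Fin 3 → FreeGroup X) : FreeGroup X :=
  match L with
  | [] => q 0
  | [a] => q 0 * q 1 * lt a * q 2
  | [a, b] => q 0 * lt a * q 1 * lt b
  | [a, b, c] => q 0 * lt a * q 1 * lt b * q 2 * lt c
  | _ => q 0

theorem Th_continuous (L : List (X × Bool)) : Continuous (Th L) := by
  match L with
  | [] => exact continuous_apply 0
  | [a] =>
    change Continuous fun q : Fin 3 → FreeGroup X => q 0 * q 1 * lt a * q 2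
    fun_prop
  | [a, b] =>
    change Continuous fun q : Fin 3 → FreeGroup X => q 0 * lt a * q 1 * lt b
    fun_prop
  | [a, b, c] =>
    change Continuous fun q : Fin 3 → FreeGroup X => q 0 * lt a * q 1 * lt b * q 2 * lt c
    fun_prop
  | _ :: _ :: _ :: _ :: _ => exact continuous_apply 0

theorem Th_one {L : List (X × Bool)} (hL : L.length ≤ 3) : Th L (fun _ => 1) = FreeGroup.mk L := by
  match L, hL with
  | [], _ => rfl
  | [a], _ => simp [Th, lt]
  | [a, b], _ =>
    simp only [Th, one_mul, mul_one]
    exact lt_mul a b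
  | [a, b, c], _ =>
    simp only [Th, one_mul, mul_one]
    rw [lt_mul, lt, FreeGroup.mul_mk]
    rfl
  | _ :: _ :: _ :: _ :: _, h =>
    exfalso
    simp only [List.length_cons] at h
    omega

end

end Pool.Agent.R821.FS
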