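import Mathlib
import Pool.Agent.R821.FreeSeq

/-!
# `snf`-countability of `F_3(X)`
-/

set_option autoImplicit false
set_option linter.unusedSectionVars false

open Filter Topology

namespace Pool.Agent.R821.FS

open Pool.Agent.R821.BS Pool.Agent.R821.SN

universe u

theorem exists_ofFn {X : Type u} {L : List (X × Bool)} {M : List Bool} (h : L.map Prod.snd = M) :
    ∃ x : Fin M.length → X, L = List.ofFn (fun i => (x i, M.get i)) ∧ ∀ i, ∃ b, (x i, b) ∈ L := by
  subst h
  have hlen : (L.map Prod.snd).length = L.length := List.length_map _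
  refine ⟨fun i => (L.get (Fin.cast hlen i)).1, ?_, fun i => ⟨_, List.get_mem L (Fin.cast hlen i)⟩⟩
  refine List.ext_get ?_ ?_
  · simp
  · intro n h1 h2
    simp

section

variable {X : Type u} [TopologicalSpace X]

attribute [local instance] FG.topF FA.topA

theorem ev_tendsto {j : ℕ} (σ : Fin j → Bool) {y : ℕ → Fin j → X} {l : Fin j → X}
    (h : Tendsto y atTop (𝓝 l)) :
    Tendsto (fun k => (FreeGroup.mk (List.ofFn fun i => (y k i, σ i)) : FreeGroup X)) atTop
      (𝓝 (FreeGroup.mk (List.ofFn fun i => (l i, σ i)))) := by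
  induction j with
  | zero =>
    simp only [List.ofFn_zero]
    exact tendsto_const_nhds
  | succ j ih =>
    have h1 : ∀ v : Fin (j + 1) → X, (FreeGroup.mk (List.ofFn fun i => (v i, σ i)) : FreeGroup X) =
        lt (v 0, σ 0) * FreeGroup.mk (List.ofFn fun i : Fin j => (v i.succ, σ i.succ)) := by
      intro v
      rw [List.ofFn_succ, lt, FreeGroup.mul_mk]
      rfl
    simp only [h1]
    refine Tendsto.mul ?_ (ih (fun i => σ i.succ) (y := fun k i => y k i.succ)
      (l := fun i => l i.succ) ?_)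
    · exact ((lt_continuous (σ 0)).tendsto (l 0)).comp ((tendsto_pi_nhds.1 h) 0)
    · exact tendsto_pi_nhds.2 fun i => (tendsto_pi_nhds.1 h) i.succ

/-- The structure of convergent sequences in `F_3(X)`. -/
theorem structure_F [T35Space X] (hB : BB X) {g : ℕ → FreeGroup X} {g0 : FreeGroup X}
    (hlen : ∀ k, ∃ L : List (X × Bool), FreeGroup.IsReduced L ∧ L.length ≤ 3 ∧
      FreeGroup.mk L = g k) (hg : Tendsto g atTop (𝓝 g0)) :
    ∃ (φ : ℕ → ℕ) (j : ℕ) (σ : Fin j → Bool) (y : ℕ → Fin j → X) (l : Fin j → X), j ≤ 3 ∧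
      Tendsto y atTop (𝓝 l) ∧
      (∀ k, g (φ k) = FreeGroup.mk (List.ofFn fun i => (y k i, σ i))) ∧
      g0 = FreeGroup.mk (List.ofFn fun i => (l i, σ i)) := by
  classical
  have hlen' : ∀ k, (g k).toWord.length ≤ 3 := fun k => Fn_length (⟨g k, hlen k⟩ : Fn X 3)
  have hfin : Finite {L : List Bool // L.length ≤ 3} := (List.finite_length_le Bool 3).to_subtype
  let e : ℕ → {L : List Bool // L.length ≤ 3} := fun k =>
    ⟨(g k).toWord.map Prod.snd, by rw [List.length_map]; exact hlen' k⟩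
  obtain ⟨⟨M, hM⟩, φ, hφ, hφe⟩ := FA.exists_const_subseq e
  have h1 : ∀ k, (g (φ k)).toWord.map Prod.snd = M := fun k => congrArg Subtype.val (hφe k)
  choose x hx hx2 using fun k => exists_ofFn (h1 k)
  have hFB : ∀ i, FB fun k => x k i := by
    intro i h hh
    obtain ⟨C, hC⟩ := letters_bounded_F hlen' hg hh
    refine ⟨C, fun k => ?_⟩
    obtain ⟨b, hb⟩ := hx2 k i
    exact hC _ _ hb
  obtain ⟨ψ, hψ, l, hl⟩ := FA.exists_common hB x hFB
  have h2 : ∀ k, g (φ (ψ k)) = FreeGroup.mk (List.ofFn fun i => (x (ψ k) i, M.get i)) := by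
    intro k
    rw [← hx, FreeGroup.mk_toWord]
  refine ⟨fun k => φ (ψ k), M.length, M.get, fun k => x (ψ k), l, hM, hl, h2, ?_⟩
  refine tendsto_nhds_unique ((hg.comp hφ.tendsto_atTop).comp hψ.tendsto_atTop) ?_
  refine (ev_tendsto M.get hl).congr fun k => ?_
  exact (h2 k).symm

/-- products of two letters -/
def pair (a b : X × Bool) : Fn X 2 := ⟨FreeGroup.mk [a, b], mem_Fn (by simp)⟩

variable (X) in
/-- the neutral element -/
def one (n : ℕ) : Fn X n := ⟨1, by rw [FreeGroup.one_eq_mk]; exact mem_Fn (by simp)⟩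

theorem pair_val (a b : X × Bool) : (pair a b).1 = lt a * lt b := (lt_mul a b).symm

theorem pair_tendsto {y z : ℕ → X} {l : X} (hy : Tendsto y atTop (𝓝 l)) (hz : Tendsto z atTop (𝓝 l))
    {s t : Bool} (hst : t = !s) : Tendsto (fun k => pair (y k, s) (z k, t)) atTop (𝓝 (one X 2)) := by
  rw [nhds_induced, tendsto_comap_iff]
  have h1 : Tendsto (fun k => lt (y k, s) * lt (z k, t)) atTop (𝓝 (lt (l, s) * lt (l, t))) :=
    (((lt_continuous s).tendsto l).comp hy).mul (((lt_continuous t).tendsto l).comp hz)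
  have h2 : lt (l, s) * lt (l, t) = 1 := by
    subst hst
    have h3 : lt (l, !s) = (lt (l, s))⁻¹ := (lt_inv (l, s)).symm
    rw [h3, mul_inv_cancel]
  rw [h2] at h1
  refine h1.congr fun k => ?_
  exact (pair_val _ _).symm

/-- the basic sets -/
def PQ (L : List (X × Bool)) (Q : Set (Fn X 2)) : Set (Fn X 3) :=
  {g | ∃ q : Fin 3 → Fn X 2, (∀ i, q i ∈ Q) ∧ g.1 = Th L (fun i => (q i).1)}

theorem lt_mul_inv (a : X × Bool) (y : X) : lt (y, a.2) * lt (a.1, !a.2) * lt a = lt (y, a.2) := by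
  rw [← lt_inv a, mul_assoc, inv_mul_cancel, mul_one]

/-- the key step: convergent words eventually lie in the basic sets -/
theorem key [DecidableEq X] {Q : Set (Fn X 2)} (hQ1 : one X 2 ∈ Q)
    (hQ : ∀ s : ℕ → Fn X 2, Tendsto s atTop (𝓝 (one X 2)) → ∀ᶠ n in atTop, s n ∈ Q)
    {j : ℕ} (hj : j ≤ 3) (σ : Fin j → Bool) {y : ℕ → Fin j → X} {l : Fin j → X}
    (h : Tendsto y atTop (𝓝 l)) :
    ∀ᶠ k in atTop, ∃ q : Fin 3 → Fn X 2, (∀ i, q i ∈ Q) ∧
      (FreeGroup.mk (List.ofFn fun i => (y k i, σ i)) : FreeGroup X) =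
        Th (FreeGroup.mk (List.ofFn fun i => (l i, σ i))).toWord (fun i => (q i).1) := by
  have hy : ∀ i, Tendsto (fun k => y k i) atTop (𝓝 (l i)) := tendsto_pi_nhds.1 h
  have hp : ∀ i, ∀ᶠ k in atTop, pair (y k i, σ i) (l i, !σ i) ∈ Q := fun i =>
    hQ _ (pair_tendsto (hy i) tendsto_const_nhds rfl)
  interval_cases j
  · refine Eventually.of_forall fun k => ⟨fun _ => one X 2, fun _ => hQ1, ?_⟩
    simp [Th, one, FreeGroup.toWord_mk, FreeGroup.one_eq_mk]
  · filter_upwards [hp 0] with k hk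
    refine ⟨![one X 2, pair (y k 0, σ 0) (l 0, !σ 0), one X 2], ?_, ?_⟩
    · intro i
      fin_cases i
      · exact hQ1
      · exact hk
      · exact hQ1
    · have h1 : (FreeGroup.mk (List.ofFn fun i : Fin 1 => (l i, σ i)) : FreeGroup X).toWord =
          [(l 0, σ 0)] := by
        rw [FreeGroup.toWord_mk]
        rfl
      rw [h1]
      change lt (y k 0, σ 0) = 1 * (pair (y k 0, σ 0) (l 0, !σ 0)).1 * lt (l 0, σ 0) * 1
      rw [pair_val, one_mul, mul_one]
      exact (lt_mul_inv (l 0, σ 0) (y k 0)).symm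
  · by_cases hc : l 0 = l 1 ∧ σ 1 = !σ 0
    · have h0 : ∀ᶠ k in atTop, pair (y k 0, σ 0) (y k 1, σ 1) ∈ Q :=
        hQ _ (pair_tendsto (hy 0) (by rw [hc.1]; exact hy 1) hc.2)
      filter_upwards [h0] with k hk
      refine ⟨![pair (y k 0, σ 0) (y k 1, σ 1), one X 2, one X 2], ?_, ?_⟩
      · intro i
        fin_cases i
        · exact hk
        · exact hQ1
        · exact hQ1
      · have h1 : (FreeGroup.mk (List.ofFn fun i : Fin 2 => (l i, σ i)) : FreeGroup X).toWord = [] := by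
          rw [FreeGroup.toWord_mk]
          simp [List.ofFn_succ, FreeGroup.reduce, hc.1, hc.2]
        rw [h1]
        rfl
    · filter_upwards [hp 0, hp 1] with k hk0 hk1
      refine ⟨![pair (y k 0, σ 0) (l 0, !σ 0), pair (y k 1, σ 1) (l 1, !σ 1), one X 2], ?_, ?_⟩
      · intro i
        fin_cases i
        · exact hk0
        · exact hk1
        · exact hQ1
      · have h1 : (FreeGroup.mk (List.ofFn fun i : Fin 2 => (l i, σ i)) : FreeGroup X).toWord =
            [(l 0, σ 0), (l 1, σ 1)] := by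
          rw [FreeGroup.toWord_mk]
          have h2 : FreeGroup.IsReduced [(l 0, σ 0), (l 1, σ 1)] := by
            simp only [FreeGroup.IsReduced, List.isChain_cons_cons, List.isChain_singleton, and_true]
            intro h3
            by_contra h4
            refine hc ⟨h3, ?_⟩
            revert h4
            cases σ 0 <;> cases σ 1 <;> simp
          have h3 : (List.ofFn fun i : Fin 2 => (l i, σ i)) = [(l 0, σ 0), (l 1, σ 1)] := by
            simp [List.ofFn_succ]
          rw [h3, h2.reduce_eq]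
        rw [h1]
        have h3 : (List.ofFn fun i : Fin 2 => (y k i, σ i)) = [(y k 0, σ 0), (y k 1, σ 1)] := by
          simp [List.ofFn_succ]
        rw [h3, ← lt_mul]
        change _ = (pair (y k 0, σ 0) (l 0, !σ 0)).1 * lt (l 0, σ 0) *
          (pair (y k 1, σ 1) (l 1, !σ 1)).1 * lt (l 1, σ 1)
        rw [pair_val, pair_val, mul_assoc _ (lt (y k 1, σ 1) * _) _]
        have e0 := lt_mul_inv (l 0, σ 0) (y k 0)
        have e1 := lt_mul_inv (l 1, σ 1) (y k 1)
        simp only at e0 e1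
        rw [e0, e1]
  · have h3l : (List.ofFn fun i : Fin 3 => (l i, σ i)) = [(l 0, σ 0), (l 1, σ 1), (l 2, σ 2)] := by
      simp [List.ofFn_succ]
    have h3y : ∀ k, (List.ofFn fun i : Fin 3 => (y k i, σ i)) =
        [(y k 0, σ 0), (y k 1, σ 1), (y k 2, σ 2)] := by
      intro k
      simp [List.ofFn_succ]
    have h3m : ∀ k, (FreeGroup.mk (List.ofFn fun i : Fin 3 => (y k i, σ i)) : FreeGroup X) =
        lt (y k 0, σ 0) * lt (y k 1, σ 1) * lt (y k 2, σ 2) := by
      intro k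
      rw [h3y, lt_mul, lt, FreeGroup.mul_mk]
      rfl
    have e0 : ∀ k, lt (y k 0, σ 0) * lt (l 0, !σ 0) * lt (l 0, σ 0) = lt (y k 0, σ 0) :=
      fun k => lt_mul_inv (l 0, σ 0) (y k 0)
    have e1 : ∀ k, lt (y k 1, σ 1) * lt (l 1, !σ 1) * lt (l 1, σ 1) = lt (y k 1, σ 1) :=
      fun k => lt_mul_inv (l 1, σ 1) (y k 1)
    have e2 : ∀ k, lt (y k 2, σ 2) * lt (l 2, !σ 2) * lt (l 2, σ 2) = lt (y k 2, σ 2) :=
      fun k => lt_mul_inv (l 2, σ 2) (y k 2)
    by_cases hc : l 0 = l 1 ∧ σ 1 = !σ 0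
    · have h0 : ∀ᶠ k in atTop, pair (y k 0, σ 0) (y k 1, σ 1) ∈ Q :=
        hQ _ (pair_tendsto (hy 0) (by rw [hc.1]; exact hy 1) hc.2)
      filter_upwards [h0, hp 2] with k hk hk2
      refine ⟨![pair (y k 0, σ 0) (y k 1, σ 1), pair (y k 2, σ 2) (l 2, !σ 2), one X 2], ?_, ?_⟩
      · intro i
        fin_cases i
        · exact hk
        · exact hk2
        · exact hQ1
      · have h1 : (FreeGroup.mk (List.ofFn fun i : Fin 3 => (l i, σ i)) : FreeGroup X).toWord =
            [(l 2, σ 2)] := by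
          rw [h3l, FreeGroup.toWord_mk]
          have h2 : (FreeGroup.mk [(l 0, σ 0), (l 1, σ 1), (l 2, σ 2)] : FreeGroup X) =
              FreeGroup.mk [(l 2, σ 2)] := by
            have h3 : (FreeGroup.mk [(l 0, σ 0), (l 1, σ 1), (l 2, σ 2)] : FreeGroup X) =
                lt (l 0, σ 0) * lt (l 1, σ 1) * lt (l 2, σ 2) := by
              rw [lt_mul, lt, FreeGroup.mul_mk]
              rfl
            rw [h3, hc.1, hc.2, ← lt_inv (l 1, σ 0), mul_inv_cancel, one_mul]
            rfl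
          rw [FreeGroup.reduce.sound h2]
          rfl
        rw [h1, h3m]
        change _ = (pair (y k 0, σ 0) (y k 1, σ 1)).1 * (pair (y k 2, σ 2) (l 2, !σ 2)).1 *
          lt (l 2, σ 2) * 1
        rw [pair_val, pair_val, mul_one, mul_assoc (lt (y k 0, σ 0) * lt (y k 1, σ 1)) _ _, e2]
    · by_cases hd : l 1 = l 2 ∧ σ 2 = !σ 1
      · have h0 : ∀ᶠ k in atTop, pair (y k 1, σ 1) (y k 2, σ 2) ∈ Q :=
          hQ _ (pair_tendsto (hy 1) (by rw [hd.1]; exact hy 2) hd.2)
        filter_upwards [h0, hp 0] with k hk hk0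
        refine ⟨![one X 2, pair (y k 0, σ 0) (l 0, !σ 0), pair (y k 1, σ 1) (y k 2, σ 2)], ?_, ?_⟩
        · intro i
          fin_cases i
          · exact hQ1
          · exact hk0
          · exact hk
        · have h1 : (FreeGroup.mk (List.ofFn fun i : Fin 3 => (l i, σ i)) : FreeGroup X).toWord =
              [(l 0, σ 0)] := by
            rw [h3l, FreeGroup.toWord_mk]
            have h2 : (FreeGroup.mk [(l 0, σ 0), (l 1, σ 1), (l 2, σ 2)] : FreeGroup X) =
                FreeGroup.mk [(l 0, σ 0)] := by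
              have h3 : (FreeGroup.mk [(l 0, σ 0), (l 1, σ 1), (l 2, σ 2)] : FreeGroup X) =
                  lt (l 0, σ 0) * lt (l 1, σ 1) * lt (l 2, σ 2) := by
                rw [lt_mul, lt, FreeGroup.mul_mk]
                rfl
              rw [h3, hd.1, hd.2, mul_assoc, ← lt_inv (l 2, σ 1), mul_inv_cancel, mul_one]
              rfl
            rw [FreeGroup.reduce.sound h2]
            rfl
          rw [h1, h3m]
          change _ = 1 * (pair (y k 0, σ 0) (l 0, !σ 0)).1 * lt (l 0, σ 0) *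
            (pair (y k 1, σ 1) (y k 2, σ 2)).1
          rw [pair_val, pair_val, one_mul, e0, mul_assoc]
      · filter_upwards [hp 0, hp 1, hp 2] with k hk0 hk1 hk2
        refine ⟨![pair (y k 0, σ 0) (l 0, !σ 0), pair (y k 1, σ 1) (l 1, !σ 1),
          pair (y k 2, σ 2) (l 2, !σ 2)], ?_, ?_⟩
        · intro i
          fin_cases i
          · exact hk0
          · exact hk1
          · exact hk2
        · have h1 : (FreeGroup.mk (List.ofFn fun i : Fin 3 => (l i, σ i)) : FreeGroup X).toWord =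
              [(l 0, σ 0), (l 1, σ 1), (l 2, σ 2)] := by
            rw [h3l, FreeGroup.toWord_mk]
            have h2 : FreeGroup.IsReduced [(l 0, σ 0), (l 1, σ 1), (l 2, σ 2)] := by
              simp only [FreeGroup.IsReduced, List.isChain_cons_cons, List.isChain_singleton, and_true]
              refine ⟨fun h3 => ?_, fun h3 => ?_⟩
              · by_contra h4
                refine hc ⟨h3, ?_⟩
                revert h4
                cases σ 0 <;> cases σ 1 <;> simp
              · by_contra h4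
                refine hd ⟨h3, ?_⟩
                revert h4
                cases σ 1 <;> cases σ 2 <;> simp
            rw [h2.reduce_eq]
          rw [h1, h3m]
          change _ = (pair (y k 0, σ 0) (l 0, !σ 0)).1 * lt (l 0, σ 0) *
            (pair (y k 1, σ 1) (l 1, !σ 1)).1 * lt (l 1, σ 1) *
            (pair (y k 2, σ 2) (l 2, !σ 2)).1 * lt (l 2, σ 2)
          rw [pair_val, pair_val, pair_val, e0, mul_assoc _ (lt (y k 1, σ 1) * _) _, e1,
            mul_assoc _ (lt (y k 2, σ 2) * _) _, e2]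

/-- **snf-countability.** -/
theorem snf_main_F [T35Space X] (hB : BB X) (h2 : SnfCountable (Fn X 2)) :
    SnfCountable (Fn X 3) := by
  classical
  intro g0
  have hg0len : g0.1.toWord.length ≤ 3 := Fn_length g0
  obtain ⟨P, hPc, hP1, hP2, hP3, hP4⟩ := h2 (one X 2)
  have hmono : ∀ Q Q' : Set (Fn X 2), Q ⊆ Q' → PQ g0.1.toWord Q ⊆ PQ g0.1.toWord Q' := by
    rintro Q Q' h g ⟨q, hq, hg⟩
    exact ⟨q, fun i => h (hq i), hg⟩
  refine ⟨PQ g0.1.toWord '' P, hPc.image _, ?_, ?_, ?_, ?_⟩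
  · rintro _ ⟨Q, hQ, rfl⟩
    refine ⟨fun _ => one X 2, fun _ => hP1 Q hQ, ?_⟩
    change g0.1 = Th g0.1.toWord (fun _ => 1)
    rw [Th_one hg0len, FreeGroup.mk_toWord]
  · rintro _ ⟨Q, hQ, rfl⟩ s hs
    by_contra hcon
    rw [Filter.not_eventually] at hcon
    obtain ⟨φ, hφ, hφ2⟩ := extraction_of_frequently_atTop hcon
    have hs' : Tendsto (fun k => (s k).1) atTop (𝓝 g0.1) :=
      (continuous_induced_dom.tendsto g0).comp hs
    obtain ⟨ψ, j, σ, y, l, hj, hy, h, h0⟩ := structure_F hB (fun k => (s (φ k)).2)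
      (hs'.comp hφ.tendsto_atTop)
    obtain ⟨k, q, hq, hk⟩ := (key (hP1 Q hQ) (hP2 Q hQ) hj σ hy).exists
    refine hφ2 (ψ k) ⟨q, hq, ?_⟩
    have h3 : (s (φ (ψ k))).1 = _ := h k
    rw [h3, hk, h0]
  · intro U hU hg0
    obtain ⟨U', hU', rfl⟩ := isOpen_induced_iff.1 hU
    have h1 : Th g0.1.toWord ⁻¹' U' ∈ 𝓝 (fun _ : Fin 3 => (1 : FreeGroup X)) := by
      refine (Th_continuous g0.1.toWord).continuousAt.preimage_mem_nhds (hU'.mem_nhds ?_)
      rw [Th_one hg0len, FreeGroup.mk_toWord]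
      exact hg0
    rw [nhds_pi, Filter.mem_pi] at h1
    obtain ⟨I, hI, V, hV, hVU⟩ := h1
    have h3 : (⋂ i, V i) ∈ 𝓝 (1 : FreeGroup X) := Filter.iInter_mem.2 fun i => hV i
    obtain ⟨W, hWs, hWo, hW0⟩ := mem_nhds_iff.1 h3
    obtain ⟨Q, hQ, hQW⟩ := hP3 ((fun a : Fn X 2 => a.1) ⁻¹' W) (isOpen_induced_iff.2 ⟨W, hWo, rfl⟩) hW0
    refine ⟨_, ⟨Q, hQ, rfl⟩, ?_⟩
    rintro g ⟨q, hq, hg⟩
    have h4 : (fun i => (q i).1) ∈ I.pi V := fun i _ => Set.mem_iInter.1 (hWs (hQW (hq i))) i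
    have h5 : Th g0.1.toWord (fun i => (q i).1) ∈ U' := hVU h4
    rw [← hg] at h5
    exact h5
  · rintro _ ⟨Q, hQ, rfl⟩ _ ⟨Q', hQ', rfl⟩
    obtain ⟨Q'', hQ'', h⟩ := hP4 Q hQ Q' hQ'
    exact ⟨_, ⟨Q'', hQ'', rfl⟩, fun g hg =>
      ⟨hmono _ _ (h.trans Set.inter_subset_left) hg, hmono _ _ (h.trans Set.inter_subset_right) hg⟩⟩

end

end Pool.Agent.R821.FS
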