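import Mathlib
import Pool.Agent.R821.BddSeq

/-!
# `k`-spaces with a regular `G_δ`-diagonal
-/

set_option autoImplicit false

open Filter Topology

namespace Pool.Agent.R821.KD

universe u

/-- `X` is a `k`-space: a set `F` is closed whenever `F ∩ K` is closed in `K` for every compact `K`. -/
def IsKSpace (X : Type u) [TopologicalSpace X] : Prop :=
  ∀ F : Set X, (∀ K : Set X, IsCompact K → IsClosed ((fun x : K => (x : X)) ⁻¹' F)) → IsClosed F

/-- `X` has a regular `G_δ`-diagonal: there are open sets `U m` in `X × X` such that the diagonal is the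
intersection of the sets `U m` and also the intersection of their closures. -/
def HasRegularGdeltaDiagonal (X : Type u) [TopologicalSpace X] : Prop :=
  ∃ U : ℕ → Set (X × X), (∀ m, IsOpen (U m)) ∧ Set.diagonal X = ⋂ m, U m ∧
    Set.diagonal X = ⋂ m, closure (U m)

theorem bb {X : Type u} [TopologicalSpace X] [T35Space X] (hk : IsKSpace X)
    (hd : HasRegularGdeltaDiagonal X) : BS.BB X := by
  obtain ⟨U, hU, hUd', hUd⟩ := hd
  have h1 : ∀ m x, (x, x) ∈ U m := by
    intro m x
    have h3 : (x, x) ∈ Set.diagonal X := rfl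
    rw [hUd'] at h3
    exact Set.mem_iInter.1 h3 m
  have h2 : ∀ x y, (∀ m, (x, y) ∈ closure (U m)) → x = y := by
    intro x y h
    have h3 : (x, y) ∈ Set.diagonal X := by
      rw [hUd]
      exact Set.mem_iInter.2 h
    exact h3
  have hseq : SequentialSpace X := by
    refine BS.sequential_of_k (fun F hF => hk F fun K hK => ?_) U hU h1 h2
    have h3 : (fun x : K => (x : X)) ⁻¹' F = (fun x : K => (x : X)) ⁻¹' (F ∩ K) := by
      ext x
      exact ⟨fun h => ⟨h, x.2⟩, fun h => h.1⟩
    rw [h3]
    exact (hF K hK).preimage continuous_subtype_val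
  exact BS.bb_of_sequential U hU h1 h2

end Pool.Agent.R821.KD
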