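import Pool.Agent.R821.BpTop
import Pool.Agent.R821.Duality

/-!
# Precompact group topologies given by groups of characters; pseudocompactness

For an abelian group `G` and a group `X` of homomorphisms `G → T`, condition `P1 X` says that every
homomorphism from a countable subset of `X` to `T` is realised by an element of `G`.
-/

set_option autoImplicit false

open Filter Topology

namespace Pool.Agent.R821.Ps

open Pool.Agent.R821 Pool.Agent.R821.Bp

universe u v

/-- extension of characters (injectivity of the circle group) -/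
theorem ext_T {Γ : Type u} {V : Type v} [AddCommGroup Γ] [AddCommGroup V] (p : Γ →+ V) (τ : Γ →+ T)
    (h : ∀ x, p x = 0 → τ x = 0) : ∃ σ : V →+ T, ∀ x, σ (p x) = τ x := by
  obtain ⟨σ, hσ⟩ := Module.Baer.extension_property_addMonoidHom (Module.Baer.of_divisible T)
    (QuotientAddGroup.kerLift p) (QuotientAddGroup.kerLift_injective p)
    (QuotientAddGroup.lift p.ker τ (fun x hx => h x hx))
  refine ⟨σ, fun x => ?_⟩
  have h1 : σ (p x) = τ x := DFunLike.congr_fun hσ (x : Γ ⧸ p.ker)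
  exact h1

/-- pointwise limits of sequences of characters along ultrafilters -/
theorem exists_lim {X : Type u} [AddCommGroup X] (h : ℕ → X →+ T) (p : Ultrafilter ℕ) :
    ∃ s : X →+ T, ∀ x, Tendsto (fun n => h n x) p (𝓝 (s x)) := by
  have h1 : ∀ x, ∃ y : T, Tendsto (fun n => h n x) p (𝓝 y) := by
    intro x
    obtain ⟨y, -, hy⟩ := isCompact_univ.ultrafilter_le_nhds (p.map fun n => h n x) (by simp)
    exact ⟨y, hy⟩
  choose s hs using h1
  refine ⟨AddMonoidHom.mk' s fun x y => ?_, hs⟩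
  refine tendsto_nhds_unique (hs (x + y)) ?_
  have h2 := (hs x).add (hs y)
  refine h2.congr fun n => ?_
  rw [map_add]

section

variable {G : Type u} [AddCommGroup G]

/-- every homomorphism to `T` of a countable part of `X` is realised by an element of `G` -/
def P1 (X : AddSubgroup (G →+ T)) : Prop :=
  ∀ A : Set (G →+ T), A ⊆ X → A.Countable → ∀ s : (G →+ T) →+ T, ∃ g : G, ∀ χ ∈ A, χ g = s χ

/-- the characters in `X` separate the points of `G` -/
def Sep (X : AddSubgroup (G →+ T)) : Prop := ∀ g : G, (∀ χ ∈ X, χ g = 0) → g = 0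

/-- the topology on `G` induced by `X` -/
@[reducible] def top (X : AddSubgroup (G →+ T)) : TopologicalSpace G :=
  TopologicalSpace.induced (fun g (χ : X) => χ.1 g) inferInstance

theorem isTopologicalAddGroup (X : AddSubgroup (G →+ T)) : @IsTopologicalAddGroup G (top X) _ := by
  let Φ : G →+ (X → T) :=
    { toFun := fun g χ => χ.1 g
      map_zero' := by ext χ; simp
      map_add' := fun g h => by ext χ; simp }
  exact topologicalAddGroup_induced Φ

theorem t2 {X : AddSubgroup (G →+ T)} (hX : Sep X) : @T2Space G (top X) := by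
  let _ := top X
  have hind : IsInducing fun (g : G) (χ : X) => χ.1 g := ⟨rfl⟩
  refine (⟨hind, ?_⟩ : IsEmbedding fun (g : G) (χ : X) => χ.1 g).t2Space
  intro g h hgh
  rw [← sub_eq_zero]
  apply hX
  intro χ hχ
  rw [map_sub, sub_eq_zero]
  exact congrFun hgh ⟨χ, hχ⟩

theorem continuous_char {X : AddSubgroup (G →+ T)} {χ : G →+ T} (hχ : χ ∈ X) :
    @Continuous G T (top X) _ χ := by
  let _ := top X
  have hind : IsInducing fun (g : G) (χ : X) => χ.1 g := ⟨rfl⟩
  exact (continuous_apply (⟨χ, hχ⟩ : X)).comp hind.continuous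

/-- neighbourhoods in the topology induced by `X` -/
theorem nbT (X : AddSubgroup (G →+ T)) {g : G} {O : Set G} (hO : O ∈ @nhds G (top X) g) :
    ∃ F : Finset (G →+ T), (F : Set (G →+ T)) ⊆ X ∧ ∃ ε : ℝ, 0 < ε ∧
      ∀ g', (∀ χ ∈ F, ‖χ g' - χ g‖ < ε) → g' ∈ O := by
  classical
  let _ := top X
  have hind : IsInducing fun (g : G) (χ : X) => χ.1 g := ⟨rfl⟩
  rw [hind.nhds_eq_comap, Filter.mem_comap] at hO
  obtain ⟨t, ht, htO⟩ := hO
  rw [nhds_pi, Filter.mem_pi] at ht
  obtain ⟨I, hI, s, hs, hst⟩ := ht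
  have h1 : ∀ χ : X, ∃ ε : ℝ, 0 < ε ∧ ∀ y : T, ‖y - χ.1 g‖ < ε → y ∈ s χ := by
    intro χ
    obtain ⟨ε, hε, h⟩ := Metric.mem_nhds_iff.1 (hs χ)
    refine ⟨ε, hε, fun y hy => h ?_⟩
    rw [Metric.mem_ball, dist_eq_norm]
    exact hy
  choose ε hε h using h1
  obtain ⟨δ, hδ, hδ'⟩ : ∃ δ : ℝ, 0 < δ ∧ ∀ χ ∈ hI.toFinset, δ ≤ ε χ := by
    rcases hI.toFinset.eq_empty_or_nonempty with h0 | h0
    · exact ⟨1, one_pos, fun χ hχ => by rw [h0] at hχ; exact absurd hχ (Finset.notMem_empty _)⟩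
    · obtain ⟨χ, -, hmin⟩ := hI.toFinset.exists_min_image ε h0
      exact ⟨ε χ, hε χ, hmin⟩
  refine ⟨hI.toFinset.image Subtype.val, ?_, δ, hδ, fun g' hg' => htO (hst fun χ hχ => ?_)⟩
  · intro χ hχ
    rw [Finset.coe_image] at hχ
    obtain ⟨χ', -, rfl⟩ := hχ
    exact χ'.2
  · apply h χ
    have h2 : χ ∈ hI.toFinset := hI.mem_toFinset.2 hχ
    exact (hg' χ.1 (Finset.mem_image_of_mem _ h2)).trans_le (hδ' χ h2)

/-- `P1` implies pseudocompactness -/
theorem pseudocompact_of_P1 {X : AddSubgroup (G →+ T)} (hX : P1 X) : @Pseudocompact G (top X) := by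
  classical
  let _ := top X
  intro f hf
  by_contra hcon
  push Not at hcon
  have h1 : ∀ n : ℕ, ∃ x, (n : ℝ) < |f x| := fun n => hcon n
  choose h hh using h1
  have h2 : ∀ n : ℕ, ∃ F : Finset (G →+ T), (F : Set (G →+ T)) ⊆ X ∧ ∃ ε : ℝ, 0 < ε ∧
      ∀ g', (∀ χ ∈ F, ‖χ g' - χ (h n)‖ < ε) → (n : ℝ) < |f g'| := by
    intro n
    have hO : {g' | (n : ℝ) < |f g'|} ∈ 𝓝 (h n) :=
      (isOpen_lt continuous_const hf.abs).mem_nhds (hh n)
    exact nbT X hO
  choose F hFX ε hε hF using h2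
  -- the limit of the evaluations at `h n`
  let ev : G → ((G →+ T) →+ T) := fun g => AddMonoidHom.eval g
  have hev : ∀ g χ, ev g χ = χ g := fun g χ => rfl
  obtain ⟨s, hs⟩ := exists_lim (fun n => ev (h n)) (hyperfilter ℕ)
  obtain ⟨y, hy⟩ := hX (⋃ n, (F n : Set (G →+ T))) (Set.iUnion_subset hFX)
    (Set.countable_iUnion fun n => (F n).countable_toSet) s
  have hO : {g' | |f g'| < |f y| + 1} ∈ 𝓝 y :=
    (isOpen_lt hf.abs continuous_const).mem_nhds (by
      change |f y| < |f y| + 1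
      linarith)
  obtain ⟨E, hEX, δ, hδ, hE⟩ := nbT X hO
  have h5 : ∀ᶠ n in (hyperfilter ℕ : Filter ℕ), ∀ χ ∈ E, ‖χ (h n) - s χ‖ < δ := by
    refine (Finset.eventually_all E).2 fun χ _ => ?_
    have h6 := hs χ
    rw [tendsto_iff_norm_sub_tendsto_zero] at h6
    exact h6.eventually (gt_mem_nhds hδ)
  obtain ⟨N, hN⟩ := exists_nat_gt (|f y| + 1)
  have h6 : ∀ᶠ n in (hyperfilter ℕ : Filter ℕ), N ≤ n := by
    have : ∀ᶠ n in (atTop : Filter ℕ), N ≤ n := eventually_ge_atTop N
    rw [← Nat.cofinite_eq_atTop] at this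
    exact this.filter_mono hyperfilter_le_cofinite
  obtain ⟨n, hn1, hn2⟩ := (h5.and h6).exists
  -- the homomorphism `h n + (y - s)`
  obtain ⟨z, hz⟩ := hX ((F n : Set (G →+ T)) ∪ E) (Set.union_subset (hFX n) hEX)
    ((F n).countable_toSet.union E.countable_toSet) (ev (h n) + (ev y - s))
  have h7 : (n : ℝ) < |f z| := by
    apply hF n
    intro χ hχ
    have h8 := hz χ (Or.inl (Finset.mem_coe.2 hχ))
    have h9 : ev y χ = s χ := hy χ (Set.mem_iUnion.2 ⟨n, Finset.mem_coe.2 hχ⟩)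
    rw [AddMonoidHom.add_apply, AddMonoidHom.sub_apply, h9, sub_self, add_zero, hev] at h8
    rw [h8, sub_self, norm_zero]
    exact hε n
  have h8 : |f z| < |f y| + 1 := by
    apply hE
    intro χ hχ
    have h8 := hz χ (Or.inr (Finset.mem_coe.2 hχ))
    rw [AddMonoidHom.add_apply, AddMonoidHom.sub_apply, hev, hev] at h8
    have h9 : χ z - χ y = χ (h n) - s χ := by rw [h8]; abel
    rw [h9]
    exact hn1 χ hχ
  have h9 : (N : ℝ) ≤ n := by exact_mod_cast hn2
  linarith

end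

end Pool.Agent.R821.Ps
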