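import Pool.Agent.R821.PsA

/-!
# The characters of a pseudocompact abelian group
-/

set_option autoImplicit false

open Filter Topology

namespace Pool.Agent.R821.Ps

open Pool.Agent.R821 Pool.Agent.R821.Bp

universe u v

variable {G : Type u} [AddCommGroup G]

/-- the group of continuous characters -/
def chars (G : Type u) [AddCommGroup G] [TopologicalSpace G] : AddSubgroup (G →+ T) where
  carrier := {χ | Continuous χ}
  zero_mem' := by
    change Continuous fun _ : G => (0 : T)
    exact continuous_const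
  add_mem' := fun {χ ψ} hχ hψ => by
    have h1 : Continuous χ := hχ
    have h2 : Continuous ψ := hψ
    exact h1.add h2
  neg_mem' := fun {χ} hχ => by
    have h1 : Continuous χ := hχ
    exact h1.neg

theorem sep_chars [TopologicalSpace G] [IsTopologicalAddGroup G] [T2Space G]
    (hp : Pseudocompact G) : Sep (chars G) := by
  intro g hg
  by_contra hne
  have h1 := precompact_of_pseudocompact (Multiplicative G) hp
  obtain ⟨χ, hχ, hχg⟩ := char_sep_precompact G h1 g hne
  let e : T ≃ₜ Circle := AddCircle.homeomorphCircle one_ne_zero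
  have he : ∀ x y : T, e (x + y) = e x * e y := fun x y => by
    simp only [e, AddCircle.homeomorphCircle_apply, AddCircle.toCircle_add]
  have he' : ∀ x y : Circle, e.symm (x * y) = e.symm x + e.symm y := by
    intro x y
    apply e.injective
    rw [he, e.apply_symm_apply, e.apply_symm_apply, e.apply_symm_apply]
  let ψ : G →+ T := AddMonoidHom.mk' (fun v => e.symm (χ (Multiplicative.ofAdd v))) (fun v w => by
    rw [ofAdd_add, map_mul, he'])
  have hψ : Continuous ψ := e.symm.continuous.comp hχ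
  have h2 := hg ψ hψ
  apply hχg
  have h3 : χ (Multiplicative.ofAdd g) = e 0 := by
    rw [← h2]
    exact (e.apply_symm_apply _).symm
  rw [h3]
  simp [e, AddCircle.homeomorphCircle_apply]

theorem P1_chars [TopologicalSpace G] [IsTopologicalAddGroup G]
    (hp : Pseudocompact G) : P1 (chars G) := by
  classical
  intro A hAX hA s
  rcases A.eq_empty_or_nonempty with rfl | hne
  · exact ⟨0, fun χ hχ => absurd hχ (Set.notMem_empty _)⟩
  obtain ⟨a, rfl⟩ := hA.exists_eq_range hne
  have ha : ∀ n, Continuous (a n) := fun n => hAX ⟨n, rfl⟩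
  -- density of the evaluations
  let S : AddSubgroup ((chars G) → T) :=
    { carrier := Set.range fun (g : G) (χ : chars G) => χ.1 g
      zero_mem' := ⟨0, by ext χ; simp⟩
      add_mem' := by
        rintro _ _ ⟨g, rfl⟩ ⟨h, rfl⟩
        exact ⟨g + h, by ext χ; simp⟩
      neg_mem' := by
        rintro _ ⟨g, rfl⟩
        exact ⟨-g, by ext χ; simp⟩ }
  have hdense : (fun χ : chars G => s χ.1) ∈ closure (S : Set ((chars G) → T)) := by
    refine dense_hom S ?_ ?_ _ ?_
    · rintro _ ⟨g, rfl⟩ χ ψ
      rfl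
    · intro χ hχ
      by_contra hno
      push Not at hno
      apply hχ
      apply Subtype.ext
      ext g
      exact hno _ ⟨g, rfl⟩
    · intro χ ψ
      exact map_add s χ.1 ψ.1
  have happrox : ∀ n : ℕ, ∃ g : G, ∀ i ≤ n, ‖a i g - s (a i)‖ < 1 / ((n : ℝ) + 1) := by
    intro n
    rw [mem_closure_iff_nhds] at hdense
    have hε : (0 : ℝ) < 1 / ((n : ℝ) + 1) := by positivity
    obtain ⟨h, hh, ⟨g, rfl⟩⟩ := hdense {h : (chars G) → T | ∀ i ∈ Finset.range (n + 1),
      ‖h ⟨a i, ha i⟩ - s (a i)‖ < 1 / ((n : ℝ) + 1)} (by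
        have h1 : ∀ i ∈ Finset.range (n + 1), ∀ᶠ h : (chars G) → T in
            𝓝 (fun χ : chars G => s χ.1), ‖h ⟨a i, ha i⟩ - s (a i)‖ < 1 / ((n : ℝ) + 1) := by
          intro i _
          have hc : Continuous fun h : (chars G) → T => ‖h ⟨a i, ha i⟩ - s (a i)‖ := by fun_prop
          refine hc.continuousAt.eventually (gt_mem_nhds ?_)
          simpa using hε
        exact (Finset.eventually_all _).2 h1)
    exact ⟨g, fun i hi => hh i (Finset.mem_range.2 (Nat.lt_succ_of_le hi))⟩
  choose g hg using happrox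
  -- the continuous function
  let φ : G → ℝ := fun x => ∑' i, (1 / 2 : ℝ) ^ i * ‖a i x - s (a i)‖
  have hbound : ∀ (i : ℕ) (x : G), ‖(1 / 2 : ℝ) ^ i * ‖a i x - s (a i)‖‖ ≤ (1 / 2 : ℝ) ^ i := by
    intro i x
    have h1 : ‖a i x - s (a i)‖ ≤ 1 := by
      have := AddCircle.norm_le_half_period (1 : ℝ) (x := a i x - s (a i)) one_ne_zero
      rw [abs_one] at this
      linarith
    rw [norm_mul, norm_norm, norm_pow]
    have h2 : ‖(1 / 2 : ℝ)‖ = 1 / 2 := by norm_num
    rw [h2]
    exact mul_le_of_le_one_right (by positivity) h1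
  have hsum : Summable fun i : ℕ => (1 / 2 : ℝ) ^ i := summable_geometric_two
  have hφ : Continuous φ := by
    refine continuous_tsum (fun i => ?_) hsum hbound
    exact continuous_const.mul ((ha i).sub continuous_const).norm
  have hlim : Tendsto (fun n => φ (g n)) atTop (𝓝 0) := by
    have h1 := tendsto_tsum_of_dominated_convergence (𝓕 := atTop)
      (f := fun (n : ℕ) (i : ℕ) => (1 / 2 : ℝ) ^ i * ‖a i (g n) - s (a i)‖)
      (g := fun _ => (0 : ℝ)) hsum (fun i => by
        have h2 : Tendsto (fun n => ‖a i (g n) - s (a i)‖) atTop (𝓝 0) := by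
          refine squeeze_zero' (Eventually.of_forall fun n => norm_nonneg _) ?_
            tendsto_one_div_add_atTop_nhds_zero_nat
          exact eventually_atTop.2 ⟨i, fun n hn => (hg n i hn).le⟩
        simpa using h2.const_mul ((1 / 2 : ℝ) ^ i))
      (Eventually.of_forall fun n i => hbound i (g n))
    rw [tsum_zero] at h1
    exact h1
  -- it has a zero
  have hzero : ∃ x, φ x = 0 := by
    by_contra hcon
    push Not at hcon
    have hpos : ∀ x, 0 < φ x := fun x =>
      lt_of_le_of_ne (tsum_nonneg fun i => by positivity) (hcon x).symm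
    obtain ⟨M, hM⟩ := hp (fun x => (φ x)⁻¹) (hφ.inv₀ hcon)
    have hM0 : 0 < M := by
      have := hM (g 0)
      exact (abs_pos.2 (inv_ne_zero (hcon _))).trans_le this
    have h2 := hlim.eventually (gt_mem_nhds (inv_pos.2 hM0))
    obtain ⟨n, hn⟩ := h2.exists
    have h3 := hM (g n)
    rw [abs_of_pos (inv_pos.2 (hpos _))] at h3
    have h4 : M < (φ (g n))⁻¹ := by
      rw [← inv_inv M]
      exact (inv_lt_inv₀ (inv_pos.2 hM0) (hpos _)).2 hn
    linarith
  obtain ⟨x, hx⟩ := hzero
  refine ⟨x, ?_⟩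
  rintro _ ⟨i, rfl⟩
  have h1 : Summable fun i : ℕ => (1 / 2 : ℝ) ^ i * ‖a i x - s (a i)‖ :=
    Summable.of_norm_bounded hsum fun i => hbound i x
  have h5 : HasSum (fun i : ℕ => (1 / 2 : ℝ) ^ i * ‖a i x - s (a i)‖) (φ x) := h1.hasSum
  rw [hx] at h5
  have h2 := (hasSum_zero_iff_of_nonneg (fun i => by positivity)).1 h5
  have h3 : (1 / 2 : ℝ) ^ i * ‖a i x - s (a i)‖ = 0 := congrFun h2 i
  rcases mul_eq_zero.1 h3 with h4 | h4
  · exact absurd h4 (by positivity)
  · exact sub_eq_zero.1 (norm_eq_zero.1 h4)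

end Pool.Agent.R821.Ps
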