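import Pool.Agent.R821.PsA

/-!
# Replacing the topology of a quotient

Let `X` be a separating group of characters of `G` with `P1`, let `A ≤ X` be countable, let `Z` be the
annihilator of `A` in `G`, and let `B` be a group of characters of `G ⧸ Z` with `P1` which separates
points. If the homomorphism `a ↦ -a` from `A` to `Hom(G ⧸ Z, T) ⧸ B` extends to `X` then there is a
separating group `X'` of characters of `G` with `P1` which contains `B`.
-/

set_option autoImplicit false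

open Filter Topology

namespace Pool.Agent.R821.Ps

open Pool.Agent.R821 Pool.Agent.R821.Bp

universe u v

variable {G : Type u} [AddCommGroup G]

theorem countable_closure {M : Type v} [AddCommGroup M] {A : Set M} (hA : A.Countable) :
    (AddSubgroup.closure A : Set M).Countable := by
  have : Countable A := hA.to_subtype
  have h1 : (AddSubgroup.closure A : Set M) ⊆
      Set.range (Finsupp.linearCombination ℤ (Subtype.val : A → M)) := by
    intro x hx
    have h2 : x ∈ Submodule.span ℤ A := by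
      rw [← Submodule.mem_toAddSubgroup, Submodule.span_int_eq_addSubgroupClosure]
      exact hx
    rw [← LinearMap.coe_range, Finsupp.range_linearCombination, Subtype.range_coe]
    exact h2
  exact (Set.countable_range _).mono h1

/-- the annihilator in `G` of a set of characters -/
def ann (A : AddSubgroup (G →+ T)) : AddSubgroup G where
  carrier := {g | ∀ a ∈ A, a g = 0}
  zero_mem' := fun a _ => map_zero a
  add_mem' := fun {g h} hg hh a ha => by rw [map_add, hg a ha, hh a ha, add_zero]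
  neg_mem' := fun {g} hg a ha => by rw [map_neg, hg a ha, neg_zero]

/-- characters of the quotient as characters of the group -/
def infl (Z : AddSubgroup G) : (G ⧸ Z →+ T) →+ (G →+ T) where
  toFun φ := φ.comp (QuotientAddGroup.mk' Z)
  map_zero' := rfl
  map_add' _ _ := rfl

theorem infl_apply (Z : AddSubgroup G) (φ : G ⧸ Z →+ T) (g : G) : infl Z φ g = φ (g : G ⧸ Z) := rfl

theorem infl_injective (Z : AddSubgroup G) : Function.Injective (infl Z) := by
  intro φ ψ h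
  ext g
  exact DFunLike.congr_fun h g

theorem exists_infl (Z : AddSubgroup G) (χ : G →+ T) (h : ∀ z ∈ Z, χ z = 0) :
    ∃ φ, infl Z φ = χ := by
  refine ⟨QuotientAddGroup.lift Z χ h, ?_⟩
  ext g
  rfl

/-- characters in `X` which vanish on the annihilator of a countable group `A` belong to `A` -/
theorem mem_of_ann {X A : AddSubgroup (G →+ T)} (hX : P1 X) (hAX : A ≤ X)
    (hA : (A : Set (G →+ T)).Countable) (χ : G →+ T) (hχ : χ ∈ X) (h : ∀ z ∈ ann A, χ z = 0) :
    χ ∈ A := by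
  by_contra hne
  obtain ⟨k, hk1, hk2⟩ := exists_char_sep A χ hne
  obtain ⟨g, hg⟩ := hX (insert χ (A : Set (G →+ T)))
    (Set.insert_subset hχ hAX) (hA.insert χ) k
  apply hk2
  rw [← hg χ (Set.mem_insert _ _)]
  apply h
  intro a ha
  rw [hg a (Set.mem_insert_of_mem _ ha), hk1 a ha]

/-- elements of the annihilator realising given values -/
theorem exists_ann {X A : AddSubgroup (G →+ T)} (hX : P1 X) (hAX : A ≤ X)
    (hA : (A : Set (G →+ T)).Countable) (R : AddSubgroup (G →+ T)) (hR : (R : Set (G →+ T)).Countable)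
    (hRX : ∀ f ∈ R, ∃ χ ∈ X, ∀ z ∈ ann A, f z = χ z) (σ : (G →+ T) →+ T)
    (hσ : ∀ f ∈ R, (∀ z ∈ ann A, f z = 0) → σ f = 0) : ∃ z ∈ ann A, ∀ f ∈ R, f z = σ f := by
  classical
  let Γ : AddSubgroup ((G →+ T) × (G →+ T)) :=
    { carrier := {q | q.1 ∈ R ∧ ∀ z ∈ ann A, q.1 z = q.2 z}
      zero_mem' := ⟨R.zero_mem, fun _ _ => rfl⟩
      add_mem' := by
        rintro ⟨f, χ⟩ ⟨f', χ'⟩ ⟨h1, h2⟩ ⟨h3, h4⟩
        refine ⟨R.add_mem h1 h3, fun z hz => ?_⟩
        change f z + f' z = χ z + χ' z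
        rw [h2 z hz, h4 z hz]
      neg_mem' := by
        rintro ⟨f, χ⟩ ⟨h1, h2⟩
        refine ⟨R.neg_mem h1, fun z hz => ?_⟩
        change - (f z) = - (χ z)
        rw [h2 z hz] }
  obtain ⟨σ', hσ'⟩ := ext_T ((AddMonoidHom.snd _ _).comp Γ.subtype)
    (σ.comp ((AddMonoidHom.fst _ _).comp Γ.subtype)) (by
      rintro ⟨⟨f, χ⟩, h1, h2⟩ h3
      have h4 : χ = 0 := h3
      subst h4
      exact hσ f h1 h2)
  have hσ'' : ∀ f ∈ R, ∀ χ : G →+ T, (∀ z ∈ ann A, f z = χ z) → σ' χ = σ f := fun f hf χ h =>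
    hσ' ⟨⟨f, χ⟩, hf, h⟩
  choose! χ hχX hχ using hRX
  obtain ⟨z, hz⟩ := hX ((A : Set (G →+ T)) ∪ χ '' (R : Set (G →+ T)))
    (Set.union_subset hAX (by rintro _ ⟨f, hf, rfl⟩; exact hχX f hf))
    (hA.union (hR.image χ)) σ'
  refine ⟨z, fun a ha => ?_, fun f hf => ?_⟩
  · rw [hz a (Or.inl ha), hσ'' 0 R.zero_mem a (fun z hz => (hz a ha).symm), map_zero]
  · have hzA : z ∈ ann A := fun a ha => by
      rw [hz a (Or.inl ha), hσ'' 0 R.zero_mem a (fun z hz => (hz a ha).symm), map_zero]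
    rw [hχ f hf z hzA, hz _ (Or.inr ⟨f, hf, rfl⟩)]
    exact hσ'' f hf _ (hχ f hf)

/-- **Replacement.** -/
theorem replace {X A : AddSubgroup (G →+ T)} (hX : P1 X) (hsep : Sep X) (hAX : A ≤ X)
    (hA : (A : Set (G →+ T)).Countable) (B : AddSubgroup (G ⧸ ann A →+ T)) (hB : P1 B) (hBsep : Sep B)
    (θ : X →+ (G ⧸ ann A →+ T) ⧸ B)
    (hθ : ∀ (χ : X) (a : G ⧸ ann A →+ T), infl (ann A) a = χ.1 → θ χ = -(a : (G ⧸ ann A →+ T) ⧸ B)) :
    ∃ X' : AddSubgroup (G →+ T), P1 X' ∧ Sep X' ∧ ∀ b ∈ B, infl (ann A) b ∈ X' := by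
  classical
  let Z := ann A
  let X' : AddSubgroup (G →+ T) :=
    { carrier := {f | ∃ χ : X, ∃ η : G ⧸ Z →+ T, (η : (G ⧸ Z →+ T) ⧸ B) = θ χ ∧ f = χ.1 + infl Z η}
      zero_mem' := ⟨0, 0, by rw [map_zero]; rfl, by rw [map_zero, AddSubgroup.coe_zero, add_zero]⟩
      add_mem' := by
        rintro _ _ ⟨χ, η, h1, rfl⟩ ⟨χ', η', h1', rfl⟩
        refine ⟨χ + χ', η + η', ?_, ?_⟩
        · rw [map_add, ← h1, ← h1']; rfl
        · rw [map_add, AddSubgroup.coe_add]; abel
      neg_mem' := by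
        rintro _ ⟨χ, η, h1, rfl⟩
        refine ⟨-χ, -η, ?_, ?_⟩
        · rw [map_neg, ← h1]; rfl
        · rw [map_neg, AddSubgroup.coe_neg]; abel }
  have hmem : ∀ f, f ∈ X' ↔ ∃ χ : X, ∃ η : G ⧸ Z →+ T,
    (η : (G ⧸ Z →+ T) ⧸ B) = θ χ ∧ f = χ.1 + infl Z η := fun f => Iff.rfl
  have hinflZ : ∀ (η : G ⧸ Z →+ T) (z : G), z ∈ Z → infl Z η z = 0 := by
    intro η z hz
    rw [infl_apply, (QuotientAddGroup.eq_zero_iff z).2 hz, map_zero]
  have hBX : ∀ b ∈ B, infl Z b ∈ X' := by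
    intro b hb
    refine ⟨0, b, ?_, ?_⟩
    · rw [map_zero]
      exact (QuotientAddGroup.eq_zero_iff b).2 hb
    · rw [AddSubgroup.coe_zero, zero_add]
  -- elements of `X'` which vanish on `Z`
  have hXZ : ∀ f ∈ X', (∀ z ∈ Z, f z = 0) → ∃ b ∈ B, infl Z b = f := by
    rintro _ ⟨χ, η, h1, rfl⟩ h2
    have h3 : ∀ z ∈ Z, χ.1 z = 0 := by
      intro z hz
      have := h2 z hz
      rwa [AddMonoidHom.add_apply, hinflZ η z hz, add_zero] at this
    obtain ⟨a, ha⟩ := exists_infl Z χ.1 h3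
    have h4 := hθ χ a ha
    refine ⟨a + η, ?_, by rw [map_add, ha]⟩
    rw [← QuotientAddGroup.eq_zero_iff]
    change (a : (G ⧸ Z →+ T) ⧸ B) + (η : (G ⧸ Z →+ T) ⧸ B) = 0
    rw [h1, h4]
    exact add_neg_cancel _
  refine ⟨X', ?_, ?_, hBX⟩
  · intro A' hA'X hA' s
    let R := AddSubgroup.closure A'
    have hR : (R : Set (G →+ T)).Countable := countable_closure hA'
    have hRX' : R ≤ X' := (AddSubgroup.closure_le X').2 hA'X
    -- the part of `R` in `B`
    obtain ⟨q, hq⟩ := hB {b | b ∈ B ∧ infl Z b ∈ R} (fun b hb => hb.1)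
      ((hR.preimage (infl_injective Z)).mono fun b hb => hb.2) (by
        exact s.comp (infl Z))
    obtain ⟨g0, rfl⟩ := QuotientAddGroup.mk_surjective q
    let σ : (G →+ T) →+ T := s - AddMonoidHom.eval g0
    have hσ : ∀ f, σ f = s f - f g0 := fun f => rfl
    obtain ⟨z, hz, hzf⟩ := exists_ann hX hAX hA R hR (fun f hf => by
      obtain ⟨χ, η, h1, h2⟩ := hRX' hf
      refine ⟨χ.1, χ.2, fun z hz => ?_⟩
      rw [h2, AddMonoidHom.add_apply, hinflZ η z hz, add_zero]) σ (fun f hf h0 => by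
      obtain ⟨b, hb, rfl⟩ := hXZ f (hRX' hf) h0
      rw [hσ, infl_apply, hq b ⟨hb, hf⟩]
      exact sub_self _)
    refine ⟨g0 + z, fun f hf => ?_⟩
    rw [map_add, hzf f (AddSubgroup.subset_closure hf), hσ]
    abel
  · intro g hg
    have hgZ : g ∈ Z := by
      rw [← QuotientAddGroup.eq_zero_iff]
      apply hBsep
      intro b hb
      exact hg _ (hBX b hb)
    apply hsep
    intro χ hχ
    obtain ⟨η, hη⟩ := QuotientAddGroup.mk_surjective (θ ⟨χ, hχ⟩)
    have h1 := hg (χ + infl Z η) ⟨⟨χ, hχ⟩, η, hη, rfl⟩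
    rwa [AddMonoidHom.add_apply, hinflZ η g hgZ, add_zero] at h1

end Pool.Agent.R821.Ps
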