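import Pool.Agent.R821.PsC
import Pool.Agent.R821.Bohr

/-!
# Discontinuous endomorphisms of the circle with prescribed approximate values on fast sequences,
and characters of unbounded groups
-/

set_option autoImplicit false

open Filter Topology

namespace Pool.Agent.R821.Ps

open Pool.Agent.R821 Pool.Agent.R821.Bp

universe u v

theorem norm_coe_le' (r : ℝ) (z : ℤ) : ‖(r : T)‖ ≤ |r - z| := by
  rw [UnitAddCircle.norm_eq]
  exact round_le r z

/-- a real interval on which all `r * t k` are close to `u k` modulo one -/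
theorem lac_aux (n : ℕ) : ∀ (t ε u : ℕ → ℝ), (∀ k, 0 < t k) → (∀ k, 0 < ε k ∧ ε k ≤ 1 / 2) →
    (∀ k, t (k + 1) ≤ ε (k + 1) * t k) →
    ∃ α : ℝ, ∀ r, α ≤ r → r ≤ α + 2 * ε 0 / t 0 → ∀ k < n, ‖((r * t k - u k : ℝ) : T)‖ ≤ ε k := by
  induction n with
  | zero => exact fun t ε u _ _ _ => ⟨0, fun r _ _ k hk => absurd hk (Nat.not_lt_zero k)⟩
  | succ n ih =>
    intro t ε u ht hε hte
    obtain ⟨α', hα'⟩ := ih (fun k => t (k + 1)) (fun k => ε (k + 1)) (fun k => u (k + 1))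
      (fun k => ht _) (fun k => hε _) (fun k => hte _)
    -- the first `α ≥ α'` with `α * t 0 = u 0 - ε 0` modulo one
    let z : ℤ := ⌈α' * t 0 - (u 0 - ε 0)⌉
    let α : ℝ := (u 0 - ε 0 + z) / t 0
    have h0 := ht 0
    have hα1 : α * t 0 = u 0 - ε 0 + z := div_mul_cancel₀ _ h0.ne'
    have hα2 : α' ≤ α := by
      rw [le_div_iff₀ h0]
      have := Int.le_ceil (α' * t 0 - (u 0 - ε 0))
      linarith
    have hα3 : α ≤ α' + 1 / t 0 := by
      rw [div_le_iff₀ h0, add_mul, one_div_mul_cancel h0.ne']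
      have := (Int.ceil_lt_add_one (α' * t 0 - (u 0 - ε 0))).le
      linarith
    refine ⟨α, fun r hr1 hr2 k hk => ?_⟩
    have hr3 : r * t 0 ≤ α * t 0 + 2 * ε 0 := by
      have h1 := mul_le_mul_of_nonneg_right hr2 h0.le
      have h5 : 2 * ε 0 / t 0 * t 0 = 2 * ε 0 := div_mul_cancel₀ _ h0.ne'
      rw [add_mul, h5] at h1
      exact h1
    have hr4 : α * t 0 ≤ r * t 0 := mul_le_mul_of_nonneg_right hr1 h0.le
    rcases k with _ | k
    · refine (norm_coe_le' _ z).trans ?_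
      rw [abs_le]
      constructor <;> linarith
    · refine hα' r (hα2.trans hr1) ?_ k (Nat.lt_of_succ_lt_succ hk)
      have h1 : 2 / t 0 ≤ 2 * ε 1 / t 1 := by
        rw [div_le_div_iff₀ h0 (ht 1)]
        have := hte 0
        have h2 : t (0 + 1) = t 1 := rfl
        have h3 : ε (0 + 1) = ε 1 := rfl
        rw [h2, h3] at this
        nlinarith
      have h2 : 2 * ε 0 / t 0 ≤ 1 / t 0 := by
        apply div_le_div_of_nonneg_right _ h0.le
        linarith [(hε 0).2]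
      have h3 : 1 / t 0 + 1 / t 0 = 2 / t 0 := by ring
      change r ≤ α' + 2 * ε (0 + 1) / t (0 + 1)
      have h4 : 2 * ε (0 + 1) / t (0 + 1) = 2 * ε 1 / t 1 := rfl
      rw [h4]
      linarith

/-- **Prescribed approximate values.** For a sequence `t k` of real numbers which decreases fast to zero
there is an endomorphism of the (discrete) circle group which takes approximately the values `u k` at
`t k`. -/
theorem lac (t ε u : ℕ → ℝ) (ht : ∀ k, 0 < t k) (hε : ∀ k, 0 < ε k ∧ ε k ≤ 1 / 2) (h0 : t 0 ≤ ε 0)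
    (hte : ∀ k, t (k + 1) ≤ ε (k + 1) * t k) :
    ∃ h : T →+ T, ∀ k, ‖h (t k : T) - (u k : T)‖ ≤ ε k := by
  have h1 : ∀ n : ℕ, ∃ m : ℤ, ∀ k < n, ‖m • (t k : T) - (u k : T)‖ ≤ ε k := by
    intro n
    obtain ⟨α, hα⟩ := lac_aux n t ε u ht hε hte
    refine ⟨⌈α⌉, fun k hk => ?_⟩
    have h2 : 2 ≤ 2 * ε 0 / t 0 := by
      rw [le_div_iff₀ (ht 0)]
      linarith
    have h3 := hα ⌈α⌉ (Int.le_ceil α) (by
      have := (Int.ceil_lt_add_one α).le
      linarith) k hk
    rw [AddCircle.coe_sub] at h3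
    have h4 : ((((⌈α⌉ : ℤ) : ℝ) * t k : ℝ) : T) = ⌈α⌉ • (t k : T) := by
      rw [← AddCircle.coe_zsmul, zsmul_eq_mul]
    rwa [h4] at h3
  choose m hm using h1
  obtain ⟨h, hh⟩ := exists_lim (fun n => (AddMonoidHom.id T : T →+ T).comp
    (zsmulAddGroupHom (m n) : T →+ T)) (hyperfilter ℕ)
  refine ⟨h, fun k => ?_⟩
  have h2 : Tendsto (fun n => ‖m n • (t k : T) - (u k : T)‖) (hyperfilter ℕ)
      (𝓝 ‖h (t k : T) - (u k : T)‖) := ((hh (t k : T)).sub_const _).norm
  refine le_of_tendsto h2 ?_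
  have h3 : ∀ᶠ n in (atTop : Filter ℕ), k < n := eventually_gt_atTop k
  rw [← Nat.cofinite_eq_atTop] at h3
  filter_upwards [h3.filter_mono hyperfilter_le_cofinite] with n hn
  exact hm n k hn

/-- an unbounded abelian group has a character with infinite image -/
theorem exists_unbounded_char {Y : Type u} [AddCommGroup Y]
    (hY : ∀ n : ℕ, n ≠ 0 → ∃ y : Y, n • y ≠ 0) :
    ∃ f : Y →+ T, ∀ n : ℕ, n ≠ 0 → ∃ y, n • f y ≠ 0 := by
  classical
  by_contra hcon
  push Not at hcon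
  let K := homSub Y
  have hcomp : CompactSpace K := isCompact_iff_compactSpace.1 (isClosed_homSub Y).isCompact
  let C : ℕ → AddSubgroup K := fun n =>
    { carrier := {h | ∀ y, (n + 1) • (h : Y → T) y = 0}
      zero_mem' := fun y => by simp
      add_mem' := by
        intro f g hf hg y
        change (n + 1) • ((f : Y → T) y + (g : Y → T) y) = 0
        rw [smul_add, hf y, hg y, add_zero]
      neg_mem' := by
        intro f hf y
        change (n + 1) • (-((f : Y → T) y)) = 0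
        rw [smul_neg, hf y, neg_zero] }
  have hclosed : ∀ n, IsClosed (C n : Set K) := by
    intro n
    have h1 : (C n : Set K) = ⋂ y, {h : K | (n + 1) • (h : Y → T) y = 0} := by
      ext h
      simp only [Set.mem_iInter]
      rfl
    rw [h1]
    refine isClosed_iInter fun y => isClosed_eq ?_ continuous_const
    exact (continuous_nsmul (n + 1)).comp ((continuous_apply y).comp continuous_subtype_val)
  have hcover : ⋃ n, (C n : Set K) = Set.univ := by
    refine Set.eq_univ_of_forall fun h => ?_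
    let f : Y →+ T := AddMonoidHom.mk' (h : Y → T) h.2
    obtain ⟨n, hn, hy⟩ := hcon f
    refine Set.mem_iUnion.2 ⟨n - 1, fun y => ?_⟩
    rw [Nat.sub_add_cancel (Nat.pos_of_ne_zero hn)]
    exact hy y
  obtain ⟨n, hn⟩ := nonempty_interior_of_iUnion_of_closed hclosed hcover
  have hopen : IsOpen (C n : Set K) := by
    obtain ⟨x, hx⟩ := hn
    exact AddSubgroup.isOpen_of_mem_nhds (C n) (mem_interior_iff_mem_nhds.1 hx)
  have hfin : Finite (K ⧸ C n) := AddSubgroup.quotient_finite_of_isOpen (C n) hopen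
  let m := Nat.card (K ⧸ C n)
  have hm : m ≠ 0 := Nat.card_pos.ne'
  have hmK : ∀ (h : K) (y : Y), ((n + 1) * m) • (h : Y → T) y = 0 := by
    intro h y
    have h1 : m • h ∈ C n := by
      rw [← QuotientAddGroup.eq_zero_iff]
      exact card_nsmul_eq_zero' (G := K ⧸ C n) (x := (h : K ⧸ C n))
    have h2 := h1 y
    rw [mul_smul]
    exact h2
  obtain ⟨y, hy⟩ := hY ((n + 1) * m) (mul_ne_zero (Nat.succ_ne_zero n) hm)
  obtain ⟨k, hk⟩ := exists_char_ne_zero _ hy
  apply hk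
  rw [map_nsmul]
  exact hmK ⟨k, fun x y => map_add k x y⟩ y

/-- such a character takes arbitrarily small nonzero values -/
theorem exists_small {Y : Type u} [AddCommGroup Y] (f : Y →+ T)
    (hf : ∀ n : ℕ, n ≠ 0 → ∃ y, n • f y ≠ 0) (ε : ℝ) (hε : 0 < ε) :
    ∃ (y : Y) (t : ℝ), 0 < t ∧ t ≤ ε ∧ f y = (t : T) := by
  obtain ⟨N, hN⟩ := exists_nat_one_div_lt hε
  obtain ⟨y, hy⟩ := hf (N + 1).factorial (Nat.factorial_ne_zero _)
  obtain ⟨j, hj, hjn⟩ := AddCircle.exists_norm_nsmul_le (T := (1 : ℝ)) (f y) (Nat.succ_pos N)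
  have hj0 : j • f y ≠ 0 := by
    intro h0
    apply hy
    obtain ⟨c, hc⟩ := Nat.dvd_factorial hj.1 hj.2
    rw [hc, mul_comm, mul_smul, h0, smul_zero]
  obtain ⟨r, hr1, hr2, -⟩ := exists_real (j • f y)
  have hr3 : |r| ≤ ε := by
    rw [hr2]
    refine hjn.trans (le_trans ?_ hN.le)
    push_cast
    apply one_div_le_one_div_of_le (by positivity)
    linarith
  have hr0 : r ≠ 0 := by
    rintro rfl
    apply hj0
    rw [← hr1]
    rfl
  rcases lt_or_gt_of_ne hr0 with h | h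
  · refine ⟨-(j • y), -r, neg_pos.2 h, (neg_le_abs r).trans hr3, ?_⟩
    rw [map_neg, map_nsmul, ← hr1, AddCircle.coe_neg]
  · exact ⟨j • y, r, h, (le_abs_self r).trans hr3, by rw [map_nsmul, ← hr1]⟩

/-- **Many characters whose differences are of infinite order on a countable set.** -/
theorem exists_many {Y : Type u} [AddCommGroup Y] (hY : ∀ n : ℕ, n ≠ 0 → ∃ y : Y, n • y ≠ 0) :
    ∃ (a : ℕ → Y) (s : (ℕ → ZMod 2) → (Y →+ T)), ∀ x y : ℕ → ZMod 2, x ≠ y → ∀ n : ℕ, n ≠ 0 →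
      ∃ k, n • (s x (a k) - s y (a k)) ≠ 0 := by
  classical
  obtain ⟨f, hf⟩ := exists_unbounded_char hY
  let ε : ℕ → ℝ := fun k => 1 / (8 * ((k : ℝ) + 1))
  have hε0 : ∀ k, 0 < ε k := fun k => by positivity
  have hε1 : ∀ k, ε k ≤ 1 / 2 := fun k => by
    apply one_div_le_one_div_of_le (by norm_num)
    have : (0 : ℝ) ≤ k := Nat.cast_nonneg k
    linarith
  choose y t ht0 ht1 hft using fun (δ : {δ : ℝ // 0 < δ}) => exists_small f hf δ.1 δ.2
  -- the fast sequence
  let step : ℕ → {δ : ℝ // 0 < δ} → {δ : ℝ // 0 < δ} := fun k δ => ⟨ε (k + 1) * t δ, mul_pos (hε0 _) (ht0 δ)⟩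
  let δ : ℕ → {δ : ℝ // 0 < δ} := fun k => Nat.rec ⟨ε 0, hε0 0⟩ step k
  have hδ : ∀ k, (δ (k + 1) : ℝ) = ε (k + 1) * t (δ k) := fun k => rfl
  have hlac : ∀ u : ℕ → ℝ, ∃ h : T →+ T, ∀ k, ‖h (t (δ k) : T) - (u k : T)‖ ≤ ε k := by
    intro u
    refine lac (fun k => t (δ k)) ε u (fun k => ht0 _) (fun k => ⟨hε0 k, hε1 k⟩) (ht1 (δ 0)) ?_
    intro k
    have := ht1 (δ (k + 1))
    rwa [hδ] at this
  choose h hh using hlac
  let u : (ℕ → ZMod 2) → ℕ → ℝ := fun x k =>
    if x k.unpair.2 = 0 then 0 else 1 / (2 * ((k.unpair.1 : ℝ) + 1))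
  refine ⟨fun k => y (δ k), fun x => (h (u x)).comp f, fun x x' hne n hn => ?_⟩
  obtain ⟨m, hm⟩ := Function.ne_iff.1 hne
  refine ⟨Nat.pair (n - 1) m, fun h0 => ?_⟩
  set k := Nat.pair (n - 1) m with hk
  have hkn : (n : ℝ) ≤ (k : ℝ) + 1 := by
    have h1 : n - 1 ≤ k := Nat.left_le_pair _ _
    have h2 : n ≤ k + 1 := by omega
    exact_mod_cast h2
  rw [AddMonoidHom.comp_apply, AddMonoidHom.comp_apply, hft] at h0
  have hk1 : k.unpair.1 = n - 1 := by rw [hk, Nat.unpair_pair]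
  have hk2 : k.unpair.2 = m := by rw [hk, Nat.unpair_pair]
  have hn1 : ((n - 1 : ℕ) : ℝ) + 1 = n := by
    have : n - 1 + 1 = n := Nat.sub_add_cancel (Nat.pos_of_ne_zero hn)
    exact_mod_cast this
  have hn0 : (0 : ℝ) < n := by exact_mod_cast Nat.pos_of_ne_zero hn
  -- the difference of the targets
  have hu : ‖((n : ℝ) * (u x k - u x' k) : ℝ) - (0 : ℝ)‖ = 1 / 2 := by
    simp only [u, hk1, hk2, hn1]
    rcases zmod_two (x m) with h1 | h1 <;> rcases zmod_two (x' m) with h2 | h2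
    · exact absurd (h1.trans h2.symm) hm
    · rw [if_pos h1, if_neg (by rw [h2]; exact one_ne_zero)]
      have : (n : ℝ) * (0 - 1 / (2 * n)) - 0 = -(1 / 2) := by field_simp; ring
      rw [this, norm_neg]
      norm_num
    · rw [if_pos h2, if_neg (by rw [h1]; exact one_ne_zero)]
      have : (n : ℝ) * (1 / (2 * n) - 0) - 0 = 1 / 2 := by field_simp; ring
      rw [this]
      norm_num
    · exact absurd (h1.trans h2.symm) hm
  rw [sub_zero] at hu
  have hu' : ‖(((n : ℝ) * (u x k - u x' k) : ℝ) : T)‖ = 1 / 2 := by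
    rw [norm_coe_eq (by rw [← Real.norm_eq_abs, hu]), ← Real.norm_eq_abs, hu]
  have h1 : (((n : ℝ) * (u x k - u x' k) : ℝ) : T) = n • ((u x k : T) - (u x' k : T)) := by
    rw [← AddCircle.coe_sub, ← AddCircle.coe_nsmul, nsmul_eq_mul]
  rw [h1] at hu'
  have h2 : n • ((u x k : T) - (u x' k : T)) =
      n • ((h (u x') (t (δ k) : T) - (u x' k : T)) - (h (u x) (t (δ k) : T) - (u x k : T))) +
      n • (h (u x) (t (δ k) : T) - h (u x') (t (δ k) : T)) := by
    rw [← smul_add]; congr 1; abel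
  rw [h0, add_zero] at h2
  rw [h2] at hu'
  have h3 : ‖n • ((h (u x') (t (δ k) : T) - (u x' k : T)) - (h (u x) (t (δ k) : T) - (u x k : T)))‖ ≤
      n * (ε k + ε k) := by
    refine (norm_nsmul_le).trans ?_
    apply mul_le_mul_of_nonneg_left _ hn0.le
    exact (norm_sub_le _ _).trans (add_le_add (hh _ _) (hh _ _))
  have h4 : (n : ℝ) * (ε k + ε k) ≤ 1 / 4 := by
    have h5 : ε k = 1 / (8 * ((k : ℝ) + 1)) := rfl
    have h6 : (0 : ℝ) < (k : ℝ) + 1 := by positivity
    rw [h5, ← two_mul, ← mul_assoc, mul_one_div, div_le_div_iff₀ (by positivity) (by norm_num)]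
    linarith
  linarith

end Pool.Agent.R821.Ps
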