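import Pool.Agent.R821.PsD

/-!
# Large families of characters of a group of cardinality continuum
-/

set_option autoImplicit false

open Filter Topology Cardinal

namespace Pool.Agent.R821.Ps

open Pool.Agent.R821 Pool.Agent.R821.Bp

universe u v

/-- every countable pattern on `Z` with values in `V` is realised by a member of the family `δ` -/
def PatV {X Z V : Type*} (δ : X → Z → V) : Prop :=
  ∀ S : Set Z, S.Countable → ∀ s : Z → V, ∃ x, ∀ z ∈ S, δ x z = s z

theorem PatV.comp {X Z Z' V : Type*} [Nonempty V] {δ : X → Z → V} (h : PatV δ) (f : Z' → Z)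
    (hf : Function.Injective f) : PatV fun x z => δ x (f z) := by
  classical
  intro S hS s
  obtain ⟨x, hx⟩ := h (f '' S) (hS.image f)
    (fun z => if hz : ∃ z' : Z', f z' = z then s hz.choose else Classical.arbitrary V)
  refine ⟨x, fun z hz => ?_⟩
  beta_reduce
  rw [hx (f z) ⟨z, hz, rfl⟩]
  have hex : ∃ z' : Z', f z' = f z := ⟨z, rfl⟩
  rw [dif_pos hex, hf hex.choose_spec]

/-- index set for the patterns -/
abbrev CT : Type := (ℕ → (ℕ → ZMod 2)) × (ℕ → Option ((ℕ → ZMod 2) × T))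

open Classical in
theorem pat_dualT : PatV fun (c : CT) (x : (ℕ → ZMod 2) → ZMod 2) =>
      if h : ∃ v : T, ∃ n, c.2 n = some (fun k => x (c.1 k), v) then h.choose else 0 := by
  intro S hS s
  rcases S.eq_empty_or_nonempty with rfl | hne
  · exact ⟨(fun _ => 0, fun _ => none), fun z hz => absurd hz (Set.notMem_empty z)⟩
  obtain ⟨e, rfl⟩ := hS.exists_eq_range hne
  have hsep : ∀ i j, ∃ l : ℕ → ZMod 2, e i ≠ e j → e i l ≠ e j l := by
    intro i j
    by_cases h : e i = e j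
    · exact ⟨0, fun h' => absurd h h'⟩
    · obtain ⟨l, hl⟩ := Function.ne_iff.1 h
      exact ⟨l, fun _ => hl⟩
  choose l hl using hsep
  let c1 : ℕ → (ℕ → ZMod 2) := fun k => l k.unpair.1 k.unpair.2
  have hc1 : ∀ n m, (fun k => e n (c1 k)) = (fun k => e m (c1 k)) → e n = e m := by
    intro n m h
    by_contra hne
    have h5 := congrFun h (Nat.pair n m)
    simp only [c1, Nat.unpair_pair] at h5
    exact hl n m hne h5
  refine ⟨(c1, fun n => some (fun k => e n (c1 k), s (e n))), ?_⟩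
  rintro _ ⟨m, rfl⟩
  dsimp only
  have hex : ∃ v : T, ∃ n, (some (fun k => e n (c1 k), s (e n)) : Option ((ℕ → ZMod 2) × T)) =
      some (fun k => e m (c1 k), v) := ⟨s (e m), m, rfl⟩
  rw [dif_pos hex]
  obtain ⟨n, hn⟩ := hex.choose_spec
  have h2 := Option.some.inj hn
  have h3 := (Prod.ext_iff.1 h2).1
  have h4 := (Prod.ext_iff.1 h2).2
  dsimp only at h3 h4
  rw [← h4, hc1 n m h3]

theorem mk_T_le : #T ≤ 𝔠 := by
  rw [← Cardinal.mk_real]
  exact Cardinal.mk_le_of_surjective (f := fun r : ℝ => (r : T)) QuotientAddGroup.mk_surjective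

/-- index set for the independent family -/
abbrev GT : Type := CT × (ℕ → (ℕ → ZMod 2))

theorem mk_GT : #GT = 𝔠 := by
  have hT := mk_T_le
  have h1 : #(ℕ → (ℕ → ZMod 2)) = 𝔠 := by simp
  have h2 : #((ℕ → ZMod 2) × T) ≤ 𝔠 := by
    rw [Cardinal.mk_prod, Cardinal.lift_id, Cardinal.lift_id, mk_seq]
    calc 𝔠 * #T ≤ 𝔠 * 𝔠 := mul_le_mul_right hT 𝔠
      _ = 𝔠 := Cardinal.continuum_mul_self
  have h3 : #(Option ((ℕ → ZMod 2) × T)) ≤ 𝔠 := by
    rw [Cardinal.mk_option]
    exact Cardinal.add_le_of_le Cardinal.aleph0_le_continuum h2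
      ((Cardinal.one_le_aleph0).trans Cardinal.aleph0_le_continuum)
  have h4 : #(ℕ → Option ((ℕ → ZMod 2) × T)) ≤ 𝔠 := by
    rw [← Cardinal.power_def, Cardinal.mk_nat]
    calc #(Option ((ℕ → ZMod 2) × T)) ^ ℵ₀ ≤ 𝔠 ^ ℵ₀ := Cardinal.power_le_power_right h3
      _ = 𝔠 := Cardinal.continuum_power_aleph0
  have h5 : #CT ≤ 𝔠 := by
    rw [Cardinal.mk_prod, Cardinal.lift_id, Cardinal.lift_id, h1]
    calc 𝔠 * #(ℕ → Option ((ℕ → ZMod 2) × T)) ≤ 𝔠 * 𝔠 := mul_le_mul_right h4 𝔠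
      _ = 𝔠 := Cardinal.continuum_mul_self
  apply le_antisymm
  · rw [Cardinal.mk_prod, Cardinal.lift_id, Cardinal.lift_id, h1]
    calc #CT * 𝔠 ≤ 𝔠 * 𝔠 := mul_le_mul_left h5 𝔠
      _ = 𝔠 := Cardinal.continuum_mul_self
  · rw [← h1]
    exact Cardinal.mk_le_of_surjective (f := fun g : GT => g.2) (fun y => ⟨(Classical.arbitrary _, y), rfl⟩)

/-- the number of characters of a group of size at most continuum -/
theorem exists_code {Q : Type u} [AddCommGroup Q] (hQ : #Q ≤ 𝔠) :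
    ∃ j : (Q →+ T) × (ℕ → ZMod 2) → ((ℕ → ZMod 2) → ZMod 2), Function.Injective j := by
  have h1 : #(Q →+ T) ≤ #(Q → T) := Cardinal.mk_le_of_injective (f := fun φ : Q →+ T => (φ : Q → T))
    DFunLike.coe_injective
  have h2 : #(Q → T) ≤ 2 ^ (𝔠 : Cardinal.{u}) := by
    rw [← Cardinal.lift_uzero #(Q → T), Cardinal.mk_arrow, Cardinal.lift_uzero, Cardinal.lift_uzero]
    have h3 : Cardinal.lift.{u} #T ≤ 𝔠 := by
      rw [← Cardinal.lift_continuum.{u, 0}]
      exact Cardinal.lift_le.2 mk_T_le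
    calc Cardinal.lift.{u} #T ^ #Q ≤ 𝔠 ^ #Q := Cardinal.power_le_power_right h3
      _ ≤ 𝔠 ^ (𝔠 : Cardinal.{u}) := Cardinal.power_le_power_left Cardinal.continuum_ne_zero hQ
      _ = 2 ^ (𝔠 : Cardinal.{u}) := Cardinal.power_self_eq Cardinal.aleph0_le_continuum
  have h4 : #((Q →+ T) × (ℕ → ZMod 2)) ≤ 2 ^ (𝔠 : Cardinal.{u}) := by
    rw [Cardinal.mk_prod, mk_seq, Cardinal.lift_continuum, Cardinal.lift_uzero]
    calc #(Q →+ T) * 𝔠 ≤ 2 ^ (𝔠 : Cardinal.{u}) * 2 ^ (𝔠 : Cardinal.{u}) :=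
          mul_le_mul' (h1.trans h2) (Cardinal.cantor _).le
      _ = 2 ^ (𝔠 : Cardinal.{u}) := Cardinal.mul_eq_self
          (Cardinal.aleph0_le_continuum.trans (Cardinal.cantor _).le)
  have h5 : #((ℕ → ZMod 2) → ZMod 2) = 2 ^ 𝔠 := by
    rw [← Cardinal.power_def, mk_seq]
    simp
  have h6 : Cardinal.lift.{0} #((Q →+ T) × (ℕ → ZMod 2)) ≤
      Cardinal.lift.{u} #((ℕ → ZMod 2) → ZMod 2) := by
    rw [h5, Cardinal.lift_power, Cardinal.lift_continuum, Cardinal.lift_uzero]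
    simpa using h4
  obtain ⟨j⟩ := Cardinal.lift_mk_le'.1 h6
  exact ⟨j, j.injective⟩

/-- a maximal independent family indexed by `GT` -/
theorem exists_independent {Q : Type u} [AddCommGroup Q] (hQ : #Q ≤ 𝔠)
    (q : (ℕ → ZMod 2) → Q) (hq : ∀ x y, x ≠ y → ∀ n : ℕ, n ≠ 0 → n • (q x - q y) ≠ 0) :
    ∃ e : GT → Q, LinearIndependent ℤ e ∧
      ∀ x : Q, ∃ a : ℤ, a ≠ 0 ∧ a • x ∈ Submodule.span ℤ (Set.range e) := by
  classical
  obtain ⟨s, hs1, hs2⟩ := exists_maximal_linearIndepOn ℤ (id : Q → Q)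
  rw [Set.image_id] at hs2
  have hs3 : ∀ x : Q, ∃ a : ℤ, a ≠ 0 ∧ a • x ∈ Submodule.span ℤ s := by
    intro x
    by_cases hx : x ∈ s
    · exact ⟨1, one_ne_zero, by rw [one_smul]; exact Submodule.subset_span hx⟩
    · exact hs2 x hx
  have hs4 : ∀ x : Q, ∃ a : ℤ, a ≠ 0 ∧ ∃ c : s →₀ ℤ, Finsupp.linearCombination ℤ (Subtype.val : s → Q) c = a • x := by
    intro x
    obtain ⟨a, ha, hax⟩ := hs3 x
    refine ⟨a, ha, ?_⟩
    rw [← Subtype.range_coe (s := s), ← Finsupp.range_linearCombination] at hax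
    exact hax
  choose a ha c hc using hs4
  have hinj : Function.Injective fun x : ℕ → ZMod 2 => (a (q x), c (q x)) := by
    intro x y hxy
    by_contra hne
    have h1 : a (q x) = a (q y) := (Prod.ext_iff.1 hxy).1
    have h2 : c (q x) = c (q y) := (Prod.ext_iff.1 hxy).2
    have h3 : a (q x) • (q x - q y) = 0 := by
      rw [smul_sub, sub_eq_zero, ← hc, h2, hc, h1]
    have h4 : (a (q x)).natAbs • (q x - q y) = 0 := by
      rcases Int.natAbs_eq (a (q x)) with h5 | h5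
      · rw [h5] at h3
        rw [natCast_zsmul] at h3
        exact h3
      · rw [h5, neg_smul, neg_eq_zero, natCast_zsmul] at h3
        exact h3
    exact hq x y hne _ (Int.natAbs_ne_zero.2 (ha _)) h4
  have hsQ : #s ≤ 𝔠 := (Cardinal.mk_set_le s).trans hQ
  have hs𝔠 : 𝔠 ≤ #s := by
    by_contra hlt
    rw [not_le] at hlt
    have h1 : #(ℤ × (s →₀ ℤ)) < 𝔠 := by
      rw [Cardinal.mk_prod, Cardinal.mk_int, Cardinal.lift_aleph0, Cardinal.lift_uzero]
      refine Cardinal.mul_lt_of_lt Cardinal.aleph0_le_continuum Cardinal.aleph0_lt_continuum ?_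
      rcases isEmpty_or_nonempty s with h0 | h0
      · have : Unique (s →₀ ℤ) := Finsupp.uniqueOfLeft
        rw [Cardinal.mk_eq_one]
        exact Cardinal.one_lt_aleph0.trans Cardinal.aleph0_lt_continuum
      · rw [Cardinal.mk_finsupp_lift_of_infinite', Cardinal.lift_uzero, Cardinal.mk_int, Cardinal.lift_aleph0]
        exact max_lt hlt Cardinal.aleph0_lt_continuum
    have h2 : Cardinal.lift.{u} #(ℕ → ZMod 2) ≤ Cardinal.lift.{0} #(ℤ × (s →₀ ℤ)) :=
      Cardinal.lift_mk_le'.2 ⟨⟨_, hinj⟩⟩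
    rw [mk_seq, Cardinal.lift_continuum, Cardinal.lift_uzero] at h2
    exact absurd h1 (not_lt.2 h2)
  have hcard : Cardinal.lift.{u} #GT = Cardinal.lift.{0} #s := by
    rw [mk_GT, Cardinal.lift_continuum, Cardinal.lift_uzero]
    exact le_antisymm hs𝔠 hsQ
  obtain ⟨e0⟩ := Cardinal.lift_mk_eq'.1 hcard
  refine ⟨fun γ => (e0 γ : Q), ?_, ?_⟩
  · have h1 : LinearIndependent ℤ (fun x : s => (x : Q)) := hs1
    exact h1.comp e0 e0.injective
  · intro x
    obtain ⟨a, ha, hax⟩ := hs3 x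
    refine ⟨a, ha, ?_⟩
    have : Set.range (fun γ => (e0 γ : Q)) = s := by
      rw [show (fun γ => (e0 γ : Q)) = Subtype.val ∘ e0 from rfl, Set.range_comp, e0.surjective.range_eq,
        Set.image_univ, Subtype.range_coe]
    rw [this]
    exact hax

/-- **The family of characters, unbounded case.** -/
theorem exists_chars {Q : Type u} [AddCommGroup Q] (hQ : #Q ≤ 𝔠)
    (q : (ℕ → ZMod 2) → Q) (hq : ∀ x y, x ≠ y → ∀ n : ℕ, n ≠ 0 → n • (q x - q y) ≠ 0) :
    ∃ (I : Type u) (_ : Nonempty I) (b : I → (Q →+ T)),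
      (∀ C : Set I, C.Countable → ∀ s : I → T, ∃ x, ∀ i ∈ C, b i x = s i) ∧
      (∀ (f : Q →+ T) (S : Set Q), S.Countable → ∃ i, ∀ x ∈ S, b i x = f x) ∧
      (∀ f : Q →+ T, ∃ i, ∀ x, (∃ n : ℕ, n ≠ 0 ∧ n • x = 0) → b i x = f x) := by
  classical
  obtain ⟨j, hj⟩ := exists_code hQ
  obtain ⟨e, he1, he2⟩ := exists_independent hQ q hq
  let I := (Q →+ T) × (ℕ → ZMod 2)
  obtain ⟨d, hd⟩ : ∃ d : CT → I → T, PatV d := ⟨_, pat_dualT.comp j hj⟩
  -- the large subgroups
  let N : (ℕ → ZMod 2) → Submodule ℤ Q := fun w => Submodule.span ℤ (e '' {γ | w ∉ Set.range γ.2})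
  let L : (ℕ → ZMod 2) → AddSubgroup Q := fun w =>
    { carrier := {x | ∃ n : ℤ, n ≠ 0 ∧ n • x ∈ N w}
      zero_mem' := ⟨1, one_ne_zero, by rw [smul_zero]; exact (N w).zero_mem⟩
      add_mem' := by
        rintro x y ⟨n, hn, hx⟩ ⟨m, hm, hy⟩
        refine ⟨n * m, mul_ne_zero hn hm, ?_⟩
        rw [smul_add]
        refine (N w).add_mem ?_ ?_
        · rw [mul_comm, mul_smul]; exact (N w).smul_mem _ hx
        · rw [mul_smul]; exact (N w).smul_mem _ hy
      neg_mem' := by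
        rintro x ⟨n, hn, hx⟩
        refine ⟨n, hn, ?_⟩
        rw [smul_neg]
        exact (N w).neg_mem hx }
  have key : ∀ i : I, ∃ b : Q →+ T, (∀ x ∈ L i.2, b x = i.1 x) ∧
      ∀ γ : GT, i.2 ∈ Set.range γ.2 → b (e γ) = d γ.1 i := by
    rintro ⟨f, w⟩
    let Γw := {γ : GT // w ∈ Set.range γ.2}
    have hli : LinearIndependent ℤ (fun γ : Γw => e γ.1) := he1.comp _ Subtype.val_injective
    let lc : (Γw →₀ ℤ) →+ Q := (Finsupp.linearCombination ℤ (fun γ : Γw => e γ.1)).toAddMonoidHom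
    let ld : (Γw →₀ ℤ) →+ T := (Finsupp.linearCombination ℤ (fun γ : Γw => d γ.1.1 (f, w))).toAddMonoidHom
    obtain ⟨b, hb⟩ := ext_T (((L w).subtype).coprod lc) ((f.comp (L w).subtype).coprod ld) (by
      rintro ⟨⟨x, hx⟩, c⟩ h0
      have h1 : x + lc c = 0 := h0
      obtain ⟨n, hn, hnx⟩ := hx
      have h2 : n • lc c ∈ N w := by
        have : n • lc c = - (n • x) := by
          rw [eq_neg_iff_add_eq_zero, ← smul_add, add_comm, h1, smul_zero]
        rw [this]
        exact (N w).neg_mem hnx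
      have h3 : n • lc c ∈ Submodule.span ℤ (e '' {γ | w ∈ Set.range γ.2}) := by
        refine Submodule.smul_mem _ _ ?_
        have h4 : lc c ∈ LinearMap.range (Finsupp.linearCombination ℤ (fun γ : Γw => e γ.1)) := ⟨c, rfl⟩
        rw [Finsupp.range_linearCombination] at h4
        refine Submodule.span_mono ?_ h4
        rintro _ ⟨γ, rfl⟩
        exact ⟨γ.1, γ.2, rfl⟩
      have hdisj : Disjoint (Submodule.span ℤ (e '' {γ | w ∈ Set.range γ.2})) (N w) := by
        refine he1.disjoint_span_image ?_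
        rw [Set.disjoint_left]
        intro γ h4 h5
        exact h5 h4
      have h5 : n • lc c = 0 := (Submodule.disjoint_def.1 hdisj) _ h3 h2
      have h6 : lc (n • c) = 0 := by rw [map_zsmul]; exact h5
      have h7 : n • c = 0 := by
        have h8 := linearIndependent_iff.1 hli (n • c) h6
        exact h8
      have h8 : c = 0 := by
        rcases smul_eq_zero.1 h7 with h9 | h9
        · exact absurd h9 hn
        · exact h9
      subst h8
      rw [map_zero, add_zero] at h1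
      subst h1
      change f 0 + ld 0 = 0
      rw [map_zero, map_zero, add_zero])
    refine ⟨b, fun x hx => ?_, fun γ hγ => ?_⟩
    · have h1 := hb (⟨x, hx⟩, 0)
      change b (x + lc 0) = f x + ld 0 at h1
      rwa [map_zero, map_zero, add_zero, add_zero] at h1
    · have h1 := hb (0, Finsupp.single ⟨γ, hγ⟩ 1)
      change b (0 + lc (Finsupp.single ⟨γ, hγ⟩ 1)) = f 0 + ld (Finsupp.single ⟨γ, hγ⟩ 1) at h1
      rw [map_zero, zero_add, zero_add] at h1
      have h2 : lc (Finsupp.single ⟨γ, hγ⟩ 1) = e γ := by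
        change Finsupp.linearCombination ℤ _ _ = _
        rw [Finsupp.linearCombination_single, one_smul]
      have h3 : ld (Finsupp.single ⟨γ, hγ⟩ 1) = d γ.1 (f, w) := by
        change Finsupp.linearCombination ℤ _ _ = _
        rw [Finsupp.linearCombination_single, one_smul]
      rwa [h2, h3] at h1
  choose b hb1 hb2 using key
  refine ⟨I, ⟨(0, 0)⟩, b, ?_, ?_, ?_⟩
  · intro C hC s
    obtain ⟨x, hx⟩ := hd C hC s
    obtain ⟨v, hv⟩ : ∃ v : ℕ → (ℕ → ZMod 2), Prod.snd '' C ⊆ Set.range v := by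
      rcases (Prod.snd '' C).eq_empty_or_nonempty with h | h
      · exact ⟨fun _ => 0, by rw [h]; exact Set.empty_subset _⟩
      · obtain ⟨v, hv⟩ := (hC.image Prod.snd).exists_eq_range h
        exact ⟨v, hv.subset⟩
    refine ⟨e (x, v), fun i hi => ?_⟩
    rw [hb2 i (x, v) (hv ⟨i, hi, rfl⟩), hx i hi]
  · intro f S hS
    -- the support of each element
    have hsupp : ∀ x : Q, ∃ F : Finset GT, ∃ n : ℤ, n ≠ 0 ∧ n • x ∈ Submodule.span ℤ (e '' (F : Set GT)) := by
      intro x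
      obtain ⟨n, hn, hnx⟩ := he2 x
      rw [← Finsupp.range_linearCombination] at hnx
      obtain ⟨c, hc⟩ := hnx
      refine ⟨c.support, n, hn, ?_⟩
      rw [← hc, Finsupp.linearCombination_apply, Finsupp.sum]
      refine Submodule.sum_mem _ fun γ hγ => Submodule.smul_mem _ _ (Submodule.subset_span ⟨γ, hγ, rfl⟩)
    choose F hF using hsupp
    have hcount : (⋃ x ∈ S, ⋃ γ ∈ F x, Set.range γ.2 : Set (ℕ → ZMod 2)).Countable :=
      hS.biUnion fun x _ => (F x).countable_toSet.biUnion fun γ _ => Set.countable_range _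
    obtain ⟨w, hw⟩ : ∃ w : ℕ → ZMod 2, w ∉ (⋃ x ∈ S, ⋃ γ ∈ F x, Set.range γ.2 : Set (ℕ → ZMod 2)) := by
      by_contra hcon
      push Not at hcon
      have h1 : (Set.univ : Set (ℕ → ZMod 2)).Countable := hcount.mono fun j _ => hcon j
      have h2 : #(ℕ → ZMod 2) ≤ ℵ₀ := by
        have := h1.le_aleph0
        rwa [Cardinal.mk_univ] at this
      rw [mk_seq] at h2
      exact absurd h2 (not_le.2 Cardinal.aleph0_lt_continuum)
    refine ⟨(f, w), fun x hx => hb1 (f, w) x ?_⟩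
    obtain ⟨n, hn, hnx⟩ := hF x
    refine ⟨n, hn, Submodule.span_mono ?_ hnx⟩
    apply Set.image_mono
    intro γ hγ hwγ
    exact hw (Set.mem_biUnion hx (Set.mem_biUnion (Finset.mem_coe.1 hγ) hwγ))
  · intro f
    refine ⟨(f, 0), fun x hx => hb1 (f, 0) x ?_⟩
    obtain ⟨n, hn, hnx⟩ := hx
    refine ⟨n, by exact_mod_cast hn, ?_⟩
    rw [natCast_zsmul, hnx]
    exact (N 0).zero_mem

end Pool.Agent.R821.Ps
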