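import Pool.Agent.R821.PsE
import Pool.Agent.R821.PsB

/-!
# The unbounded case
-/

set_option autoImplicit false

open Filter Topology Cardinal

namespace Pool.Agent.R821.Ps

open Pool.Agent.R821 Pool.Agent.R821.Bp

universe u v w

theorem mem_closure_finite {Q : Type u} [AddCommGroup Q] {I : Type v} (b : I → Q) {x : Q}
    (hx : x ∈ AddSubgroup.closure (Set.range b)) :
    ∃ F : Finset I, x ∈ AddSubgroup.closure (b '' (F : Set I)) := by
  classical
  induction hx using AddSubgroup.closure_induction with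
  | mem x hx =>
    obtain ⟨i, rfl⟩ := hx
    exact ⟨{i}, AddSubgroup.subset_closure ⟨i, by simp, rfl⟩⟩
  | zero => exact ⟨∅, AddSubgroup.zero_mem _⟩
  | add x y _ _ hx hy =>
    obtain ⟨F, hF⟩ := hx
    obtain ⟨E, hE⟩ := hy
    refine ⟨F ∪ E, AddSubgroup.add_mem _ ?_ ?_⟩
    · exact AddSubgroup.closure_mono (Set.image_mono (by simp)) hF
    · exact AddSubgroup.closure_mono (Set.image_mono (by simp)) hE
  | neg x _ hx =>
    obtain ⟨F, hF⟩ := hx
    exact ⟨F, AddSubgroup.neg_mem _ hF⟩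

/-- `P1` for the group generated by a family -/
theorem P1_closure {Q : Type u} [AddCommGroup Q] {I : Type v} (b : I → (Q →+ T)) (V : Set T)
    (ha : ∀ C : Set I, C.Countable → ∀ s : I → T, (∀ i, s i ∈ V) → ∃ x, ∀ i ∈ C, b i x = s i)
    (hV : ∀ (s : (Q →+ T) →+ T) i, s (b i) ∈ V) :
    P1 (AddSubgroup.closure (Set.range b)) := by
  classical
  intro A hAB hA s
  have hF : ∀ χ ∈ A, ∃ F : Finset I, χ ∈ AddSubgroup.closure (b '' (F : Set I)) :=
    fun χ hχ => mem_closure_finite b (hAB hχ)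
  choose! F hF using hF
  obtain ⟨x, hx⟩ := ha (⋃ χ ∈ A, (F χ : Set I)) (hA.biUnion fun χ _ => (F χ).countable_toSet)
    (fun i => s (b i)) (fun i => hV s i)
  refine ⟨x, fun χ hχ => ?_⟩
  let R : AddSubgroup (Q →+ T) :=
    { carrier := {χ | χ x = s χ}
      zero_mem' := by
        change (0 : T) = s 0
        rw [map_zero]
      add_mem' := fun {χ ψ} h1 h2 => by
        change χ x + ψ x = s (χ + ψ)
        rw [map_add, show χ x = s χ from h1, show ψ x = s ψ from h2]
      neg_mem' := fun {χ} h1 => by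
        change -(χ x) = s (-χ)
        rw [map_neg, show χ x = s χ from h1] }
  have h1 : AddSubgroup.closure (b '' (F χ : Set I)) ≤ R := by
    rw [AddSubgroup.closure_le]
    rintro _ ⟨i, hi, rfl⟩
    exact hx i (Set.mem_biUnion hχ hi)
  exact h1 (hF χ hχ)

theorem norm_half : ‖((1 / 2 : ℝ) : T)‖ = 1 / 2 := by
  rw [norm_coe_eq (by rw [abs_of_pos (by norm_num)]), abs_of_pos (by norm_num)]

/-- the new topology is not selectively pseudocompact, unbounded case -/
theorem not_sel_unbounded {G : Type u} {Q : Type v} [AddCommGroup G] [AddCommGroup Q]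
    (X' : AddSubgroup (G →+ T)) (π : G →+ Q) (hπ : Function.Surjective π) {I : Type w} [Nonempty I]
    (b : I → (Q →+ T)) (hbX : ∀ i, (b i).comp π ∈ X')
    (ha : ∀ C : Set I, C.Countable → ∀ s : I → T, ∃ x, ∀ i ∈ C, b i x = s i)
    (hb : ∀ (f : Q →+ T) (S : Set Q), S.Countable → ∃ i, ∀ x ∈ S, b i x = f x) :
    ¬ @SelectivelyPseudocompact G (top X') := by
  classical
  let _ := top X'
  intro hsel
  obtain ⟨i0⟩ := ‹Nonempty I›
  let χ0 : G →+ T := (b i0).comp π
  have hχ0 : Continuous χ0 := continuous_char (hbX i0)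
  let c : ℕ → ℝ := fun n => (1 / 8 : ℝ) ^ (n + 1)
  have hc0 : ∀ n, 0 < c n := fun n => by positivity
  let U : ℕ → Set G := fun n => χ0 ⁻¹' ((fun r : ℝ => (r : T)) '' Set.Ioo (c n) (2 * c n))
  have hU : ∀ n, IsOpen (U n) ∧ (U n).Nonempty := by
    intro n
    constructor
    · exact (QuotientAddGroup.isOpenMap_coe _ isOpen_Ioo).preimage hχ0
    · obtain ⟨x, hx⟩ := ha {i0} (Set.countable_singleton i0) (fun _ => ((3 / 2 * c n : ℝ) : T))
      obtain ⟨g, rfl⟩ := hπ x
      refine ⟨g, 3 / 2 * c n, ⟨?_, ?_⟩, (hx i0 rfl).symm⟩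
      · linarith [hc0 n]
      · linarith [hc0 n]
  obtain ⟨x, hx, y, hy⟩ := hsel U hU
  choose t ht htx using hx
  have ht0 : ∀ n, 0 < t n := fun n => (hc0 n).trans (ht n).1
  have hcn : ∀ n, c (n + 1) = c n / 8 := fun n => by
    simp only [c]
    rw [pow_succ]
    ring
  obtain ⟨h, hh⟩ := lac t (fun _ => 1 / 4) (fun _ => 1 / 2) ht0
    (fun _ => ⟨by norm_num, by norm_num⟩) (by
      have h1 := (ht 0).2
      have h2 : c 0 = 1 / 8 := by simp [c]
      rw [h2] at h1
      linarith) (fun n => by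
      have h1 := (ht (n + 1)).2
      have h2 := (ht n).1
      rw [hcn] at h1
      linarith)
  obtain ⟨i, hi⟩ := hb (h.comp (b i0)) (insert (π y) (Set.range fun n => π (x n)))
    ((Set.countable_range _).insert _)
  let χ : G →+ T := (b i).comp π
  have hχ : Continuous χ := continuous_char (hbX i)
  have hχx : ∀ n, χ (x n) = h (t n : T) := by
    intro n
    have h1 := hi (π (x n)) (Set.mem_insert_of_mem _ ⟨n, rfl⟩)
    have h2 : (t n : T) = χ0 (x n) := htx n
    rw [h2]
    exact h1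
  have hχ0y : χ0 y = 0 := by
    by_contra hne
    have hδ : 0 < ‖χ0 y‖ := norm_pos_iff.2 hne
    have hO : {g | ‖χ0 g - χ0 y‖ < ‖χ0 y‖ / 2} ∈ 𝓝 y := by
      have h1 : Continuous fun g => ‖χ0 g - χ0 y‖ := (hχ0.sub continuous_const).norm
      refine (isOpen_lt h1 continuous_const).mem_nhds ?_
      change ‖χ0 y - χ0 y‖ < ‖χ0 y‖ / 2
      rw [sub_self, norm_zero]
      linarith
    have hlim : Tendsto c atTop (𝓝 0) := by
      have h1 := tendsto_pow_atTop_nhds_zero_of_lt_one (r := (1 / 8 : ℝ)) (by norm_num) (by norm_num)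
      exact h1.comp (tendsto_add_atTop_nat 1)
    obtain ⟨N, hN⟩ := (hlim.eventually (gt_mem_nhds (show (0 : ℝ) < ‖χ0 y‖ / 4 by linarith))).exists_forall_of_atTop
    obtain ⟨n, hn, hNn⟩ := (hy _ hO).exists_gt N
    have h1 : ‖χ0 (x n) - χ0 y‖ < ‖χ0 y‖ / 2 := hn
    have h2 : ‖χ0 (x n)‖ ≤ 2 * c n := by
      have h3 : (t n : T) = χ0 (x n) := htx n
      rw [← h3]
      have h4 := norm_coe_le (t n)
      rw [abs_of_pos (ht0 n)] at h4
      exact h4.trans (ht n).2.le
    have h3 := hN n hNn.le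
    have h4 : ‖χ0 y‖ ≤ ‖χ0 (x n)‖ + ‖χ0 (x n) - χ0 y‖ := by
      have : χ0 y = χ0 (x n) - (χ0 (x n) - χ0 y) := by abel
      conv_lhs => rw [this]
      exact norm_sub_le _ _
    linarith
  have hχy : χ y = 0 := by
    have h1 := hi (π y) (Set.mem_insert _ _)
    have h2 : (h.comp (b i0)) (π y) = h (χ0 y) := rfl
    rw [h2, hχ0y, map_zero] at h1
    exact h1
  have hO : {g | ‖χ g - χ y‖ < 1 / 4} ∈ 𝓝 y := by
    have h1 : Continuous fun g => ‖χ g - χ y‖ := (hχ.sub continuous_const).norm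
    refine (isOpen_lt h1 continuous_const).mem_nhds ?_
    change ‖χ y - χ y‖ < 1 / 4
    rw [sub_self, norm_zero]
    norm_num
  obtain ⟨n, hn⟩ := (hy _ hO).nonempty
  have h1 : ‖χ (x n) - χ y‖ < 1 / 4 := hn
  rw [hχx, hχy, sub_zero] at h1
  have h2 := hh n
  have h3 : ‖((1 / 2 : ℝ) : T)‖ ≤ ‖h (t n : T)‖ + ‖h (t n : T) - ((1 / 2 : ℝ) : T)‖ := by
    have : ((1 / 2 : ℝ) : T) = h (t n : T) - (h (t n : T) - ((1 / 2 : ℝ) : T)) := by abel
    conv_lhs => rw [this]
    exact norm_sub_le _ _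
  rw [norm_half] at h3
  linarith

theorem infl_comp {G : Type u} [AddCommGroup G] (Z : AddSubgroup G) (φ : G ⧸ Z →+ T) :
    infl Z φ = φ.comp (QuotientAddGroup.mk' Z) := rfl

/-- the size of the quotient -/
theorem mk_quotient_le {G : Type u} [AddCommGroup G] (a : ℕ → (G →+ T)) :
    #(G ⧸ ann (AddSubgroup.closure (Set.range a))) ≤ 𝔠 := by
  let A := AddSubgroup.closure (Set.range a)
  let F : G →+ (ℕ → T) :=
    { toFun := fun g k => a k g
      map_zero' := by ext k; simp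
      map_add' := fun g h => by ext k; simp }
  have hF : ∀ g, F g = 0 → g ∈ ann A := by
    intro g hg χ hχ
    induction hχ using AddSubgroup.closure_induction with
    | mem x hx =>
      obtain ⟨k, rfl⟩ := hx
      exact congrFun hg k
    | zero => rfl
    | add x y _ _ hx hy => rw [AddMonoidHom.add_apply, hx, hy, add_zero]
    | neg x _ hx => rw [AddMonoidHom.neg_apply, hx, neg_zero]
  let F' : G ⧸ ann A →+ (ℕ → T) := QuotientAddGroup.lift (ann A) F (fun g hg => by
    ext k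
    exact hg (a k) (AddSubgroup.subset_closure ⟨k, rfl⟩))
  have hF' : Function.Injective F' := by
    rw [injective_iff_map_eq_zero]
    intro q hq
    obtain ⟨g, rfl⟩ := QuotientAddGroup.mk_surjective q
    exact (QuotientAddGroup.eq_zero_iff g).2 (hF g hq)
  have h1 : Cardinal.lift.{0} #(G ⧸ ann A) ≤ Cardinal.lift.{u} #(ℕ → T) :=
    Cardinal.lift_mk_le'.2 ⟨⟨_, hF'⟩⟩
  have h2 : #(ℕ → T) ≤ 𝔠 := by
    rw [← Cardinal.power_def, Cardinal.mk_nat]
    calc #T ^ ℵ₀ ≤ 𝔠 ^ ℵ₀ := Cardinal.power_le_power_right mk_T_le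
      _ = 𝔠 := Cardinal.continuum_power_aleph0
  have h3 : Cardinal.lift.{u} #(ℕ → T) ≤ 𝔠 := by
    rw [← Cardinal.lift_continuum.{u, 0}]
    exact Cardinal.lift_le.2 h2
  rw [Cardinal.lift_uzero] at h1
  exact h1.trans h3

/-- **The unbounded case.** -/
theorem unbounded_case {G : Type u} [AddCommGroup G] (X : AddSubgroup (G →+ T)) (hX : P1 X)
    (hsep : Sep X) (hunb : ∀ n : ℕ, n ≠ 0 → ∃ χ ∈ X, n • χ ≠ 0) :
    ∃ X' : AddSubgroup (G →+ T), P1 X' ∧ Sep X' ∧ ¬ @SelectivelyPseudocompact G (top X') := by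
  classical
  obtain ⟨a, s, hs⟩ := exists_many (Y := X) (fun n hn => by
    obtain ⟨χ, hχ, h1⟩ := hunb n hn
    exact ⟨⟨χ, hχ⟩, fun h => h1 (congrArg Subtype.val h)⟩)
  choose s' hs' using fun x => ext_T X.subtype (s x) (fun χ hχ => by
    have : χ = 0 := Subtype.ext hχ
    rw [this, map_zero])
  let A := AddSubgroup.closure (Set.range fun k => (a k).1)
  have hA : (A : Set (G →+ T)).Countable := countable_closure (Set.countable_range _)
  have hAX : A ≤ X := by
    rw [AddSubgroup.closure_le]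
    rintro _ ⟨k, rfl⟩
    exact (a k).2
  choose g hg using fun x => hX (A : Set (G →+ T)) hAX hA (s' x)
  obtain ⟨I, hI, b, ha, hb, hc⟩ := exists_chars (Q := G ⧸ ann A) (mk_quotient_le _)
    (fun x => (g x : G ⧸ ann A)) (by
      intro x y hxy n hn h0
      obtain ⟨k, hk⟩ := hs x y hxy n hn
      apply hk
      have h1 : n • (g x - g y) ∈ ann A := by
        rw [← QuotientAddGroup.eq_zero_iff]
        exact h0
      have hak : (a k).1 ∈ A := AddSubgroup.subset_closure ⟨k, rfl⟩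
      have h2 := h1 (a k).1 hak
      rw [map_nsmul, map_sub, hg x _ hak, hg y _ hak] at h2
      have h3 : ∀ x, s' x (a k).1 = s x (a k) := fun x => hs' x (a k)
      rwa [h3, h3] at h2)
  let Q := G ⧸ ann A
  let B := AddSubgroup.closure (Set.range b)
  have hB : P1 B := P1_closure b Set.univ (fun C hC s _ => ha C hC s) (fun _ _ => trivial)
  have hBsep : Sep B := by
    intro q hq
    by_contra hne
    obtain ⟨f, hf⟩ := exists_char_ne_zero q hne
    obtain ⟨i, hi⟩ := hb f {q} (Set.countable_singleton q)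
    apply hf
    rw [← hi q rfl]
    exact hq (b i) (AddSubgroup.subset_closure ⟨i, rfl⟩)
  -- divisibility
  let E := (Q →+ T) ⧸ B
  have hdiv : ∀ {n : ℤ}, n ≠ 0 → Function.Surjective (fun e : E => n • e) := by
    intro n hn e
    obtain ⟨φ, rfl⟩ := QuotientAddGroup.mk_surjective e
    obtain ⟨i, hi⟩ := hc φ
    obtain ⟨ψ, hψ⟩ := ext_T (zsmulAddGroupHom n : Q →+ Q) (φ - b i) (fun x hx => by
      rw [AddMonoidHom.sub_apply, hi x ⟨n.natAbs, Int.natAbs_ne_zero.2 hn, ?_⟩, sub_self]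
      have h1 : n • x = 0 := hx
      rcases Int.natAbs_eq n with h5 | h5
      · rw [h5, natCast_zsmul] at h1
        exact h1
      · rw [h5, neg_smul, neg_eq_zero, natCast_zsmul] at h1
        exact h1)
    refine ⟨(ψ : E), ?_⟩
    change ((n • ψ : Q →+ T) : E) = (φ : E)
    rw [QuotientAddGroup.eq]
    have h2 : n • ψ = φ - b i := by
      ext x
      change n • ψ x = (φ - b i) x
      rw [← hψ x]
      change n • ψ x = ψ (n • x)
      rw [map_zsmul]
    rw [h2]
    have h3 : -(φ - b i) + φ = b i := by abel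
    rw [h3]
    exact AddSubgroup.subset_closure ⟨i, rfl⟩
  let _ : DivisibleBy E ℤ := divisibleByOfSMulRightSurj E ℤ hdiv
  -- the characters in `A` as characters of `Q`
  have hAinfl : ∀ χ : A, ∃ φ : Q →+ T, infl (ann A) φ = χ.1 := fun χ =>
    exists_infl (ann A) χ.1 (fun z hz => hz χ.1 χ.2)
  choose ι hι using hAinfl
  let g0 : A →+ E := AddMonoidHom.mk' (fun χ => -((ι χ : Q →+ T) : E)) (fun χ ψ => by
    have h1 : ι (χ + ψ) = ι χ + ι ψ := by
      apply infl_injective (ann A)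
      rw [map_add, hι, hι, hι]
      rfl
    rw [h1]
    change -((ι χ : E) + (ι ψ : E)) = _
    rw [neg_add])
  obtain ⟨θ, hθ⟩ := Module.Baer.extension_property_addMonoidHom (Module.Baer.of_divisible E)
    (AddSubgroup.inclusion hAX) (AddSubgroup.inclusion_injective hAX) g0
  obtain ⟨X', h1, h2, h3⟩ := replace hX hsep hAX hA B hB hBsep θ (by
    intro χ φ hφ
    have hχA : χ.1 ∈ A := by
      apply mem_of_ann hX hAX hA χ.1 χ.2
      intro z hz
      rw [← hφ, infl_apply, (QuotientAddGroup.eq_zero_iff z).2 hz, map_zero]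
    have h4 : θ χ = g0 ⟨χ.1, hχA⟩ := by
      rw [← hθ]
      rfl
    rw [h4]
    change -((ι ⟨χ.1, hχA⟩ : Q →+ T) : E) = _
    have h5 : ι ⟨χ.1, hχA⟩ = φ := by
      apply infl_injective (ann A)
      rw [hι, hφ]
    rw [h5])
  refine ⟨X', h1, h2, ?_⟩
  refine not_sel_unbounded X' (QuotientAddGroup.mk' (ann A)) (QuotientAddGroup.mk'_surjective _) b
    (fun i => ?_) ha hb
  exact h3 (b i) (AddSubgroup.subset_closure ⟨i, rfl⟩)

end Pool.Agent.R821.Ps
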