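import Pool.Agent.R821.PsF

/-!
# The bounded case
-/

set_option autoImplicit false

open Filter Topology Cardinal

namespace Pool.Agent.R821.Ps

open Pool.Agent.R821 Pool.Agent.R821.Bp

universe u v w

/-- small elements of finite order vanish -/
theorem eq_zero_of_order {t : T} {N : ℕ} (hN : N ≠ 0) (h : N • t = 0) (ht : ‖t‖ < 1 / N) : t = 0 := by
  obtain ⟨r, hr1, hr2, -⟩ := exists_real t
  rw [← hr2] at ht
  rw [← hr1, ← AddCircle.coe_nsmul, AddCircle.coe_eq_zero_iff] at h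
  obtain ⟨n, hn⟩ := h
  have hN' : (0 : ℝ) < N := by exact_mod_cast Nat.pos_of_ne_zero hN
  have h1 : (n : ℝ) = N * r := by
    have : (n : ℝ) = N • r := by simpa using hn
    rw [this, nsmul_eq_mul]
  have h2 : |(n : ℝ)| < 1 := by
    rw [h1, abs_mul, abs_of_pos hN']
    rw [lt_div_iff₀ hN'] at ht
    linarith
  have h3 : n = 0 := by
    have h4 : |n| < 1 := by exact_mod_cast h2
    exact Int.abs_lt_one_iff.1 h4
  rw [h3, Int.cast_zero] at h1
  have h4 : r = 0 := by
    rcases mul_eq_zero.1 h1.symm with h5 | h5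
    · exact absurd h5 hN'.ne'
    · exact h5
  rw [← hr1, h4]
  rfl

/-- solving a triangular system of inequations -/
theorem tri (N : ℕ) : ∀ m : ℕ → ℕ → T, (∀ n, m n n ≠ 0) →
    ∃ c : ℕ → ℕ, ∀ n < N, ∑ j ∈ Finset.Ico n N, c j • m n j ≠ 0 := by
  induction N with
  | zero => exact fun m _ => ⟨fun _ => 0, fun n hn => absurd hn (Nat.not_lt_zero n)⟩
  | succ N ih =>
    intro m hm
    obtain ⟨c', hc'⟩ := ih (fun n j => m (n + 1) (j + 1)) (fun n => hm _)
    let r : T := ∑ j ∈ Finset.Ico 0 N, c' j • m 0 (j + 1)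
    obtain ⟨c0, hc0⟩ : ∃ c0 : ℕ, c0 • m 0 0 + r ≠ 0 := by
      by_cases h : r = 0
      · exact ⟨1, by rw [h, one_smul, add_zero]; exact hm 0⟩
      · exact ⟨0, by rw [zero_smul, zero_add]; exact h⟩
    refine ⟨fun j => Nat.casesOn j c0 c', fun n hn => ?_⟩
    rcases n with _ | n
    · rw [Finset.sum_eq_sum_Ico_succ_bot (Nat.succ_pos N), ← Finset.sum_Ico_add']
      exact hc0
    · rw [← Finset.sum_Ico_add']
      exact hc' n (Nat.lt_of_succ_lt_succ hn)

/-- the new topology is not selectively pseudocompact, bounded case -/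
theorem not_sel_bounded {G : Type u} {Q : Type v} [AddCommGroup G] [AddCommGroup Q]
    (X' : AddSubgroup (G →+ T)) (π : G →+ Q) (hπ : Function.Surjective π) {I : Type w} [Infinite I]
    (b : I → (Q →+ T)) (hbX : ∀ i, (b i).comp π ∈ X') (q : ℕ) (hq : 2 ≤ q)
    (hqQ : ∀ x : Q, q • x = 0)
    (ha : ∀ C : Set I, C.Countable → ∀ s : I → T, (∀ i, q • s i = 0) → ∃ x, ∀ i ∈ C, b i x = s i)
    (hb : ∀ (f : Q →+ T) (S : Set Q), S.Countable → ∃ i, ∀ x ∈ S, b i x = f x) :
    ¬ @SelectivelyPseudocompact G (top X') := by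
  classical
  let _ := top X'
  intro hsel
  have hq0 : q ≠ 0 := by omega
  have hq0' : (0 : ℝ) < q := by exact_mod_cast Nat.pos_of_ne_zero hq0
  have hδ : (0 : ℝ) < 1 / q := by positivity
  have hφq : ∀ (φ : Q →+ T) (x : Q), q • φ x = 0 := fun φ x => by
    rw [← map_nsmul, hqQ, map_zero]
  obtain ⟨u, hu0, huq⟩ : ∃ u : T, u ≠ 0 ∧ q • u = 0 := by
    refine ⟨((1 / q : ℝ) : T), ?_, ?_⟩
    · intro h
      have h1 : |(1 / q : ℝ)| ≤ 1 / 2 := by
        rw [abs_of_pos hδ]
        apply one_div_le_one_div_of_le (by norm_num)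
        exact_mod_cast hq
      have h2 := norm_coe_eq h1
      have h3 : ‖((1 / q : ℝ) : T)‖ = 0 := by rw [h]; exact norm_zero
      rw [h3, abs_of_pos hδ] at h2
      linarith
    · rw [← AddCircle.coe_nsmul, nsmul_eq_mul, mul_one_div_cancel hq0'.ne']
      exact AddCircle.coe_period 1
  let ι : ℕ ↪ I := Infinite.natEmbedding I
  let χ : ℕ → (G →+ T) := fun n => (b (ι n)).comp π
  have hχ : ∀ n, Continuous (χ n) := fun n => continuous_char (hbX (ι n))
  let U : ℕ → Set G := fun n =>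
    {g | ‖χ n g - u‖ < 1 / q} ∩ ⋂ j ∈ Finset.range n, {g | ‖χ j g‖ < 1 / q}
  have hU : ∀ n, IsOpen (U n) ∧ (U n).Nonempty := by
    intro n
    constructor
    · refine (isOpen_lt ((hχ n).sub continuous_const).norm continuous_const).inter ?_
      exact isOpen_biInter_finset fun j _ => isOpen_lt (hχ j).norm continuous_const
    · obtain ⟨x, hx⟩ := ha (Set.range ι) (Set.countable_range ι) (fun i => if i = ι n then u else 0)
        (fun i => by split_ifs; exact huq; exact smul_zero _)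
      obtain ⟨g, rfl⟩ := hπ x
      refine ⟨g, ?_, ?_⟩
      · have h1 : χ n g = u := by
          have := hx (ι n) ⟨n, rfl⟩
          rwa [if_pos rfl] at this
        change ‖χ n g - u‖ < 1 / q
        rw [h1, sub_self, norm_zero]
        exact hδ
      · refine Set.mem_biInter fun j hj => ?_
        have h1 : χ j g = 0 := by
          have := hx (ι j) ⟨j, rfl⟩
          rwa [if_neg (fun h => (Finset.mem_range.1 hj).ne (ι.injective h))] at this
        change ‖χ j g‖ < 1 / q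
        rw [h1, norm_zero]
        exact hδ
  obtain ⟨x, hx, y, hy⟩ := hsel U hU
  have hx1 : ∀ n, χ n (x n) = u := fun n => by
    rw [← sub_eq_zero]
    refine eq_zero_of_order hq0 ?_ (hx n).1
    rw [smul_sub, huq, sub_zero]
    exact hφq _ _
  have hx2 : ∀ n, ∀ j < n, χ j (x n) = 0 := fun n j hj =>
    eq_zero_of_order hq0 (hφq _ _) (Set.mem_iInter₂.1 (hx n).2 j (Finset.mem_range.2 hj))
  have hnear : ∀ ψ : Q →+ T, (ψ.comp π) ∈ X' → ∀ N, ∃ n, N < n ∧ ψ (π (x n)) = ψ (π y) := by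
    intro ψ hψ N
    have hO : {g | ‖ψ (π g) - ψ (π y)‖ < 1 / q} ∈ 𝓝 y := by
      have h1 : Continuous fun g => ‖ψ (π g) - ψ (π y)‖ :=
        ((continuous_char hψ).sub continuous_const).norm
      refine (isOpen_lt h1 continuous_const).mem_nhds ?_
      change ‖ψ (π y) - ψ (π y)‖ < 1 / q
      rw [sub_self, norm_zero]
      exact hδ
    obtain ⟨n, hn, hNn⟩ := (hy _ hO).exists_gt N
    refine ⟨n, hNn, ?_⟩
    rw [← sub_eq_zero]
    refine eq_zero_of_order hq0 ?_ hn
    rw [smul_sub, hφq, hφq, sub_zero]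
  have hχy : ∀ j, b (ι j) (π y) = 0 := by
    intro j
    obtain ⟨n, hn, h1⟩ := hnear (b (ι j)) (hbX _) j
    rw [← h1]
    exact hx2 n j hn
  -- the separating homomorphisms
  have hf : ∀ N : ℕ, ∃ f : Q →+ T, (∀ n < N, f (π (x n)) ≠ 0) ∧ f (π y) = 0 := by
    intro N
    obtain ⟨c, hc⟩ := tri N (fun n j => χ j (x n)) (fun n => by rw [hx1]; exact hu0)
    refine ⟨∑ j ∈ Finset.range N, c j • b (ι j), fun n hn => ?_, ?_⟩
    · rw [AddMonoidHom.finsetSum_apply]
      have h1 : ∑ j ∈ Finset.range N, (c j • b (ι j)) (π (x n)) =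
          ∑ j ∈ Finset.Ico n N, c j • χ j (x n) := by
        rw [Finset.range_eq_Ico, ← Finset.sum_Ico_consecutive _ (Nat.zero_le n) hn.le]
        have h2 : ∑ j ∈ Finset.Ico 0 n, (c j • b (ι j)) (π (x n)) = 0 := by
          refine Finset.sum_eq_zero fun j hj => ?_
          have h3 : χ j (x n) = 0 := hx2 n j (Finset.mem_Ico.1 hj).2
          change c j • χ j (x n) = 0
          rw [h3, smul_zero]
        rw [h2, zero_add]
        rfl
      rw [h1]
      exact hc n hn
    · rw [AddMonoidHom.finsetSum_apply]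
      refine Finset.sum_eq_zero fun j _ => ?_
      change c j • b (ι j) (π y) = 0
      rw [hχy, smul_zero]
  choose f hf1 hf2 using hf
  obtain ⟨F, hF⟩ := exists_lim f (hyperfilter ℕ)
  have hFy : F (π y) = 0 := by
    refine tendsto_nhds_unique (hF (π y)) ?_
    simp only [hf2]
    exact tendsto_const_nhds
  have hFx : ∀ n, 1 / (q : ℝ) ≤ ‖F (π (x n))‖ := by
    intro n
    refine ge_of_tendsto (hF (π (x n))).norm ?_
    have h3 : ∀ᶠ N in (atTop : Filter ℕ), n < N := eventually_gt_atTop n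
    rw [← Nat.cofinite_eq_atTop] at h3
    filter_upwards [h3.filter_mono hyperfilter_le_cofinite] with N hN
    by_contra hlt
    exact hf1 N n hN (eq_zero_of_order hq0 (hφq _ _) (not_le.1 hlt))
  obtain ⟨i, hi⟩ := hb F (insert (π y) (Set.range fun n => π (x n)))
    ((Set.countable_range _).insert _)
  obtain ⟨n, -, hn⟩ := hnear (b i) (hbX i) 0
  rw [hi _ (Set.mem_insert _ _), hi _ (Set.mem_insert_of_mem _ ⟨n, rfl⟩), hFy] at hn
  have h1 := hFx n
  rw [hn, norm_zero] at h1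
  linarith

/-- **The family of characters, bounded case.** Here `e` is a basis over `ℤ/q`. -/
theorem exists_chars_bounded {Q : Type u} [AddCommGroup Q] (hQ : #Q ≤ 𝔠) (q : ℕ)
    (hqQ : ∀ x : Q, q • x = 0) (e : GT → Q) (he1 : ∀ c : GT →₀ ℤ, Finsupp.linearCombination ℤ e c = 0 → ∀ γ, (q : ℤ) ∣ c γ)
    (he2 : ∀ x : Q, ∃ c : GT →₀ ℤ, Finsupp.linearCombination ℤ e c = x) :
    ∃ (I : Type u) (_ : Infinite I) (b : I → (Q →+ T)),
      (∀ C : Set I, C.Countable → ∀ s : I → T, (∀ i, q • s i = 0) → ∃ x, ∀ i ∈ C, b i x = s i) ∧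
      (∀ (f : Q →+ T) (S : Set Q), S.Countable → ∃ i, ∀ x ∈ S, b i x = f x) := by
  classical
  obtain ⟨j, hj⟩ := exists_code hQ
  let I := (Q →+ T) × (ℕ → ZMod 2)
  obtain ⟨d, hd⟩ : ∃ d : CT → I → T, PatV d := ⟨_, pat_dualT.comp j hj⟩
  have hext : ∀ r : GT → T, (∀ γ, q • r γ = 0) → ∃ φ : Q →+ T, ∀ γ, φ (e γ) = r γ := by
    intro r hr
    obtain ⟨φ, hφ⟩ := ext_T (Finsupp.linearCombination ℤ e).toAddMonoidHom
      (Finsupp.linearCombination ℤ r).toAddMonoidHom (by
        intro c hc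
        change Finsupp.linearCombination ℤ r c = 0
        rw [Finsupp.linearCombination_apply, Finsupp.sum]
        refine Finset.sum_eq_zero fun γ _ => ?_
        obtain ⟨m, hm⟩ := he1 c hc γ
        rw [hm, mul_comm, mul_smul, natCast_zsmul, hr, smul_zero])
    refine ⟨φ, fun γ => ?_⟩
    have h1 := hφ (Finsupp.single γ 1)
    change φ (Finsupp.linearCombination ℤ e _) = Finsupp.linearCombination ℤ r _ at h1
    rwa [Finsupp.linearCombination_single, Finsupp.linearCombination_single, one_smul, one_smul] at h1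
  have key : ∀ i : I, ∃ b : Q →+ T, (∀ γ : GT, i.2 ∉ Set.range γ.2 → q • i.1 (e γ) = 0 → b (e γ) = i.1 (e γ)) ∧
      ∀ γ : GT, i.2 ∈ Set.range γ.2 → q • d γ.1 i = 0 → b (e γ) = d γ.1 i := by
    intro i
    obtain ⟨b, hb⟩ := hext (fun γ => if i.2 ∈ Set.range γ.2 then (if q • d γ.1 i = 0 then d γ.1 i else 0)
      else (if q • i.1 (e γ) = 0 then i.1 (e γ) else 0)) (fun γ => by
        split_ifs with h1 h2 h3
        · exact h2
        · exact smul_zero _
        · exact h3
        · exact smul_zero _)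
    refine ⟨b, fun γ h1 h2 => ?_, fun γ h1 h2 => ?_⟩
    · rw [hb, if_neg h1, if_pos h2]
    · rw [hb, if_pos h1, if_pos h2]
  choose b hb1 hb2 using key
  have hIinf : Infinite I := Prod.infinite_of_right
  refine ⟨I, hIinf, b, ?_, ?_⟩
  · intro C hC s hs
    obtain ⟨x, hx⟩ := hd C hC s
    obtain ⟨v, hv⟩ : ∃ v : ℕ → (ℕ → ZMod 2), Prod.snd '' C ⊆ Set.range v := by
      rcases (Prod.snd '' C).eq_empty_or_nonempty with h | h
      · exact ⟨fun _ => 0, by rw [h]; exact Set.empty_subset _⟩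
      · obtain ⟨v, hv⟩ := (hC.image Prod.snd).exists_eq_range h
        exact ⟨v, hv.subset⟩
    refine ⟨e (x, v), fun i hi => ?_⟩
    rw [hb2 i (x, v) (hv ⟨i, hi, rfl⟩) (by rw [hx i hi]; exact hs i), hx i hi]
  · intro f S hS
    choose c hc using he2
    have hcount : (⋃ x ∈ S, ⋃ γ ∈ (c x).support, Set.range γ.2 : Set (ℕ → ZMod 2)).Countable :=
      hS.biUnion fun x _ => (c x).support.countable_toSet.biUnion fun γ _ => Set.countable_range _
    obtain ⟨w, hw⟩ : ∃ w : ℕ → ZMod 2,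
        w ∉ (⋃ x ∈ S, ⋃ γ ∈ (c x).support, Set.range γ.2 : Set (ℕ → ZMod 2)) := by
      by_contra hcon
      push Not at hcon
      have h1 : (Set.univ : Set (ℕ → ZMod 2)).Countable := hcount.mono fun j _ => hcon j
      have h2 : #(ℕ → ZMod 2) ≤ ℵ₀ := by
        have := h1.le_aleph0
        rwa [Cardinal.mk_univ] at this
      rw [mk_seq] at h2
      exact absurd h2 (not_le.2 Cardinal.aleph0_lt_continuum)
    have hqf : ∀ γ, q • f (e γ) = 0 := fun γ => by rw [← map_nsmul, hqQ, map_zero]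
    refine ⟨(f, w), fun x hx => ?_⟩
    rw [← hc x, Finsupp.linearCombination_apply, Finsupp.sum, map_sum, map_sum]
    refine Finset.sum_congr rfl fun γ hγ => ?_
    rw [map_zsmul, map_zsmul, hb1 (f, w) γ ?_ (hqf γ)]
    intro hwγ
    exact hw (Set.mem_biUnion hx (Set.mem_biUnion (Finset.mem_coe.1 hγ) hwγ))

end Pool.Agent.R821.Ps
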