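import Pool.Agent.R821.PsG

/-!
# The bounded case: structure
-/

set_option autoImplicit false

open Filter Topology Cardinal

namespace Pool.Agent.R821.Ps

open Pool.Agent.R821 Pool.Agent.R821.Bp

universe u v w

theorem finite_closure {M : Type u} [AddCommGroup M] (N : ℕ) (hN : N ≠ 0) (hM : ∀ x : M, N • x = 0)
    {S : Set M} (hS : S.Finite) : (AddSubgroup.closure S : Set M).Finite := by
  classical
  induction S, hS using Set.Finite.induction_on with
  | empty =>
    rw [AddSubgroup.closure_empty]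
    exact Set.finite_singleton 0
  | @insert a S _ _ ih =>
    have h1 : (AddSubgroup.closure (insert a S) : Set M) ⊆
        Set.image2 (fun (k : ℕ) x => k • a + x) (Finset.range N : Set ℕ) (AddSubgroup.closure S) := by
      intro x hx
      rw [SetLike.mem_coe, Set.insert_eq, AddSubgroup.closure_union] at hx
      obtain ⟨y, hy, z, hz, rfl⟩ := AddSubgroup.mem_sup.1 hx
      rw [AddSubgroup.mem_closure_singleton] at hy
      obtain ⟨n, rfl⟩ := hy
      have hN' : (N : ℤ) ≠ 0 := by exact_mod_cast hN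
      refine ⟨(n % N).toNat, ?_, z, hz, ?_⟩
      · rw [Finset.coe_range, Set.mem_Iio]
        have h2 := Int.emod_lt_of_pos n (show (0 : ℤ) < N by exact_mod_cast Nat.pos_of_ne_zero hN)
        have h3 := Int.emod_nonneg n hN'
        omega
      · beta_reduce
        congr 1
        have h3 := Int.emod_nonneg n hN'
        rw [← natCast_zsmul, Int.toNat_of_nonneg h3]
        conv_rhs => rw [← Int.emod_add_mul_ediv n N]
        rw [add_smul, mul_comm, mul_smul, natCast_zsmul, hM, smul_zero, add_zero]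
    exact ((Finset.finite_toSet _).image2 _ ih).subset h1

/-- **The free part.** In a group of bounded exponent which is infinite there are `q = p ^ k` and a
sequence of elements of order `q` which is independent over `ℤ/q` modulo the `q`-multiples. -/
theorem exists_free_part {Y : Type u} [AddCommGroup Y] [Infinite Y] (N : ℕ) (hN : N ≠ 0)
    (hY : ∀ y : Y, N • y = 0) :
    ∃ (p k : ℕ), p.Prime ∧ ∃ a : ℕ → Y, (∀ i, (p ^ (k + 1)) • a i = 0) ∧
      ∀ (c : ℕ →₀ ℤ) (x : Y), Finsupp.linearCombination ℤ a c = (p ^ (k + 1)) • x →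
        ∀ i, ((p ^ (k + 1) : ℕ) : ℤ) ∣ c i := by
  classical
  -- the least `n` such that `n • Y` is finite
  have hex : ∃ n : ℕ, n ≠ 0 ∧ (Set.range fun y : Y => n • y).Finite := by
    refine ⟨N, hN, (Set.finite_singleton (0 : Y)).subset ?_⟩
    rintro _ ⟨y, rfl⟩
    exact hY y
  obtain ⟨n, ⟨hn0, hnfin⟩, hmin⟩ : ∃ n : ℕ, (n ≠ 0 ∧ (Set.range fun y : Y => n • y).Finite) ∧
      ∀ m < n, m ≠ 0 → ¬ (Set.range fun y : Y => m • y).Finite :=
    ⟨Nat.find hex, Nat.find_spec hex, fun m hm h0 h1 => Nat.find_min hex hm ⟨h0, h1⟩⟩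
  have hn1 : n ≠ 1 := by
    rintro rfl
    have : (Set.univ : Set Y).Finite := hnfin.subset fun y _ => ⟨y, one_smul ℕ y⟩
    exact Set.infinite_univ this
  obtain ⟨p, hp, hpn⟩ := Nat.exists_prime_and_dvd hn1
  obtain ⟨k', e, hpe, hne⟩ := Nat.exists_eq_pow_mul_and_not_dvd hn0 p hp.ne_one
  have hk' : k' ≠ 0 := by
    rintro rfl
    rw [pow_zero, one_mul] at hne
    exact hpe (hne ▸ hpn)
  obtain ⟨k, rfl⟩ := Nat.exists_eq_succ_of_ne_zero hk'
  rw [Nat.succ_eq_add_one] at hne
  have hp0 : p ≠ 0 := hp.ne_zero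
  have he0 : e ≠ 0 := by
    rintro rfl
    rw [mul_zero] at hne
    exact hn0 hne
  have hm : ¬ (Set.range fun y : Y => (p ^ k * e) • y).Finite := by
    apply hmin
    · rw [hne, pow_succ]
      have h1 : 0 < p ^ k * e := Nat.mul_pos (pow_pos hp.pos k) (Nat.pos_of_ne_zero he0)
      have h2 := hp.two_le
      nlinarith
    · exact mul_ne_zero (pow_ne_zero _ hp0) he0
  -- the finite group of `q`-multiples which are killed by `q`
  obtain ⟨u, t, hut⟩ : IsCoprime (e : ℤ) ((p ^ (k + 1) : ℕ) : ℤ) := by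
    rw [Nat.isCoprime_iff_coprime]
    apply Nat.Coprime.pow_right
    exact ((Nat.Prime.coprime_iff_not_dvd hp).2 hpe).symm
  let F1 : Set Y := {y | (p ^ (k + 1)) • y = 0 ∧ ∃ x, y = (p ^ (k + 1)) • x}
  have hF1 : F1.Finite := by
    refine (hnfin.image fun z => u • z).subset ?_
    rintro y ⟨hy, x, rfl⟩
    refine ⟨n • x, ⟨x, rfl⟩, ?_⟩
    beta_reduce
    have h2 : ∀ z : Y, (p ^ (k + 1)) • z = 0 → z = u • (e • z) := by
      intro z hz
      conv_lhs => rw [← one_smul ℤ z, ← hut]
      rw [add_smul, mul_smul, mul_smul, natCast_zsmul, natCast_zsmul, hz, smul_zero, add_zero]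
    conv_rhs => rw [h2 _ hy]
    rw [hne, mul_comm, mul_smul]

  -- the group of `p ^ k`-multiples of elements killed by `q`
  let V : Set Y := {v | ∃ a, (p ^ (k + 1)) • a = 0 ∧ v = (p ^ k) • a}
  have hV : V.Infinite := by
    intro hVfin
    apply hm
    have h1 : (Set.range fun y : Y => (p ^ k * e) • y) ⊆
        ⋃ z ∈ (Set.range fun y : Y => n • y), {w | ∃ y : Y, n • y = z ∧ w = (p ^ k * e) • y} := by
      rintro _ ⟨y, rfl⟩
      exact Set.mem_biUnion ⟨y, rfl⟩ ⟨y, rfl, rfl⟩
    refine (hnfin.biUnion fun z hz => ?_).subset h1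
    obtain ⟨y0, rfl⟩ := hz
    refine (hVfin.image fun v => v + (p ^ k * e) • y0).subset ?_
    rintro _ ⟨y, hy, rfl⟩
    refine ⟨(p ^ k) • (e • (y - y0)), ⟨e • (y - y0), ?_, rfl⟩, ?_⟩
    · rw [← mul_smul, ← hne, smul_sub]
      have : n • y = n • y0 := hy
      rw [this, sub_self]
    · beta_reduce
      rw [← mul_smul, smul_sub, sub_add_cancel]
  -- the recursive choice
  have hchoice : ∀ s : Finset Y, ∃ a : Y, (p ^ (k + 1)) • a = 0 ∧
      (p ^ k) • a ∉ AddSubgroup.closure (F1 ∪ s) := by
    intro s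
    have h1 : (AddSubgroup.closure (F1 ∪ s) : Set Y).Finite :=
      finite_closure N hN hY (hF1.union s.finite_toSet)
    obtain ⟨v, hv, hvn⟩ := (hV.sdiff h1).nonempty
    obtain ⟨a, ha, rfl⟩ := hv
    exact ⟨a, ha, hvn⟩
  choose α hα1 hα2 using hchoice
  let s : ℕ → Finset Y := fun n => Nat.rec ∅ (fun _ s => insert ((p ^ k) • α s) s) n
  have hs : ∀ n, s (n + 1) = insert ((p ^ k) • α (s n)) (s n) := fun n => rfl
  have hmono : Monotone s := monotone_nat_of_le_succ fun n => by
    rw [hs]
    exact Finset.subset_insert _ _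
  let a : ℕ → Y := fun n => α (s n)
  have hv : ∀ i j, i < j → (p ^ k) • a i ∈ s j := by
    intro i j hij
    apply hmono (Nat.succ_le_of_lt hij)
    rw [hs]
    exact Finset.mem_insert_self _ _
  have hpa : ∀ i, p • ((p ^ k) • a i) = 0 := by
    intro i
    rw [← mul_smul, ← pow_succ']
    exact hα1 _
  -- independence modulo `p`
  have hind : ∀ c : ℕ →₀ ℤ, Finsupp.linearCombination ℤ (fun i => (p ^ k) • a i) c ∈
      AddSubgroup.closure F1 → ∀ i, (p : ℤ) ∣ c i := by
    intro c hc
    by_contra hcon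
    push Not at hcon
    obtain ⟨i0, hi0⟩ := hcon
    let bad := c.support.filter fun i => ¬ (p : ℤ) ∣ c i
    have hbad : bad.Nonempty := ⟨i0, by
      rw [Finset.mem_filter, Finsupp.mem_support_iff]
      refine ⟨fun h => hi0 (by rw [h]; exact dvd_zero _), hi0⟩⟩
    let i := bad.max' hbad
    have hi : i ∈ bad := bad.max'_mem hbad
    rw [Finset.mem_filter] at hi
    rw [Finsupp.linearCombination_apply, Finsupp.sum, ← Finset.add_sum_erase _ _ hi.1] at hc
    have h1 : ∑ j ∈ c.support.erase i, c j • ((p ^ k) • a j) ∈ AddSubgroup.closure (F1 ∪ {z | z ∈ s i}) := by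
      refine AddSubgroup.sum_mem _ fun j hj => ?_
      rw [Finset.mem_erase] at hj
      rcases lt_or_gt_of_ne hj.1 with hlt | hgt
      · have hmem : (p ^ k) • a j ∈ F1 ∪ {z | z ∈ s i} := Or.inr (hv j i hlt)
        exact AddSubgroup.zsmul_mem _ (AddSubgroup.subset_closure hmem) _
      · have h2 : (p : ℤ) ∣ c j := by
          by_contra hnd
          have h3 : j ∈ bad := Finset.mem_filter.2 ⟨hj.2, hnd⟩
          exact absurd (bad.le_max' j h3) (not_le.2 hgt)
        obtain ⟨r, hr⟩ := h2
        rw [hr, mul_comm, mul_smul, natCast_zsmul, hpa, smul_zero]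
        exact AddSubgroup.zero_mem _
    have h2 : c i • ((p ^ k) • a i) ∈ AddSubgroup.closure (F1 ∪ {z | z ∈ s i}) := by
      have h3 := AddSubgroup.closure_mono (show F1 ⊆ F1 ∪ {z | z ∈ s i} from fun z hz => Or.inl hz) hc
      have h4 := AddSubgroup.sub_mem _ h3 h1
      rwa [add_sub_cancel_right] at h4
    have hcop : IsCoprime (c i) (p : ℤ) := by
      have h3 : Prime (p : ℤ) := Nat.prime_iff_prime_int.1 hp
      exact ((Prime.coprime_iff_not_dvd h3).2 hi.2).symm
    obtain ⟨r, t, hrt⟩ := hcop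
    apply hα2 (s i)
    have h3 : (p ^ k) • a i = r • (c i • ((p ^ k) • a i)) := by
      rw [← mul_smul]
      have h4 : r * c i = 1 - t * p := by rw [← hrt]; ring
      rw [h4, sub_smul, one_smul, mul_smul, natCast_zsmul, hpa, smul_zero, sub_zero]
    change (p ^ k) • a i ∈ _
    rw [h3]
    exact AddSubgroup.zsmul_mem _ h2 _
  refine ⟨p, k, hp, a, fun i => hα1 _, fun c x hcx => ?_⟩
  -- divisibility by all powers
  have key : ∀ j ≤ k + 1, ∀ i, ((p ^ j : ℕ) : ℤ) ∣ c i := by
    intro j
    induction j with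
    | zero => intro _ i; simp
    | succ j ih =>
      intro hj i
      have ih' := ih (by omega)
      choose c' hc' using ih'
      have hpj : ((p ^ j : ℕ) : ℤ) ≠ 0 := by exact_mod_cast pow_ne_zero j hp0
      let cf : ℕ →₀ ℤ := Finsupp.onFinset c.support c' (fun i hi => by
        rw [Finsupp.mem_support_iff, hc' i]
        exact mul_ne_zero hpj hi)
      have hcf : ∀ i, cf i = c' i := fun i => rfl
      have h1 : c = ((p ^ j : ℕ) : ℤ) • cf := by
        ext i
        rw [Finsupp.smul_apply, hcf, smul_eq_mul, ← hc']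
      have h2 : Finsupp.linearCombination ℤ (fun i => (p ^ k) • a i) cf =
          (p ^ (k - j)) • ((p ^ (k + 1)) • x) := by
        rw [← hcx, h1, map_smul, natCast_zsmul, ← mul_smul, ← pow_add, Nat.sub_add_cancel (by omega)]
        rw [Finsupp.linearCombination_apply, Finsupp.linearCombination_apply, Finsupp.smul_sum]
        refine Finsupp.sum_congr fun i _ => ?_
        rw [smul_comm]
      have h3 : (p ^ (k - j)) • ((p ^ (k + 1)) • x) ∈ F1 := by
        refine ⟨?_, (p ^ (k - j)) • x, smul_comm _ _ _⟩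
        rw [← hcx, smul_comm]
        have h4 : (p ^ (k + 1)) • Finsupp.linearCombination ℤ a c = 0 := by
          rw [Finsupp.linearCombination_apply, Finsupp.smul_sum]
          refine Finset.sum_eq_zero fun i _ => ?_
          beta_reduce
          rw [smul_comm]
          have : (p ^ (k + 1)) • a i = 0 := hα1 _
          rw [this, smul_zero]
        rw [h4, smul_zero]
      have h4 := hind cf (by rw [h2]; exact AddSubgroup.subset_closure h3) i
      rw [hcf] at h4
      obtain ⟨r, hr⟩ := h4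
      refine ⟨r, ?_⟩
      rw [hc' i, hr, pow_succ]
      push_cast
      ring
  exact key (k + 1) le_rfl

end Pool.Agent.R821.Ps
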