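import Pool.Agent.R821.PsH

/-!
# The bounded case: assembly
-/

set_option autoImplicit false

open Filter Topology Cardinal

namespace Pool.Agent.R821.Ps

open Pool.Agent.R821 Pool.Agent.R821.Bp

universe u v w

theorem mem_ann_iff {G : Type u} [AddCommGroup G] (a : ℕ → (G →+ T)) (g : G) :
    g ∈ ann (AddSubgroup.closure (Set.range a)) ↔ ∀ i, a i g = 0 := by
  constructor
  · exact fun h i => h (a i) (AddSubgroup.subset_closure ⟨i, rfl⟩)
  · intro hg χ hχ
    induction hχ using AddSubgroup.closure_induction with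
    | mem x hx =>
      obtain ⟨k, rfl⟩ := hx
      exact hg k
    | zero => rfl
    | add x y _ _ hx hy => rw [AddMonoidHom.add_apply, hx, hy, add_zero]
    | neg x _ hx => rw [AddMonoidHom.neg_apply, hx, neg_zero]

/-- finitely many circle elements are killed by `N` -/
theorem finite_torsion_T (N : ℕ) (hN : N ≠ 0) : {t : T | N • t = 0}.Finite :=
  AddCircle.finite_torsion (1 : ℝ) (Nat.pos_of_ne_zero hN)

theorem infinite_chars {G : Type u} [AddCommGroup G] [Infinite G] (X : AddSubgroup (G →+ T))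
    (hsep : Sep X) (N : ℕ) (hN : N ≠ 0) (hb : ∀ χ ∈ X, N • χ = 0) : Infinite X := by
  by_contra hfin
  rw [not_infinite_iff_finite] at hfin
  have : Finite {t : T | N • t = 0} := (finite_torsion_T N hN).to_subtype
  let F : G → (X → {t : T | N • t = 0}) := fun g χ => ⟨χ.1 g, by
    change N • χ.1 g = 0
    have := hb χ.1 χ.2
    exact DFunLike.congr_fun this g⟩
  have hF : Function.Injective F := by
    intro g h hgh
    rw [← sub_eq_zero]
    apply hsep
    intro χ hχ
    rw [map_sub, sub_eq_zero]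
    exact congrArg Subtype.val (congrFun hgh ⟨χ, hχ⟩)
  exact (Infinite.of_injective F hF).not_finite inferInstance

/-- a basis of a vector space over `ℤ/p` of size continuum -/
theorem exists_basis_p {W : Type u} [AddCommGroup W] (p : ℕ) [Fact p.Prime] [Module (ZMod p) W]
    (hW1 : 𝔠 ≤ #W) (hW2 : #W ≤ 𝔠) :
    ∃ b : GT → W, (∀ c : GT →₀ ℤ, Finsupp.linearCombination ℤ b c = 0 → ∀ γ, (p : ℤ) ∣ c γ) ∧
      ∀ w : W, ∃ c : GT →₀ ℤ, Finsupp.linearCombination ℤ b c = w := by
  classical
  have hWinf : Infinite W := by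
    rw [Cardinal.infinite_iff]
    exact Cardinal.aleph0_le_continuum.trans hW1
  obtain ⟨ι, bW⟩ : ∃ ι : Set W, Nonempty (Module.Basis ι (ZMod p) W) :=
    ⟨_, ⟨Module.Basis.ofVectorSpace (ZMod p) W⟩⟩
  obtain ⟨bW⟩ := bW
  have hι : Infinite ι := by
    by_contra hfin
    rw [not_infinite_iff_finite] at hfin
    have : Finite (ι →₀ ZMod p) :=
      Finite.of_injective (fun f : ι →₀ ZMod p => (f : ι → ZMod p)) DFunLike.coe_injective
    exact Infinite.not_finite (α := W) (Finite.of_equiv _ bW.repr.toEquiv.symm)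
  have h1 : #W = #ι := by
    have h2 : #W = #(ι →₀ ZMod p) := Cardinal.mk_congr bW.repr.toEquiv
    rw [h2, Cardinal.mk_finsupp_lift_of_infinite, Cardinal.lift_uzero]
    apply max_eq_left
    have h3 : #(ZMod p) < ℵ₀ := Cardinal.lt_aleph0_of_finite _
    have h4 : Cardinal.lift.{u} #(ZMod p) < ℵ₀ := by
      rw [← Cardinal.lift_aleph0.{u, 0}]
      exact Cardinal.lift_lt.2 h3
    exact h4.le.trans (Cardinal.aleph0_le_mk ι)
  have h2 : #ι = 𝔠 := by
    rw [← h1]
    exact le_antisymm hW2 hW1
  have hcard : Cardinal.lift.{u} #GT = Cardinal.lift.{0} #ι := by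
    rw [mk_GT, Cardinal.lift_continuum, Cardinal.lift_uzero, h2]
  obtain ⟨e0⟩ := Cardinal.lift_mk_eq'.1 hcard
  let b : Module.Basis GT (ZMod p) W := bW.reindex e0.symm
  have hcomb : ∀ c : GT →₀ ℤ, Finsupp.linearCombination ℤ b c =
      ∑ γ ∈ c.support, ((c γ : ℤ) : ZMod p) • b γ := by
    intro c
    rw [Finsupp.linearCombination_apply, Finsupp.sum]
    refine Finset.sum_congr rfl fun γ _ => ?_
    exact (Int.cast_smul_eq_zsmul (ZMod p) (c γ) (b γ)).symm
  refine ⟨b, fun c hc γ => ?_, fun w => ?_⟩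
  · by_cases hγ : γ ∈ c.support
    · rw [hcomb] at hc
      have h5 := linearIndependent_iff'.1 b.linearIndependent _ _ hc γ hγ
      exact (ZMod.intCast_zmod_eq_zero_iff_dvd _ _).1 h5
    · rw [Finsupp.notMem_support_iff.1 hγ]
      exact dvd_zero _
  · have hp0 : NeZero p := ⟨(Fact.out : p.Prime).ne_zero⟩
    let c1 : GT →₀ ℤ := Finsupp.onFinset (b.repr w).support
      (fun γ => ((b.repr w γ).val : ℤ)) (fun γ hγ => by
        rw [Finsupp.mem_support_iff]
        intro h0
        apply hγ
        rw [h0]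
        simp)
    have hc1 : ∀ γ, c1 γ = ((b.repr w γ).val : ℤ) := fun γ => rfl
    refine ⟨c1, ?_⟩
    have h4 : ∀ γ, ((c1 γ : ℤ) : ZMod p) = b.repr w γ := by
      intro γ
      rw [hc1, Int.cast_natCast, ZMod.natCast_val, ZMod.cast_id', id]
    rw [hcomb]
    conv_rhs => rw [← b.linearCombination_repr w, Finsupp.linearCombination_apply, Finsupp.sum]
    simp only [h4]
    have h5 : c1.support = (b.repr w).support := by
      ext γ
      rw [Finsupp.mem_support_iff, Finsupp.mem_support_iff, hc1]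
      constructor
      · intro h6 h0
        apply h6
        rw [h0]
        simp
      · intro h6 h0
        apply h6
        have h7 : (b.repr w γ).val = 0 := by exact_mod_cast h0
        exact (ZMod.val_eq_zero _).1 h7
    rw [h5]

/-- a basis over `ℤ/p^(k+1)` -/
theorem exists_basis_bounded {Q : Type u} [AddCommGroup Q] (hQ : #Q ≤ 𝔠) (p k : ℕ) (hp : p.Prime)
    (hqQ : ∀ x : Q, (p ^ (k + 1)) • x = 0)
    (hD : ∀ x : Q, ∀ j ≤ k + 1, (p ^ j) • x = 0 → ∃ y : Q, x = (p ^ (k + 1 - j)) • y)
    (hbig : 𝔠 ≤ #{x : Q // p • x = 0}) :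
    ∃ e : GT → Q, (∀ c : GT →₀ ℤ, Finsupp.linearCombination ℤ e c = 0 →
        ∀ γ, ((p ^ (k + 1) : ℕ) : ℤ) ∣ c γ) ∧
      ∀ x : Q, ∃ c : GT →₀ ℤ, Finsupp.linearCombination ℤ e c = x := by
  classical
  have hpf : Fact p.Prime := ⟨hp⟩
  let W : AddSubgroup Q :=
    { carrier := {x | p • x = 0}
      zero_mem' := smul_zero _
      add_mem' := fun {x y} hx hy => by
        change p • (x + y) = 0
        rw [smul_add, show p • x = 0 from hx, show p • y = 0 from hy, add_zero]
      neg_mem' := fun {x} hx => by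
        change p • (-x) = 0
        rw [smul_neg, show p • x = 0 from hx, neg_zero] }
  have hW : ∀ x : W, p • x = 0 := fun x => Subtype.ext x.2
  let _ : Module (ZMod p) W := AddCommGroup.zmodModule hW
  obtain ⟨b, hb1, hb2⟩ := exists_basis_p (W := W) p hbig ((Cardinal.mk_set_le (W : Set Q)).trans hQ)
  have hex : ∀ γ : GT, ∃ y : Q, (b γ : Q) = (p ^ k) • y := by
    intro γ
    obtain ⟨y, hy⟩ := hD (b γ : Q) 1 (by omega) (by rw [pow_one]; exact (b γ).2)
    exact ⟨y, hy⟩
  choose e he using hex
  -- integer combinations of the basis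
  have hcomb : ∀ c : GT →₀ ℤ, (p ^ k) • Finsupp.linearCombination ℤ e c =
      ((Finsupp.linearCombination ℤ b c : W) : Q) := by
    intro c
    have h1 : ((Finsupp.linearCombination ℤ b c : W) : Q) =
        W.subtype (Finsupp.linearCombination ℤ b c) := rfl
    rw [h1, Finsupp.linearCombination_apply, Finsupp.linearCombination_apply, Finsupp.sum, Finsupp.sum,
      Finset.smul_sum, map_sum]
    refine Finset.sum_congr rfl fun γ _ => ?_
    rw [map_zsmul]
    change _ = c γ • (b γ : Q)
    rw [he, smul_comm]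
  have hind : ∀ c : GT →₀ ℤ, (p ^ k) • Finsupp.linearCombination ℤ e c = 0 → ∀ γ, (p : ℤ) ∣ c γ := by
    intro c hc γ
    rw [hcomb] at hc
    exact hb1 c (Subtype.ext hc) γ
  refine ⟨e, ?_, ?_⟩
  · intro c hc
    have key : ∀ j ≤ k + 1, ∀ γ, ((p ^ j : ℕ) : ℤ) ∣ c γ := by
      intro j
      induction j with
      | zero => intro _ γ; simp
      | succ j ih =>
        intro hj γ
        have ih' := ih (by omega)
        choose c' hc' using ih'
        have hpj : ((p ^ j : ℕ) : ℤ) ≠ 0 := by exact_mod_cast pow_ne_zero j hp.ne_zero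
        let cf : GT →₀ ℤ := Finsupp.onFinset c.support c' (fun i hi => by
          rw [Finsupp.mem_support_iff, hc' i]
          exact mul_ne_zero hpj hi)
        have hcf : ∀ i, cf i = c' i := fun i => rfl
        have h1 : c = ((p ^ j : ℕ) : ℤ) • cf := by
          ext i
          rw [Finsupp.smul_apply, hcf, smul_eq_mul, ← hc']
        have h2 : (p ^ k) • Finsupp.linearCombination ℤ e cf = 0 := by
          have h3 : (p ^ j) • Finsupp.linearCombination ℤ e cf = 0 := by
            rw [← natCast_zsmul, ← map_smul, ← h1, hc]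
          have h4 : p ^ k = p ^ (k - j) * p ^ j := by
            rw [← pow_add]
            congr 1
            omega
          rw [h4, mul_smul, h3, smul_zero]
        obtain ⟨r, hr⟩ := hind cf h2 γ
        rw [hcf] at hr
        refine ⟨r, ?_⟩
        rw [hc' γ, hr, pow_succ]
        push_cast
        ring
    exact key (k + 1) le_rfl
  · have key : ∀ j ≤ k + 1, ∀ x : Q, (p ^ j) • x = 0 → ∃ c : GT →₀ ℤ, Finsupp.linearCombination ℤ e c = x := by
      intro j
      induction j with
      | zero =>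
        intro _ x hx
        rw [pow_zero, one_smul] at hx
        exact ⟨0, by rw [map_zero, hx]⟩
      | succ j ih =>
        intro hj x hx
        -- the `p ^ j`-multiple of `x` is a combination of basis elements
        have h1 : p • ((p ^ j) • x) = 0 := by rw [← mul_smul, ← pow_succ', hx]
        obtain ⟨c1, hc1⟩ := hb2 ⟨(p ^ j) • x, h1⟩
        have h2 : (p ^ k) • Finsupp.linearCombination ℤ e c1 = (p ^ j) • x := by
          rw [hcomb, hc1]
        have h3 : (p ^ j) • (x - (p ^ (k - j)) • Finsupp.linearCombination ℤ e c1) = 0 := by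
          rw [smul_sub, ← mul_smul, ← pow_add]
          have h4 : j + (k - j) = k := by omega
          rw [h4, h2, sub_self]
        obtain ⟨c2, hc2⟩ := ih (by omega) _ h3
        refine ⟨((p ^ (k - j) : ℕ) : ℤ) • c1 + c2, ?_⟩
        rw [map_add, map_smul, natCast_zsmul, hc2, add_sub_cancel]
    exact fun x => key (k + 1) le_rfl x (hqQ x)

/-- **The bounded case.** -/
theorem bounded_case {G : Type u} [AddCommGroup G] [Infinite G] (X : AddSubgroup (G →+ T)) (hX : P1 X)
    (hsep : Sep X) (N : ℕ) (hN : N ≠ 0) (hbd : ∀ χ ∈ X, N • χ = 0) :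
    ∃ X' : AddSubgroup (G →+ T), P1 X' ∧ Sep X' ∧ ¬ @SelectivelyPseudocompact G (top X') := by
  classical
  have hXinf := infinite_chars X hsep N hN hbd
  obtain ⟨p, k, hp, a, ha, hind⟩ := exists_free_part (Y := X) N hN
    (fun χ => Subtype.ext (hbd χ.1 χ.2))
  set q := p ^ (k + 1) with hq
  have hq0 : q ≠ 0 := pow_ne_zero _ hp.ne_zero
  let a' : ℕ → (G →+ T) := fun i => (a i).1
  have ha' : ∀ i, q • a' i = 0 := fun i => congrArg Subtype.val (ha i)
  let A := AddSubgroup.closure (Set.range a')
  have hA : (A : Set (G →+ T)).Countable := countable_closure (Set.countable_range _)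
  have hAX : A ≤ X := by
    rw [AddSubgroup.closure_le]
    rintro _ ⟨k, rfl⟩
    exact (a k).2
  -- extension of characters
  have hE1 : ∀ r : ℕ → T, (∀ i, q • r i = 0) → ∃ σ : (G →+ T) →+ T, (∀ i, σ (a' i) = r i) ∧
      ∀ x ∈ X, σ (q • x) = 0 := by
    intro r hr
    let lc : (ℕ →₀ ℤ) →+ (G →+ T) := (Finsupp.linearCombination ℤ a').toAddMonoidHom
    let lr : (ℕ →₀ ℤ) →+ T := (Finsupp.linearCombination ℤ r).toAddMonoidHom
    obtain ⟨σ, hσ⟩ := ext_T (lc.coprod ((nsmulAddMonoidHom q : (G →+ T) →+ (G →+ T)).comp X.subtype))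
      (lr.coprod 0) (by
        rintro ⟨c, x⟩ h0
        have h1 : lc c + q • x.1 = 0 := h0
        have h2 : Finsupp.linearCombination ℤ a c = q • (-x) := by
          apply Subtype.ext
          have h3 : ((Finsupp.linearCombination ℤ a c : X) : G →+ T) = lc c := by
            change X.subtype (Finsupp.linearCombination ℤ a c) = Finsupp.linearCombination ℤ a' c
            rw [Finsupp.linearCombination_apply, Finsupp.linearCombination_apply, Finsupp.sum,
              Finsupp.sum, map_sum]
            rfl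
          rw [h3]
          change lc c = q • (-x.1)
          rw [smul_neg]
          exact eq_neg_of_add_eq_zero_left h1
        have h3 := hind c (-x) h2
        change lr c + 0 = 0
        rw [add_zero]
        change Finsupp.linearCombination ℤ r c = 0
        rw [Finsupp.linearCombination_apply, Finsupp.sum]
        refine Finset.sum_eq_zero fun i _ => ?_
        obtain ⟨m, hm⟩ := h3 i
        rw [hm, mul_comm, mul_smul, natCast_zsmul, hr, smul_zero])
    refine ⟨σ, fun i => ?_, fun x hx => ?_⟩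
    · have h1 := hσ (Finsupp.single i 1, 0)
      change σ (lc (Finsupp.single i 1) + q • (0 : G →+ T)) = lr (Finsupp.single i 1) + 0 at h1
      rw [smul_zero, add_zero, add_zero] at h1
      have h2 : lc (Finsupp.single i 1) = a' i := by
        change Finsupp.linearCombination ℤ _ _ = _
        rw [Finsupp.linearCombination_single, one_smul]
      have h3 : lr (Finsupp.single i 1) = r i := by
        change Finsupp.linearCombination ℤ _ _ = _
        rw [Finsupp.linearCombination_single, one_smul]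
      rwa [h2, h3] at h1
    · have h1 := hσ (0, ⟨x, hx⟩)
      change σ (lc 0 + q • x) = lr 0 + 0 at h1
      rwa [map_zero, map_zero, zero_add, add_zero] at h1
  -- the quotient
  let Q := G ⧸ ann A
  have hmemA : ∀ g : G, g ∈ ann A ↔ ∀ i, a' i g = 0 := mem_ann_iff a'
  have hQ : #Q ≤ 𝔠 := mk_quotient_le a'
  have hqg : ∀ (g : G) i, q • a' i g = 0 := fun g i => DFunLike.congr_fun (ha' i) g
  have hqQ : ∀ x : Q, q • x = 0 := by
    intro x
    obtain ⟨g, rfl⟩ := QuotientAddGroup.mk_surjective x
    change ((q • g : G) : Q) = 0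
    rw [QuotientAddGroup.eq_zero_iff, hmemA]
    intro i
    rw [map_nsmul, hqg]
  have hreal : ∀ r : ℕ → T, (∀ i, q • r i = 0) → ∃ g : G, ∀ i, a' i g = r i := by
    intro r hr
    obtain ⟨σ, hσ, -⟩ := hE1 r hr
    obtain ⟨g, hg⟩ := hX (A : Set (G →+ T)) hAX hA σ
    exact ⟨g, fun i => by rw [hg (a' i) (AddSubgroup.subset_closure ⟨i, rfl⟩), hσ]⟩
  have hD : ∀ x : Q, ∀ j ≤ k + 1, (p ^ j) • x = 0 → ∃ y : Q, x = (p ^ (k + 1 - j)) • y := by
    intro x j hj hx
    obtain ⟨g, rfl⟩ := QuotientAddGroup.mk_surjective x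
    have h1 : (p ^ j) • g ∈ ann A := by
      rw [← QuotientAddGroup.eq_zero_iff]
      exact hx
    rw [hmemA] at h1
    have hne : ((p ^ (k + 1 - j) : ℕ) : ℤ) ≠ 0 := by exact_mod_cast pow_ne_zero _ hp.ne_zero
    have h2 : ∀ i, ∃ r : T, (p ^ (k + 1 - j)) • r = a' i g := by
      intro i
      refine ⟨DivisibleBy.div (a' i g) ((p ^ (k + 1 - j) : ℕ) : ℤ), ?_⟩
      rw [← natCast_zsmul]
      exact DivisibleBy.div_cancel _ hne
    choose r hr using h2
    obtain ⟨g', hg'⟩ := hreal r (fun i => by
      have h3 : q = p ^ j * p ^ (k + 1 - j) := by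
        rw [← pow_add, hq]
        congr 1
        omega
      rw [h3, mul_smul, hr, ← map_nsmul, h1])
    refine ⟨(g' : Q), ?_⟩
    change (g : Q) = ((p ^ (k + 1 - j) • g' : G) : Q)
    rw [QuotientAddGroup.eq, hmemA]
    intro i
    rw [map_add, map_neg, map_nsmul, hg', hr, neg_add_cancel]
  have hbig : 𝔠 ≤ #{x : Q // p • x = 0} := by
    have hp0 : (0 : ℝ) < p := by exact_mod_cast hp.pos
    let u : T := ((1 / p : ℝ) : T)
    have hu0 : u ≠ 0 := by
      intro h
      have h1 : |(1 / p : ℝ)| ≤ 1 / 2 := by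
        rw [abs_of_pos (by positivity)]
        apply one_div_le_one_div_of_le (by norm_num)
        exact_mod_cast hp.two_le
      have h2 := norm_coe_eq h1
      have h3 : ‖((1 / p : ℝ) : T)‖ = 0 := by
        change ‖u‖ = 0
        rw [h]; exact norm_zero
      rw [h3, abs_of_pos (by positivity)] at h2
      have : (0 : ℝ) < 1 / p := by positivity
      linarith
    have hpu : p • u = 0 := by
      change p • ((1 / p : ℝ) : T) = 0
      rw [← AddCircle.coe_nsmul, nsmul_eq_mul, mul_one_div_cancel hp0.ne']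
      exact AddCircle.coe_period 1
    have hqu : ∀ t : T, p • t = 0 → q • t = 0 := by
      intro t ht
      rw [hq, pow_succ, mul_smul, ht, smul_zero]
    have h1 : ∀ x : ℕ → ZMod 2, ∃ g : G, ∀ i, a' i g = if x i = 0 then 0 else u := by
      intro x
      apply hreal
      intro i
      apply hqu
      split_ifs
      · exact smul_zero _
      · exact hpu
    choose g hg using h1
    let F : (ℕ → ZMod 2) → {x : Q // p • x = 0} := fun x => ⟨(g x : Q), by
      change ((p • g x : G) : Q) = 0
      rw [QuotientAddGroup.eq_zero_iff, hmemA]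
      intro i
      rw [map_nsmul, hg]
      split_ifs
      · exact smul_zero _
      · exact hpu⟩
    have hF : Function.Injective F := by
      intro x y hxy
      have h2 : ((g x : G) : Q) = (g y : Q) := congrArg Subtype.val hxy
      rw [QuotientAddGroup.eq, hmemA] at h2
      funext i
      have h3 := h2 i
      rw [map_add, map_neg, neg_add_eq_zero, hg, hg] at h3
      rcases zmod_two (x i) with h4 | h4 <;> rcases zmod_two (y i) with h5 | h5
      · rw [h4, h5]
      · rw [h4, h5, if_pos rfl, if_neg one_ne_zero] at h3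
        exact absurd h3.symm hu0
      · rw [h4, h5, if_pos rfl, if_neg one_ne_zero] at h3
        exact absurd h3 hu0
      · rw [h4, h5]
    have h2 : Cardinal.lift.{u} #(ℕ → ZMod 2) ≤ Cardinal.lift.{0} #{x : Q // p • x = 0} :=
      Cardinal.lift_mk_le'.2 ⟨⟨F, hF⟩⟩
    rwa [mk_seq, Cardinal.lift_continuum, Cardinal.lift_uzero] at h2
  obtain ⟨e, he1, he2⟩ := exists_basis_bounded hQ p k hp hqQ hD hbig
  obtain ⟨I, hI, b, hba, hbb⟩ := exists_chars_bounded hQ q hqQ e he1 he2
  let B := AddSubgroup.closure (Set.range b)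
  have hB : P1 B := P1_closure b {t | q • t = 0} hba (fun s i => by
    change q • s (b i) = 0
    rw [← map_nsmul]
    have : q • b i = 0 := by
      ext x
      change q • b i x = 0
      rw [← map_nsmul, hqQ, map_zero]
    rw [this, map_zero])
  have hBsep : Sep B := by
    intro x hx
    by_contra hne
    obtain ⟨f, hf⟩ := exists_char_ne_zero x hne
    obtain ⟨i, hi⟩ := hbb f {x} (Set.countable_singleton x)
    apply hf
    rw [← hi x rfl]
    exact hx (b i) (AddSubgroup.subset_closure ⟨i, rfl⟩)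
  -- homomorphisms from the basis
  have hext : ∀ r : GT → T, (∀ γ, q • r γ = 0) → ∃ φ : Q →+ T, ∀ γ, φ (e γ) = r γ := by
    intro r hr
    obtain ⟨φ, hφ⟩ := ext_T (Finsupp.linearCombination ℤ e).toAddMonoidHom
      (Finsupp.linearCombination ℤ r).toAddMonoidHom (by
        intro c hc
        change Finsupp.linearCombination ℤ r c = 0
        rw [Finsupp.linearCombination_apply, Finsupp.sum]
        refine Finset.sum_eq_zero fun γ _ => ?_
        obtain ⟨m, hm⟩ := he1 c hc γ
        rw [hm, mul_comm, mul_smul, natCast_zsmul, hr, smul_zero])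
    refine ⟨φ, fun γ => ?_⟩
    have h1 := hφ (Finsupp.single γ 1)
    change φ (Finsupp.linearCombination ℤ e _) = Finsupp.linearCombination ℤ r _ at h1
    rwa [Finsupp.linearCombination_single, Finsupp.linearCombination_single, one_smul, one_smul] at h1
  have huniq : ∀ φ ψ : Q →+ T, (∀ γ, φ (e γ) = ψ (e γ)) → φ = ψ := by
    intro φ ψ h
    refine DFunLike.ext _ _ fun x => ?_
    obtain ⟨c, rfl⟩ := he2 x
    rw [Finsupp.linearCombination_apply, Finsupp.sum, map_sum, map_sum]
    refine Finset.sum_congr rfl fun γ _ => ?_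
    rw [map_zsmul, map_zsmul, h]
  choose gγ hgγ using fun γ => QuotientAddGroup.mk_surjective (e γ)
  choose lam hlam1 hlam2 using fun γ => hE1 (fun i => -(a' i (gγ γ))) (fun i => by
    rw [smul_neg, hqg, neg_zero])
  have hlamA : ∀ γ, ∀ χ ∈ A, lam γ χ = -(χ (gγ γ)) := by
    intro γ χ hχ
    induction hχ using AddSubgroup.closure_induction with
    | mem x hx =>
      obtain ⟨i, rfl⟩ := hx
      exact hlam1 γ i
    | zero => rw [map_zero, AddMonoidHom.zero_apply, neg_zero]
    | add x y _ _ hx hy => rw [map_add, hx, hy, AddMonoidHom.add_apply, neg_add]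
    | neg x _ hx => rw [map_neg, hx, AddMonoidHom.neg_apply]
  choose Θ hΘ using fun χ : X => hext (fun γ => lam γ χ.1) (fun γ => by
    rw [← map_nsmul]
    exact hlam2 γ χ.1 χ.2)
  let θ : X →+ (Q →+ T) ⧸ B := AddMonoidHom.mk' (fun χ => ((Θ χ : Q →+ T) : (Q →+ T) ⧸ B)) (fun χ ψ => by
    have h1 : Θ (χ + ψ) = Θ χ + Θ ψ := by
      apply huniq
      intro γ
      rw [AddMonoidHom.add_apply, hΘ, hΘ, hΘ, AddSubgroup.coe_add, map_add]
    rw [h1]
    rfl)
  obtain ⟨X', h1, h2, h3⟩ := replace hX hsep hAX hA B hB hBsep θ (by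
    intro χ φ hφ
    have hχA : χ.1 ∈ A := by
      apply mem_of_ann hX hAX hA χ.1 χ.2
      intro z hz
      rw [← hφ, infl_apply, (QuotientAddGroup.eq_zero_iff z).2 hz, map_zero]
    have h4 : Θ χ = -φ := by
      apply huniq
      intro γ
      rw [hΘ, hlamA γ χ.1 hχA, AddMonoidHom.neg_apply, ← hφ, infl_apply, hgγ]
    change ((Θ χ : Q →+ T) : (Q →+ T) ⧸ B) = _
    rw [h4]
    rfl)
  refine ⟨X', h1, h2, ?_⟩
  have hq2 : 2 ≤ q := by
    rw [hq]
    calc 2 ≤ p := hp.two_le
      _ = p ^ 1 := (pow_one p).symm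
      _ ≤ p ^ (k + 1) := Nat.pow_le_pow_right hp.pos (by omega)
  exact not_sel_bounded X' (QuotientAddGroup.mk' (ann A)) (QuotientAddGroup.mk'_surjective _) b
    (fun i => h3 (b i) (AddSubgroup.subset_closure ⟨i, rfl⟩)) q hq2 hqQ hba hbb

end Pool.Agent.R821.Ps
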