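import Mathlib
import Pool.Agent.R821.UnifTop

/-!
# Topologies on the integers given by sets of powers of two
-/

set_option autoImplicit false

open Filter Topology Pointwise

namespace Pool.Agent.R821

/-- the characters `k ↦ k / 2 ^ e`, `e ∈ A` -/
def pw (A : Set ℕ) : Set T := (fun e : ℕ => ((1 / 2 ^ e : ℝ) : T)) '' A

/-- `A` has few elements in long intervals far out -/
def Nice (A : Set ℕ) : Prop :=
  ∃ R : ℕ, ∀ L : ℕ, ∃ n0 : ℕ, ∀ n, n0 ≤ n → (A ∩ Set.Ico n (n + L)).ncard ≤ R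

theorem Nice.union {A B : Set ℕ} (hA : Nice A) (hB : Nice B) : Nice (A ∪ B) := by
  obtain ⟨R, hR⟩ := hA
  obtain ⟨R', hR'⟩ := hB
  refine ⟨R + R', fun L => ?_⟩
  obtain ⟨n0, hn0⟩ := hR L
  obtain ⟨n1, hn1⟩ := hR' L
  refine ⟨max n0 n1, fun n hn => ?_⟩
  rw [Set.union_inter_distrib_right]
  refine (Set.ncard_union_le _ _).trans ?_
  exact add_le_add (hn0 n ((le_max_left _ _).trans hn)) (hn1 n ((le_max_right _ _).trans hn))

/-- `A` has gaps of every length in long intervals far out -/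
def Gappy (A : Set ℕ) : Prop :=
  ∀ r : ℕ, ∃ L n0 : ℕ, ∀ n, n0 ≤ n → ∃ q, n ≤ q ∧ q ≤ n + L ∧ ∀ e ∈ A, ¬ (q < e ∧ e ≤ q + r)

theorem pigeon {A : Set ℕ} {R L n : ℕ} (hR : (A ∩ Set.Ico n (n + L)).ncard ≤ R) (f : Fin (R + 1) → ℕ)
    (hf : Function.Injective f) (hfA : ∀ i, f i ∈ A ∩ Set.Ico n (n + L)) : False := by
  have hfin : (A ∩ Set.Ico n (n + L)).Finite := (Set.finite_Ico _ _).subset Set.inter_subset_right
  have h1 : (Set.range f).ncard ≤ (A ∩ Set.Ico n (n + L)).ncard := by
    refine Set.ncard_le_ncard ?_ hfin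
    rintro _ ⟨i, rfl⟩
    exact hfA i
  have h2 : (Set.range f).ncard = R + 1 := by
    rw [← Set.image_univ, Set.ncard_image_of_injective _ hf, Set.ncard_univ, Nat.card_eq_fintype_card,
      Fintype.card_fin]
  omega

theorem Nice.gappy {A : Set ℕ} (hA : Nice A) : Gappy A := by
  obtain ⟨R, hR⟩ := hA
  intro r
  obtain ⟨n0, hn0⟩ := hR ((R + 1) * (r + 1) + 1)
  refine ⟨(R + 1) * (r + 1), n0, fun n hn => ?_⟩
  by_contra hcon
  push Not at hcon
  have h1 : ∀ i : Fin (R + 1), ∃ e ∈ A, n + i * (r + 1) < e ∧ e ≤ n + i * (r + 1) + r := by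
    intro i
    refine hcon (n + i * (r + 1)) (by omega) ?_
    have := i.2
    have h2 : (i : ℕ) * (r + 1) ≤ (R + 1) * (r + 1) := Nat.mul_le_mul_right _ (by omega)
    omega
  choose f hfA hf1 hf2 using h1
  refine pigeon (hn0 n hn) f ?_ ?_
  · intro i j hij
    rcases lt_trichotomy (i : ℕ) j with h | h | h
    · exfalso
      have h3 : ((i : ℕ) + 1) * (r + 1) ≤ j * (r + 1) := Nat.mul_le_mul_right _ h
      have := hf2 i
      have := hf1 j
      rw [hij] at *
      nlinarith
    · exact Fin.ext h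
    · exfalso
      have h3 : ((j : ℕ) + 1) * (r + 1) ≤ i * (r + 1) := Nat.mul_le_mul_right _ h
      have := hf2 j
      have := hf1 i
      rw [hij] at *
      nlinarith
  · intro i
    refine ⟨hfA i, ?_, ?_⟩
    · have := hf1 i
      omega
    · have := hf2 i
      have := i.2
      have h2 : (i : ℕ) * (r + 1) ≤ R * (r + 1) := Nat.mul_le_mul_right _ (by omega)
      nlinarith

/-- the norm of a dyadic fraction -/
theorem norm_pow_div {p e : ℕ} : ‖((2 : ℤ) ^ p) • ((1 / 2 ^ e : ℝ) : T)‖ ≤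
    if e ≤ p then 0 else (1 / 2 : ℝ) ^ (e - p) := by
  rw [← AddCircle.coe_zsmul, zsmul_eq_mul]
  push_cast
  split_ifs with h
  · obtain ⟨d, rfl⟩ := Nat.exists_eq_add_of_le h
    have h1 : ((2 : ℝ) ^ (e + d) * (1 / 2 ^ e)) = ((2 ^ d : ℕ) : ℝ) := by
      rw [pow_add]
      push_cast
      field_simp
    rw [h1]
    have h2 : ((((2 ^ d : ℕ) : ℝ)) : T) = 0 := by
      rw [AddCircle.coe_eq_zero_iff]
      exact ⟨(2 ^ d : ℕ), by simp⟩
    rw [h2, norm_zero]
  · push Not at h
    obtain ⟨d, rfl⟩ := Nat.exists_eq_add_of_lt h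
    refine (norm_coe_le _).trans ?_
    rw [abs_of_pos (by positivity)]
    have h3 : p + d + 1 - p = d + 1 := by omega
    rw [h3, one_div_pow, pow_add, pow_add]
    have : (2 : ℝ) ^ p ≠ 0 := by positivity
    rw [show (2 : ℝ) ^ p * (1 / (2 ^ p * 2 ^ d * 2 ^ 1)) = 1 / 2 ^ (d + 1) by
      rw [pow_add]; field_simp]

theorem eq_zero_of_pow_small {z : T} (h : ∀ d : ℕ, ‖(2 ^ d : ℤ) • z‖ ≤ 1 / 8) : z = 0 := by
  obtain ⟨r, rfl, hr1, hr2⟩ := exists_real z
  have h1 : ∀ d : ℕ, |(2 : ℝ) ^ d * r| ≤ 1 / 8 := by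
    intro d
    induction d with
    | zero =>
      have h0 := h 0
      rw [pow_zero, one_smul, ← hr1] at h0
      simpa using h0
    | succ d ih =>
      have h2 := h (d + 1)
      rw [← AddCircle.coe_zsmul, zsmul_eq_mul] at h2
      push_cast at h2
      have h3 : |(2 : ℝ) ^ (d + 1) * r| ≤ 1 / 2 := by
        have : (2 : ℝ) ^ (d + 1) * r = 2 * ((2 : ℝ) ^ d * r) := by ring
        rw [this, abs_mul, abs_two]
        linarith
      rw [norm_coe_eq h3] at h2
      exact h2
  have h4 : r = 0 := by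
    by_contra hne
    have hpos : 0 < |r| := abs_pos.2 hne
    obtain ⟨j, hj⟩ := pow_unbounded_of_one_lt (1 / |r|) (one_lt_two : (1 : ℝ) < 2)
    have h5 := h1 j
    rw [abs_mul, abs_of_pos (pow_pos two_pos j)] at h5
    rw [div_lt_iff₀ hpos] at hj
    linarith
  rw [h4]
  rfl

/-- An element `x` of the circle such that the character of `ℤ` given by `x` is bounded by `1/4` on
`Vset (pw A) m`, with `A` having gaps, is a dyadic rational. -/
theorem dyadic_of_gappy {A : Set ℕ} (hA : Gappy A) {m : ℕ} (hm : 1 ≤ m) {x : T}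
    (hx : ∀ l ∈ Vset (pw A) m, ‖l • x‖ ≤ 1 / 4) : ∃ n : ℕ, (2 ^ n : ℕ) • x = 0 := by
  classical
  -- `2 ^ (-r) ≤ 1 / (4 m)`
  obtain ⟨r, hr⟩ : ∃ r : ℕ, (1 / 2 : ℝ) ^ r ≤ 1 / (4 * m) := by
    have hm0 : (0 : ℝ) < m := by exact_mod_cast hm
    obtain ⟨r, hr⟩ := exists_pow_lt_of_lt_one (show (0 : ℝ) < 1 / (4 * m) by positivity)
      (by norm_num : (1 / 2 : ℝ) < 1)
    exact ⟨r, hr.le⟩
  obtain ⟨L, n0, hL⟩ := hA r
  -- allowed exponents
  let Al : Set ℕ := {q | ∀ e ∈ A, ¬ (q < e ∧ e ≤ q + r)}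
  -- sums of signed powers of two with allowed exponents
  have hmem : ∀ (P : Finset ℕ) (s : ℕ → ℤ), (∀ p ∈ P, p ∈ Al) → (∀ p, |s p| ≤ 1) →
      (∑ p ∈ P, s p * 2 ^ p) ∈ Vset (pw A) m := by
    intro P s hP hs
    rw [mem_Vset]
    rintro _ ⟨e, he, rfl⟩
    change ‖(∑ p ∈ P, s p * 2 ^ p) • ((1 / 2 ^ e : ℝ) : T)‖ ≤ _
    rw [Finset.sum_smul]
    refine (norm_sum_le _ _).trans ?_
    have h1 : ∀ p ∈ P, ‖(s p * 2 ^ p) • ((1 / 2 ^ e : ℝ) : T)‖ ≤
        if e ≤ p then 0 else (1 / 2 : ℝ) ^ (e - p) := by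
      intro p _
      rw [mul_smul]
      refine (zsmul_norm_le _ _).trans ?_
      have h2 : |((s p : ℤ) : ℝ)| ≤ 1 := by exact_mod_cast hs p
      refine (mul_le_mul h2 norm_pow_div (norm_nonneg _) zero_le_one).trans ?_
      rw [one_mul]
    refine (Finset.sum_le_sum h1).trans ?_
    rw [Finset.sum_ite, Finset.sum_const_zero, zero_add]
    have h2 : ∀ p ∈ P.filter fun p => ¬ e ≤ p, p + r < e := by
      intro p hp
      obtain ⟨hpP, hpe⟩ := Finset.mem_filter.1 hp
      have h3 := hP p hpP e he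
      omega
    have h3 : ∑ p ∈ P.filter (fun p => ¬ e ≤ p), (1 / 2 : ℝ) ^ (e - p) ≤
        ∑ i ∈ (Finset.range e).filter (fun i => r < i + 1), (1 / 2 : ℝ) ^ (i + 1) := by
      have h4 : ∑ p ∈ P.filter (fun p => ¬ e ≤ p), (1 / 2 : ℝ) ^ (e - p) =
          ∑ i ∈ (P.filter (fun p => ¬ e ≤ p)).image (fun p => e - p - 1), (1 / 2 : ℝ) ^ (i + 1) := by
        rw [Finset.sum_image]
        · refine Finset.sum_congr rfl fun p hp => ?_
          have := h2 p hp
          congr 1
          omega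
        · intro p hp q hq hpq
          have h5 := h2 p hp
          have h6 := h2 q hq
          simp only at hpq
          omega
      rw [h4]
      refine Finset.sum_le_sum_of_subset_of_nonneg ?_ fun i _ _ => by positivity
      intro i hi
      obtain ⟨p, hp, rfl⟩ := Finset.mem_image.1 hi
      have h5 := h2 p hp
      refine Finset.mem_filter.2 ⟨Finset.mem_range.2 (by omega), by omega⟩
    refine h3.trans (le_trans ?_ hr)
    -- geometric series
    have h5 : ∀ k : ℕ, ∑ i ∈ (Finset.range k).filter (fun i => r < i + 1), (1 / 2 : ℝ) ^ (i + 1) ≤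
        (1 / 2 : ℝ) ^ r - if r ≤ k then (1 / 2 : ℝ) ^ k else (1 / 2 : ℝ) ^ r := by
      intro k
      induction k with
      | zero =>
        simp only [Finset.range_zero, Finset.filter_empty, Finset.sum_empty]
        split_ifs with h
        · have : r = 0 := by omega
          subst this
          simp
        · simp
      | succ k ih =>
        rw [Finset.range_add_one, Finset.filter_insert]
        by_cases hk : r < k + 1
        · rw [if_pos hk, Finset.sum_insert (by simp)]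
          rw [if_pos (by omega)]
          rw [if_pos (by omega)] at ih
          have : (1 / 2 : ℝ) ^ k = 2 * (1 / 2 : ℝ) ^ (k + 1) := by
            rw [pow_succ]; ring
          linarith
        · rw [if_neg hk]
          by_cases hk2 : r ≤ k + 1
          · have hkr : r = k + 1 := by omega
            rw [if_pos hk2]
            rw [if_neg (by omega)] at ih
            have h6 : (1 / 2 : ℝ) ^ (k + 1) = (1 / 2) ^ r := by rw [hkr]
            linarith
          · rw [if_neg hk2]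
            rw [if_neg (by omega)] at ih
            exact ih
    refine (h5 e).trans ?_
    split_ifs
    · have : (0 : ℝ) ≤ (1 / 2) ^ e := by positivity
      linarith
    · have : (0 : ℝ) ≤ (1 / 2) ^ r := by positivity
      linarith
  -- the sum of the norms over allowed exponents is bounded
  choose y hy1 hy2 hy3 using fun p : ℕ => exists_real ((2 ^ p : ℤ) • x)
  let s : ℕ → ℤ := fun p => if 0 ≤ y p then 1 else -1
  have hs : ∀ p, |s p| ≤ 1 := by
    intro p
    simp only [s]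
    split_ifs <;> simp
  have hsy : ∀ p, ((s p : ℤ) : ℝ) * y p = |y p| := by
    intro p
    simp only [s]
    split_ifs with h
    · rw [abs_of_nonneg h]; simp
    · rw [abs_of_neg (not_le.1 h)]; simp
  have hsum : ∀ P : Finset ℕ, (∀ p ∈ P, p ∈ Al) → ∑ p ∈ P, |y p| ≤ 1 / 4 := by
    intro P
    induction P using Finset.induction_on with
    | empty => intro _; simp
    | insert p P hp ih =>
      intro hP
      have h1 := ih fun q hq => hP q (Finset.mem_insert_of_mem hq)
      have h2 : |y p| ≤ 1 / 4 := by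
        rw [hy2]
        have h3 := hx _ (hmem {p} (fun _ => 1) (fun q hq => by
          rw [Finset.mem_singleton.1 hq]; exact hP p (Finset.mem_insert_self _ _)) (by simp))
        simpa using h3
      rw [Finset.sum_insert hp]
      have h3 := hx _ (hmem (insert p P) s hP hs)
      have h4 : (∑ q ∈ insert p P, s q * 2 ^ q) • x = ((∑ q ∈ insert p P, |y q| : ℝ) : T) := by
        rw [Finset.sum_smul]
        have h5 : ((∑ q ∈ insert p P, |y q| : ℝ) : T) = ∑ q ∈ insert p P, ((|y q| : ℝ) : T) := by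
          induction (insert p P) using Finset.induction_on with
          | empty => simp
          | insert a S ha ih2 => rw [Finset.sum_insert ha, Finset.sum_insert ha, AddCircle.coe_add, ih2]
        rw [h5]
        refine Finset.sum_congr rfl fun q _ => ?_
        rw [mul_smul, ← hy1 q, ← AddCircle.coe_zsmul, zsmul_eq_mul, hsy]
      rw [h4, Finset.sum_insert hp] at h3
      have h6 : |(|y p| + ∑ q ∈ P, |y q|)| ≤ 1 / 2 := by
        have h7 : 0 ≤ ∑ q ∈ P, |y q| := Finset.sum_nonneg fun q _ => abs_nonneg _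
        rw [abs_of_nonneg (by positivity)]
        linarith
      rw [norm_coe_eq h6] at h3
      exact (le_abs_self _).trans h3
  -- hence the norms tend to zero along the allowed exponents
  have hfin : ∀ δ > 0, {p | p ∈ Al ∧ δ ≤ |y p|}.Finite := by
    intro δ hδ
    by_contra hinf
    have hinf' : {p | p ∈ Al ∧ δ ≤ |y p|}.Infinite := hinf
    obtain ⟨k, hk⟩ := exists_nat_gt (1 / δ)
    obtain ⟨P, hP, hcard⟩ := hinf'.exists_subset_card_eq k
    have h1 := hsum P fun p hp => (hP hp).1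
    have h2 : ∑ p ∈ P, δ ≤ ∑ p ∈ P, |y p| := Finset.sum_le_sum fun p hp => (hP hp).2
    rw [Finset.sum_const, hcard, nsmul_eq_mul] at h2
    rw [div_lt_iff₀ hδ] at hk
    linarith
  -- the norms at most double
  have hdouble : ∀ p d, |y (p + d)| ≤ 2 ^ d * |y p| := by
    intro p d
    rw [hy2, hy2]
    have h1 : (2 ^ (p + d) : ℤ) • x = (2 ^ d : ℤ) • ((2 ^ p : ℤ) • x) := by
      rw [smul_smul, ← pow_add, add_comm]
    rw [h1]
    refine (zsmul_norm_le _ _).trans ?_
    push_cast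
    rw [abs_of_pos (by positivity)]
  obtain ⟨N, hN⟩ : ∃ N, ∀ q ∈ Al, N ≤ q → |y q| < (1 / 2) ^ L / 8 := by
    obtain ⟨M, hM⟩ := (hfin ((1 / 2) ^ L / 8) (by positivity)).bddAbove
    refine ⟨M + 1, fun q hq hqM => ?_⟩
    by_contra hcon
    have := hM ⟨hq, not_lt.1 hcon⟩
    omega
  have hsmall : ∀ p, max N n0 + L ≤ p → |y p| ≤ 1 / 8 := by
    intro p hp
    obtain ⟨q, hq1, hq2, hq3⟩ := hL (p - L) (by omega)
    have h1 := hN q hq3 (by omega)
    have h2 := hdouble q (p - q)
    have h3 : q + (p - q) = p := by omega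
    rw [h3] at h2
    have h4 : (2 : ℝ) ^ (p - q) ≤ 2 ^ L := pow_le_pow_right₀ one_le_two (by omega)
    have h5 : (2 : ℝ) ^ L * ((1 / 2) ^ L / 8) = 1 / 8 := by
      rw [← mul_div_assoc, ← mul_pow]
      norm_num
    calc |y p| ≤ 2 ^ (p - q) * |y q| := h2
      _ ≤ 2 ^ L * ((1 / 2) ^ L / 8) := mul_le_mul h4 h1.le (abs_nonneg _) (by positivity)
      _ = 1 / 8 := h5
  -- conclusion
  refine ⟨max N n0 + L, ?_⟩
  refine eq_zero_of_pow_small fun d => ?_
  have h1 := hsmall (max N n0 + L + d) (by omega)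
  rw [hy2] at h1
  have h2 : (2 ^ d : ℤ) • ((2 ^ (max N n0 + L) : ℕ) • x) = (2 ^ (max N n0 + L + d) : ℤ) • x := by
    rw [← natCast_zsmul, smul_smul, Nat.cast_pow, Nat.cast_ofNat, ← pow_add, add_comm d]
  rw [h2]
  exact h1

end Pool.Agent.R821
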