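import Mathlib

/-!
# Small elements of order two in the circle group, and characters of Boolean groups
-/

set_option autoImplicit false

open Filter Topology

namespace Pool.Agent.R821

/-- an element `y` of the circle with `y + y = 0` and norm less than `1/2` is zero -/
theorem circle_eq_zero {y : UnitAddCircle} (h : y + y = 0) (hn : ‖y‖ < 1 / 2) : y = 0 := by
  obtain ⟨r, rfl⟩ := QuotientAddGroup.mk_surjective y
  have h1 : ‖(r : UnitAddCircle)‖ = |r - round r| := UnitAddCircle.norm_eq
  have h2 : ((r - round r : ℝ) : UnitAddCircle) = (r : UnitAddCircle) := by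
    rw [AddCircle.coe_sub]
    have : ((round r : ℝ) : UnitAddCircle) = 0 := by
      rw [AddCircle.coe_eq_zero_iff]
      exact ⟨round r, by simp⟩
    rw [this, sub_zero]
  set q : ℝ := r - round r with hq
  have h3 : |q| < 1 / 2 := by rw [← h1]; exact hn
  have h4 : ((q + q : ℝ) : UnitAddCircle) = 0 := by
    rw [AddCircle.coe_add, h2]; exact h
  rw [AddCircle.coe_eq_zero_iff] at h4
  obtain ⟨n, hn4⟩ := h4
  have h5 : (n : ℝ) = q + q := by simpa using hn4
  have h6 : |(n : ℝ)| < 1 := by
    rw [h5, abs_lt]
    rw [abs_lt] at h3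
    constructor <;> linarith [h3.1, h3.2]
  have h7 : n = 0 := by
    have h8 : |n| < 1 := by exact_mod_cast h6
    exact Int.abs_lt_one_iff.1 h8
  have h9 : q = 0 := by
    rw [h7] at h5
    push_cast at h5
    linarith
  change (r : UnitAddCircle) = 0
  rw [← h2, h9]
  rfl

/-- the open ball of radius `1/2` around zero in the circle is a neighbourhood of zero -/
theorem ball_mem_nhds : {y : UnitAddCircle | ‖y‖ < 1 / 2} ∈ 𝓝 (0 : UnitAddCircle) := by
  have h1 : Continuous fun y : UnitAddCircle => ‖y‖ := continuous_norm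
  have h2 : IsOpen {y : UnitAddCircle | ‖y‖ < 1 / 2} := isOpen_lt h1 continuous_const
  exact h2.mem_nhds (by simp)

end Pool.Agent.R821
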